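import Pool.Agent.Lib.ROB.Blue

set_option maxSynthPendingDepth 3

open scoped TensorProduct

namespace Pool.Agent.Lib.ROB.FLAT2

theorem bianchi {A : Type} [Ring A] (D : Fin 4 → A →+ A)
    (hD : ∀ i x y, D i (x * y) = D i x * y + x * D i y) (hc : ∀ i j x, D i (D j x) = D j (D i x))
    (U : Fin 4 → A) (F : Fin 4 → Fin 4 → A)
    (hF : ∀ i j, F i j = D i (U j) - D j (U i) + (U i * U j - U j * U i)) (i j k : Fin 4) :
    D i (F j k) + D j (F k i) + D k (F i j) =
      -((U i * F j k - F j k * U i) + (U j * F k i - F k i * U j) + (U k * F i j - F i j * U k)) := by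
  simp only [hF, map_add, map_sub, hD]
  rw [hc j i, hc k i, hc k j]
  noncomm_ring

variable {W : Type} [Ring W] [Algebra ℚ W]

noncomputable def curv (V : ℕ → Fin 4 → AA W) (n : ℕ) (i j : Fin 4) : AA W :=
  vv i (V n j) - vv j (V n i) + ∑ p ∈ Finset.HasAntidiagonal.antidiagonal n,
    (V p.1 i * V p.2 j - V p.1 j * V p.2 i)

noncomputable def DS (i : Fin 4) : PowerSeries (AA W) →+ PowerSeries (AA W) where
  toFun f := PowerSeries.mk fun n => vv i (PowerSeries.coeff n f)
  map_zero' := by ext n; simp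
  map_add' f g := by ext n; simp

theorem coeff_DS (i : Fin 4) (f : PowerSeries (AA W)) (n : ℕ) :
    PowerSeries.coeff n (DS i f) = vv i (PowerSeries.coeff n f) := by simp [DS]

theorem bianchi_coeff (V : ℕ → Fin 4 → AA W) (n : ℕ) (i j k : Fin 4) :
    vv i (curv V n j k) + vv j (curv V n k i) + vv k (curv V n i j) =
      -∑ p ∈ Finset.HasAntidiagonal.antidiagonal n,
        ((V p.1 i * curv V p.2 j k - curv V p.2 j k * V p.1 i) +
          (V p.1 j * curv V p.2 k i - curv V p.2 k i * V p.1 j) +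
          (V p.1 k * curv V p.2 i j - curv V p.2 i j * V p.1 k)) := by
  have h := bianchi (A := PowerSeries (AA W)) DS
    (fun i x y => by
      ext n
      simp only [coeff_DS, map_add, PowerSeries.coeff_mul, map_sum, vv_mul,
        Finset.sum_add_distrib])
    (fun i j x => by ext n; simp only [coeff_DS, vv_comm i j])
    (fun i => PowerSeries.mk fun n => V n i) (fun i j => PowerSeries.mk fun n => curv V n i j)
    (fun i j => by
      ext n
      simp only [coeff_DS, map_add, map_sub, PowerSeries.coeff_mul, PowerSeries.coeff_mk, curv,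
        Finset.sum_sub_distrib]) i j k
  have h2 := congrArg (PowerSeries.coeff n) h
  simp only [coeff_DS, map_add, map_sub, map_neg, PowerSeries.coeff_mul, PowerSeries.coeff_mk] at h2
  rw [h2]
  simp only [Finset.sum_add_distrib, Finset.sum_sub_distrib]
  rw [← Finset.Nat.sum_antidiagonal_swap (f := fun p => curv V p.1 j k * V p.2 i),
    ← Finset.Nat.sum_antidiagonal_swap (f := fun p => curv V p.1 k i * V p.2 j),
    ← Finset.Nat.sum_antidiagonal_swap (f := fun p => curv V p.1 i j * V p.2 k)]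
  rfl

def Good (t : Dat W) (c : ℕ) (V : ℕ → Fin 4 → AA W) : Prop :=
  (∀ j, V 0 j = 0) ∧ (∀ n, c < n → ∀ j, V n j = 0) ∧
  (∀ n j, V n j ∈ t.Z0 ∧ V n j ∈ Hom W (4 * (n : ℤ) + 4, (n : ℤ) - 1, 0)) ∧
  (∀ n ≤ c, ∑ j, aa j • V n j - (if n = 1 then uu • (1 : AA W) else 0) ∈ t.B0) ∧
  ∀ n ≤ c, ∀ i j, curv V n i j ∈ t.B0

theorem comm_mem (t : Dat W) {x y : AA W} (hx : x ∈ t.Z0) (hy : y ∈ t.B0) :
    x * y - y * x ∈ t.B0 := sub_mem (t.Z0_mul_B0 hx hy) (t.B0_mul_Z0 hy hx)

theorem step (hK : St_KEY) (t : Dat W) (c : ℕ) (V : ℕ → Fin 4 → AA W) (h : Good t c V) :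
    ∃ V', Good t (c + 1) V' := by
  obtain ⟨h0, h1, h2, h3, h4⟩ := h
  have hV : ∀ j, V (c + 1) j = 0 := h1 _ (Nat.lt_succ_self c)
  have hcurv : ∀ i j, curv V (c + 1) i j = ∑ p ∈ Finset.HasAntidiagonal.antidiagonal (c + 1),
      (V p.1 i * V p.2 j - V p.1 j * V p.2 i) := by
    intro i j
    simp [curv, hV]
  have hg : (if c + 1 = 1 then uu • (1 : AA W) else 0) ∈ t.Z0 ∧
      (if c + 1 = 1 then uu • (1 : AA W) else 0) ∈
        Hom W (4 * ((c + 1 : ℕ) : ℤ) + 8, ((c + 1 : ℕ) : ℤ) - 1, 0) := by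
    split_ifs with hc
    · refine ⟨t.smul_mem_Z0 _ t.one_mem_Z0, Hom_congr (smul_mem_Hom hom_uu one_mem_Hom) ?_⟩
      rw [hc]; rfl
    · exact ⟨zero_mem _, zero_mem _⟩
  obtain ⟨Y, y1, y2, y3⟩ := hK W t (c + 1) (by omega) (fun i j => -curv V (c + 1) i j)
    (if c + 1 = 1 then uu • (1 : AA W) else 0)
    (fun i j => by
      rw [hcurv, hcurv, neg_neg, ← Finset.sum_neg_distrib]
      simp only [neg_sub])
    (fun i j => by
      rw [hcurv]
      refine ⟨neg_mem (Submodule.sum_mem _ fun p _ => sub_mem (t.Z0_mul (h2 _ _).1 (h2 _ _).1)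
        (t.Z0_mul (h2 _ _).1 (h2 _ _).1)), neg_mem (Submodule.sum_mem _ fun p hp => ?_)⟩
      have hp' : (p.1 : ℤ) + p.2 = (c + 1 : ℕ) := by
        exact_mod_cast Finset.HasAntidiagonal.mem_antidiagonal.1 hp
      refine sub_mem (Hom_congr (Hom_mul (h2 _ _).2 (h2 _ _).2) ?_)
        (Hom_congr (Hom_mul (h2 _ _).2 (h2 _ _).2) ?_) <;>
      · rw [← hp']; ext <;> simp <;> ring)
    hg
    (fun i j k => by
      simp only [map_neg, ← neg_add]
      rw [bianchi_coeff, neg_neg]
      refine Submodule.sum_mem _ fun p hp => ?_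
      have hp' := Finset.HasAntidiagonal.mem_antidiagonal.1 hp
      by_cases hp0 : p.1 = 0
      · simp [hp0, h0]
      · have := h4 p.2 (by omega)
        exact add_mem (add_mem (comm_mem t (h2 _ _).1 (this _ _))
          (comm_mem t (h2 _ _).1 (this _ _))) (comm_mem t (h2 _ _).1 (this _ _)))
    (fun j => by
      have e1 : vv j (if c + 1 = 1 then uu • (1 : AA W) else 0) = 0 := by
        split_ifs
        · exact vv_uu_one j
        · exact map_zero _
      have e2 : ∀ i, curv V (c + 1) i j = ∑ p ∈ Finset.HasAntidiagonal.antidiagonal (c + 1),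
          (V p.1 i * V p.2 j - V p.2 j * V p.1 i) := by
        intro i
        rw [hcurv, Finset.sum_sub_distrib, Finset.sum_sub_distrib,
          ← Finset.Nat.sum_antidiagonal_swap (f := fun p => V p.1 j * V p.2 i)]
        rfl
      simp only [e1, add_zero, smul_neg, Finset.sum_neg_distrib, e2, Finset.smul_sum]
      rw [Finset.sum_comm]
      refine neg_mem (Submodule.sum_mem _ fun p hp => ?_)
      have hp' := Finset.HasAntidiagonal.mem_antidiagonal.1 hp
      by_cases hp0 : p.2 = 0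
      · simp [hp0, h0]
      · have := comm_mem t (h2 p.2 j).1 (h3 p.1 (by omega))
        have e3 : ∑ i, aa i • (V p.1 i * V p.2 j - V p.2 j * V p.1 i) =
            -(V p.2 j * (∑ i, aa i • V p.1 i - if p.1 = 1 then uu • (1 : AA W) else 0) -
              (∑ i, aa i • V p.1 i - if p.1 = 1 then uu • (1 : AA W) else 0) * V p.2 j) := by
          simp only [smul_sub, Finset.sum_sub_distrib, mul_sub, sub_mul, Finset.mul_sum,
            Finset.sum_mul, mul_pol_smul, pol_smul_mul]
          split_ifs <;> simp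
        rw [e3]
        exact neg_mem this)
  have hne : ∀ n, n ≠ c + 1 → Function.update V (c + 1) Y n = V n := fun n hn =>
    Function.update_of_ne hn _ _
  have hsum : ∀ n ≤ c + 1, ∀ i j, ∑ p ∈ Finset.HasAntidiagonal.antidiagonal n,
      (Function.update V (c + 1) Y p.1 i * Function.update V (c + 1) Y p.2 j -
        Function.update V (c + 1) Y p.1 j * Function.update V (c + 1) Y p.2 i) =
      ∑ p ∈ Finset.HasAntidiagonal.antidiagonal n, (V p.1 i * V p.2 j - V p.1 j * V p.2 i) := by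
    intro n hn i j
    refine Finset.sum_congr rfl fun p hp => ?_
    have hp' := Finset.HasAntidiagonal.mem_antidiagonal.1 hp
    by_cases a : p.1 = 0
    · rw [hne p.1 (by omega)]; simp [a, h0]
    · by_cases b : p.2 = 0
      · rw [hne p.2 (by omega)]; simp [b, h0]
      · rw [hne p.1 (by omega), hne p.2 (by omega)]
  refine ⟨Function.update V (c + 1) Y, fun j => by rw [hne 0 (by omega), h0],
    fun n hn j => by rw [hne n (by omega), h1 n (by omega)], fun n j => ?_, fun n hn => ?_,
    fun n hn i j => ?_⟩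
  · by_cases a : n = c + 1
    · subst a; rw [Function.update_self]; exact y1 j
    · rw [hne n a]; exact h2 n j
  · by_cases a : n = c + 1
    · subst a; rw [Function.update_self]; exact y3
    · rw [hne n a]; exact h3 n (by omega)
  · rw [curv, hsum n hn]
    by_cases a : n = c + 1
    · subst a
      rw [Function.update_self, ← hcurv, ← sub_neg_eq_add]
      exact y2 i j
    · rw [hne n a]; exact h4 n (by omega) i j

theorem exists_good (hK : St_KEY) (t : Dat W) (c : ℕ) : ∃ V, Good t c V := by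
  induction c with
  | zero =>
    refine ⟨0, fun _ => rfl, fun _ _ _ => rfl, fun _ _ => ⟨zero_mem _, zero_mem _⟩,
      fun n hn => ?_, fun n _ i j => ?_⟩
    · simp [Nat.le_zero.1 hn]
    · simp [curv]
  | succ c ih =>
    obtain ⟨V, hV⟩ := ih
    exact step hK t c V hV

theorem mem_Hi {c k : ℕ} (hk : c ≤ k) {p : ℤ} {x : AA W} (hx : x ∈ Hom W (4 * (k : ℤ), p, 0)) :
    x ∈ Hi W c :=
  Submodule.mem_iSup_of_mem k (Submodule.mem_iSup_of_mem hk (Submodule.mem_iSup_of_mem p hx))

end Pool.Agent.Lib.ROB.FLAT2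

namespace Pool.Agent.Lib.ROB

open FLAT2

theorem stFLAT2 (hK : St_KEY) : St_FLAT := by
  intro W _ _ t c
  obtain ⟨V, h0, h1, h2, h3, h4⟩ := exists_good hK t (c + 1)
  refine ⟨fun j => ∑ n ∈ Finset.range (c + 2), V n j, fun j =>
    ⟨Submodule.sum_mem _ fun n _ => (h2 n j).1, Submodule.sum_mem _ fun n _ =>
      mem_Hi (k := n + 1) (p := (n : ℤ) - 1) (Nat.zero_le _)
        (Hom_congr (h2 n j).2 (by push_cast; ring_nf))⟩, ?_,
    fun i j => ?_⟩
  · have := Submodule.sum_mem t.B0 fun n (hn : n ∈ Finset.range (c + 2)) =>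
      h3 n (by rw [Finset.mem_range] at hn; omega)
    simp only [Finset.sum_sub_distrib, Finset.sum_ite_eq', Finset.mem_range] at this
    rw [if_pos (by omega), Finset.sum_comm] at this
    simpa only [Finset.smul_sum] using this
  · let T : ℕ × ℕ → AA W := fun p => V p.1 i * V p.2 j - V p.1 j * V p.2 i
    let S := Finset.range (c + 2) ×ˢ Finset.range (c + 2)
    have hT : ∀ p, T p ∈ t.Z0 ∧ T p ∈ Hom W (4 * ((p.1 + p.2 + 2 : ℕ) : ℤ), (p.1 : ℤ) + p.2 - 2, 0) := by
      intro p
      refine ⟨sub_mem (t.Z0_mul (h2 _ _).1 (h2 _ _).1) (t.Z0_mul (h2 _ _).1 (h2 _ _).1),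
        sub_mem (Hom_congr (Hom_mul (h2 _ _).2 (h2 _ _).2) ?_)
          (Hom_congr (Hom_mul (h2 _ _).2 (h2 _ _).2) ?_)⟩ <;>
      · ext <;> simp <;> ring
    refine ⟨∑ p ∈ S with ¬ p.1 + p.2 < c + 2, T p, Submodule.sum_mem _ fun p _ => (hT p).1,
      Submodule.sum_mem _ fun p hp => mem_Hi (by
        have := (Finset.mem_filter.1 hp).2
        omega) (hT p).2, ?_⟩
    have := Submodule.sum_mem t.B0 fun n (hn : n ∈ Finset.range (c + 2)) =>
      h4 n (by rw [Finset.mem_range] at hn; omega) i j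
    convert this using 1
    have e1 : ∑ n ∈ Finset.range (c + 2), ∑ p ∈ Finset.HasAntidiagonal.antidiagonal n, T p =
        ∑ p ∈ S with p.1 + p.2 < c + 2, T p := by
      rw [Finset.sum_sigma']
      refine Finset.sum_bij' (fun x _ => x.2) (fun p _ => ⟨p.1 + p.2, p⟩) ?_ ?_ ?_ ?_ ?_
      · rintro ⟨n, p⟩ hx
        simp only [Finset.mem_sigma, Finset.mem_range,
          Finset.HasAntidiagonal.mem_antidiagonal] at hx
        simp only [S, Finset.mem_filter, Finset.mem_product, Finset.mem_range]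
        omega
      · intro p hp
        simp only [Finset.mem_sigma, Finset.mem_range, Finset.HasAntidiagonal.mem_antidiagonal]
        exact ⟨(Finset.mem_filter.1 hp).2, trivial⟩
      · rintro ⟨n, p⟩ hx
        simp only [Finset.mem_sigma, Finset.HasAntidiagonal.mem_antidiagonal] at hx
        simp [hx.2]
      · intro p _; rfl
      · intro x _; rfl
    have e2 : (∑ n ∈ Finset.range (c + 2), V n i) * (∑ n ∈ Finset.range (c + 2), V n j) -
        (∑ n ∈ Finset.range (c + 2), V n j) * (∑ n ∈ Finset.range (c + 2), V n i) =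
        ∑ p ∈ S, T p := by
      simp only [T, S, Finset.sum_sub_distrib, Finset.sum_product, Finset.sum_mul_sum]
    simp only [curv, Finset.sum_add_distrib, Finset.sum_sub_distrib, map_sum]
    rw [e2, ← Finset.sum_filter_add_sum_filter_not S (fun p => p.1 + p.2 < c + 2), ← e1]
    simp only [T, Finset.sum_sub_distrib]
    abel

end Pool.Agent.Lib.ROB
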