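import Mathlib

/-! Abstract operator lemmas used for the null-homotopy of `a ^ n`. -/

namespace Pool.Agent.Lib.ROB.HM

section Gen

variable {M : Type} [AddCommGroup M] [Module ℚ M]

/-- `∏ q < m, (Q - q A)` -/
def prQ (Q A : Module.End ℚ M) : ℕ → Module.End ℚ M
  | 0 => 1
  | m + 1 => (Q - (m : ℚ) • A) * prQ Q A m

/-- iterated normal ordered power -/
def tT {ι : Type} [Fintype ι] (K d : ι → Module.End ℚ M) : ℕ → Module.End ℚ M
  | 0 => 1
  | m + 1 => ∑ b, K b * tT K d m * d b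

theorem Q_tT {ι : Type} [Fintype ι] (K d : ι → Module.End ℚ M) (A : Module.End ℚ M)
    (hQ : ∀ b, (∑ c, K c * d c) * K b = K b * (∑ c, K c * d c) + A * K b)
    (hA : ∀ b, A * K b = K b * A) (m : ℕ) :
    (∑ c, K c * d c) * tT K d m = tT K d (m + 1) + (m : ℚ) • (A * tT K d m) := by
  induction m with
  | zero => simp [tT]
  | succ m ih =>
    have h1 : ∀ b, (∑ c, K c * d c) * (K b * tT K d m * d b) =
        K b * tT K d (m + 1) * d b + ((m : ℚ) + 1) • (A * (K b * tT K d m * d b)) := by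
      intro b
      rw [← mul_assoc, ← mul_assoc, hQ, add_mul, mul_assoc (K b), ih, mul_add, mul_smul_comm,
        ← mul_assoc (K b) A, ← hA, add_mul, add_mul, smul_mul_assoc, add_smul, one_smul]
      simp only [mul_assoc]
      abel
    rw [show tT K d (m + 1 + 1) = ∑ b, K b * tT K d (m + 1) * d b from rfl]
    conv_lhs => rw [show tT K d (m + 1) = ∑ b, K b * tT K d m * d b from rfl]
    rw [Finset.mul_sum, Finset.sum_congr rfl fun b _ => h1 b, Finset.sum_add_distrib,
      ← Finset.smul_sum, ← Finset.mul_sum]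
    push_cast
    rfl

theorem prQ_eq {ι : Type} [Fintype ι] (K d : ι → Module.End ℚ M) (A : Module.End ℚ M)
    (hQ : ∀ b, (∑ c, K c * d c) * K b = K b * (∑ c, K c * d c) + A * K b)
    (hA : ∀ b, A * K b = K b * A) (m : ℕ) : prQ (∑ c, K c * d c) A m = tT K d m := by
  induction m with
  | zero => rfl
  | succ m ih => rw [prQ, ih, sub_mul, Q_tT K d A hQ hA, smul_mul_assoc, add_sub_cancel_right]

theorem tT_low {ι : Type} [Fintype ι] (K d : ι → Module.End ℚ M) (S : ℤ → Submodule ℚ M)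
    (hd : ∀ b p x, x ∈ S p → d b x ∈ S (p - 1)) (hneg : ∀ p x, p < 0 → x ∈ S p → x = 0)
    (m : ℕ) : ∀ (p : ℤ) x, p < m → x ∈ S p → tT K d m x = 0 := by
  induction m with
  | zero => intro p x hp hx; rw [hneg p x (by simpa using hp) hx, map_zero]
  | succ m ih =>
    intro p x hp hx
    rw [tT, LinearMap.sum_apply]
    refine Finset.sum_eq_zero fun b _ => ?_
    rw [Module.End.mul_apply, Module.End.mul_apply, ih (p - 1) _ (by push_cast at hp; omega)
      (hd b p x hx), map_zero]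

theorem tT_top {ι : Type} [Fintype ι] (K Z d : ι → Module.End ℚ M) (τ : Module.End ℚ M)
    (S : ℤ → Submodule ℚ M) (hd : ∀ b p x, x ∈ S p → d b x ∈ S (p - 1))
    (hE : ∀ p x, x ∈ S p → ∑ b, Z b (d b x) = p • x) (hτ : ∀ b y, τ (Z b y) = K b (τ y))
    (h0 : ∀ x ∈ S 0, τ x = x) (m : ℕ) :
    ∀ x ∈ S m, tT K d m x = (m.factorial : ℚ) • τ x := by
  induction m with
  | zero => intro x hx; simp [tT, h0 x hx]
  | succ m ih =>
    intro x hx
    have h1 : ∀ b, (K b * tT K d m * d b) x = (m.factorial : ℚ) • τ (Z b (d b x)) := by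
      intro b
      have := hd b _ x hx
      rw [Module.End.mul_apply, Module.End.mul_apply, ih _ (by simpa using this), map_smul, hτ]
    rw [tT, LinearMap.sum_apply, Finset.sum_congr rfl fun b _ => h1 b, ← Finset.smul_sum,
      ← map_sum, hE _ x hx, map_zsmul, Nat.factorial_succ, natCast_zsmul, ← Nat.cast_smul_eq_nsmul ℚ,
      smul_smul]
    push_cast
    rw [mul_comm]

/-- `∏ q < m, ((n - q) A - N)` -/
def prN (n : ℕ) (A N : Module.End ℚ M) : ℕ → Module.End ℚ M
  | 0 => 1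
  | m + 1 => (((n : ℚ) - m) • A - N) * prN n A N m

/-- the cofactor of `N` in `prN` -/
def gN (n : ℕ) (A N : Module.End ℚ M) : ℕ → Module.End ℚ M
  | 0 => 0
  | m + 1 => (((n : ℚ) - m) • A - N) * gN n A N m + (∏ q ∈ Finset.range m, ((n : ℚ) - q)) • A ^ m

theorem prN_eq (n : ℕ) {A N : Module.End ℚ M} (h : N * A = A * N) (m : ℕ) :
    prN n A N m = (∏ q ∈ Finset.range m, ((n : ℚ) - q)) • A ^ m - gN n A N m * N := by
  induction m with
  | zero => simp [prN, gN]
  | succ m ih =>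
    have h1 : N * A ^ m = A ^ m * N := (Commute.pow_right h m).eq
    rw [prN, ih, gN, Finset.prod_range_succ, mul_sub, add_mul, sub_mul _ N (_ • _), mul_smul_comm,
      mul_smul_comm, h1, smul_mul_assoc, smul_mul_assoc, smul_smul, pow_succ', mul_assoc]
    abel

theorem gN_comm (n : ℕ) {A N X : Module.End ℚ M} (hA : X * A = A * X) (hN : X * N = N * X)
    (m : ℕ) : X * gN n A N m = gN n A N m * X := by
  have hA' : Commute X A := hA
  have hN' : Commute X N := hN
  change Commute X _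
  induction m with
  | zero => exact Commute.zero_right _
  | succ m ih =>
    exact (((hA'.smul_right _).sub_right hN').mul_right ih).add_right
      ((hA'.pow_right m).smul_right _)

theorem prod_fact (n : ℕ) : ∏ q ∈ Finset.range n, ((n : ℚ) - q) = n.factorial := by
  rw [← Finset.prod_range_add_one_eq_factorial, ← Finset.prod_range_reflect]
  push_cast
  refine Finset.prod_congr rfl fun q hq => ?_
  have := Finset.mem_range.1 hq
  rw [Nat.cast_sub (by omega), Nat.cast_sub (by omega)]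
  push_cast
  ring

theorem pow_mem_deg {A : Module.End ℚ M} (F : ℤ → Submodule ℚ M)
    (hA : ∀ e x, x ∈ F e → A x ∈ F (e + 4)) (m : ℕ) :
    ∀ e x, x ∈ F e → (A ^ m) x ∈ F (e + 4 * m) := by
  induction m with
  | zero => intro e x hx; simpa using hx
  | succ m ih =>
    intro e x hx
    rw [pow_succ', Module.End.mul_apply]
    convert hA _ _ (ih e x hx) using 2
    push_cast; ring

theorem gN_mem (n : ℕ) {A N : Module.End ℚ M} (F : ℤ → Submodule ℚ M)
    (hA : ∀ e x, x ∈ F e → A x ∈ F (e + 4)) (hN : ∀ e x, x ∈ F e → N x ∈ F (e + 4)) (m : ℕ) :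
    ∀ e x, x ∈ F e → gN n A N m x ∈ F (e + 4 * m - 4) := by
  induction m with
  | zero => intro e x _; simp [gN]
  | succ m ih =>
    intro e x hx
    have e1 : e + 4 * ((m + 1 : ℕ) : ℤ) - 4 = e + 4 * m - 4 + 4 := by push_cast; ring
    have e2 : e + 4 * ((m + 1 : ℕ) : ℤ) - 4 = e + 4 * m := by push_cast; ring
    rw [gN, LinearMap.add_apply, Module.End.mul_apply, LinearMap.sub_apply, LinearMap.smul_apply,
      LinearMap.smul_apply]
    refine add_mem ?_ (Submodule.smul_mem _ _ (e2 ▸ pow_mem_deg F hA m e x hx))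
    rw [e1]
    exact sub_mem (Submodule.smul_mem _ _ (hA _ _ (ih e x hx))) (hN _ _ (ih e x hx))

theorem prN_eq_prQ (n : ℕ) {A N Q : Module.End ℚ M} (F : ℤ → Submodule ℚ M)
    (hA : ∀ e x, x ∈ F e → A x ∈ F (e + 4)) (hN : ∀ e x, x ∈ F e → N x ∈ F (e + 4))
    (hQ : ∀ e x, x ∈ F e → N x = (n : ℚ) • A x - Q x) (m : ℕ) :
    ∀ e x, x ∈ F e → prN n A N m x = prQ Q A m x ∧ prN n A N m x ∈ F (e + 4 * m) := by
  induction m with
  | zero => intro e x hx; exact ⟨rfl, by simpa [prN] using hx⟩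
  | succ m ih =>
    intro e x hx
    obtain ⟨h1, h2⟩ := ih e x hx
    have e1 : e + 4 * ((m + 1 : ℕ) : ℤ) = e + 4 * m + 4 := by push_cast; ring
    simp only [prN, prQ, Module.End.mul_apply, LinearMap.sub_apply, LinearMap.smul_apply]
    refine ⟨?_, ?_⟩
    · rw [hQ _ _ h2, h1]; module
    · rw [e1]
      exact sub_mem (Submodule.smul_mem _ _ (hA _ _ h2)) (hN _ _ h2)

/-- the combined formula: on elements of weight `n`, `n! A^n = G N + ∏ (Q - q A)`. -/
theorem fact_pow (n : ℕ) {A N Q : Module.End ℚ M} (h : N * A = A * N) (F : ℤ → Submodule ℚ M)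
    (hA : ∀ e x, x ∈ F e → A x ∈ F (e + 4)) (hN : ∀ e x, x ∈ F e → N x ∈ F (e + 4))
    (hQ : ∀ e x, x ∈ F e → N x = (n : ℚ) • A x - Q x) {e : ℤ} {x : M} (hx : x ∈ F e) :
    gN n A N n (N x) + prQ Q A n x = (n.factorial : ℚ) • (A ^ n) x := by
  rw [← (prN_eq_prQ n F hA hN hQ n e x hx).1, prN_eq n h, prod_fact]
  simp

end Gen

end Pool.Agent.Lib.ROB.HM
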