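import Pool.Agent.Lib.ROB.Homot
import Pool.Agent.Lib.ROB.HomGen

/-! `dd` is a differential, and `a i ^ n` is null-homotopic on the weight `n` complex. -/

namespace Pool.Agent.Lib.ROB.HM

variable {W : Type} [Ring W] [Algebra ℚ W]

theorem mem_LF {n : ℕ} {k e : ℤ} {f : FI → AA W} :
    f ∈ LF W n k e ↔ ∀ q, f q ∈ Hom W (wdF n e q) ∧ (cdF q ≠ k → f q = 0) := Iff.rfl

theorem mem_LL {n : ℕ} {k e : ℤ} {f : Idx → AA W} :
    f ∈ LL W n k e ↔ ∀ q, f q ∈ Hom W (wd n e q) ∧ (cd q ≠ k → f q = 0) := Iff.rfl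

theorem zsmul_mem_Hom {d : Dg} (c : ℤ) {x : AA W} (hx : x ∈ Hom W d) : c • x ∈ Hom W d :=
  zsmul_mem hx c

theorem dA_mem {n : ℕ} {k e : ℤ} {f : FI → AA W} (hf : f ∈ LF W n k e) :
    dA W f ∈ LF W n (k + 1) e := by
  rw [dA, LinearMap.sum_apply]
  refine Submodule.sum_mem _ fun m _ => mem_LF.2 fun q => ?_
  obtain ⟨I, j⟩ := q
  rw [Module.End.mul_apply, xi_apply]
  by_cases h : m ∈ I
  · have hc := Finset.card_erase_add_one h
    obtain ⟨h1, h2⟩ := hf (I.erase m, j)
    simp only [h, if_true, pw_apply]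
    refine ⟨zsmul_mem_Hom _ (Hom_congr (vv_mem m h1) ?_), fun hk => ?_⟩
    · simp only [wdF, cdF, ← hc]
      ext <;> simp <;> ring
    · rw [h2, map_zero, smul_zero]
      intro h3
      apply hk
      simp only [cdF, ← hc] at h3 ⊢
      push_cast
      omega
  · simp [h]

theorem zeiA_mem {n : ℕ} {k e : ℤ} {f : FI → AA W} (hf : f ∈ LF W n k e) :
    ze (iA W f) ∈ LF W n (k + 1) e := by
  rw [iA, LinearMap.sum_apply, map_sum]
  refine Submodule.sum_mem _ fun m _ => mem_LF.2 fun q => ?_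
  obtain ⟨I, j⟩ := q
  rw [ze_apply, Module.End.mul_apply, io_apply]
  rcases j with _ | j
  · simp
  by_cases h : m ∈ I
  · simp [h]
  · have hc := Finset.card_insert_of_notMem h
    obtain ⟨h1, h2⟩ := hf (insert m I, j)
    simp only [h, if_false, pw_apply, mm_apply, Nat.add_sub_cancel, Nat.succ_ne_zero]
    refine ⟨zsmul_mem_Hom _ (Hom_congr (aa_smul_mem m h1) ?_), fun hk => ?_⟩
    · simp only [wdF, cdF, hc]
      ext <;> simp <;> ring
    · rw [h2, smul_zero, smul_zero]
      intro h3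
      apply hk
      simp only [cdF, hc] at h3 ⊢
      push_cast at h3 ⊢
      omega

theorem dF_mem {n : ℕ} {k e : ℤ} {f : FI → AA W} (hf : f ∈ LF W n k e) :
    dF f ∈ LF W n (k + 1) e := by
  rw [dF_eq]
  exact add_mem (dA_mem hf) (zeiA_mem hf)

theorem iP_mem (i : Fin 4) {n : ℕ} {k e : ℤ} {f : FI → AA W} (hf : f ∈ LF W n k e) :
    iP W i f ∈ LF W n (k - 1) (e + 4) := by
  rw [iP, LinearMap.sum_apply]
  refine Submodule.sum_mem _ fun m _ => mem_LF.2 fun q => ?_
  obtain ⟨I, j⟩ := q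
  rw [Module.End.mul_apply, io_apply]
  by_cases h : m ∈ I
  · simp [h]
  · have hc := Finset.card_insert_of_notMem h
    obtain ⟨h1, h2⟩ := hf (insert m I, j)
    simp only [h, if_false, pw_apply, mm_apply]
    refine ⟨zsmul_mem_Hom _ (Hom_congr (smul_mem_Hom (hom_PP m i) h1) ?_), fun hk => ?_⟩
    · simp only [wdF, cdF, hc]
      ext <;> simp <;> ring
    · rw [h2, smul_zero, smul_zero]
      intro h3
      apply hk
      simp only [cdF, hc] at h3 ⊢
      push_cast at h3 ⊢
      omega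

theorem xidz_mem (i : Fin 4) {n : ℕ} {k e : ℤ} {f : FI → AA W} (hf : f ∈ LF W n k e) :
    xi i (dz f) ∈ LF W n (k - 1) (e + 4) := by
  refine mem_LF.2 fun q => ?_
  obtain ⟨I, j⟩ := q
  rw [xi_apply]
  by_cases h : i ∈ I
  · have hc := Finset.card_erase_add_one h
    obtain ⟨h1, h2⟩ := hf (I.erase i, j + 1)
    simp only [h, if_true, dz_apply]
    refine ⟨zsmul_mem_Hom _ (nsmul_mem (Hom_congr h1 ?_) _), fun hk => ?_⟩
    · simp only [wdF, cdF, ← hc]
      ext <;> simp <;> ring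
    · rw [h2, smul_zero, smul_zero]
      intro h3
      apply hk
      simp only [cdF, ← hc] at h3 ⊢
      push_cast at h3 ⊢
      omega
  · simp [h]

theorem HF_mem (i : Fin 4) {n : ℕ} {k e : ℤ} {f : FI → AA W} (hf : f ∈ LF W n k e) :
    HF i f ∈ LF W n (k - 1) (e + 4) := by
  rw [HF_eq]
  exact add_mem (iP_mem i hf) (xidz_mem i hf)

theorem pwa_mem (i : Fin 4) {n : ℕ} {k e : ℤ} {f : FI → AA W} (hf : f ∈ LF W n k e) :
    pw FI (mm (aa i)) f ∈ LF W n k (e + 4) := by
  refine mem_LF.2 fun q => ?_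
  obtain ⟨h1, h2⟩ := hf q
  simp only [pw_apply, mm_apply]
  refine ⟨Hom_congr (aa_smul_mem i h1) ?_, fun hk => by rw [h2 hk, smul_zero]⟩
  simp only [wdF]
  ext <;> simp
  ring

theorem pw_dF {Θ : Module.End ℚ (AA W)} (h : Comm Θ) : pw FI Θ * dF = dF * pw FI Θ := by
  have h1 : Commute (pw FI Θ) (dA W) :=
    Commute.sum_right _ _ _ fun m _ => Commute.mul_right (pw_xi Θ m)
      (show pw FI Θ * pw FI (vv m) = pw FI (vv m) * pw FI Θ by rw [← pw_mul, h.vv, pw_mul])
  have h2 : Commute (pw FI Θ) (iA W) :=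
    Commute.sum_right _ _ _ fun m _ => Commute.mul_right (pw_io Θ m)
      (show pw FI Θ * pw FI (mm _) = pw FI (mm _) * pw FI Θ by rw [← pw_mul, h.1, pw_mul])
  rw [dF_eq]
  exact h1.add_right (Commute.mul_right (pw_ze Θ) h2)

theorem pw_HF (i : Fin 4) {Θ : Module.End ℚ (AA W)} (h : Comm Θ) :
    pw FI Θ * HF i = HF i * pw FI Θ := by
  have h2 : Commute (pw FI Θ) (iP W i) :=
    Commute.sum_right _ _ _ fun m _ => Commute.mul_right (pw_io Θ m)
      (show pw FI Θ * pw FI (mm _) = pw FI (mm _) * pw FI Θ by rw [← pw_mul, h.1, pw_mul])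
  rw [HF_eq]
  exact h2.add_right (Commute.mul_right (pw_xi Θ i) (pw_dz Θ))

theorem dF_vac (f : FI → AA W) : dF f vac = 0 := by
  rw [dF_eq]
  simp [dA, vac, LinearMap.sum_apply, Finset.sum_apply, xi_apply, ze_apply]

theorem io_single (m : Fin 4) (y : AA W) : io m (Pi.single vac y : FI → AA W) = 0 := by
  funext q
  rw [io_apply]
  split_ifs
  · rfl
  · rw [Pi.single_eq_of_ne (by simp [vac])]; simp

theorem dz_single (y : AA W) : dz (Pi.single vac y : FI → AA W) = 0 := by
  funext q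
  rw [dz_apply, Pi.single_eq_of_ne (by simp [vac])]; simp

theorem pw_single (Θ : Module.End ℚ (AA W)) (y : AA W) :
    pw FI Θ (Pi.single vac y : FI → AA W) = Pi.single vac (Θ y) := by
  funext q
  by_cases h : q = vac
  · subst h; simp
  · simp [Pi.single_eq_of_ne h]

theorem HF_single (i : Fin 4) (y : AA W) : HF i (Pi.single vac y : FI → AA W) = 0 := by
  rw [HF_eq]
  simp [iP, LinearMap.sum_apply, pw_single, io_single, dz_single]

theorem dF_single (y : AA W) : dF (Pi.single vac (ph y) : FI → AA W) = 0 := by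
  rw [dF_eq]
  simp [dA, iA, LinearMap.sum_apply, pw_single, io_single, vv_ph]

theorem dd_inl (f : Idx → AA W) :
    dd f ∘ Sum.inl = dF (f ∘ Sum.inl) + Pi.single vac (ph (f (Sum.inr false))) := rfl

theorem dd_inl' (f : Idx → AA W) (q : FI) :
    dd f (Sum.inl q) = dF (f ∘ Sum.inl) q +
      (Pi.single vac (ph (f (Sum.inr false))) : FI → AA W) q := rfl

theorem dd_false (f : Idx → AA W) : dd f (Sum.inr false) = ell • f (Sum.inr true) :=
  mm_apply _ _

theorem dd_true (f : Idx → AA W) : dd f (Sum.inr true) = 0 := rfl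

theorem ph_ell_smul (x : AA W) : ph (ell • x) = 0 := by rw [ph_smul, phi_ell, zero_smul]

theorem dd_dd : (dd * dd : Module.End ℚ (Idx → AA W)) = 0 := by
  refine LinearMap.ext fun f => funext fun q => ?_
  rw [Module.End.mul_apply]
  rcases q with q | b
  · rw [dd_inl', dd_inl, dd_false, ph_ell_smul, map_add, dF_single, ← Module.End.mul_apply, dF_dF]
    simp
  · cases b
    · rw [dd_false, dd_true]; simp
    · rfl

theorem res_mem {n : ℕ} {k e : ℤ} {f : Idx → AA W} (hf : f ∈ LL W n k e) :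
    f ∘ Sum.inl ∈ LF W n k e := fun q => hf (Sum.inl q)

theorem wdF_vac (n : ℕ) (e : ℤ) : wdF n e vac = (e + 4 * n, (n : ℤ), 0) := by
  simp [wdF, cdF, vac]

theorem cdF_vac : cdF vac = 0 := by simp [cdF, vac]

theorem dd_mem {n : ℕ} {k e : ℤ} {f : Idx → AA W} (hf : f ∈ LL W n k e) :
    dd f ∈ LL W n (k + 1) e := by
  refine mem_LL.2 fun q => ?_
  rcases q with q | b
  · obtain ⟨h1, h2⟩ := dF_mem (res_mem hf) q
    obtain ⟨h3, h4⟩ := hf (Sum.inr false)
    rw [dd_inl']
    by_cases hq : q = vac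
    · subst hq
      rw [Pi.single_eq_same]
      refine ⟨add_mem h1 ?_, fun hk => ?_⟩
      · change _ ∈ Hom W (wdF n e vac)
        rw [wdF_vac]
        exact ph_mem h3
      · rw [h2 hk, h4, map_zero, add_zero]
        intro h5
        apply hk
        change cdF vac = _
        change (-1 : ℤ) = k at h5
        rw [cdF_vac]
        omega
    · rw [Pi.single_eq_of_ne hq, add_zero]
      exact ⟨h1, h2⟩
  · cases b
    · obtain ⟨h3, h4⟩ := hf (Sum.inr true)
      rw [dd_false]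
      refine ⟨Hom_congr (smul_mem_Hom hom_ell h3) ?_, fun hk => ?_⟩
      · simp [wd]
      · rw [h4, smul_zero]
        intro h5
        apply hk
        change (-2 : ℤ) = k at h5
        change (-1 : ℤ) = _
        omega
    · rw [dd_true]
      exact ⟨zero_mem _, fun _ => rfl⟩

theorem pw_dd {Θ : Module.End ℚ (AA W)} (h : Comm Θ) : pw Idx Θ * dd = dd * pw Idx Θ := by
  refine LinearMap.ext fun f => funext fun q => ?_
  rw [Module.End.mul_apply, Module.End.mul_apply, pw_apply]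
  rcases q with q | b
  · have h1 := congrFun (LinearMap.congr_fun (pw_dF h) (f ∘ Sum.inl)) q
    have h2 := LinearMap.congr_fun h.2.2.2.1 (f (Sum.inr false))
    have h3 := congrFun (pw_single Θ (ph (f (Sum.inr false)))) q
    rw [Module.End.mul_apply, Module.End.mul_apply] at h1 h2
    rw [pw_apply] at h1 h3
    rw [dd_inl', dd_inl', map_add, h1, h3, h2]
    rfl
  · cases b
    · rw [dd_false, dd_false, h.smul_apply]; rfl
    · rw [dd_true, dd_true, map_zero]

theorem dsq (W : Type) [Ring W] [Algebra ℚ W] : (dd * dd : Module.End ℚ (Idx → AA W)) = 0 ∧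
    (∀ (n : ℕ) (k e : ℤ) (f : Idx → AA W), f ∈ LL W n k e → dd f ∈ LL W n (k + 1) e) ∧
    ∀ Θ : Module.End ℚ (AA W), Comm Θ → pw Idx Θ * dd = dd * pw Idx Θ :=
  ⟨dd_dd, fun _ _ _ _ => dd_mem, fun _ => pw_dd⟩

/-! ### the products `∏ (Q - q a)` -/

theorem der_Q {ι : Type} [Fintype ι] (D : ι → Derivation ℚ Pol Pol) (k : ι → Pol) (a : Pol)
    (h : ∀ b, ∑ c, k c * D c (k b) = a * k b) (b : ι) :
    ((∑ c, mm (k c) * rT (D c).toLinearMap) * mm (k b) : Module.End ℚ (AA W)) =
      mm (k b) * (∑ c, mm (k c) * rT (D c).toLinearMap) + mm a * mm (k b) := by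
  refine LinearMap.ext fun x => ?_
  simp only [Module.End.mul_apply, LinearMap.sum_apply, LinearMap.add_apply, mm_apply, der_smul,
    smul_add, Finset.sum_add_distrib, smul_smul, Finset.smul_sum]
  rw [← Finset.sum_smul, h, add_comm]
  simp only [mul_comm]

theorem prQ_P (i : Fin 4) (m : ℕ) : prQ (QQ i : Module.End ℚ (AA W)) (mm (aa i)) m =
    tT (fun α => mm (phi (psiP i α))) dP m :=
  prQ_eq _ _ _ (der_Q dPd _ _ (QQ_coeff i)) (fun _ => mm_comm _ _) m

theorem prQ_P_low (i : Fin 4) (m : ℕ) {e p : ℤ} (hp : p < m) {x : AA W}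
    (hx : x ∈ Hom W (e, p, 0)) : prQ (QQ i) (mm (aa i)) m x = 0 := by
  rw [prQ_P]
  refine tT_low _ _ (fun p => Hom W (e, p, 0)) (fun b p x hx => ?_) (fun p x hp hx => ?_) m p x
    hp hx
  · exact Hom_congr (dP_mem b hx) (by simp)
  · exact eq_zero_of_neg (Or.inr (Or.inl hp)) hx

theorem prQ_P_top (i : Fin 4) (m : ℕ) {e : ℤ} {x : AA W} (hx : x ∈ Hom W (e, (m : ℤ), 0)) :
    prQ (QQ i) (mm (aa i)) m x = (m.factorial : ℚ) • ph (ps i x) := by
  rw [prQ_P]
  refine tT_top _ (fun α => mm (pp α)) _ (ph * ps i) (fun p => Hom W (e, p, 0))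
    (fun b p x hx => ?_) (fun p x hx => ?_) (fun b y => ?_) (fun x hx => ?_) m x hx
  · exact Hom_congr (dP_mem b hx) (by simp)
  · simpa using euler_P hx
  · simp [ph_smul, ps_smul, psi_pp]
  · rw [Module.End.mul_apply, ps_fix i hx, ph_fix hx]

/-- the analogue of `QQ` on the `κ` side -/
noncomputable def QK (W : Type) [Ring W] [Algebra ℚ W] (i : Fin 4) : Module.End ℚ (AA W) :=
  ∑ m, mm (psi i (kap m)) * dK m

theorem prQ_K_top (i : Fin 4) (m : ℕ) {e : ℤ} {x : AA W} (hx : x ∈ Hom W (e, 0, (m : ℤ))) :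
    prQ (QK W i) (mm (aa i)) m x = (m.factorial : ℚ) • ps i (ph x) := by
  have : prQ (QK W i) (mm (aa i)) m = tT (fun l => mm (psi i (kap l))) dK m :=
    prQ_eq _ _ _ (der_Q dKd _ _ (QK_coeff i)) (fun _ => mm_comm _ _) m
  rw [this]
  refine tT_top _ (fun α => mm (kk α)) _ (ps i * ph) (fun p => Hom W (e, 0, p))
    (fun b p x hx => ?_) (fun p x hx => ?_) (fun b y => ?_) (fun x hx => ?_) m x hx
  · exact Hom_congr (dK_mem b hx) (by simp)
  · simpa using euler_K hx
  · simp [ph_smul, ps_smul, phi_kk]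
  · rw [Module.End.mul_apply, ph_fix hx, ps_fix i hx]

theorem QK_apply (i : Fin 4) {e n : ℤ} {x : AA W} (hx : x ∈ Hom W (e, 0, n)) :
    QK W i x = n • aa i • x - ell • dK i x := by
  have h := euler_K hx
  simp only at h
  have hs : ∀ (f g : Pol) (y : AA W), (f - g) • y = f • y - g • y := fun f g y => sub_smul f g y
  simp only [QK, LinearMap.sum_apply, Module.End.mul_apply, mm_apply, psi_kap, hs,
    Finset.sum_sub_distrib, mul_smul, ← Finset.smul_sum, h, ite_smul, zero_smul,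
    Finset.sum_ite_eq', Finset.mem_univ, if_true, smul_comm n]

/-- the homotopy on the `κ` side -/
noncomputable def hK (W : Type) [Ring W] [Algebra ℚ W] (n : ℕ) (i : Fin 4) :
    Module.End ℚ (AA W) :=
  (n.factorial : ℚ)⁻¹ • (dK i * gN n (mm (aa i)) (mm ell * dK i) n)

theorem NK_mem (i : Fin 4) (n e : ℤ) (x : AA W) (hx : x ∈ Hom W (e, 0, n)) :
    (mm ell * dK i : Module.End ℚ (AA W)) x ∈ Hom W (e + 4, 0, n) := by
  rw [Module.End.mul_apply, mm_apply]
  exact Hom_congr (smul_mem_Hom hom_ell (dK_mem i hx)) (by simp [add_comm])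

theorem AK_mem (i : Fin 4) (n e : ℤ) (x : AA W) (hx : x ∈ Hom W (e, 0, n)) :
    (mm (aa i) : Module.End ℚ (AA W)) x ∈ Hom W (e + 4, 0, n) := by
  rw [mm_apply]
  exact Hom_congr (aa_smul_mem i hx) (by simp)

theorem NK_comm {Θ : Module.End ℚ (AA W)} (h : Comm Θ) (i : Fin 4) :
    Θ * (mm ell * dK i) = mm ell * dK i * Θ :=
  Commute.mul_right (h.1 ell) (h.2.2.1 i)

theorem hK_mem (n : ℕ) (i : Fin 4) {e : ℤ} {x : AA W} (hx : x ∈ Hom W (e, 0, (n : ℤ))) :
    hK W n i x ∈ Hom W (e + 4 * n - 4, 0, (n : ℤ) - 1) := by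
  refine Submodule.smul_mem _ _ ?_
  have := gN_mem n (fun e => Hom W (e, 0, (n : ℤ))) (AK_mem i n) (NK_mem i n) n e x hx
  exact Hom_congr (dK_mem i this) (by simp)

theorem ell_hK (n : ℕ) (i : Fin 4) {e : ℤ} {x : AA W} (hx : x ∈ Hom W (e, 0, (n : ℤ))) :
    ell • hK W n i x + ps i (ph x) = aa i ^ n • x := by
  have hc : (mm ell * dK i : Module.End ℚ (AA W)) * mm (aa i) = mm (aa i) * (mm ell * dK i) :=
    (NK_comm (comm_aa i) i).symm
  have h1 := fact_pow n (Q := QK W i) hc (fun e => Hom W (e, 0, (n : ℤ))) (AK_mem i n) (NK_mem i n)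
    (fun e x hx => by
      rw [QK_apply i hx, Module.End.mul_apply, mm_apply, mm_apply, natCast_zsmul,
        Nat.cast_smul_eq_nsmul, sub_sub_cancel]) hx
  have h2 := LinearMap.congr_fun (gN_comm n hc rfl n) x
  rw [Module.End.mul_apply, Module.End.mul_apply, Module.End.mul_apply, mm_apply] at h2
  rw [← h2, prQ_K_top i n hx, ← mm_pow, mm_apply] at h1
  have h0 : (n.factorial : ℚ) ≠ 0 := by positivity
  rw [hK, LinearMap.smul_apply, Module.End.mul_apply, smul_comm ell,
    ← inv_smul_smul₀ h0 (aa i ^ n • x), ← h1, smul_add, inv_smul_smul₀ h0]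

theorem hK_ell (n : ℕ) (i : Fin 4) {e : ℤ} {x : AA W} (hx : x ∈ Hom W (e - 4, 0, (n : ℤ) - 1)) :
    hK W n i (ell • x) = aa i ^ n • x := by
  have h1 := ell_hK n i (e := e) (x := ell • x) (Hom_congr (smul_mem_Hom hom_ell hx) (by simp))
  have hs : ∀ (f : Pol) (y z : AA W), f • (y - z) = f • y - f • z := fun f y z => smul_sub f y z
  rw [ph_ell_smul, map_zero, add_zero, smul_comm, ← sub_eq_zero, ← hs] at h1
  exact sub_eq_zero.1 (smul_eq_zero_pol ell_ne_zero h1)

theorem hK_comm {Θ : Module.End ℚ (AA W)} (h : Comm Θ) (n : ℕ) (i : Fin 4) :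
    Θ * hK W n i = hK W n i * Θ :=
  Commute.smul_right (Commute.mul_right (h.2.2.1 i) (gN_comm n (h.1 _) (NK_comm h i) n)) _

/-- `dF HF + HF dF` -/
noncomputable def NF (W : Type) [Ring W] [Algebra ℚ W] (i : Fin 4) : Module.End ℚ (FI → AA W) :=
  dF * HF i + HF i * dF

/-- the homotopy on the Fock part -/
noncomputable def hF (W : Type) [Ring W] [Algebra ℚ W] (n : ℕ) (i : Fin 4) :
    Module.End ℚ (FI → AA W) :=
  (n.factorial : ℚ)⁻¹ • (gN n (pw FI (mm (aa i))) (NF W i) n * HF i)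

theorem NF_mem (i : Fin 4) (n : ℕ) (k e : ℤ) (f : FI → AA W) (hf : f ∈ LF W n k e) :
    NF W i f ∈ LF W n k (e + 4) := by
  have h1 := dF_mem (HF_mem i hf)
  have h2 := HF_mem i (dF_mem hf)
  rw [sub_add_cancel] at h1
  rw [add_sub_cancel_right] at h2
  exact add_mem h1 h2

theorem NF_comm {Θ : Module.End ℚ (AA W)} (h : Comm Θ) (i : Fin 4) :
    pw FI Θ * NF W i = NF W i * pw FI Θ :=
  Commute.add_right (Commute.mul_right (pw_dF h) (pw_HF i h))
    (Commute.mul_right (pw_HF i h) (pw_dF h))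

theorem dF_NF (i : Fin 4) : dF * NF W i = NF W i * dF := by
  rw [NF, mul_add, add_mul, ← mul_assoc, dF_dF, mul_assoc (HF i), dF_dF, zero_mul, mul_zero,
    zero_add, add_zero, mul_assoc]

theorem NF_apply (i : Fin 4) (n : ℕ) (k e : ℤ) (f : FI → AA W) (hf : f ∈ LF W n k e) :
    NF W i f = (n : ℚ) • pw FI (mm (aa i)) f - pw FI (QQ i) f := by
  rw [NF, dF_HF, LinearMap.sub_apply, Module.End.mul_apply, ← map_smul]
  congr 2
  funext q
  have h := euler_P (hf q).1
  have h2 : EP (f q) = ∑ α, pp α • dP α (f q) := by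
    simp [EP, LinearMap.sum_apply]
  rw [LinearMap.add_apply, Pi.add_apply, nu_apply, pw_apply, h2, h, Pi.smul_apply,
    ← natCast_zsmul, ← add_smul, Nat.cast_smul_eq_nsmul, ← natCast_zsmul]
  congr 1
  simp only [wdF]
  push_cast
  ring

theorem pw_prQ (Q A : Module.End ℚ (AA W)) (m : ℕ) :
    prQ (pw FI Q) (pw FI A) m = pw FI (prQ Q A m) := by
  induction m with
  | zero => rfl
  | succ m ih => rw [prQ, prQ, ih]; rfl

theorem hF_mem (n : ℕ) (i : Fin 4) {k e : ℤ} {f : FI → AA W} (hf : f ∈ LF W n k e) :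
    hF W n i f ∈ LF W n (k - 1) (e + 4 * n) := by
  refine Submodule.smul_mem _ _ ?_
  have := gN_mem n (fun e => LF W n (k - 1) e) (fun _ _ => pwa_mem i) (NF_mem i n (k - 1)) n _ _
    (HF_mem i hf)
  rwa [show e + 4 + 4 * (n : ℤ) - 4 = e + 4 * n by ring] at this

theorem hF_comm {Θ : Module.End ℚ (AA W)} (h : Comm Θ) (n : ℕ) (i : Fin 4) :
    pw FI Θ * hF W n i = hF W n i * pw FI Θ :=
  Commute.smul_right (Commute.mul_right (gN_comm n
    (show pw FI Θ * pw FI (mm _) = pw FI (mm _) * pw FI Θ by rw [← pw_mul, h.1, pw_mul])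
    (NF_comm h i) n) (pw_HF i h)) _

theorem dF_hF (n : ℕ) (i : Fin 4) {k e : ℤ} {f : FI → AA W} (hf : f ∈ LF W n k e) :
    dF (hF W n i f) + hF W n i (dF f) + Pi.single vac (ph (ps i (f vac))) =
      pw FI (mm (aa i ^ n)) f := by
  have hc := (NF_comm (W := W) (comm_aa i) i).symm
  have h1 := fact_pow n (Q := pw FI (QQ i)) hc (fun e => LF W n k e) (fun _ _ => pwa_mem i)
    (NF_mem i n k) (NF_apply i n k) hf
  have h2 := LinearMap.congr_fun (gN_comm n (pw_dF (W := W) (comm_aa i)).symm (dF_NF i) n) (HF i f)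
  rw [Module.End.mul_apply, Module.End.mul_apply] at h2
  have h3 : prQ (pw FI (QQ i)) (pw FI (mm (aa i))) n f =
      (n.factorial : ℚ) • (Pi.single vac (ph (ps i (f vac))) : FI → AA W) := by
    rw [pw_prQ]
    funext q
    rw [pw_apply, Pi.smul_apply]
    by_cases hq : q = vac
    · subst hq
      rw [Pi.single_eq_same]
      exact prQ_P_top i n (wdF_vac n e ▸ (hf vac).1)
    · rw [Pi.single_eq_of_ne hq, smul_zero]
      refine prQ_P_low i n ?_ (hf q).1
      obtain ⟨I, j⟩ := q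
      have : I.card + j ≠ 0 := by
        intro h0
        apply hq
        rw [vac, Finset.card_eq_zero.1 (by omega : I.card = 0), (by omega : j = 0)]
      simp only
      omega
  have h0 : (n.factorial : ℚ) ≠ 0 := by positivity
  rw [h3, ← pw_pow, ← mm_pow] at h1
  rw [← inv_smul_smul₀ h0 (pw FI (mm (aa i ^ n)) f), ← h1, smul_add, inv_smul_smul₀ h0, hF,
    LinearMap.smul_apply, LinearMap.smul_apply, map_smul, Module.End.mul_apply,
    Module.End.mul_apply, h2, ← smul_add, ← map_add]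
  rfl

theorem hF_single (n : ℕ) (i : Fin 4) (y : AA W) : hF W n i (Pi.single vac y) = 0 := by
  rw [hF, LinearMap.smul_apply, Module.End.mul_apply, HF_single, map_zero, smul_zero]

/-- the total homotopy -/
noncomputable def hT (W : Type) [Ring W] [Algebra ℚ W] (n : ℕ) (i : Fin 4) :
    Module.End ℚ (Idx → AA W) :=
  LinearMap.pi (Sum.elim
    (fun q => (LinearMap.proj q).comp ((hF W n i).comp (LinearMap.funLeft ℚ (AA W) Sum.inl)))
    (fun b => if b then (hK W n i).comp (LinearMap.proj (Sum.inr false))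
      else (ps i).comp (LinearMap.proj (Sum.inl vac))))

theorem hT_inl (n : ℕ) (i : Fin 4) (f : Idx → AA W) :
    hT W n i f ∘ Sum.inl = hF W n i (f ∘ Sum.inl) := rfl

theorem hT_inl' (n : ℕ) (i : Fin 4) (f : Idx → AA W) (q : FI) :
    hT W n i f (Sum.inl q) = hF W n i (f ∘ Sum.inl) q := rfl

theorem hT_false (n : ℕ) (i : Fin 4) (f : Idx → AA W) :
    hT W n i f (Sum.inr false) = ps i (f (Sum.inl vac)) := rfl

theorem hT_true (n : ℕ) (i : Fin 4) (f : Idx → AA W) :
    hT W n i f (Sum.inr true) = hK W n i (f (Sum.inr false)) := rfl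

theorem hom (W : Type) [Ring W] [Algebra ℚ W] (n : ℕ) (i : Fin 4) :
    ∃ h : Module.End ℚ (Idx → AA W),
      (∀ (k e : ℤ) (f : Idx → AA W), f ∈ LL W n k e → h f ∈ LL W n (k - 1) (e + 4 * n)) ∧
      (∀ (k e : ℤ) (f : Idx → AA W), f ∈ LL W n k e →
        dd (h f) + h (dd f) = pw Idx (mm (aa i ^ n)) f) ∧
      ∀ Θ : Module.End ℚ (AA W), Comm Θ → pw Idx Θ * h = h * pw Idx Θ := by
  refine ⟨hT W n i, fun k e f hf => mem_LL.2 fun q => ?_, fun k e f hf => funext fun q => ?_,
    fun Θ h => LinearMap.ext fun f => funext fun q => ?_⟩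
  · rcases q with q | b
    · exact hF_mem n i (res_mem hf) q
    · cases b
      · obtain ⟨h1, h2⟩ := hf (Sum.inl vac)
        rw [hT_false]
        refine ⟨ps_mem i (wdF_vac n e ▸ h1), fun hk => ?_⟩
        rw [h2, map_zero]
        intro h5
        apply hk
        change cdF vac = _ at h5
        change (-1 : ℤ) = _
        rw [cdF_vac] at h5
        omega
      · obtain ⟨h1, h2⟩ := hf (Sum.inr false)
        rw [hT_true]
        refine ⟨hK_mem n i h1, fun hk => ?_⟩
        rw [h2, map_zero]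
        intro h5
        apply hk
        change (-1 : ℤ) = _ at h5
        change (-2 : ℤ) = _
        omega
  · rw [Pi.add_apply, pw_apply, mm_apply]
    rcases q with q | b
    · have := congrFun (dF_hF n i (res_mem hf)) q
      rw [dd_inl', hT_inl', hT_inl, hT_false, dd_inl, map_add, hF_single, add_zero, add_right_comm]
      rw [pw_apply, mm_apply] at this
      exact this
    · cases b
      · rw [dd_false, hT_true, hT_false, dd_inl', dF_vac, zero_add, Pi.single_eq_same]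
        exact ell_hK n i (hf (Sum.inr false)).1
      · rw [dd_true, hT_true, dd_false, zero_add]
        exact hK_ell n i (hf (Sum.inr true)).1
  · rw [Module.End.mul_apply, Module.End.mul_apply, pw_apply]
    rcases q with q | b
    · exact congrFun (LinearMap.congr_fun (hF_comm h n i) (f ∘ Sum.inl)) q
    · cases b
      · exact LinearMap.congr_fun (h.2.2.2.2 i) (f (Sum.inl vac))
      · exact LinearMap.congr_fun (hK_comm h n i) (f (Sum.inr false))

end Pool.Agent.Lib.ROB.HM
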