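import Mathlib

/-! In a `ℚ`-algebra with `D t - t D = 1`, the map `w ↦ w t - t w` is onto on the subalgebra
generated by `t` and `D`. -/

namespace Pool.Agent.ROB.SF

variable {A : Type} [Ring A] [Algebra ℚ A] {t D : A}

theorem D_tpow (h : D * t - t * D = 1) (i : ℕ) :
    D * t ^ (i + 1) = t ^ (i + 1) * D + ((i + 1 : ℕ) : ℚ) • t ^ i := by
  have h1 : D * t = t * D + 1 := by rw [← h]; noncomm_ring
  induction i with
  | zero => simpa using h1
  | succ i ih =>
    rw [pow_succ t (i + 1), ← mul_assoc, ih, add_mul, mul_assoc, h1, smul_mul_assoc, ← pow_succ,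
      mul_add, mul_one, ← mul_assoc, ← pow_succ]
    push_cast
    module

theorem Dpow_t (h : D * t - t * D = 1) (i : ℕ) :
    D ^ (i + 1) * t = t * D ^ (i + 1) + ((i + 1 : ℕ) : ℚ) • D ^ i := by
  have h1 : D * t = t * D + 1 := by rw [← h]; noncomm_ring
  induction i with
  | zero => simpa using h1
  | succ i ih =>
    rw [pow_succ' D (i + 1), mul_assoc, ih, mul_add, ← mul_assoc, h1, mul_smul_comm, ← pow_succ',
      add_mul, one_mul, mul_assoc, ← pow_succ']
    push_cast
    module

theorem mem_span_of_mem_adjoin (h : D * t - t * D = 1) {x : A}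
    (hx : x ∈ Algebra.adjoin ℚ ({t, D} : Set A)) :
    x ∈ Submodule.span ℚ (Set.range fun p : ℕ × ℕ => t ^ p.1 * D ^ p.2) := by
  set V := Submodule.span ℚ (Set.range fun p : ℕ × ℕ => t ^ p.1 * D ^ p.2) with hV
  have hb : ∀ i j : ℕ, t ^ i * D ^ j ∈ V := fun i j => Submodule.subset_span ⟨(i, j), rfl⟩
  have key : ∀ a : A, (∀ i j : ℕ, a * (t ^ i * D ^ j) ∈ V) → ∀ v ∈ V, a * v ∈ V := by
    intro a ha v hv
    induction hv using Submodule.span_induction with
    | mem v hv => obtain ⟨p, rfl⟩ := hv; exact ha _ _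
    | zero => simp
    | add v w _ _ h1 h2 => rw [mul_add]; exact add_mem h1 h2
    | smul c v _ h1 => rw [mul_smul_comm]; exact V.smul_mem c h1
  have main : ∀ v ∈ V, x * v ∈ V := by
    induction hx using Algebra.adjoin_induction with
    | mem x hx =>
      rcases hx with rfl | rfl
      · refine key _ fun i j => ?_
        rw [← mul_assoc, ← pow_succ']; exact hb _ _
      · refine key _ fun i j => ?_
        rcases i with _ | i
        · have := hb 0 (j + 1)
          simpa [pow_succ'] using this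
        · rw [← mul_assoc, D_tpow h, add_mul, smul_mul_assoc, mul_assoc, ← pow_succ']
          exact add_mem (hb _ _) (V.smul_mem _ (hb _ _))
    | algebraMap c => intro v hv; rw [← Algebra.smul_def]; exact V.smul_mem c hv
    | add x y _ _ h1 h2 => intro v hv; rw [add_mul]; exact add_mem (h1 v hv) (h2 v hv)
    | mul x y _ _ h1 h2 => intro v hv; rw [mul_assoc]; exact h1 _ (h2 v hv)
  simpa using main 1 (by simpa using hb 0 0)

theorem ad_onto (h : D * t - t * D = 1) {x : A} (hx : x ∈ Algebra.adjoin ℚ ({t, D} : Set A)) :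
    ∃ w ∈ Algebra.adjoin ℚ ({t, D} : Set A), w * t - t * w = x := by
  have hx' := mem_span_of_mem_adjoin h hx
  clear hx
  have ht : t ∈ Algebra.adjoin ℚ ({t, D} : Set A) := Algebra.subset_adjoin (by simp)
  have hD : D ∈ Algebra.adjoin ℚ ({t, D} : Set A) := Algebra.subset_adjoin (by simp)
  induction hx' using Submodule.span_induction with
  | mem v hv =>
    obtain ⟨⟨i, j⟩, rfl⟩ := hv
    refine ⟨((j + 1 : ℕ) : ℚ)⁻¹ • (t ^ i * D ^ (j + 1)),
      Subalgebra.smul_mem _ (mul_mem (pow_mem ht _) (pow_mem hD _)) _, ?_⟩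
    have h0 : ((j + 1 : ℕ) : ℚ) ≠ 0 := by positivity
    rw [smul_mul_assoc, mul_smul_comm, ← smul_sub, mul_assoc, Dpow_t h, mul_add, ← mul_assoc,
      ← mul_assoc, ← pow_succ, ← pow_succ', add_sub_cancel_left, mul_smul_comm, smul_smul,
      inv_mul_cancel₀ h0, one_smul]
  | zero => exact ⟨0, zero_mem _, by simp⟩
  | add v w _ _ h1 h2 =>
    obtain ⟨a, ha, rfl⟩ := h1
    obtain ⟨b, hb, rfl⟩ := h2
    exact ⟨a + b, add_mem ha hb, by noncomm_ring⟩
  | smul c v _ h1 =>
    obtain ⟨a, ha, rfl⟩ := h1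
    exact ⟨c • a, Subalgebra.smul_mem _ ha c, by rw [smul_mul_assoc, mul_smul_comm, smul_sub]⟩

end Pool.Agent.ROB.SF
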