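import Mathlib

/-! A division ring of characteristic zero containing `n` mutually commuting Weyl pairs:
the Ore quotient ring of the skew group algebra `ℚ(h₁,…,hₙ)[ℤⁿ; shifts]`. -/

namespace Pool.Agent.ROB.SF

open SkewMonoidAlgebra Pointwise

section Gen

variable {F G : Type} [Field F] [CommGroup G] [MulSemiringAction G F]

theorem nzd [UniqueProds G] : NoZeroDivisors (SkewMonoidAlgebra F G) := by
  classical
  refine ⟨fun {f g} h => ?_⟩
  by_contra hne
  push Not at hne
  obtain ⟨hf, hg⟩ := hne
  have h1 : f.support.Nonempty := Finset.nonempty_iff_ne_empty.2 (fun h => hf (support_eq_empty.1 h))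
  have h2 : g.support.Nonempty := Finset.nonempty_iff_ne_empty.2 (fun h => hg (support_eq_empty.1 h))
  obtain ⟨a, ha, b, hb, hu⟩ := UniqueProds.uniqueMul_of_nonempty h1 h2
  have key : (f * g).coeff (a * b) = f.coeff a * a • g.coeff b := by
    rw [coeff_mul, sum_def', Finset.sum_eq_single a]
    · rw [sum_def', Finset.sum_eq_single b]
      · simp
      · intro b' hb' hne
        rw [if_neg]
        intro he
        exact hne (hu ha hb' he).2
      · intro h; exact absurd hb h
    · intro a' ha' hne
      rw [sum_def']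
      refine Finset.sum_eq_zero fun b' hb' => ?_
      rw [if_neg]
      intro he
      exact hne (hu ha' hb' he).1
    · intro h; exact absurd ha h
  rw [h] at key
  have h3 : f.coeff a ≠ 0 := mem_support_iff.1 ha
  have h4 : a • g.coeff b ≠ 0 := by
    intro h5
    have : g.coeff b = 0 := by
      have := congrArg (fun z => a⁻¹ • z) h5
      simpa using this
    exact mem_support_iff.1 hb this
  exact mul_ne_zero h3 h4 (by simpa using key.symm)

/-- the element with prescribed coefficients on a finite set -/
noncomputable def lift (B : Finset G) : (B → F) →ₗ[F] SkewMonoidAlgebra F G :=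
  ∑ g : B, (lsingle F (g : G)).comp (LinearMap.proj g)

omit [CommGroup G] [MulSemiringAction G F] in
theorem lift_apply (B : Finset G) (a : B → F) : lift B a = ∑ g : B, single (g : G) (a g) := by
  simp [lift, LinearMap.sum_apply, lsingle_apply]

omit [CommGroup G] [MulSemiringAction G F] in
theorem coeff_lift (B : Finset G) (a : B → F) (x : G) :
    (lift B a).coeff x = ∑ g : B, (single (g : G) (a g)).coeff x := by
  rw [lift_apply]
  have := map_sum (coeffAddEquiv (k := F) (G := G)) (fun g : B => single (g : G) (a g)) Finset.univ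
  have h2 : (∑ g : B, single (g : G) (a g)).coeff = ∑ g : B, (single (g : G) (a g)).coeff := this
  rw [h2, Finsupp.finsetSum_apply]

omit [CommGroup G] [MulSemiringAction G F] in
theorem coeff_lift_mem (B : Finset G) (a : B → F) (x : B) : (lift B a).coeff x = a x := by
  classical
  rw [coeff_lift, Finset.sum_eq_single x]
  · simp
  · intro y _ hy
    rw [coeff_single_apply, if_neg (fun h => hy (Subtype.ext h))]
  · simp

omit [CommGroup G] [MulSemiringAction G F] in
theorem support_lift (B : Finset G) (a : B → F) : (lift B a).support ⊆ B := by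
  classical
  intro x hx
  by_contra hB
  apply mem_support_iff.1 hx
  rw [coeff_lift]
  refine Finset.sum_eq_zero fun y _ => ?_
  rw [coeff_single_apply, if_neg]
  intro h
  exact hB (h ▸ y.2)

theorem ore [UniqueProds G] [DecidableEq G]
    (hF : ∀ C : Finset G, ∃ B E : Finset G, B * C ⊆ E ∧ E.card < 2 * B.card)
    (r s : SkewMonoidAlgebra F G) (hs : s ≠ 0) :
    ∃ r' s' : SkewMonoidAlgebra F G, s' ≠ 0 ∧ s' * r = r' * s := by
  have : NoZeroDivisors (SkewMonoidAlgebra F G) := nzd
  obtain ⟨B, E, hE, hc⟩ := hF (r.support ∪ s.support)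
  let ψ : ((B → F) × (B → F)) →ₗ[F] SkewMonoidAlgebra F G :=
    (LinearMap.mulRight F r).comp ((lift B).comp (LinearMap.fst _ _ _)) -
      (LinearMap.mulRight F s).comp ((lift B).comp (LinearMap.snd _ _ _))
  let π : SkewMonoidAlgebra F G →ₗ[F] (E → F) :=
    LinearMap.pi fun x : E => (Finsupp.lapply (x : G)).comp (coeffLinearEquiv (S := F) (k := F) (G := G)).toLinearMap
  have hker : LinearMap.ker (π.comp ψ) ≠ ⊥ := by
    apply LinearMap.ker_ne_bot_of_finrank_lt
    simp only [Module.finrank_prod, Module.finrank_fintype_fun_eq_card, Fintype.card_coe]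
    omega
  obtain ⟨p, hp, hp0⟩ := (Submodule.ne_bot_iff _).1 hker
  have hψ : ψ p = lift B p.1 * r - lift B p.2 * s := rfl
  have hsupp : ∀ (a : B → F) (z : SkewMonoidAlgebra F G), z.support ⊆ r.support ∪ s.support →
      (lift B a * z).support ⊆ E := fun a z hz =>
    (support_mul _ _).trans ((Finset.mul_subset_mul (support_lift B a) hz).trans hE)
  have hz : ψ p = 0 := by
    ext x
    by_cases hx : x ∈ E
    · have := congrFun (LinearMap.mem_ker.1 hp) ⟨x, hx⟩
      exact this
    · rw [hψ, coeff_sub, Finsupp.sub_apply,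
        notMem_support_iff.1 (fun h => hx (hsupp p.1 r Finset.subset_union_left h)),
        notMem_support_iff.1 (fun h => hx (hsupp p.2 s Finset.subset_union_right h))]
      simp
  rw [hψ, sub_eq_zero] at hz
  refine ⟨lift B p.2, lift B p.1, fun h0 => hp0 ?_, hz⟩
  rw [h0, zero_mul] at hz
  have h2 : lift B p.2 = 0 := (mul_eq_zero.1 hz.symm).resolve_right hs
  ext x
  · rw [← coeff_lift_mem B p.1 x, h0]; simp
  · rw [← coeff_lift_mem B p.2 x, h2]; simp

end Gen

theorem folner (n : ℕ) (C : Finset (Multiplicative (Fin n → ℤ))) :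
    ∃ B E : Finset (Multiplicative (Fin n → ℤ)), B * C ⊆ E ∧ E.card < 2 * B.card := by
  obtain ⟨c, hc⟩ : ∃ c : ℕ, ∀ g ∈ C, ∀ i, |g.toAdd i| ≤ c := by
    refine ⟨C.sup fun g => Finset.univ.sup fun i => (g.toAdd i).natAbs, fun g hg i => ?_⟩
    rw [← Int.natCast_natAbs]
    exact_mod_cast (Finset.le_sup (f := fun i => (g.toAdd i).natAbs) (Finset.mem_univ i)).trans
      (Finset.le_sup (f := fun g : Multiplicative (Fin n → ℤ) =>
        Finset.univ.sup fun i => (g.toAdd i).natAbs) hg)
  let box : ℕ → Finset (Multiplicative (Fin n → ℤ)) := fun m =>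
    (Fintype.piFinset fun _ : Fin n => Finset.Icc (-(m : ℤ)) m).map Multiplicative.ofAdd.toEmbedding
  have hcard : ∀ m, (box m).card = (2 * m + 1) ^ n := by
    intro m
    simp only [box, Finset.card_map, Fintype.card_piFinset, Int.card_Icc, Finset.prod_const,
      Finset.card_univ, Fintype.card_fin]
    congr 1
    omega
  have hmem : ∀ m g, g ∈ box m ↔ ∀ i, |g.toAdd i| ≤ m := by
    intro m g
    simp [box, Finset.mem_map_equiv, abs_le]
  obtain ⟨m, hm⟩ : ∃ m : ℕ, (2 * (m + c) + 1) ^ n < 2 * (2 * m + 1) ^ n := by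
    have h1 : Filter.Tendsto (fun m : ℕ => (1 + (2 * c : ℝ) / (2 * m + 1)) ^ n) Filter.atTop
        (nhds ((1 + 0) ^ n)) := by
      refine (Filter.Tendsto.const_add 1 ?_).pow n
      apply Filter.Tendsto.const_div_atTop
      exact Filter.tendsto_atTop_add_const_right _ _
        (tendsto_natCast_atTop_atTop.const_mul_atTop (by norm_num))
    have h2 : ((1 : ℝ) + 0) ^ n < 2 := by norm_num
    obtain ⟨m, hm⟩ := (h1.eventually (gt_mem_nhds h2)).exists
    refine ⟨m, ?_⟩
    have hpos : (0 : ℝ) < 2 * m + 1 := by positivity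
    have h3 : (1 + (2 * c : ℝ) / (2 * m + 1)) = (2 * (m + c) + 1) / (2 * m + 1) := by
      field_simp; ring
    rw [h3, div_pow, div_lt_iff₀ (by positivity)] at hm
    exact_mod_cast hm
  refine ⟨box m, box (m + c), ?_, by rw [hcard, hcard]; exact hm⟩
  intro x hx
  obtain ⟨a, ha, b, hb, rfl⟩ := Finset.mem_mul.1 hx
  rw [hmem] at ha ⊢
  intro i
  have h1 := ha i
  have h2 := hc b hb i
  have h3 : (a * b).toAdd i = a.toAdd i + b.toAdd i := rfl
  rw [h3]
  push_cast
  exact (abs_add_le _ _).trans (add_le_add h1 h2)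

/-- shift action of `ℤⁿ` on polynomials -/
@[reducible] noncomputable def shiftAct (n : ℕ) :
    MulSemiringAction (Multiplicative (Fin n → ℤ)) (MvPolynomial (Fin n) ℚ) where
  smul g p := MvPolynomial.aeval (fun i => MvPolynomial.X i - MvPolynomial.C (g.toAdd i : ℚ)) p
  one_smul p := by
    change MvPolynomial.aeval _ p = p
    simp
  mul_smul g h p := by
    change MvPolynomial.aeval _ p = MvPolynomial.aeval _ (MvPolynomial.aeval _ p)
    rw [← AlgHom.comp_apply]
    congr 1
    ext i : 1
    simp
    ring
  smul_zero g := map_zero _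
  smul_add g := map_add _
  smul_one g := map_one _
  smul_mul g := map_mul _

theorem exists_field (n : ℕ) : ∃ (F : Type) (_ : Field F) (_ : CharZero F)
    (_ : MulSemiringAction (Multiplicative (Fin n → ℤ)) F) (h : Fin n → F),
    ∀ (g : Multiplicative (Fin n → ℤ)) i, g • h i = h i - (g.toAdd i : ℤ) := by
  let := shiftAct n
  let := IsFractionRing.mulSemiringAction (Multiplicative (Fin n → ℤ)) (MvPolynomial (Fin n) ℚ)
    (FractionRing (MvPolynomial (Fin n) ℚ))
  refine ⟨FractionRing (MvPolynomial (Fin n) ℚ), inferInstance, inferInstance, inferInstance,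
    fun i => algebraMap (MvPolynomial (Fin n) ℚ) _ (MvPolynomial.X i), fun g i => ?_⟩
  have h1 : g • (algebraMap (MvPolynomial (Fin n) ℚ) (FractionRing (MvPolynomial (Fin n) ℚ))
      (MvPolynomial.X i)) = algebraMap _ _ (g • (MvPolynomial.X i : MvPolynomial (Fin n) ℚ)) := by
    change IsFractionRing.ringEquivOfRingEquiv _ _ = _
    rw [IsFractionRing.ringEquivOfRingEquiv_algebraMap]
    rfl
  have h2 : g • (MvPolynomial.X i : MvPolynomial (Fin n) ℚ) =
      MvPolynomial.X i - MvPolynomial.C (g.toAdd i : ℚ) := by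
    change MvPolynomial.aeval _ _ = _
    simp
  rw [h1, h2]
  simp

open nonZeroDivisors in
/-- a division ring of characteristic zero with `n` commuting Weyl pairs -/
theorem exists_weyl (n : ℕ) : ∃ (K : Type) (_ : DivisionRing K) (_ : CharZero K)
    (t D : Fin n → K), (∀ i j, t i * t j = t j * t i) ∧ (∀ i j, D i * D j = D j * D i) ∧
      ∀ i j, D i * t j - t j * D i = if i = j then 1 else 0 := by
  classical
  obtain ⟨F, _, _, _, h, hh⟩ := exists_field n
  let G := Multiplicative (Fin n → ℤ)
  let A := SkewMonoidAlgebra F G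
  have : NoZeroDivisors A := nzd
  have hO : Nonempty (OreLocalization.OreSet A⁰) := by
    rw [OreLocalization.nonempty_oreSet_iff_of_noZeroDivisors]
    intro r s
    obtain ⟨r', s', hs', he⟩ := ore (folner n) r s (nonZeroDivisors.coe_ne_zero s)
    exact ⟨r', ⟨s', mem_nonZeroDivisors_of_ne_zero hs'⟩, he⟩
  obtain ⟨hO⟩ := hO
  let φ : A →+* OreLocalization A⁰ A := OreLocalization.numeratorRingHom
  let e : Fin n → G := fun i => Multiplicative.ofAdd (Pi.single i 1)
  have hc : CharZero (OreLocalization A⁰ A) :=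
    charZero_of_injective_ringHom (φ.comp (singleOneRingHom (k := F) (G := G))).injective
  refine ⟨OreLocalization A⁰ A, inferInstance, hc, fun i => φ (single (e i) 1),
    fun i => φ (single (e i)⁻¹ (h i)), fun i j => ?_, fun i j => ?_, fun i j => ?_⟩
  · rw [← map_mul, ← map_mul, single_mul_single, single_mul_single, mul_comm (e i)]
    simp
  · rw [← map_mul, ← map_mul, single_mul_single, single_mul_single, mul_comm (e i)⁻¹, hh, hh]
    congr 2
    by_cases hij : i = j
    · subst hij; rfl
    · have he : ∀ a b : Fin n, a ≠ b → Multiplicative.toAdd (e a)⁻¹ b = 0 := by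
        intro a b hab
        change -((Pi.single a (1 : ℤ) : Fin n → ℤ) b) = 0
        simp [Ne.symm hab]
      rw [he i j hij, he j i (Ne.symm hij)]
      simp [mul_comm]
  · rw [← map_mul, ← map_mul, ← map_sub, single_mul_single, single_mul_single, mul_comm (e j), hh,
      smul_one, mul_one, one_mul]
    by_cases hij : i = j
    · subst hij
      rw [if_pos rfl, inv_mul_cancel, sub_eq_add_neg, ← single_neg, ← single_add]
      simp [e, single_one_one]
    · simp [e, hij]

end Pool.Agent.ROB.SF
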