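import Pool.Agent.Lib.ROB.Obj
import Pool.Agent.Lib.ROB.SF_Ore
import Pool.Agent.Lib.ROB.SF_Ad

/-! Existence of the coefficient data `Dat` and of the representation data `Big`. -/

namespace Pool.Agent.Lib.ROB

open Pool.Agent.ROB.SF

section Mat

variable {L : Type} [Ring L]

/-- matrix whose only nonzero row is row 3 -/
def rowM (f : Fin 4 → L) : Matrix (Fin 4) (Fin 4) L := Matrix.of fun i a => if i = 3 then f a else 0

/-- matrix whose only nonzero column is column `c`, with entry of row 3 zero -/
def colM (c : Fin 4) (f : Fin 4 → L) : Matrix (Fin 4) (Fin 4) L :=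
  Matrix.of fun a j => if j = c ∧ a ≠ 3 then f a else 0

def eM : Matrix (Fin 4) (Fin 4) L := Matrix.single 3 3 1

theorem eM_eM : (eM : Matrix (Fin 4) (Fin 4) L) * eM = eM := by simp [eM]

theorem eM_row (f : Fin 4 → L) : eM * rowM f = rowM f := by
  ext i j
  fin_cases i <;> simp [eM, rowM, Matrix.mul_apply, Fin.sum_univ_four, Matrix.single_apply]

theorem row_eM (f : Fin 4 → L) (h : f 3 = 0) : rowM f * eM = 0 := by
  ext i j
  fin_cases i <;> fin_cases j <;>
    simp [eM, rowM, Matrix.mul_apply, Fin.sum_univ_four, Matrix.single_apply, h]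

theorem eM_col (c : Fin 4) (f : Fin 4 → L) : eM * colM c f = 0 := by
  ext i j
  fin_cases i <;> simp [eM, colM, Matrix.mul_apply, Fin.sum_univ_four, Matrix.single_apply]

theorem col_eM (f : Fin 4 → L) : colM 3 f * eM = colM 3 f := by
  ext i j
  fin_cases j <;> simp [eM, colM, Matrix.mul_apply, Fin.sum_univ_four, Matrix.single_apply]

theorem row_col (c : Fin 4) (f g : Fin 4 → L) :
    rowM f * colM c g = Matrix.single 3 c (f 0 * g 0 + f 1 * g 1 + f 2 * g 2) := by
  ext i j
  fin_cases i <;> by_cases h : j = c <;>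
    simp [rowM, colM, Matrix.mul_apply, Fin.sum_univ_four, Matrix.single_apply, h, Ne.symm]

theorem col_row (f g : Fin 4 → L) :
    colM 3 g * rowM f = Matrix.of fun a b => if a ≠ 3 then g a * f b else 0 := by
  ext i j
  fin_cases i <;> simp [rowM, colM, Matrix.mul_apply, Fin.sum_univ_four]

/-- `x l = L l + τ l * x 3` -/
def tau (t D : L) : Fin 4 → L := ![t, D, 0, 1]

/-- coefficient of `x k` in the linear form `L a` -/
def ph0 (t D : L) (k a : Fin 4) : L := (if k = a then 1 else 0) - if k = 3 then tau t D a else 0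

def yy (t D : L) (l m k a : Fin 4) : L :=
  (if a = l ∧ k = m then 1 else 0) + (if a = m ∧ k = 3 then tau t D l else 0) +
    ((if a = 1 then ph0 t D k 0 else 0) - if a = 0 then ph0 t D k 1 else 0) *
      (tau t D m * tau t D l)

theorem ph0_three (t D : L) (k : Fin 4) : ph0 t D k 3 = 0 := by
  by_cases h : k = 3 <;> simp [ph0, tau, h]

theorem sum_yy (t D : L) (l m k k' : Fin 4) :
    ph0 t D k 0 * yy t D l m k' 0 + ph0 t D k 1 * yy t D l m k' 1 + ph0 t D k 2 * yy t D l m k' 2 =
      ph0 t D k l * (if k' = m then 1 else 0) + ph0 t D k m * (if k' = 3 then tau t D l else 0) +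
        (ph0 t D k 1 * ph0 t D k' 0 - ph0 t D k 0 * ph0 t D k' 1) * (tau t D m * tau t D l) := by
  have h3 := ph0_three t D k
  fin_cases l <;> fin_cases m <;> by_cases h1 : k' = 3 <;> simp [yy, h1, h3] <;>
    (try split_ifs) <;> noncomm_ring

theorem comm_ph0 {t D : L} (h : D * t - t * D = 1) (k k' : Fin 4) :
    (ph0 t D k 1 * ph0 t D k' 0 - ph0 t D k 0 * ph0 t D k' 1) +
      (ph0 t D k' 1 * ph0 t D k 0 - ph0 t D k' 0 * ph0 t D k 1) =
        if k = 3 ∧ k' = 3 then 2 else 0 := by
  fin_cases k <;> fin_cases k' <;> simp [ph0, tau]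
  rw [h]; norm_num

theorem abs6 (p q a b c d : Prop) [Decidable p] [Decidable q] [Decidable a] [Decidable b]
    [Decidable c] [Decidable d] (x y : L) :
    ((if a then 1 else 0) - if p then x else 0) * (if b then 1 else 0) +
      ((if c then 1 else 0) - if p then y else 0) * (if q then x else 0) +
      ((if d then 1 else 0) - if q then x else 0) * (if c then 1 else 0) +
      ((if b then 1 else 0) - if q then y else 0) * (if p then x else 0) +
      (if p ∧ q then 2 else 0) * (y * x) =
      (if a ∧ b then 1 else 0) + (if c ∧ d then 1 else 0) := by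
  by_cases h1 : p <;> by_cases h2 : q <;> by_cases h3 : a <;> by_cases h4 : b <;>
    by_cases h5 : c <;> by_cases h6 : d <;>
    simp only [h1, h2, h3, h4, h5, h6, if_true, if_false, and_true, and_false, and_self] <;>
    noncomm_ring

theorem s2_scalar {t D : L} (h : D * t - t * D = 1) (l m k k' : Fin 4) :
    (ph0 t D k 0 * yy t D l m k' 0 + ph0 t D k 1 * yy t D l m k' 1 +
      ph0 t D k 2 * yy t D l m k' 2) +
    (ph0 t D k' 0 * yy t D l m k 0 + ph0 t D k' 1 * yy t D l m k 1 +
      ph0 t D k' 2 * yy t D l m k 2) =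
      (if k = l ∧ k' = m then 1 else 0) + (if k = m ∧ k' = l then 1 else 0) := by
  rw [sum_yy, sum_yy]
  have h2 := comm_ph0 h k k'
  have h3 : ∀ a b c a' b' c' e : L, a + b + c * e + (a' + b' + c' * e) =
      a + b + a' + b' + (c + c') * e := by intros; noncomm_ring
  rw [h3, h2]
  simp only [ph0]
  exact abs6 (k = 3) (k' = 3) (k = l) (k' = m) (k = m) (k' = l) _ _

end Mat

/-- the coefficient data over a ring with a Weyl pair and `ad t` onto -/
noncomputable def datOf {L : Type} [Ring L] [Algebra ℚ L] (t D : L) (h : D * t - t * D = 1)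
    (had : ∀ x : L, ∃ w, w * t - t * w = x) : Dat (Matrix (Fin 4) (Fin 4) L) where
  e := eM
  D := fun k => rowM (ph0 t D k)
  ee := eM_eM
  eD := fun _ => eM_row _
  De := fun k => row_eM _ (ph0_three t D k)
  s1 := by
    intro c hc
    obtain ⟨w, hw⟩ := had (c 3 3 - c 0 0 - c 1 1 - c 2 2)
    have h1 : ∀ a, a ≠ 3 → c 3 a = 0 ∧ c a 3 = 0 := by
      intro a ha
      have e1 := congrFun (congrFun hc 3) a
      have e2 := congrFun (congrFun hc a) 3
      simp [eM, Matrix.mul_apply, Matrix.single_apply, ha, ha.symm] at e1 e2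
      exact ⟨e1, e2.symm⟩
    have h0 := h1 0 (by decide)
    have h2 := h1 2 (by decide)
    have h1 := h1 1 (by decide)
    refine ⟨fun l => colM 3 fun a => (if l = 3 then 0 else c a l) +
      (if a = 0 then w * tau t D l else 0), fun l => ⟨eM_col _ _, col_eM _⟩, ?_⟩
    simp only [row_col, col_row, Fin.sum_univ_four]
    ext i j
    fin_cases i <;> fin_cases j <;> simp [ph0, tau, h0, h1, h2]
    rw [eq_comm, ← sub_eq_zero]
    have : c 3 3 = w * t - t * w + c 0 0 + c 1 1 + c 2 2 := by rw [hw]; noncomm_ring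
    rw [this]; noncomm_ring
  s2 := by
    intro l m
    refine ⟨fun k => colM 3 (yy t D l m k), fun k => ⟨eM_col _ _, col_eM _⟩, fun k k' => ?_⟩
    rw [row_col, row_col, ← Matrix.single_add, s2_scalar h, eM, Matrix.smul_single]
    congr 1
    split_ifs <;> simp [one_add_one_eq_two]

theorem exists_big : ∃ (W B Q : Type) (_ : Ring W) (_ : Algebra ℚ W) (_ : Ring B) (_ : Algebra ℚ B)
    (_ : DivisionRing Q) (t : Dat W), Nonempty (Big t B Q) := by
  classical
  obtain ⟨Q, _, _, t, D, htt, hDD, hDt⟩ := exists_weyl 7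
  let L := Algebra.adjoin ℚ ({t 0, D 0} : Set Q)
  have h0 : D 0 * t 0 - t 0 * D 0 = 1 := by simpa using hDt 0 0
  let t0 : L := ⟨t 0, Algebra.subset_adjoin (by simp)⟩
  let D0 : L := ⟨D 0, Algebra.subset_adjoin (by simp)⟩
  have h : D0 * t0 - t0 * D0 = 1 := Subtype.ext h0
  have had : ∀ x : L, ∃ w, w * t0 - t0 * w = x := by
    intro x
    obtain ⟨w, hw, he⟩ := ad_onto h0 x.2
    exact ⟨⟨w, hw⟩, Subtype.ext he⟩
  have hcomm : ∀ q : Q, t 0 * q = q * t 0 → D 0 * q = q * D 0 → ∀ r : Matrix (Fin 4) (Fin 4) L,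
      L.val.mapMatrix r * Matrix.scalar (Fin 4) q = Matrix.scalar (Fin 4) q * L.val.mapMatrix r := by
    intro q h1 h2 r
    have h3 : ∀ x ∈ L, x * q = q * x := by
      intro x hx
      refine (Algebra.commute_of_mem_adjoin_of_forall_mem_commute hx ?_).eq.symm
      rintro b (rfl | rfl)
      · exact h1.symm
      · exact h2.symm
    ext i j
    simp [Matrix.scalar_apply, h3 _ (r i j).2]
  have hs : ∀ a b : Fin 6, a.succ = b.succ ↔ a = b := fun a b => Fin.succ_inj
  refine ⟨Matrix (Fin 4) (Fin 4) L, Matrix (Fin 4) (Fin 4) Q, Q, inferInstance, inferInstance,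
    inferInstance, inferInstance, inferInstance, datOf t0 D0 h had, ⟨{
      j := L.val.mapMatrix
      sc := Matrix.scalar (Fin 4)
      fin := ?_
      P := fun a => Matrix.scalar (Fin 4) (t a.succ)
      S := fun a => Matrix.scalar (Fin 4) (D a.succ)
      PP := fun a b => by rw [← map_mul, ← map_mul, htt]
      SS := fun a b => by rw [← map_mul, ← map_mul, hDD]
      SP := fun a b => by
        rw [← map_mul, ← map_mul, ← map_sub, hDt]
        by_cases hab : a = b <;> simp [hab]
      jP := fun r a => hcomm _ (htt _ _) (by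
        have := hDt 0 a.succ
        rw [if_neg (Fin.succ_ne_zero a).symm, sub_eq_zero] at this
        exact this) r
      jS := fun r a => hcomm _ (by
        have := hDt a.succ 0
        rw [if_neg (Fin.succ_ne_zero a), sub_eq_zero] at this
        exact this.symm) (hDD _ _) r
      r := fun k => colM 0 ![ph0 t0 D0 k 2, 0, -ph0 t0 D0 k 0, 0]
      er := fun k => eM_col _ _
      Dr := fun k k' => ?_
      rne := ⟨2, fun h => ?_⟩ }⟩⟩
  · refine ⟨Finset.univ.image fun p : Fin 4 × Fin 4 => Matrix.single p.1 p.2 (1 : Q), fun b =>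
      ⟨fun x => ∑ i, ∑ j, x i j * b i j, ?_⟩⟩
    rw [Finset.sum_image]
    · conv_lhs => rw [Matrix.matrix_eq_sum_single b]
      rw [← Finset.sum_product']
      refine Finset.sum_congr rfl fun p _ => ?_
      ext i j
      simp [Matrix.scalar_apply, Matrix.single_apply, ite_and]
    · intro p _ q _ hpq
      have := congrFun (congrFun hpq p.1) p.2
      simp only [Matrix.single_apply, and_self, if_true] at this
      by_contra hne
      rw [if_neg (fun h => hne (Prod.ext h.1.symm h.2.symm))] at this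
      exact one_ne_zero this
  · change rowM _ * _ + rowM _ * _ = 0
    rw [row_col, row_col, ← Matrix.single_add]
    fin_cases k <;> fin_cases k' <;> simp [ph0, tau]
  · have := congrFun (congrFun h 0) 0
    simp [colM, ph0] at this

end Pool.Agent.Lib.ROB
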