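import Pool.Agent.Lib.ROB.Blue
import Pool.Agent.Lib.ROB.HomMain
import Pool.Agent.Lib.ROB.SF_Big

/-! The blocks `DSQ`, `HOM` and `BIG`. -/

namespace Pool.Agent.Lib.ROB

theorem stDSQ : St_DSQ := fun W _ _ => HM.dsq W

theorem stHOM : St_HOM := fun W _ _ n i _ => HM.hom W n i

theorem stBIG : St_BIG := exists_big

end Pool.Agent.Lib.ROB
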