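import Pool.Agent.Lib.ROB.Blue

set_option maxSynthPendingDepth 3

open scoped TensorProduct

namespace Pool.Agent.Lib.ROB.KEY

section Fock

variable {M : Type} [AddCommGroup M] [Module ℚ M]

/-- vectors with values in `S` supported in bidegree `(a, b)`. -/
def SP (a b : ℕ) (S : Submodule ℚ M) : Submodule ℚ (FI → M) where
  carrier := {f | ∀ q, f q ∈ S ∧ (¬ (q.1.card = a ∧ q.2 = b) → f q = 0)}
  add_mem' hf hg q := ⟨add_mem (hf q).1 (hg q).1, fun h => by simp [(hf q).2 h, (hg q).2 h]⟩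
  zero_mem' _ := ⟨zero_mem _, fun _ => rfl⟩
  smul_mem' c f hf q := ⟨Submodule.smul_mem _ c (hf q).1, fun h => by simp [(hf q).2 h]⟩

/-- the vacuum vector with coefficient `x`. -/
def ket : M →ₗ[ℚ] (FI → M) := LinearMap.single ℚ (fun _ => M) vac

theorem ket_apply (x : M) (q : FI) : ket x q = if q = vac then x else 0 := by
  simp [ket, Pi.single_apply]

theorem ket_mem {S : Submodule ℚ M} {x : M} (hx : x ∈ S) : ket x ∈ SP 0 0 S := by
  intro q
  rw [ket_apply]
  refine ⟨by split_ifs <;> simp [hx], fun h => if_neg ?_⟩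
  rintro rfl
  exact h ⟨rfl, rfl⟩

theorem xi_mem {a b : ℕ} {S : Submodule ℚ M} {f : FI → M} (m : Fin 4) (hf : f ∈ SP a b S) :
    xi m f ∈ SP (a + 1) b S := by
  intro q
  rw [xi_apply]
  refine ⟨?_, fun h => ?_⟩
  · split_ifs
    · exact zsmul_mem (hf _).1 _
    · exact zero_mem _
  · split_ifs with hm
    · rw [(hf _).2, smul_zero]
      rintro ⟨h1, h2⟩
      refine h ⟨?_, h2⟩
      have := Finset.card_erase_add_one hm
      simp only at h1
      omega
    · rfl

theorem ze_mem {a b : ℕ} {S : Submodule ℚ M} {f : FI → M} (hf : f ∈ SP a b S) :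
    ze f ∈ SP a (b + 1) S := by
  intro q
  rw [ze_apply]
  refine ⟨?_, fun h => ?_⟩
  · split_ifs
    · exact zero_mem _
    · exact (hf _).1
  · split_ifs with hm
    · rfl
    · refine (hf _).2 ?_
      rintro ⟨h1, h2⟩
      refine h ⟨h1, ?_⟩
      simp only at h2
      omega

theorem xi_vac (m : Fin 4) (f : FI → M) : xi m f vac = 0 := by simp [xi_apply, vac]

theorem ze_vac (f : FI → M) : ze f vac = 0 := by simp [ze_apply, vac]

theorem io_ket (m : Fin 4) (x : M) : io m (ket x) = 0 := by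
  funext q
  rw [io_apply, ket_apply]
  split_ifs with h1 h2
  · rfl
  · exact absurd (congrArg Prod.fst h2) (Finset.insert_ne_empty _ _)
  · simp

theorem io_xi (k m : Fin 4) (f : FI → M) :
    io k (xi m f) = (if m = k then f else 0) - xi m (io k f) := by
  have := LinearMap.congr_fun (xi_io (M := M) m k) f
  simp only [LinearMap.add_apply, Module.End.mul_apply] at this
  rw [eq_sub_iff_add_eq, add_comm, this]
  split_ifs <;> rfl

theorem xi_swap (k m : Fin 4) (f : FI → M) : xi k (xi m f) = -xi m (xi k f) := by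
  have := LinearMap.congr_fun (xi_xi (M := M) k m) f
  simp only [LinearMap.add_apply, Module.End.mul_apply, LinearMap.zero_apply] at this
  exact eq_neg_of_add_eq_zero_left this

theorem io_ze' (k : Fin 4) (f : FI → M) : io k (ze f) = ze (io k f) :=
  LinearMap.congr_fun (io_ze (M := M) k) f

theorem xi_ze' (k : Fin 4) (f : FI → M) : xi k (ze f) = ze (xi k f) :=
  LinearMap.congr_fun (xi_ze (M := M) k) f

theorem pw_xi' (Θ : Module.End ℚ M) (k : Fin 4) (f : FI → M) :
    pw FI Θ (xi k f) = xi k (pw FI Θ f) := LinearMap.congr_fun (pw_xi Θ k) f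

theorem pw_io' (Θ : Module.End ℚ M) (k : Fin 4) (f : FI → M) :
    pw FI Θ (io k f) = io k (pw FI Θ f) := LinearMap.congr_fun (pw_io Θ k) f

theorem pw_ze' (Θ : Module.End ℚ M) (f : FI → M) :
    pw FI Θ (ze f) = ze (pw FI Θ f) := LinearMap.congr_fun (pw_ze Θ) f

theorem pw_ket (Θ : Module.End ℚ M) (x : M) : pw FI Θ (ket x) = ket (Θ x) := by
  funext q
  rw [pw_apply, ket_apply, ket_apply]
  split_ifs <;> simp

/-- the coefficient of `ξ i ξ j`. -/
def ev2 (i j : Fin 4) : (FI → M) →ₗ[ℚ] M := LinearMap.proj vac ∘ₗ io j ∘ₗ io i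

theorem ev2_apply (i j : Fin 4) (f : FI → M) : ev2 i j f = io j (io i f) vac := rfl

theorem ev2_mem (i j : Fin 4) {S : Submodule ℚ M} {f : FI → M}
    (hf : ∀ q : FI, cdF q = 2 → f q ∈ S) : ev2 i j f ∈ S := by
  rw [ev2_apply, io_apply, if_neg (by simp [vac]), io_apply]
  split_ifs with h
  · simp
  · refine zsmul_mem (zsmul_mem (hf _ ?_) _) _
    simp only [cdF, vac] at h ⊢
    rw [Finset.card_insert_of_notMem h]
    simp

theorem ev2_xi (i j m : Fin 4) (f : FI → M) : ev2 i j (xi m f) =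
    (if m = i then io j f vac else 0) - if m = j then io i f vac else 0 := by
  rw [ev2_apply, io_xi, map_sub, io_xi, Pi.sub_apply, Pi.sub_apply, xi_vac, sub_zero]
  congr 1 <;> split_ifs <;> simp

theorem ev2_ze (i j : Fin 4) (f : FI → M) : ev2 i j (ze f) = 0 := by
  rw [ev2_apply, io_ze', io_ze', ze_vac]

theorem io_xi_ket (j l : Fin 4) (x : M) : io j (xi l (ket x)) = if l = j then ket x else 0 := by
  rw [io_xi, io_ket, map_zero, sub_zero]

theorem ket_vac (x : M) : ket x vac = x := by simp [ket_apply]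

theorem cyc_sum (T : Fin 4 → Fin 4 → Fin 4 → M) :
    ∑ m, ∑ i, ∑ j, xi m (xi i (xi j (ket (T i j m)))) =
      ∑ m, ∑ i, ∑ j, xi m (xi i (xi j (ket (T m i j)))) := by
  have h : ∀ m i j, xi m (xi i (xi j (ket (T i j m)))) = xi i (xi j (xi m (ket (T i j m)))) := by
    intro m i j
    rw [xi_swap m i, xi_swap m j, map_neg, neg_neg]
  rw [Finset.sum_congr rfl fun m _ => Finset.sum_congr rfl fun i _ =>
    Finset.sum_congr rfl fun j _ => h m i j, Finset.sum_comm]
  exact Finset.sum_congr rfl fun i _ => Finset.sum_comm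

end Fock

variable {W : Type} [Ring W] [Algebra ℚ W]

theorem dF_apply (f : FI → AA W) : dF f =
    ∑ m, xi m (pw FI (vv m) f) + ze (∑ m, pw FI (mm (aa m)) (io m f)) := by
  simp [dF, LinearMap.sum_apply]

theorem ev2_dF (i j : Fin 4) (f : FI → AA W) :
    ev2 i j (dF f) = vv i (io j f vac) - vv j (io i f vac) := by
  rw [dF_apply, map_add, ev2_ze, add_zero, map_sum]
  simp only [ev2_xi, ← pw_io', pw_apply, Finset.sum_sub_distrib, Finset.sum_ite_eq',
    Finset.mem_univ, if_true]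

theorem dF_one (f : FI → AA W) : dF f (∅, 1) = ∑ m, aa m • io m f vac := by
  rw [dF_apply, Pi.add_apply, Finset.sum_apply, ze_apply]
  simp [xi_apply, vac, Finset.sum_apply]

/-- the cochain attached to `ω` and `g`. -/
noncomputable def cF (ω : Fin 4 → Fin 4 → AA W) (g : AA W) : FI → AA W :=
  (1 / 2 : ℚ) • ∑ i, ∑ j, xi i (xi j (ket (ω i j))) + ze (ket g)

theorem ev2_cF {ω : Fin 4 → Fin 4 → AA W} (hω : ∀ i j, ω i j = -ω j i) (g : AA W) (k l : Fin 4) :
    ev2 k l (cF ω g) = ω k l := by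
  rw [cF, map_add, ev2_ze, add_zero, map_smul, map_sum]
  have h : ∀ a b (x : AA W), io a (xi b (ket x)) vac = if b = a then x else 0 := by
    intro a b x
    rw [io_xi_ket]
    split_ifs
    · exact ket_vac x
    · rfl
  simp only [map_sum, ev2_xi, h, Finset.sum_sub_distrib, Finset.sum_ite_irrel,
    Finset.sum_const_zero, Finset.sum_ite_eq', Finset.mem_univ, if_true]
  rw [hω l k, sub_neg_eq_add, ← two_smul ℚ, smul_smul]
  norm_num

theorem cF_one (ω : Fin 4 → Fin 4 → AA W) (g : AA W) : cF ω g (∅, 1) = g := by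
  simp [cF, Finset.sum_apply, xi_apply, ze_apply, ket_apply, vac]

theorem dF_cF {ω : Fin 4 → Fin 4 → AA W} (hω : ∀ i j, ω i j = -ω j i) (g : AA W) :
    dF (cF ω g) = (1 / 6 : ℚ) • ∑ m, ∑ i, ∑ j,
      xi m (xi i (xi j (ket (vv m (ω i j) + vv i (ω j m) + vv j (ω m i))))) +
      ze (∑ j, xi j (ket (∑ i, aa i • ω i j + vv j g))) := by
  have h1 : ∑ m, ∑ i, ∑ j,
      xi m (xi i (xi j (ket (vv m (ω i j) + vv i (ω j m) + vv j (ω m i))))) =
      (3 : ℚ) • ∑ m, ∑ i, ∑ j, xi m (xi i (xi j (ket (vv m (ω i j))))) := by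
    simp only [map_add, Finset.sum_add_distrib]
    rw [cyc_sum (fun a b c => vv b (ω c a)), cyc_sum (fun a b c => vv a (ω b c))]
    rw [show (3 : ℚ) = 1 + 1 + 1 by norm_num, add_smul, add_smul, one_smul]
  have h2 : ∀ m i j, io m (xi i (xi j (ket (ω i j)))) =
      (if i = m then xi j (ket (ω i j)) else 0) - if j = m then xi i (ket (ω i j)) else 0 := by
    intro m i j
    rw [io_xi, io_xi_ket]
    congr 1
    split_ifs <;> simp
  have h3 : ∑ m, pw FI (mm (aa m)) (io m (∑ i, ∑ j, xi i (xi j (ket (ω i j))))) =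
      (2 : ℚ) • ∑ j, xi j (ket (∑ i, aa i • ω i j)) := by
    simp only [map_sum, h2, map_sub, Finset.sum_sub_distrib,
      Finset.sum_ite_irrel, Finset.sum_const_zero, Finset.sum_ite_eq',
      Finset.mem_univ, if_true, pw_xi', pw_ket, mm_apply]
    rw [two_smul, sub_eq_add_neg]
    congr 1
    · exact Finset.sum_comm
    · rw [Finset.sum_comm, ← Finset.sum_neg_distrib]
      refine Finset.sum_congr rfl fun j _ => ?_
      rw [← Finset.sum_neg_distrib]
      refine Finset.sum_congr rfl fun i _ => ?_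
      rw [hω j i, smul_neg, map_neg, map_neg, neg_neg]
  rw [h1, dF_apply, smul_smul, cF]
  simp only [map_add, map_smul, Finset.sum_add_distrib, ← Finset.smul_sum, h3, io_ze', io_ket,
    map_zero, add_zero, smul_smul]
  simp only [map_sum, pw_xi', pw_ket, pw_ze', xi_ze']
  norm_num
  abel

theorem SP_le_LF {a b n : ℕ} {k e : ℤ} {d : Dg} (hk : (a : ℤ) + 2 * b = k)
    (hd : d = (e + 4 * n + 4 * k, (n : ℤ) - a - b, 0)) {f : FI → AA W}
    (hf : f ∈ SP a b (Hom W d)) : f ∈ LF W n k e := by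
  intro q
  by_cases h : q.1.card = a ∧ q.2 = b
  · refine ⟨Hom_congr (hf q).1 ?_, fun h' => absurd ?_ h'⟩
    · rw [hd, wdF, cdF, h.1, h.2, hk]
    · rw [cdF, h.1, h.2, hk]
  · rw [(hf q).2 h]
    exact ⟨zero_mem _, fun _ => rfl⟩

theorem SP_mono {a b : ℕ} {S S' : Submodule ℚ (AA W)} (h : S ≤ S') : SP a b S ≤ SP a b S' :=
  fun _ hf q => ⟨h (hf q).1, (hf q).2⟩

theorem elim_mem_LL {n : ℕ} {k e : ℤ} {f : FI → AA W} (hf : f ∈ LF W n k e) :
    (Sum.elim f 0 : Idx → AA W) ∈ LL W n k e := by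
  rintro (q | b)
  · exact hf q
  · exact ⟨zero_mem _, fun _ => rfl⟩

theorem dd_inl (f : Idx → AA W) (h : f (Sum.inr false) = 0) (q : FI) :
    dd f (Sum.inl q) = dF (f ∘ Sum.inl) q := by
  change (dF (f ∘ Sum.inl) + Pi.single vac (ph (f (Sum.inr false))) : FI → AA W) q = _
  rw [h, map_zero, Pi.single_zero, add_zero]

theorem dd_pw (hD : St_DSQ) {Θ : Module.End ℚ (AA W)} (hΘ : Comm Θ) (f : Idx → AA W) :
    pw Idx Θ (dd f) = dd (pw Idx Θ f) := LinearMap.congr_fun ((hD W).2.2 Θ hΘ) f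

theorem dd_dd (hD : St_DSQ) (f : Idx → AA W) : dd (dd f) = 0 :=
  LinearMap.congr_fun (hD W).1 f

theorem dd_mem_Wd (hD : St_DSQ) (t : Dat W) {s : ℤ} {f : Idx → AA W} (hf : ∀ q, f q ∈ t.Wd s)
    (q : Idx) : dd f q ∈ t.Wd s := by
  have h := dd_pw hD (t.comm_eA_left.sub t.comm_eA_right) f
  have h1 : pw Idx (LinearMap.mulLeft ℚ t.eA - LinearMap.mulRight ℚ t.eA) f = s • f :=
    funext fun q => t.mem_Wd.1 (hf q)
  rw [h1, map_zsmul] at h
  exact congrFun h q

theorem wd_add (n : ℕ) (e : ℤ) (q : Idx) : wd n (e + 1) q = wd n e q + (1, 0, 0) := by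
  rcases q with q | b
  · simp only [wd, wdF, Prod.mk_add_mk, add_zero]; congr 1; ring
  · cases b
    · simp [wd]
    · simp only [wd, Prod.mk_add_mk, add_zero]; congr 1; ring

theorem DD_apply (t : Dat W) (f : Idx → AA W) (q : Idx) :
    t.DD f q = t.sgA (dd f q) + t.dl (f q) := rfl

/-- lifting a cocycle modulo boundaries to a total cocycle and solving it. -/
theorem solve (hD : St_DSQ) (hV : St_VAN) (t : Dat W) {n : ℕ} (hn : 1 ≤ n) {c : Idx → AA W}
    (hc : c ∈ LL W n 2 0) (hZ : ∀ q, c q ∈ t.Z0) (hB : ∀ q, dd c q ∈ t.B0) :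
    ∃ b ∈ LL W n 1 0, (∀ q, b q ∈ t.Z0) ∧ ∀ q, cd q = 2 → dd b q - c q ∈ t.B0 := by
  have hc3 := (hD W).2.1 n 2 0 c hc
  have hz : ∀ q, ∃ z ∈ t.Wd (-1), z ∈ Hom W (wd n (-1) q) ∧ t.dl z = dd c q := fun q =>
    t.exists_hom_of_mem_B0 (hB q) (by rw [← wd_add]; exact (hc3 q).1)
  choose z hz1 hz2 hz3 using hz
  have hz0 : ∀ q, cd q ≠ 3 → z q = 0 := fun q h =>
    t.eq_zero_of_dl_eq_zero (hz1 q) (by rw [hz3, (hc3 q).2 h])
  have hdz : dd z = 0 := by
    funext q
    refine t.eq_zero_of_dl_eq_zero (dd_mem_Wd hD t hz1 q) ?_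
    have h1 : pw Idx t.dl z = dd c := funext hz3
    have := dd_pw hD t.comm_dl z
    rw [h1, dd_dd hD] at this
    exact congrFun this q
  have hcW : ∀ q, c q ∈ t.Wd 0 := fun q => (t.mem_Z0'.1 (hZ q)).1
  have hC : c - z ∈ t.Tot n 2 0 := by
    intro q
    by_cases h2 : cd q = 2
    · rw [Pi.sub_apply, hz0 q (by omega), sub_zero, h2]
      exact ⟨hcW q, (hc q).1⟩
    · rw [Pi.sub_apply, (hc q).2 h2, zero_sub]
      by_cases h3 : cd q = 3
      · rw [h3]
        exact ⟨neg_mem (hz1 q), neg_mem (hz2 q)⟩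
      · rw [hz0 q h3, neg_zero]
        exact ⟨zero_mem _, zero_mem _⟩
  obtain ⟨B, hB1, hB2⟩ := hV W t n hn (c - z) hC (by
    funext q
    rw [DD_apply, map_sub, hdz, sub_zero, t.sgA_of_zero (dd_mem_Wd hD t hcW q), Pi.sub_apply,
      map_sub, (t.mem_Z0'.1 (hZ q)).2, hz3, zero_sub, add_neg_cancel]
    rfl)
  let part : ℤ → Idx → AA W := fun k q => if cd q = k then B q else 0
  have hp : ∀ k, part k ∈ LL W n k (1 - k) ∧ ∀ q, part k q ∈ t.Wd (1 - k) := by
    intro k
    refine ⟨fun q => ⟨?_, fun h => if_neg h⟩, fun q => ?_⟩ <;> simp only [part] <;>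
      split_ifs with h
    · rw [← h, ← zero_add (1 - cd q)]; exact (hB1 q).2
    · exact zero_mem _
    · rw [← h]; exact (hB1 q).1
    · exact zero_mem _
  have hsum : B = part 2 + part 1 + part 0 := by
    funext q
    simp only [part, Pi.add_apply]
    split_ifs with h2 h1 h0 h0 h1 h0 h0 <;> try omega
    · simp
    · simp
    · simp
    · rw [t.eq_zero_of_mem_Wd (by omega) (by omega) (by omega) (hB1 q).1]; simp
  have hd2 := (hD W).2.1 n _ _ _ (hp 2).1
  have hd1 := (hD W).2.1 n _ _ _ (hp 1).1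
  have hd0 := (hD W).2.1 n _ _ _ (hp 0).1
  obtain ⟨r, hr1, hr2, hr3⟩ := t.exists_dl_eq (d := wd n 0 (Sum.inl vac))
    (by simp only [wd, wdF, cdF, vac]; simp; omega) ((hp 0).2 (Sum.inl vac))
    (by rw [← wd_add]; exact ((hp 0).1 (Sum.inl vac)).1)
  let R : Idx → AA W := Pi.single (Sum.inl vac) r
  have hcd0 : ∀ q, q ≠ Sum.inl vac → cd q ≠ 0 := by
    rintro (⟨I, j⟩ | b) h h0
    · simp only [cd, cdF] at h0
      have h1 : I.card = 0 := by omega
      have h2 : j = 0 := by omega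
      exact h (by rw [Finset.card_eq_zero.1 h1, h2]; rfl)
    · cases b <;> simp [cd] at h0
  have hR : R ∈ LL W n 0 0 := by
    intro q
    by_cases h : q = Sum.inl vac
    · subst h
      exact ⟨by simpa [R] using hr2, fun h => absurd rfl h⟩
    · simp [R, h]
  have hRW : ∀ q, R q ∈ t.Wd 0 := by
    intro q
    by_cases h : q = Sum.inl vac
    · subst h; simpa [R] using hr1
    · simp [R, h]
  have hRd : pw Idx t.dl R = part 0 := by
    funext q
    by_cases h : q = Sum.inl vac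
    · subst h; simpa [R] using hr3
    · simp [R, h, part, hcd0 q h]
  have hdR := (hD W).2.1 n _ _ _ hR
  refine ⟨part 1 - dd R, sub_mem (hp 1).1 hdR, fun q => t.mem_Z0'.2
    ⟨sub_mem ((hp 1).2 q) (dd_mem_Wd hD t hRW q), ?_⟩, fun q hq => ?_⟩
  · have h1 : t.dl (dd R q) = dd (part 0) q := by
      rw [← hRd, ← dd_pw hD t.comm_dl]; rfl
    rw [Pi.sub_apply, map_sub, h1]
    by_cases hq : cd q = 1
    · have h2 := congrFun hB2 q
      rw [DD_apply, Pi.sub_apply, (hc q).2 (by omega), hz0 q (by omega), sub_zero] at h2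
      have h3 : dd B q = dd (part 0) q := by
        rw [hsum, map_add, map_add, Pi.add_apply, Pi.add_apply, (hd2 q).2 (by omega),
          (hd1 q).2 (by omega), zero_add, zero_add]
      rw [h3, t.sgA_of_one (dd_mem_Wd hD t (hp 0).2 q)] at h2
      have h4 : part 1 q = B q := if_pos hq
      rw [h4, sub_eq_neg_add, h2]
    · rw [((hp 1).1 q).2 hq, (hd0 q).2 (by omega), map_zero, sub_zero]
  · have h2 := congrFun hB2 q
    rw [DD_apply, Pi.sub_apply, hz0 q (by omega), sub_zero] at h2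
    have h3 : dd B q = dd (part 1) q := by
      rw [hsum, map_add, map_add, Pi.add_apply, Pi.add_apply, (hd2 q).2 (by omega),
        (hd0 q).2 (by omega), zero_add, add_zero]
    rw [h3, t.sgA_of_zero (dd_mem_Wd hD t (hp 1).2 q)] at h2
    rw [map_sub, dd_dd hD, sub_zero, ← h2, sub_add_cancel_left]
    refine neg_mem ⟨B q, ?_, rfl⟩
    have := (hB1 q).1
    rwa [hq] at this

end Pool.Agent.Lib.ROB.KEY

namespace Pool.Agent.Lib.ROB

open KEY

theorem stKEY (hD : St_DSQ) (hV : St_VAN) : St_KEY := by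
  intro W _ _ t n hn ω g hω h2 h1 hcyc hio
  have m2 : ∀ S : Submodule ℚ (AA W), (∀ i j, ω i j ∈ S) →
      (1 / 2 : ℚ) • ∑ i, ∑ j, xi i (xi j (ket (ω i j))) ∈ SP 2 0 S := fun S hS =>
    Submodule.smul_mem _ _ (Submodule.sum_mem _ fun i _ => Submodule.sum_mem _ fun j _ =>
      xi_mem i (xi_mem j (ket_mem (hS i j))))
  have hc : (Sum.elim (cF ω g) 0 : Idx → AA W) ∈ LL W n 2 0 := by
    refine elim_mem_LL (add_mem (SP_le_LF (by norm_num) ?_ (m2 _ fun i j => (h2 i j).2))
      (SP_le_LF (by norm_num) ?_ (ze_mem (ket_mem h1.2))))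
    · ext <;> simp
    · ext <;> simp
  obtain ⟨b, hb1, hb2, hb3⟩ := solve hD hV t hn hc (by
    rintro (q | b)
    · exact add_mem (m2 _ (fun i j => (h2 i j).1) q).1 (ze_mem (ket_mem h1.1) q).1
    · exact zero_mem _) (by
    rintro (q | b)
    · rw [dd_inl _ rfl, Sum.elim_comp_inl, dF_cF hω]
      refine add_mem (Submodule.smul_mem (SP 3 0 t.B0) _ (Submodule.sum_mem _ fun m _ =>
        Submodule.sum_mem _ fun i _ => Submodule.sum_mem _ fun j _ =>
          xi_mem m (xi_mem i (xi_mem j (ket_mem (hcyc m i j))))) q).1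
        (ze_mem (Submodule.sum_mem (SP 1 0 t.B0) fun j _ => xi_mem j (ket_mem (hio j))) q).1
    · cases b
      · change mm ell (0 : AA W) ∈ _
        simp
      · exact zero_mem _)
  have hb0 : b (Sum.inr false) = 0 := (hb1 _).2 (by simp [cd])
  have hV1 : ∀ j, io j (b ∘ Sum.inl) vac = b (Sum.inl ({j}, 0)) := by
    intro j
    simp [io_apply, vac, sg]
  have hb4 : ∀ q : FI, cdF q = 2 → (dF (b ∘ Sum.inl) - cF ω g) q ∈ t.B0 := fun q hq => by
    have := hb3 (Sum.inl q) hq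
    rwa [dd_inl _ hb0] at this
  refine ⟨fun j => io j (b ∘ Sum.inl) vac, fun j => ?_, fun i j => ?_, ?_⟩
  · simp only [hV1]
    refine ⟨hb2 _, Hom_congr (hb1 _).1 ?_⟩
    simp [wd, wdF, cdF]
  · have := ev2_mem i j hb4
    rwa [map_sub, ev2_dF, ev2_cF hω] at this
  · have := hb4 (∅, 1) (by simp [cdF])
    rwa [Pi.sub_apply, dF_one, cF_one] at this

end Pool.Agent.Lib.ROB
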