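import Pool.Agent.Lib.ROB.Blue

/-!
Block REG: the elements `a j` form a permutable regular sequence on the total complex.
-/

set_option maxSynthPendingDepth 3

open MvPolynomial
open scoped TensorProduct

namespace Pool.Agent.Lib.ROB

namespace REG

/-- exponent of `a j` -/
noncomputable def ex (j : Fin 4) : Var →₀ ℕ := Finsupp.single (Sum.inl j) 4

theorem aa_eq (j : Fin 4) : aa j = monomial (ex j) 1 := by
  rw [aa, xx, X_pow_eq_monomial, ex]

/-- quotient by `a j` -/
noncomputable def qq (j : Fin 4) : Pol →ₗ[ℚ] Pol where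
  toFun f := divMonomial f (ex j)
  map_add' f g := add_divMonomial f g _
  map_smul' c f := by
    ext m
    simp [coeff_divMonomial]

theorem coeff_qq (j : Fin 4) (f : Pol) (m : Var →₀ ℕ) : coeff m (qq j f) = coeff (ex j + m) f :=
  coeff_divMonomial _ _ _

theorem qq_self (j : Fin 4) (f : Pol) : qq j (aa j * f) = f := by
  rw [aa_eq]; exact divMonomial_monomial_mul _ _

theorem qq_other {i j : Fin 4} (h : i ≠ j) (f : Pol) : qq j (aa i * f) = aa i * qq j f := by
  classical
  ext m
  rw [coeff_qq, aa_eq, coeff_monomial_mul', coeff_monomial_mul', coeff_qq]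
  have h1 : ex i ≤ ex j + m ↔ ex i ≤ m := by
    simp [ex, Finsupp.single_le_iff, h]
  by_cases h2 : ex i ≤ m
  · rw [if_pos h2, if_pos (h1.2 h2), add_tsub_assoc_of_le h2]
  · rw [if_neg h2, if_neg (mt h1.1 h2)]

theorem wt_ex (j : Fin 4) : Finsupp.weight wt (ex j) = (4, 0, 0) := by
  rw [ex, Finsupp.weight_single]
  simp [wt]

theorem hom_qq (j : Fin 4) {d : Dg} {f : Pol} (h : f.IsWeightedHomogeneous wt d) :
    (qq j f).IsWeightedHomogeneous wt (d - (4, 0, 0)) := by
  intro m hm
  rw [coeff_qq] at hm
  have := h hm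
  rw [map_add, wt_ex] at this
  rw [← this]; abel

theorem exists_div (s : Finset (Fin 4)) :
    ∃ (rem : Pol →ₗ[ℚ] Pol) (q : Fin 4 → Pol →ₗ[ℚ] Pol),
      (∀ f, f = rem f + ∑ j ∈ s, aa j * q j f) ∧ (∀ j ∈ s, ∀ f, rem (aa j * f) = 0) ∧
      (∀ i ∉ s, ∀ f, rem (aa i * f) = aa i * rem f) ∧
      (∀ (d : Dg) (f : Pol), f.IsWeightedHomogeneous wt d → (rem f).IsWeightedHomogeneous wt d) ∧
      ∀ (j : Fin 4) (d : Dg) (f : Pol), f.IsWeightedHomogeneous wt d →
        (q j f).IsWeightedHomogeneous wt (d - (4, 0, 0)) := by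
  induction s using Finset.induction_on with
  | empty =>
    exact ⟨LinearMap.id, fun _ => 0, by simp, by simp, by simp, fun _ _ h => h,
      fun _ _ _ _ => isWeightedHomogeneous_zero _ _ _⟩
  | insert j s hj ih =>
    obtain ⟨rem, q, h1, h2, h3, h4, h5⟩ := ih
    refine ⟨(LinearMap.id - LinearMap.mulLeft ℚ (aa j) ∘ₗ qq j) ∘ₗ rem,
      Function.update q j (qq j ∘ₗ rem), fun f => ?_, fun l hl f => ?_, fun i hi f => ?_,
      fun d f hf => ?_, fun l d f hf => ?_⟩
    · rw [Finset.sum_insert hj, Function.update_self, Finset.sum_congr rfl (g := fun l =>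
        aa l * q l f) fun l hl => by rw [Function.update_of_ne (ne_of_mem_of_not_mem hl hj)]]
      simp only [LinearMap.comp_apply, LinearMap.sub_apply, LinearMap.id_apply,
        LinearMap.mulLeft_apply]
      linear_combination h1 f
    · simp only [LinearMap.comp_apply, LinearMap.sub_apply, LinearMap.id_apply,
        LinearMap.mulLeft_apply]
      rcases Finset.mem_insert.1 hl with rfl | hl
      · rw [h3 l hj, qq_self, sub_self]
      · rw [h2 l hl, map_zero, mul_zero, sub_self]
    · simp only [LinearMap.comp_apply, LinearMap.sub_apply, LinearMap.id_apply,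
        LinearMap.mulLeft_apply]
      rw [Finset.mem_insert, not_or] at hi
      rw [h3 i hi.2, qq_other hi.1]; ring
    · simp only [LinearMap.comp_apply, LinearMap.sub_apply, LinearMap.id_apply,
        LinearMap.mulLeft_apply]
      refine (h4 d f hf).sub ?_
      have := (hom_aa j).mul (hom_qq j (h4 d f hf))
      rwa [add_sub_cancel] at this
    · by_cases hl : l = j
      · subst hl
        rw [Function.update_self]
        exact hom_qq l (h4 d f hf)
      · rw [Function.update_of_ne hl]
        exact h5 l d f hf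

theorem wd_sub (n : ℕ) (e s : ℤ) (q : Idx) : wd n (e - 4 + s) q = wd n (e + s) q - (4, 0, 0) := by
  rcases q with q | _ | _ <;> simp [wd, wdF] <;> ring

end REG

theorem stREG : St_REG := by
  intro W _ _ t n s i hi k e c hc ⟨p, _, hp⟩
  obtain ⟨rem, q, h1, h2, h3, -, h5⟩ := REG.exists_div s
  have e1 : ∀ x : AA W, x = rT rem x + ∑ j ∈ s, aa j • rT (q j) x := by
    intro x
    induction x using TensorProduct.induction_on with
    | zero => simp
    | tmul f r =>
      simp only [rT_tmul, smul_tmul_pol]
      rw [← TensorProduct.sum_tmul, ← TensorProduct.add_tmul, ← h1 f]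
    | add x y hx hy =>
      simp only [map_add, smul_add, Finset.sum_add_distrib]
      rw [add_add_add_comm, ← hx, ← hy]
  have e2 : ∀ j ∈ s, ∀ x : AA W, rT rem (aa j • x) = 0 := by
    intro j hj x
    induction x using TensorProduct.induction_on with
    | zero => simp
    | tmul f r => rw [smul_tmul_pol, rT_tmul, h2 j hj, TensorProduct.zero_tmul]
    | add x y hx hy => rw [smul_add, map_add, hx, hy, add_zero]
  have e3 : ∀ x : AA W, rT rem (aa i • x) = aa i • rT rem x := by
    intro x
    induction x using TensorProduct.induction_on with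
    | zero => simp
    | tmul f r => rw [smul_tmul_pol, rT_tmul, h3 i hi, rT_tmul, smul_tmul_pol]
    | add x y hx hy => rw [smul_add, map_add, hx, hy, map_add, smul_add]
  refine ⟨fun j => pw Idx (rT (q j)) c, fun j z => ⟨t.rT_mem_Wd _ (hc z).1, ?_⟩, ?_⟩
  · rw [REG.wd_sub]
    exact rT_mem_Hom (h5 j _) (hc z).2
  · funext z
    have h6 : aa i • c z = ∑ j ∈ s, aa j • p j z := by
      have := congrFun hp z
      rw [Finset.sum_apply] at this
      simpa only [pw, LinearMap.compLeft_apply, Function.comp_apply, mm_apply] using this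
    have h7 : rT rem (c z) = 0 := by
      refine smul_eq_zero_pol (aa_ne_zero i) ?_
      rw [← e3, h6, map_sum]
      exact Finset.sum_eq_zero fun j hj => e2 j hj _
    have h8 := e1 (c z)
    rw [h7, zero_add] at h8
    rw [Finset.sum_apply]
    simpa only [pw, LinearMap.compLeft_apply, Function.comp_apply, mm_apply] using h8

end Pool.Agent.Lib.ROB
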