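import Pool.Agent.Lib.ROB.Obj

/-! Canonical (anti)commutation relations for the operators `xi`, `io`, `ze`, `dz`. -/

namespace Pool.Agent.Lib.ROB

variable {M : Type} [AddCommGroup M] [Module ℚ M]

theorem xi_apply (m : Fin 4) (f : FI → M) (q : FI) :
    xi m f q = if m ∈ q.1 then sg m q.1 • f (q.1.erase m, q.2) else 0 := rfl

theorem io_apply (m : Fin 4) (f : FI → M) (q : FI) :
    io m f q = if m ∈ q.1 then 0 else sg m q.1 • f (insert m q.1, q.2) := rfl

theorem ze_apply (f : FI → M) (q : FI) :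
    ze f q = if q.2 = 0 then 0 else f (q.1, q.2 - 1) := rfl

theorem dz_apply (f : FI → M) (q : FI) : dz f q = (q.2 + 1) • f (q.1, q.2 + 1) := rfl

theorem nu_apply (f : FI → M) (q : FI) : nu f q = (q.1.card + q.2) • f q := rfl

theorem pw_apply {ι : Type} (Θ : Module.End ℚ M) (f : ι → M) (q : ι) : pw ι Θ f q = Θ (f q) := rfl

theorem pw_mul {ι : Type} (Θ Θ' : Module.End ℚ M) : pw ι (Θ * Θ') = pw ι Θ * pw ι Θ' := rfl

theorem pw_one {ι : Type} : pw ι (1 : Module.End ℚ M) = 1 := rfl

theorem pw_zero {ι : Type} : pw ι (0 : Module.End ℚ M) = 0 := rfl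

theorem pw_add {ι : Type} (Θ Θ' : Module.End ℚ M) : pw ι (Θ + Θ') = pw ι Θ + pw ι Θ' := rfl

theorem pw_sub {ι : Type} (Θ Θ' : Module.End ℚ M) : pw ι (Θ - Θ') = pw ι Θ - pw ι Θ' := rfl

theorem pw_neg {ι : Type} (Θ : Module.End ℚ M) : pw ι (-Θ) = -pw ι Θ := rfl

theorem pw_smul {ι : Type} (c : ℚ) (Θ : Module.End ℚ M) : pw ι (c • Θ) = c • pw ι Θ := rfl

/-- `pw` as an algebra homomorphism -/
def pwA (ι : Type) : Module.End ℚ M →ₐ[ℚ] Module.End ℚ (ι → M) where
  toFun := pw ι
  map_one' := rfl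
  map_mul' _ _ := rfl
  map_zero' := rfl
  map_add' _ _ := rfl
  commutes' _ := rfl

theorem pw_sum {ι κ : Type} (s : Finset κ) (Θ : κ → Module.End ℚ M) :
    pw ι (∑ k ∈ s, Θ k) = ∑ k ∈ s, pw ι (Θ k) := map_sum (pwA ι) Θ s

theorem pw_pow {ι : Type} (Θ : Module.End ℚ M) (n : ℕ) : pw ι (Θ ^ n) = pw ι Θ ^ n :=
  map_pow (pwA ι) Θ n

theorem pw_xi (Θ : Module.End ℚ M) (m : Fin 4) : pw FI Θ * xi m = xi m * pw FI Θ := by
  ext1 f; funext q
  simp only [Module.End.mul_apply, pw_apply, xi_apply]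
  split_ifs <;> simp

theorem pw_io (Θ : Module.End ℚ M) (m : Fin 4) : pw FI Θ * io m = io m * pw FI Θ := by
  ext1 f; funext q
  simp only [Module.End.mul_apply, pw_apply, io_apply]
  split_ifs <;> simp

theorem pw_ze (Θ : Module.End ℚ M) : pw FI Θ * ze = ze * pw FI Θ := by
  ext1 f; funext q
  simp only [Module.End.mul_apply, pw_apply, ze_apply]
  split_ifs <;> simp

theorem pw_dz (Θ : Module.End ℚ M) : pw FI Θ * dz = dz * pw FI Θ := by
  ext1 f; funext q
  simp only [Module.End.mul_apply, pw_apply, dz_apply, map_nsmul]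

theorem pw_nu (Θ : Module.End ℚ M) : pw FI Θ * nu = nu * pw FI Θ := by
  ext1 f; funext q
  simp only [Module.End.mul_apply, pw_apply, nu_apply, map_nsmul]

theorem sg_ee : ∀ (m k : Fin 4) (I : Finset (Fin 4)), m ≠ k → m ∈ I → k ∈ I →
    sg m I * sg k (I.erase m) + sg k I * sg m (I.erase k) = 0 := by decide

theorem sg_ii : ∀ (m k : Fin 4) (I : Finset (Fin 4)), m ≠ k → m ∉ I → k ∉ I →
    sg m I * sg k (insert m I) + sg k I * sg m (insert k I) = 0 := by decide

theorem sg_ei : ∀ (m k : Fin 4) (I : Finset (Fin 4)), m ≠ k → m ∈ I → k ∉ I →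
    sg m I * sg k (I.erase m) + sg k I * sg m (insert k I) = 0 := by decide

theorem sg_e : ∀ (m : Fin 4) (I : Finset (Fin 4)), sg m I * sg m (I.erase m) = 1 := by decide

theorem sg_i : ∀ (m : Fin 4) (I : Finset (Fin 4)), sg m I * sg m (insert m I) = 1 := by decide

theorem xi_xi (m k : Fin 4) : (xi m * xi k + xi k * xi m : Module.End ℚ (FI → M)) = 0 := by
  ext1 f; funext q
  simp only [LinearMap.add_apply, Module.End.mul_apply, Pi.add_apply, xi_apply, Finset.mem_erase,
    LinearMap.zero_apply, Pi.zero_apply]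
  by_cases h : m = k
  · subst h; simp
  · by_cases h1 : m ∈ q.1 <;> by_cases h2 : k ∈ q.1 <;> simp [h, Ne.symm h, h1, h2]
    rw [Finset.erase_right_comm (a := k), smul_smul, smul_smul, ← add_smul, sg_ee m k _ h h1 h2,
      zero_smul]

theorem io_io (m k : Fin 4) : (io m * io k + io k * io m : Module.End ℚ (FI → M)) = 0 := by
  ext1 f; funext q
  simp only [LinearMap.add_apply, Module.End.mul_apply, Pi.add_apply, io_apply, Finset.mem_insert,
    LinearMap.zero_apply, Pi.zero_apply]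
  by_cases h : m = k
  · subst h; simp
  · by_cases h1 : m ∈ q.1 <;> by_cases h2 : k ∈ q.1 <;> simp [h, Ne.symm h, h1, h2]
    rw [Finset.insert_comm k, smul_smul, smul_smul, ← add_smul, sg_ii m k _ h h1 h2, zero_smul]

theorem xi_io (m k : Fin 4) :
    (xi m * io k + io k * xi m : Module.End ℚ (FI → M)) = if m = k then 1 else 0 := by
  ext1 f; funext q
  simp only [LinearMap.add_apply, Module.End.mul_apply, Pi.add_apply, xi_apply, io_apply,
    Finset.mem_erase, Finset.mem_insert]
  by_cases h : m = k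
  · subst h
    by_cases h1 : m ∈ q.1
    · simp [h1, smul_smul, sg_e]
    · simp [h1, smul_smul, sg_i]
  · by_cases h1 : m ∈ q.1 <;> by_cases h2 : k ∈ q.1 <;> simp [h, Ne.symm h, h1, h2]
    rw [Finset.erase_insert_of_ne (Ne.symm h), smul_smul, smul_smul, ← add_smul,
      sg_ei m k _ h h1 h2, zero_smul]

theorem xi_ze (m : Fin 4) : (xi m * ze : Module.End ℚ (FI → M)) = ze * xi m := by
  ext1 f; funext q
  simp only [Module.End.mul_apply, xi_apply, ze_apply]
  split_ifs <;> simp

theorem io_ze (m : Fin 4) : (io m * ze : Module.End ℚ (FI → M)) = ze * io m := by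
  ext1 f; funext q
  simp only [Module.End.mul_apply, io_apply, ze_apply]
  split_ifs <;> simp

theorem xi_dz (m : Fin 4) : (xi m * dz : Module.End ℚ (FI → M)) = dz * xi m := by
  ext1 f; funext q
  simp only [Module.End.mul_apply, xi_apply, dz_apply]
  split_ifs
  · rw [smul_comm]
  · simp

theorem io_dz (m : Fin 4) : (io m * dz : Module.End ℚ (FI → M)) = dz * io m := by
  ext1 f; funext q
  simp only [Module.End.mul_apply, io_apply, dz_apply]
  split_ifs
  · simp
  · rw [smul_comm]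

theorem dz_ze : (dz * ze : Module.End ℚ (FI → M)) = ze * dz + 1 := by
  ext1 f; funext q
  obtain ⟨I, j⟩ := q
  simp only [LinearMap.add_apply, Module.End.mul_apply, Pi.add_apply, ze_apply, dz_apply,
    Module.End.one_apply]
  rcases j with _ | j
  · simp
  · simp [add_smul]

theorem nu_eq : (nu : Module.End ℚ (FI → M)) = ∑ m, xi m * io m + ze * dz := by
  ext1 f; funext q
  obtain ⟨I, j⟩ := q
  have h1 : ∀ m : Fin 4, (xi m * io m : Module.End ℚ (FI → M)) f (I, j) =
      if m ∈ I then f (I, j) else 0 := by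
    intro m
    simp only [Module.End.mul_apply, xi_apply, io_apply]
    by_cases h : m ∈ I
    · simp [h, smul_smul, sg_e]
    · simp [h]
  have h2 : (ze * dz : Module.End ℚ (FI → M)) f (I, j) = j • f (I, j) := by
    simp only [Module.End.mul_apply, ze_apply, dz_apply]
    rcases j with _ | j <;> simp
  rw [LinearMap.add_apply, Pi.add_apply, LinearMap.sum_apply, Finset.sum_apply, h2,
    Finset.sum_congr rfl fun m _ => h1 m, nu_apply, add_smul]
  simp

end Pool.Agent.Lib.ROB
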