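import Pool.Agent.Lib.ROB.Poly
import Pool.Agent.Lib.ROB.Fock

/-!
Basic API for `AA W = Pol ⊗ W`.
-/

open MvPolynomial
open scoped TensorProduct

namespace Pool.Agent.Lib.ROB

variable {W : Type} [Ring W] [Algebra ℚ W]

@[simp] theorem rT_tmul (F : Pol →ₗ[ℚ] Pol) (f : Pol) (r : W) :
    rT F (f ⊗ₜ[ℚ] r) = F f ⊗ₜ[ℚ] r := rfl

theorem end_ext {Θ Θ' : Module.End ℚ (AA W)} (h : ∀ f r, Θ (f ⊗ₜ[ℚ] r) = Θ' (f ⊗ₜ[ℚ] r)) :
    Θ = Θ' := TensorProduct.ext' h

theorem rT_mul (F G : Module.End ℚ Pol) : rT (W := W) (F * G) = rT F * rT G :=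
  end_ext fun _ _ => rfl

theorem rT_rT (F G : Pol →ₗ[ℚ] Pol) (x : AA W) : rT F (rT G x) = rT (F ∘ₗ G) x :=
  (LinearMap.congr_fun (rT_mul F G) x).symm

theorem rT_add (F G : Pol →ₗ[ℚ] Pol) : rT (W := W) (F + G) = rT F + rT G :=
  end_ext fun f r => by simp [TensorProduct.add_tmul]

theorem rT_sub (F G : Pol →ₗ[ℚ] Pol) : rT (W := W) (F - G) = rT F - rT G :=
  end_ext fun f r => by simp [TensorProduct.sub_tmul]

theorem rT_zero : rT (W := W) 0 = 0 := end_ext fun f r => by simp

theorem rT_id : rT (W := W) LinearMap.id = 1 := end_ext fun f r => by simp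

theorem rT_sum {ι : Type} (s : Finset ι) (F : ι → Pol →ₗ[ℚ] Pol) :
    rT (W := W) (∑ i ∈ s, F i) = ∑ i ∈ s, rT (F i) :=
  end_ext fun f r => by simp [TensorProduct.sum_tmul, LinearMap.sum_apply]

theorem rT_comm {F G : Pol →ₗ[ℚ] Pol} (h : ∀ f, F (G f) = G (F f)) :
    rT (W := W) F * rT G = rT G * rT F :=
  end_ext fun f r => by simp [h]

theorem smul_tmul_pol (f g : Pol) (r : W) : f • (g ⊗ₜ[ℚ] r : AA W) = (f * g) ⊗ₜ[ℚ] r := rfl

@[simp] theorem mm_apply (f : Pol) (x : AA W) : mm f x = f • x := by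
  induction x using TensorProduct.induction_on with
  | zero => simp
  | tmul g r => rfl
  | add x y hx hy => rw [map_add, hx, hy, smul_add]

theorem smul_eq_tmul_mul (f : Pol) (x : AA W) : f • x = (f ⊗ₜ[ℚ] (1 : W)) * x := by
  induction x using TensorProduct.induction_on with
  | zero => simp
  | tmul g r => rw [smul_tmul_pol, Algebra.TensorProduct.tmul_mul_tmul, one_mul]
  | add x y hx hy => rw [smul_add, mul_add, hx, hy]

theorem smul_eq_mul_tmul (f : Pol) (x : AA W) : f • x = x * (f ⊗ₜ[ℚ] (1 : W)) := by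
  induction x using TensorProduct.induction_on with
  | zero => simp
  | tmul g r => rw [smul_tmul_pol, Algebra.TensorProduct.tmul_mul_tmul, mul_one, mul_comm]
  | add x y hx hy => rw [smul_add, add_mul, hx, hy]

theorem pol_smul_mul (f : Pol) (x y : AA W) : (f • x) * y = f • (x * y) := by
  rw [smul_eq_tmul_mul, smul_eq_tmul_mul, mul_assoc]

theorem mul_pol_smul (f : Pol) (x y : AA W) : x * (f • y) = f • (x * y) := by
  rw [smul_eq_mul_tmul, smul_eq_mul_tmul, mul_assoc]

theorem mm_mul (f g : Pol) : mm (W := W) (f * g) = mm f * mm g :=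
  LinearMap.ext fun x => by simp [mul_smul]

theorem mm_comm (f g : Pol) : mm (W := W) f * mm g = mm g * mm f := by
  rw [← mm_mul, mul_comm, mm_mul]

theorem der_mul (D : Derivation ℚ Pol Pol) (x y : AA W) :
    rT D.toLinearMap (x * y) = rT D.toLinearMap x * y + x * rT D.toLinearMap y := by
  induction x using TensorProduct.induction_on with
  | zero => simp
  | add x x' hx hx' => simp only [add_mul, map_add, hx, hx']; abel
  | tmul f r =>
    induction y using TensorProduct.induction_on with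
    | zero => simp
    | add y y' hy hy' => simp only [mul_add, map_add, hy, hy']; abel
    | tmul g s =>
      simp only [Algebra.TensorProduct.tmul_mul_tmul, rT_tmul, Derivation.coeFn_coe,
        Derivation.leibniz, smul_eq_mul, TensorProduct.add_tmul]
      rw [add_comm, mul_comm g]

theorem der_smul (D : Derivation ℚ Pol Pol) (f : Pol) (x : AA W) :
    rT D.toLinearMap (f • x) = D f • x + f • rT D.toLinearMap x := by
  rw [smul_eq_tmul_mul, der_mul, rT_tmul, ← smul_eq_tmul_mul, ← smul_eq_tmul_mul]; rfl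

theorem der_one_tmul (D : Derivation ℚ Pol Pol) (r : W) :
    rT D.toLinearMap ((1 : Pol) ⊗ₜ[ℚ] r) = 0 := by simp

theorem alg_mul (φ : Pol →ₐ[ℚ] Pol) (x y : AA W) :
    rT φ.toLinearMap (x * y) = rT φ.toLinearMap x * rT φ.toLinearMap y := by
  induction x using TensorProduct.induction_on with
  | zero => simp
  | add x x' hx hx' => simp only [add_mul, map_add, hx, hx']
  | tmul f r =>
    induction y using TensorProduct.induction_on with
    | zero => simp
    | add y y' hy hy' => simp only [mul_add, map_add, hy, hy']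
    | tmul g s => simp

theorem alg_smul (φ : Pol →ₐ[ℚ] Pol) (f : Pol) (x : AA W) :
    rT φ.toLinearMap (f • x) = φ f • rT φ.toLinearMap x := by
  rw [smul_eq_tmul_mul, alg_mul, rT_tmul, ← smul_eq_tmul_mul]; rfl

theorem rT_one_tmul_mul (F : Pol →ₗ[ℚ] Pol) (r : W) (x : AA W) :
    rT F (((1 : Pol) ⊗ₜ[ℚ] r) * x) = ((1 : Pol) ⊗ₜ[ℚ] r) * rT F x := by
  induction x using TensorProduct.induction_on with
  | zero => simp
  | add x x' hx hx' => simp only [mul_add, map_add, hx, hx']
  | tmul f s => simp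

theorem rT_mul_one_tmul (F : Pol →ₗ[ℚ] Pol) (r : W) (x : AA W) :
    rT F (x * ((1 : Pol) ⊗ₜ[ℚ] r)) = rT F x * ((1 : Pol) ⊗ₜ[ℚ] r) := by
  induction x using TensorProduct.induction_on with
  | zero => simp
  | add x x' hx hx' => simp only [add_mul, map_add, hx, hx']
  | tmul f s => simp

theorem smul_eq_zero_pol {f : Pol} (hf : f ≠ 0) {x : AA W} (h : f • x = 0) : x = 0 :=
  (smul_eq_zero.1 h).resolve_left hf

/-! ### the basic operators -/

theorem dP_mul (α : Fin 6) (x y : AA W) : dP α (x * y) = dP α x * y + x * dP α y := der_mul _ x y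
theorem vv_mul (j : Fin 4) (x y : AA W) : vv j (x * y) = vv j x * y + x * vv j y := der_mul _ x y
theorem dP_smul (α : Fin 6) (f : Pol) (x : AA W) :
    dP α (f • x) = dPd α f • x + f • dP α x := der_smul _ f x
theorem dK_smul (m : Fin 4) (f : Pol) (x : AA W) :
    dK m (f • x) = dKd m f • x + f • dK m x := der_smul _ f x
theorem vv_smul (j : Fin 4) (f : Pol) (x : AA W) :
    vv j (f • x) = vP j f • x + f • vv j x := der_smul _ f x
theorem ph_smul (f : Pol) (x : AA W) : ph (f • x) = phi f • ph x := alg_smul _ f x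
theorem ps_smul (i : Fin 4) (f : Pol) (x : AA W) : ps i (f • x) = psi i f • ps i x :=
  alg_smul _ f x
theorem vv_aa_smul (j l : Fin 4) (x : AA W) : vv j (aa l • x) = aa l • vv j x := by
  rw [vv_smul, vP_aa, zero_smul, zero_add]

theorem vv_eq (j : Fin 4) : vv (W := W) j = ∑ α, mm (vc j α) * dP α :=
  end_ext fun f r => by
    simp only [vv, rT_tmul, Derivation.coeFn_coe, vP_apply, TensorProduct.sum_tmul,
      LinearMap.sum_apply, Module.End.mul_apply, mm_apply, dP, smul_tmul_pol]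

theorem vv_apply (j : Fin 4) (x : AA W) : vv j x = ∑ α, vc j α • dP α x := by
  simp [vv_eq, LinearMap.sum_apply]

theorem vv_comm (i j : Fin 4) (x : AA W) : vv i (vv j x) = vv j (vv i x) :=
  LinearMap.congr_fun (rT_comm (W := W) (F := (vP i).toLinearMap) (G := (vP j).toLinearMap)
    (vP_comm i j)) x

theorem dP_comm (α β : Fin 6) : dP (W := W) α * dP β = dP β * dP α :=
  rT_comm (pderiv_comm' _ _)

theorem dK_comm (α β : Fin 4) : dK (W := W) α * dK β = dK β * dK α :=
  rT_comm (pderiv_comm' _ _)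

theorem sum_aa_vv (x : AA W) : ∑ j, aa j • vv j x = 0 := by
  induction x using TensorProduct.induction_on with
  | zero => simp
  | add x x' hx hx' => simp only [map_add, smul_add, Finset.sum_add_distrib, hx, hx', add_zero]
  | tmul f s =>
    simp only [vv, rT_tmul, smul_tmul_pol, ← TensorProduct.sum_tmul, Derivation.coeFn_coe,
      sum_aa_vP, TensorProduct.zero_tmul]

theorem vv_ph (j : Fin 4) (x : AA W) : vv j (ph x) = 0 := by
  induction x using TensorProduct.induction_on with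
  | zero => simp
  | add x x' hx hx' => simp only [map_add, hx, hx', add_zero]
  | tmul f s => simp [vv, ph, vP_phi]

theorem vv_uu_one (j : Fin 4) : vv j (uu • (1 : AA W)) = 0 := by
  rw [vv_smul, vP_uu, zero_smul, zero_add, Algebra.TensorProduct.one_def, vv, der_one_tmul,
    smul_zero]

/-! ### homogeneous elements -/

theorem tmul_mem_Hom {d : Dg} {f : Pol} (hf : f.IsWeightedHomogeneous wt d) (r : W) :
    f ⊗ₜ[ℚ] r ∈ Hom W d := Submodule.subset_span ⟨f, r, hf, rfl⟩

theorem Hom_induction' {d : Dg} {p : AA W → Prop} (zero : p 0)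
    (add : ∀ x y, p x → p y → p (x + y))
    (tmul : ∀ (f : Pol) (r : W), f.IsWeightedHomogeneous wt d → p (f ⊗ₜ[ℚ] r))
    {x : AA W} (hx : x ∈ Hom W d) : p x := by
  have : ∀ c : ℚ, p (c • x) := by
    induction hx using Submodule.span_induction with
    | mem x hx =>
      obtain ⟨f, r, hf, rfl⟩ := hx
      intro c
      rw [← TensorProduct.tmul_smul]
      exact tmul f _ hf
    | zero => simpa using zero
    | add x y _ _ hx hy => intro c; rw [smul_add]; exact add _ _ (hx c) (hy c)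
    | smul a x _ hx => intro c; rw [smul_smul]; exact hx _
  simpa using this 1

/-- induction over monomials. -/
theorem Hom_induction {d : Dg} {p : AA W → Prop} (zero : p 0)
    (add : ∀ x y, p x → p y → p (x + y))
    (mon : ∀ (m : Var →₀ ℕ) (r : W), Finsupp.weight wt m = d → p (monomial m 1 ⊗ₜ[ℚ] r))
    {x : AA W} (hx : x ∈ Hom W d) : p x := by
  refine Hom_induction' zero add (fun f r hf => ?_) hx
  induction hf using IsWeightedHomogeneous.induction_on with
  | zero => simpa using zero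
  | add f g _ _ hf hg => rw [TensorProduct.add_tmul]; exact add _ _ hf hg
  | monomial m c hm =>
    have : (monomial m c : Pol) = c • monomial m 1 := by simp [smul_monomial]
    rw [this, TensorProduct.smul_tmul]
    exact mon m _ hm

theorem rT_mem_Hom {d d' : Dg} {F : Pol →ₗ[ℚ] Pol}
    (h : ∀ f : Pol, f.IsWeightedHomogeneous wt d → (F f).IsWeightedHomogeneous wt d')
    {x : AA W} (hx : x ∈ Hom W d) : rT F x ∈ Hom W d' :=
  Hom_induction' (p := fun x => rT F x ∈ Hom W d') (by simp)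
    (fun x y hx hy => by rw [map_add]; exact add_mem hx hy)
    (fun f r hf => tmul_mem_Hom (h f hf) r) hx

theorem eq_on_Hom {d : Dg} {Θ Θ' : Module.End ℚ (AA W)}
    (h : ∀ (m : Var →₀ ℕ) (r : W), Finsupp.weight wt m = d →
      Θ (monomial m 1 ⊗ₜ[ℚ] r) = Θ' (monomial m 1 ⊗ₜ[ℚ] r))
    {x : AA W} (hx : x ∈ Hom W d) : Θ x = Θ' x :=
  Hom_induction (p := fun x => Θ x = Θ' x) (by simp)
    (fun x y hx hy => by rw [map_add, map_add, hx, hy]) h hx

theorem Hom_mul {d d' : Dg} {x y : AA W} (hx : x ∈ Hom W d) (hy : y ∈ Hom W d') :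
    x * y ∈ Hom W (d + d') := by
  refine Hom_induction' (p := fun x => x * y ∈ Hom W (d + d')) (by simp)
    (fun x x' h h' => by rw [add_mul]; exact add_mem h h') (fun f r hf => ?_) hx
  refine Hom_induction' (p := fun y => f ⊗ₜ[ℚ] r * y ∈ Hom W (d + d')) (by simp)
    (fun x x' h h' => by rw [mul_add]; exact add_mem h h') (fun g s hg => ?_) hy
  rw [Algebra.TensorProduct.tmul_mul_tmul]
  exact tmul_mem_Hom (hf.mul hg) _

theorem smul_mem_Hom {d d' : Dg} {f : Pol} (hf : f.IsWeightedHomogeneous wt d) {x : AA W}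
    (hx : x ∈ Hom W d') : f • x ∈ Hom W (d + d') := by
  rw [smul_eq_tmul_mul]
  exact Hom_mul (tmul_mem_Hom hf 1) hx

theorem one_tmul_mem_Hom (r : W) : (1 : Pol) ⊗ₜ[ℚ] r ∈ Hom W 0 :=
  tmul_mem_Hom (isWeightedHomogeneous_one _ _) r

theorem one_mem_Hom : (1 : AA W) ∈ Hom W 0 := one_tmul_mem_Hom 1

theorem Hom_congr {d d' : Dg} {x : AA W} (hx : x ∈ Hom W d) (h : d = d') : x ∈ Hom W d' := h ▸ hx

theorem eq_zero_of_neg {d : Dg} (hd : d.1 < 0 ∨ d.2.1 < 0 ∨ d.2.2 < 0) {x : AA W}
    (hx : x ∈ Hom W d) : x = 0 := by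
  refine Hom_induction (p := fun x => x = 0) rfl (fun x y hx hy => by rw [hx, hy, add_zero])
    (fun m r hm => ?_) hx
  exfalso
  rw [weight_wt] at hm
  subst hm
  simp only at hd
  omega

theorem pr_mem (d : Dg) (x : AA W) : pr d x ∈ Hom W d := by
  induction x using TensorProduct.induction_on with
  | zero => simp
  | add x y hx hy => rw [map_add]; exact add_mem hx hy
  | tmul f r => exact tmul_mem_Hom (weightedHomogeneousComponent_isWeightedHomogeneous _ _) r

theorem pr_of_mem {d : Dg} {x : AA W} (hx : x ∈ Hom W d) : pr d x = x :=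
  Hom_induction' (p := fun x => pr d x = x) (by simp)
    (fun x y hx hy => by rw [map_add, hx, hy])
    (fun f r hf => by rw [pr, rT_tmul, hf.weightedHomogeneousComponent_same]) hx

theorem pr_of_ne {d d' : Dg} (h : d' ≠ d) {x : AA W} (hx : x ∈ Hom W d) : pr d' x = 0 :=
  Hom_induction' (p := fun x => pr d' x = 0) (by simp)
    (fun x y hx hy => by rw [map_add, hx, hy, add_zero])
    (fun f r hf => by rw [pr, rT_tmul, hf.weightedHomogeneousComponent_ne d' h]; simp) hx

theorem AA_induction {p : AA W → Prop} (zero : p 0) (add : ∀ x y, p x → p y → p (x + y))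
    (hom : ∀ d x, x ∈ Hom W d → p x) (x : AA W) : p x := by
  induction x using TensorProduct.induction_on with
  | zero => exact zero
  | add x y hx hy => exact add _ _ hx hy
  | tmul f r =>
    induction f using MvPolynomial.induction_on' with
    | monomial m c => exact hom _ _ (tmul_mem_Hom (isWeightedHomogeneous_monomial _ m c rfl) r)
    | add f g hf hg => rw [TensorProduct.add_tmul]; exact add _ _ hf hg

/-- a homogeneous operator commutes with the projections. -/
theorem pr_comm {Θ : Module.End ℚ (AA W)} {δ : Dg}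
    (h : ∀ d x, x ∈ Hom W d → Θ x ∈ Hom W (d + δ)) (d : Dg) (x : AA W) :
    pr (d + δ) (Θ x) = Θ (pr d x) := by
  refine AA_induction (p := fun x => pr (d + δ) (Θ x) = Θ (pr d x)) (by simp)
    (fun x y hx hy => by simp only [map_add, hx, hy]) (fun d' x hx => ?_) x
  by_cases hd : d = d'
  · subst hd
    rw [pr_of_mem hx, pr_of_mem (h _ _ hx)]
  · rw [pr_of_ne hd hx, map_zero, pr_of_ne (fun h' => hd (add_right_cancel h')) (h _ _ hx)]

theorem dP_mem {d : Dg} (α : Fin 6) {x : AA W} (hx : x ∈ Hom W d) :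
    dP α x ∈ Hom W (d - (0, 1, 0)) :=
  rT_mem_Hom (F := (dPd α).toLinearMap) (fun _ hf => IsWeightedHomogeneous.pderiv
    (i := Sum.inr (Sum.inl α)) hf (sub_add_cancel d (0, 1, 0))) hx

theorem dK_mem {d : Dg} (m : Fin 4) {x : AA W} (hx : x ∈ Hom W d) :
    dK m x ∈ Hom W (d - (0, 0, 1)) :=
  rT_mem_Hom (F := (dKd m).toLinearMap) (fun _ hf => IsWeightedHomogeneous.pderiv
    (i := Sum.inr (Sum.inr m)) hf (sub_add_cancel d (0, 0, 1))) hx

theorem vv_mem {d : Dg} (j : Fin 4) {x : AA W} (hx : x ∈ Hom W d) :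
    vv j x ∈ Hom W (d + (4, -1, 0)) := by
  rw [vv_apply]
  refine Submodule.sum_mem _ fun α _ => Hom_congr (smul_mem_Hom (hom_vc j α) (dP_mem α hx)) ?_
  ext <;> simp <;> ring

theorem aa_smul_mem {d : Dg} (j : Fin 4) {x : AA W} (hx : x ∈ Hom W d) :
    aa j • x ∈ Hom W (d + (4, 0, 0)) :=
  Hom_congr (smul_mem_Hom (hom_aa j) hx) (add_comm _ _)

/-- Euler identity in `P`. -/
theorem euler_P {d : Dg} {x : AA W} (hx : x ∈ Hom W d) : ∑ α, pp α • dP α x = d.2.1 • x := by
  refine Hom_induction (p := fun x => ∑ α, pp α • dP α x = d.2.1 • x) (by simp)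
    (fun x y hx hy => by simp only [map_add, smul_add, Finset.sum_add_distrib, hx, hy])
    (fun m r hm => ?_) hx
  rw [weight_wt] at hm
  subst hm
  simp only [dP, dPd, pp, rT_tmul, Derivation.coeFn_coe, smul_tmul_pol, X_mul_pderiv_monomial,
    ← TensorProduct.sum_tmul, ← Finset.sum_smul, natCast_zsmul]
  rw [TensorProduct.smul_tmul']

/-- Euler identity in `κ`. -/
theorem euler_K {d : Dg} {x : AA W} (hx : x ∈ Hom W d) : ∑ m, kk m • dK m x = d.2.2 • x := by
  refine Hom_induction (p := fun x => ∑ m, kk m • dK m x = d.2.2 • x) (by simp)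
    (fun x y hx hy => by simp only [map_add, smul_add, Finset.sum_add_distrib, hx, hy])
    (fun m r hm => ?_) hx
  rw [weight_wt] at hm
  subst hm
  simp only [dK, dKd, kk, rT_tmul, Derivation.coeFn_coe, smul_tmul_pol, X_mul_pderiv_monomial,
    ← TensorProduct.sum_tmul, ← Finset.sum_smul, natCast_zsmul]
  rw [TensorProduct.smul_tmul']

theorem monomial_eq_prod (m : Var →₀ ℕ) : (monomial m 1 : Pol) =
    (∏ l, xx l ^ m (Sum.inl l)) * ((∏ α, pp α ^ m (Sum.inr (Sum.inl α))) *
      ∏ k, kk k ^ m (Sum.inr (Sum.inr k))) := by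
  rw [monomial_eq, C_1, one_mul, Finsupp.prod_fintype _ _ (by simp)]
  simp [Fintype.prod_sum_type, xx, pp, kk]

theorem hom_prod_pow {ι : Type} [Fintype ι] {g : ι → Pol} {d : Dg}
    (hg : ∀ i, (g i).IsWeightedHomogeneous wt d) (k : ι → ℕ) :
    (∏ i, g i ^ k i).IsWeightedHomogeneous wt ((∑ i, k i) • d) := by
  rw [Finset.sum_smul]
  exact IsWeightedHomogeneous.prod _ _ _ fun i _ => (hg i).pow _

theorem ph_mem {e n : ℤ} {x : AA W} (hx : x ∈ Hom W (e, 0, n)) : ph x ∈ Hom W (e + 4 * n, n, 0) := by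
  refine Hom_induction (p := fun x => ph x ∈ Hom W (e + 4 * n, n, 0)) (by simp)
    (fun x y hx hy => by rw [map_add]; exact add_mem hx hy) (fun m r hm => ?_) hx
  rw [weight_wt] at hm
  simp only [Prod.mk.injEq, Nat.cast_eq_zero, Finset.sum_eq_zero_iff, Finset.mem_univ,
    true_imp_iff] at hm
  obtain ⟨h1, h2, h3⟩ := hm
  refine tmul_mem_Hom ?_ r
  simp only [monomial_eq_prod, h2, pow_zero, Finset.prod_const_one, one_mul, AlgHom.toLinearMap_apply,
    map_mul, map_prod, map_pow, phi_xx, phi_kk]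
  convert (hom_prod_pow hom_xx _).mul (hom_prod_pow hom_kap _) using 1
  rw [← h1, ← h3]
  ext <;> simp [mul_comm]

theorem ps_mem (i : Fin 4) {e n : ℤ} {x : AA W} (hx : x ∈ Hom W (e, n, 0)) :
    ps i x ∈ Hom W (e, 0, n) := by
  refine Hom_induction (p := fun x => ps i x ∈ Hom W (e, 0, n)) (by simp)
    (fun x y hx hy => by rw [map_add]; exact add_mem hx hy) (fun m r hm => ?_) hx
  rw [weight_wt] at hm
  simp only [Prod.mk.injEq, Nat.cast_eq_zero, Finset.sum_eq_zero_iff, Finset.mem_univ,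
    true_imp_iff] at hm
  obtain ⟨h1, h2, h3⟩ := hm
  refine tmul_mem_Hom ?_ r
  simp only [monomial_eq_prod, h3, pow_zero, Finset.prod_const_one, mul_one, AlgHom.toLinearMap_apply,
    map_mul, map_prod, map_pow, psi_xx, psi_pp]
  convert (hom_prod_pow hom_xx _).mul (hom_prod_pow (hom_psiP i) _) using 1
  rw [← h1, ← h2]
  ext <;> simp

theorem alg_fix (φ : Pol →ₐ[ℚ] Pol) (hφ : ∀ l, φ (xx l) = xx l) {e : ℤ} {x : AA W}
    (hx : x ∈ Hom W (e, 0, 0)) : rT φ.toLinearMap x = x := by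
  refine eq_on_Hom (Θ' := 1) (fun m r hm => ?_) hx
  rw [weight_wt] at hm
  simp only [Prod.mk.injEq, Nat.cast_eq_zero, Finset.sum_eq_zero_iff, Finset.mem_univ,
    true_imp_iff] at hm
  obtain ⟨-, h2, h3⟩ := hm
  simp [monomial_eq_prod, h2, h3, hφ]

theorem ph_fix {e : ℤ} {x : AA W} (hx : x ∈ Hom W (e, 0, 0)) : ph x = x := alg_fix _ phi_xx hx

theorem ps_fix (i : Fin 4) {e : ℤ} {x : AA W} (hx : x ∈ Hom W (e, 0, 0)) : ps i x = x :=
  alg_fix _ (psi_xx i) hx

/-! ### operators commuting with the polynomial operators -/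

theorem Comm.add {Θ Θ' : Module.End ℚ (AA W)} (h : Comm Θ) (h' : Comm Θ') : Comm (Θ + Θ') := by
  obtain ⟨a, b, c, d, e⟩ := h
  obtain ⟨a', b', c', d', e'⟩ := h'
  refine ⟨fun f => ?_, fun f => ?_, fun f => ?_, ?_, fun f => ?_⟩ <;>
    simp only [add_mul, mul_add, *]

theorem Comm.sub {Θ Θ' : Module.End ℚ (AA W)} (h : Comm Θ) (h' : Comm Θ') : Comm (Θ - Θ') := by
  obtain ⟨a, b, c, d, e⟩ := h
  obtain ⟨a', b', c', d', e'⟩ := h'
  have key : ∀ G : Module.End ℚ (AA W), Θ * G = G * Θ → Θ' * G = G * Θ' →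
      (Θ - Θ') * G = G * (Θ - Θ') := fun G h1 h2 => LinearMap.ext fun x => by
    have h3 := LinearMap.congr_fun h1 x
    have h4 := LinearMap.congr_fun h2 x
    simp only [Module.End.mul_apply, LinearMap.sub_apply, map_sub] at *
    rw [h3, h4]
  exact ⟨fun f => key _ (a f) (a' f), fun f => key _ (b f) (b' f), fun f => key _ (c f) (c' f),
    key _ d d', fun f => key _ (e f) (e' f)⟩

theorem Comm.mul {Θ Θ' : Module.End ℚ (AA W)} (h : Comm Θ) (h' : Comm Θ') : Comm (Θ * Θ') := by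
  obtain ⟨a, b, c, d, e⟩ := h
  obtain ⟨a', b', c', d', e'⟩ := h'
  refine ⟨fun f => ?_, fun f => ?_, fun f => ?_, ?_, fun f => ?_⟩
  · rw [mul_assoc, a', ← mul_assoc, a, mul_assoc]
  · rw [mul_assoc, b', ← mul_assoc, b, mul_assoc]
  · rw [mul_assoc, c', ← mul_assoc, c, mul_assoc]
  · rw [mul_assoc, d', ← mul_assoc, d, mul_assoc]
  · rw [mul_assoc, e', ← mul_assoc, e, mul_assoc]

theorem Comm.of_rT {Θ : Module.End ℚ (AA W)} (h : ∀ F, Θ * rT F = rT F * Θ) : Comm Θ :=
  ⟨fun _ => h _, fun _ => h _, fun _ => h _, h _, fun _ => h _⟩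

theorem comm_one : Comm (1 : Module.End ℚ (AA W)) := Comm.of_rT fun _ => by simp

theorem comm_zero : Comm (0 : Module.End ℚ (AA W)) := Comm.of_rT fun _ => by simp

theorem Comm.sum {ι : Type} (s : Finset ι) {Θ : ι → Module.End ℚ (AA W)}
    (h : ∀ i ∈ s, Comm (Θ i)) : Comm (∑ i ∈ s, Θ i) :=
  Finset.sum_induction _ Comm (fun _ _ => Comm.add) comm_zero h

theorem comm_mulLeft (r : W) : Comm (LinearMap.mulLeft ℚ ((1 : Pol) ⊗ₜ[ℚ] r : AA W)) :=
  Comm.of_rT fun F => LinearMap.ext fun x => (rT_one_tmul_mul F r x).symm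

theorem comm_mulRight (r : W) : Comm (LinearMap.mulRight ℚ ((1 : Pol) ⊗ₜ[ℚ] r : AA W)) :=
  Comm.of_rT fun F => LinearMap.ext fun x => (rT_mul_one_tmul F r x).symm

theorem comm_lTensor (G : W →ₗ[ℚ] W) : Comm (LinearMap.lTensor Pol G : Module.End ℚ (AA W)) :=
  Comm.of_rT fun _ => end_ext fun _ _ => rfl

theorem comm_xx (l : Fin 4) : Comm (mm (W := W) (xx l)) := by
  refine ⟨fun f => mm_comm _ _, fun α => ?_, fun m => ?_, ?_, fun i => ?_⟩ <;>
    refine LinearMap.ext fun x => ?_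
  · simp [dP_smul, dPd_xx]
  · simp [dK_smul, dKd_xx]
  · simp [ph_smul, phi_xx]
  · simp [ps_smul, psi_xx]

theorem comm_aa (l : Fin 4) : Comm (mm (W := W) (aa l)) := by
  have : aa l = xx l * (xx l * (xx l * xx l)) := by rw [aa]; ring
  rw [this, mm_mul, mm_mul, mm_mul]
  exact (comm_xx l).mul ((comm_xx l).mul ((comm_xx l).mul (comm_xx l)))

theorem Comm.smul_apply {Θ : Module.End ℚ (AA W)} (h : Comm Θ) (f : Pol) (x : AA W) :
    Θ (f • x) = f • Θ x := by
  simpa using LinearMap.congr_fun (h.1 f) x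

theorem Comm.vv {Θ : Module.End ℚ (AA W)} (h : Comm Θ) (j : Fin 4) : Θ * vv j = vv j * Θ := by
  rw [vv_eq, Finset.mul_sum, Finset.sum_mul]
  refine Finset.sum_congr rfl fun α _ => ?_
  rw [← mul_assoc, h.1, mul_assoc, h.2.1, mul_assoc]

attribute [simp] pw_apply

end Pool.Agent.Lib.ROB
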