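import Pool.Agent.Lib.ROB.Basic

/-!
Basic API for the coefficient data `Dat`.
-/

set_option maxSynthPendingDepth 3

open MvPolynomial
open scoped TensorProduct

namespace Pool.Agent.Lib.ROB.Dat

variable {W : Type} [Ring W] [Algebra ℚ W] (t : Dat W)

theorem eA_eA : t.eA * t.eA = t.eA := by
  simp [eA, Algebra.TensorProduct.tmul_mul_tmul, t.ee]

theorem eA_DA : t.eA * t.DA = t.DA := by
  simp [eA, DA, Finset.mul_sum, Algebra.TensorProduct.tmul_mul_tmul, t.eD]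

theorem DA_eA : t.DA * t.eA = 0 := by
  simp [eA, DA, Finset.sum_mul, Algebra.TensorProduct.tmul_mul_tmul, t.De]

theorem DA_DA : t.DA * t.DA = 0 := by
  calc t.DA * t.DA = t.DA * (t.eA * t.DA) := by rw [eA_DA]
    _ = 0 := by rw [← mul_assoc, DA_eA, zero_mul]

theorem eA_mem : t.eA ∈ Hom W 0 := one_tmul_mem_Hom _

theorem DA_mem : t.DA ∈ Hom W (1, 0, 0) :=
  Submodule.sum_mem _ fun l _ => tmul_mem_Hom (hom_xx l) _

theorem sgA_apply (x : AA W) : t.sgA x = (1 - 2 * t.eA) * (x * (1 - 2 * t.eA)) := rfl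

theorem dl_apply (x : AA W) : t.dl x = t.DA * x - t.sgA x * t.DA := rfl

theorem mem_Wd {s : ℤ} {x : AA W} : x ∈ t.Wd s ↔ t.eA * x - x * t.eA = s • x := Iff.rfl

theorem mem_Z0 {x : AA W} : x ∈ t.Z0 ↔ t.eA * x = x * t.eA ∧ t.DA * x = x * t.DA := Iff.rfl

theorem mem_Wd_zero {x : AA W} : x ∈ t.Wd 0 ↔ t.eA * x = x * t.eA := by
  rw [mem_Wd, zero_smul, sub_eq_zero]

theorem eq_zero_of_zsmul {s : ℤ} (hs : s ≠ 0) {x : AA W} (h : s • x = 0) : x = 0 := by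
  rw [← Int.cast_smul_eq_zsmul ℚ] at h
  exact (smul_eq_zero.1 h).resolve_left (by exact_mod_cast hs)

theorem exe_eq_zero {s : ℤ} (hs : s ≠ 0) {x : AA W} (h : x ∈ t.Wd s) : t.eA * x * t.eA = 0 := by
  refine eq_zero_of_zsmul hs ?_
  have h1 : t.eA * (s • x) * t.eA = s • (t.eA * x * t.eA) := by
    rw [mul_smul_comm, smul_mul_assoc]
  rw [← h1, ← t.mem_Wd.1 h, mul_sub, sub_mul, ← mul_assoc, eA_eA, ← mul_assoc, mul_assoc _ t.eA,
    eA_eA, sub_self]

theorem mem_Wd_neg_one {x : AA W} : x ∈ t.Wd (-1) ↔ t.eA * x = 0 ∧ x * t.eA = x := by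
  constructor
  · intro h
    have h0 := t.exe_eq_zero (by norm_num) h
    have h1 := t.mem_Wd.1 h
    rw [neg_one_zsmul] at h1
    have h2 : t.eA * x = 0 := by
      refine eq_zero_of_zsmul (s := 2) (by norm_num) ?_
      have := congrArg (t.eA * ·) h1
      simp only [mul_sub, ← mul_assoc, eA_eA, h0, sub_zero, mul_neg] at this
      rw [two_smul]
      exact eq_neg_iff_add_eq_zero.1 this
    rw [h2, zero_sub, neg_inj] at h1
    exact ⟨h2, h1⟩
  · rintro ⟨h1, h2⟩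
    rw [mem_Wd, h1, h2, zero_sub, neg_one_zsmul]

theorem mem_Wd_one {x : AA W} : x ∈ t.Wd 1 ↔ t.eA * x = x ∧ x * t.eA = 0 := by
  constructor
  · intro h
    have h0 := t.exe_eq_zero (by norm_num) h
    have h1 := t.mem_Wd.1 h
    rw [one_zsmul] at h1
    have h2 : x * t.eA = 0 := by
      refine eq_zero_of_zsmul (s := 2) (by norm_num) ?_
      have := congrArg (· * t.eA) h1
      simp only [sub_mul, mul_assoc x, eA_eA, h0, zero_sub] at this
      rw [two_smul]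
      exact neg_eq_iff_add_eq_zero.1 this
    rw [h2, sub_zero] at h1
    exact ⟨h1, h2⟩
  · rintro ⟨h1, h2⟩
    rw [mem_Wd, h1, h2, sub_zero, one_zsmul]

theorem eq_zero_of_mem_Wd {s : ℤ} (h0 : s ≠ 0) (h1 : s ≠ 1) (h2 : s ≠ -1) {x : AA W}
    (h : x ∈ t.Wd s) : x = 0 := by
  have e0 := t.exe_eq_zero h0 h
  have e1 := t.mem_Wd.1 h
  have a1 : t.eA * x = 0 := by
    refine eq_zero_of_zsmul (s := s - 1) (sub_ne_zero.2 h1) ?_
    have := congrArg (t.eA * ·) e1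
    simp only [mul_sub, ← mul_assoc, eA_eA, e0, sub_zero, mul_smul_comm] at this
    rw [sub_smul, one_smul, ← this, sub_self]
  have a2 : x * t.eA = 0 := by
    refine eq_zero_of_zsmul (s := s + 1) (fun h => h2 (by omega)) ?_
    have := congrArg (· * t.eA) e1
    simp only [sub_mul, mul_assoc x, eA_eA, e0, zero_sub, smul_mul_assoc] at this
    rw [add_smul, one_smul, ← this, neg_add_cancel]
  rw [a1, a2, sub_zero] at e1
  exact eq_zero_of_zsmul h0 e1.symm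

theorem Wd_mul {s s' : ℤ} {x y : AA W} (hx : x ∈ t.Wd s) (hy : y ∈ t.Wd s') :
    x * y ∈ t.Wd (s + s') := by
  rw [mem_Wd] at *
  rw [add_smul, ← smul_mul_assoc, ← mul_smul_comm, ← hx, ← hy]
  noncomm_ring

theorem DA_mem_Wd : t.DA ∈ t.Wd 1 := t.mem_Wd_one.2 ⟨t.eA_DA, t.DA_eA⟩

theorem sgA_of_zero {x : AA W} (h : x ∈ t.Wd 0) : t.sgA x = x := by
  rw [mem_Wd_zero] at h
  have h2 : t.eA * (x * t.eA) = x * t.eA := by rw [← mul_assoc, h, mul_assoc, eA_eA]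
  have : t.sgA x = x - 2 * (x * t.eA) - 2 * (t.eA * x) + 4 * (t.eA * (x * t.eA)) := by
    rw [sgA_apply]; noncomm_ring
  rw [this, h2, h]; noncomm_ring

theorem sgA_of_neg_one {x : AA W} (h : x ∈ t.Wd (-1)) : t.sgA x = -x := by
  rw [mem_Wd_neg_one] at h
  have : t.sgA x = x - 2 * (x * t.eA) - 2 * (t.eA * x) + 4 * (t.eA * (x * t.eA)) := by
    rw [sgA_apply]; noncomm_ring
  rw [this, h.2, h.1]; noncomm_ring

theorem sgA_of_one {x : AA W} (h : x ∈ t.Wd 1) : t.sgA x = -x := by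
  rw [mem_Wd_one] at h
  have : t.sgA x = x - 2 * (x * t.eA) - 2 * (t.eA * x) + 4 * (t.eA * (x * t.eA)) := by
    rw [sgA_apply]; noncomm_ring
  rw [this, h.2, h.1]; noncomm_ring

theorem dl_of_zero {x : AA W} (h : x ∈ t.Wd 0) : t.dl x = t.DA * x - x * t.DA := by
  rw [dl_apply, t.sgA_of_zero h]

theorem dl_of_neg_one {x : AA W} (h : x ∈ t.Wd (-1)) : t.dl x = t.DA * x + x * t.DA := by
  rw [dl_apply, t.sgA_of_neg_one h, neg_mul, sub_neg_eq_add]

theorem sg_sq : (1 - 2 * t.eA) * (1 - 2 * t.eA) = 1 := by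
  have : (1 - 2 * t.eA) * (1 - 2 * t.eA) = 1 - 4 * t.eA + 4 * (t.eA * t.eA) := by noncomm_ring
  rw [this, eA_eA, sub_add_cancel]

theorem sg_DA : (1 - 2 * t.eA) * t.DA = -t.DA := by
  have : (1 - 2 * t.eA) * t.DA = t.DA - 2 * (t.eA * t.DA) := by noncomm_ring
  rw [this, eA_DA]; noncomm_ring

theorem DA_sg : t.DA * (1 - 2 * t.eA) = t.DA := by
  have : t.DA * (1 - 2 * t.eA) = t.DA - 2 * (t.DA * t.eA) := by noncomm_ring
  rw [this, DA_eA]; noncomm_ring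

theorem sgA_sgA (x : AA W) : t.sgA (t.sgA x) = x := by
  rw [sgA_apply, sgA_apply, ← mul_assoc, ← mul_assoc, sg_sq, one_mul, mul_assoc, sg_sq, mul_one]

theorem sgA_mul (x y : AA W) : t.sgA (x * y) = t.sgA x * t.sgA y := by
  simp only [sgA_apply, mul_assoc]
  rw [← mul_assoc (1 - 2 * t.eA) (1 - 2 * t.eA), sg_sq, one_mul]

theorem sgA_DA : t.sgA t.DA = -t.DA := t.sgA_of_one t.DA_mem_Wd

theorem sgA_dl (x : AA W) : t.sgA (t.dl x) = -t.dl (t.sgA x) := by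
  rw [dl_apply, dl_apply, map_sub, sgA_mul, sgA_mul, sgA_DA, sgA_sgA]; noncomm_ring

theorem dl_dl (x : AA W) : t.dl (t.dl x) = 0 := by
  rw [dl_apply (x := t.dl x), sgA_dl, dl_apply, dl_apply, sgA_sgA, mul_sub, neg_mul, sub_mul,
    ← mul_assoc, DA_DA, mul_assoc x, DA_DA, mul_assoc]
  noncomm_ring

theorem sgA_mem_Wd {s : ℤ} {x : AA W} (h : x ∈ t.Wd s) : t.sgA x ∈ t.Wd s := by
  have h0 : 1 - 2 * t.eA ∈ t.Wd 0 := by rw [mem_Wd_zero]; noncomm_ring
  rw [sgA_apply]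
  simpa using t.Wd_mul h0 (t.Wd_mul h h0)

theorem dl_mem_Wd {s : ℤ} {x : AA W} (h : x ∈ t.Wd s) : t.dl x ∈ t.Wd (s + 1) :=
  sub_mem (add_comm s 1 ▸ t.Wd_mul t.DA_mem_Wd h) (t.Wd_mul (t.sgA_mem_Wd h) t.DA_mem_Wd)

theorem sg_mem_Hom : 1 - 2 * t.eA ∈ Hom W 0 := by
  rw [two_mul]
  exact sub_mem one_mem_Hom (add_mem t.eA_mem t.eA_mem)

theorem sgA_mem_Hom {d : Dg} {x : AA W} (h : x ∈ Hom W d) : t.sgA x ∈ Hom W d := by
  rw [sgA_apply]
  simpa using Hom_mul t.sg_mem_Hom (Hom_mul h t.sg_mem_Hom)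

theorem dl_mem_Hom {d : Dg} {x : AA W} (h : x ∈ Hom W d) : t.dl x ∈ Hom W (d + (1, 0, 0)) :=
  sub_mem (add_comm d _ ▸ Hom_mul t.DA_mem h) (Hom_mul (t.sgA_mem_Hom h) t.DA_mem)

/-! ### commutation with the polynomial operators -/

theorem comm_eA_left : Comm (LinearMap.mulLeft ℚ t.eA) := comm_mulLeft _

theorem comm_eA_right : Comm (LinearMap.mulRight ℚ t.eA) := comm_mulRight _

theorem sg_eq : 1 - 2 * t.eA = (1 : Pol) ⊗ₜ[ℚ] (1 - 2 * t.e) := by
  rw [two_mul, two_mul, TensorProduct.tmul_sub, TensorProduct.tmul_add]; rfl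

theorem comm_sgA : Comm t.sgA := by
  rw [sgA, sg_eq]
  exact (comm_mulLeft _).mul (comm_mulRight _)

theorem comm_DA_left : Comm (LinearMap.mulLeft ℚ t.DA) := by
  have : LinearMap.mulLeft ℚ t.DA =
      ∑ l, mm (xx l) * LinearMap.mulLeft ℚ ((1 : Pol) ⊗ₜ[ℚ] t.D l : AA W) := by
    refine LinearMap.ext fun x => ?_
    simp only [LinearMap.mulLeft_apply, DA, Finset.sum_mul, LinearMap.sum_apply,
      Module.End.mul_apply, mm_apply, ← pol_smul_mul, smul_tmul_pol, mul_one]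
  rw [this]
  exact Comm.sum _ fun l _ => (comm_xx l).mul (comm_mulLeft _)

theorem comm_DA_right : Comm (LinearMap.mulRight ℚ t.DA) := by
  have : LinearMap.mulRight ℚ t.DA =
      ∑ l, mm (xx l) * LinearMap.mulRight ℚ ((1 : Pol) ⊗ₜ[ℚ] t.D l : AA W) := by
    refine LinearMap.ext fun x => ?_
    simp only [LinearMap.mulRight_apply, DA, Finset.mul_sum, LinearMap.sum_apply,
      Module.End.mul_apply, mm_apply, ← mul_pol_smul, smul_tmul_pol, mul_one]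
  rw [this]
  exact Comm.sum _ fun l _ => (comm_xx l).mul (comm_mulRight _)

theorem comm_dl : Comm t.dl := t.comm_DA_left.sub (t.comm_DA_right.mul t.comm_sgA)

theorem rT_mem_Wd (F : Pol →ₗ[ℚ] Pol) {s : ℤ} {x : AA W} (h : x ∈ t.Wd s) : rT F x ∈ t.Wd s := by
  rw [mem_Wd] at *
  rw [eA, ← rT_one_tmul_mul, ← rT_mul_one_tmul, ← map_sub, ← map_zsmul, ← h]; rfl

theorem smul_mem_Wd (f : Pol) {s : ℤ} {x : AA W} (h : x ∈ t.Wd s) : f • x ∈ t.Wd s := by
  rw [← mm_apply]; exact t.rT_mem_Wd _ h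

theorem dl_smul (f : Pol) (x : AA W) : t.dl (f • x) = f • t.dl x := t.comm_dl.smul_apply f x

theorem dl_vv (j : Fin 4) (x : AA W) : t.dl (vv j x) = vv j (t.dl x) :=
  LinearMap.congr_fun (t.comm_dl.vv j) x

theorem dP_eA (α : Fin 6) : dP α t.eA = 0 := der_one_tmul _ _

theorem dP_DA (α : Fin 6) : dP α t.DA = 0 := by
  simp [DA, map_sum, dP, dPd_xx]

/-! ### cycles and boundaries -/

theorem mem_Z0' {x : AA W} : x ∈ t.Z0 ↔ x ∈ t.Wd 0 ∧ t.dl x = 0 := by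
  rw [mem_Z0, mem_Wd_zero]
  refine and_congr_right fun h => ?_
  rw [t.dl_of_zero (t.mem_Wd_zero.2 h), sub_eq_zero]

theorem mem_B0 {x : AA W} : x ∈ t.B0 ↔ ∃ z ∈ t.Wd (-1), t.dl z = x := Iff.rfl

theorem exists_hom_of_mem_B0 {d : Dg} {x : AA W} (h : x ∈ t.B0) (hd : x ∈ Hom W (d + (1, 0, 0))) :
    ∃ z ∈ t.Wd (-1), z ∈ Hom W d ∧ t.dl z = x := by
  obtain ⟨z, hz, rfl⟩ := h
  refine ⟨pr d z, t.rT_mem_Wd _ hz, pr_mem d z, ?_⟩
  rw [← pr_comm (fun _ _ => t.dl_mem_Hom), pr_of_mem hd]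

theorem B0_le_Z0 : t.B0 ≤ t.Z0 := by
  rintro _ ⟨z, hz, rfl⟩
  exact t.mem_Z0'.2 ⟨by simpa using t.dl_mem_Wd hz, t.dl_dl z⟩

theorem one_mem_Z0 : (1 : AA W) ∈ t.Z0 := ⟨by simp, by simp⟩

theorem Z0_mul {x y : AA W} (hx : x ∈ t.Z0) (hy : y ∈ t.Z0) : x * y ∈ t.Z0 :=
  ⟨by rw [← mul_assoc, hx.1, mul_assoc, hy.1, mul_assoc],
    by rw [← mul_assoc, hx.2, mul_assoc, hy.2, mul_assoc]⟩

theorem Z0_mul_B0 {x y : AA W} (hx : x ∈ t.Z0) (hy : y ∈ t.B0) : x * y ∈ t.B0 := by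
  obtain ⟨z, hz, rfl⟩ := hy
  have h : x * z ∈ t.Wd (-1) := by simpa using t.Wd_mul (t.mem_Wd_zero.2 hx.1) hz
  refine ⟨x * z, h, ?_⟩
  rw [t.dl_of_neg_one h, t.dl_of_neg_one hz, ← mul_assoc, hx.2]; noncomm_ring

theorem B0_mul_Z0 {x y : AA W} (hx : x ∈ t.B0) (hy : y ∈ t.Z0) : x * y ∈ t.B0 := by
  obtain ⟨z, hz, rfl⟩ := hx
  have h : z * y ∈ t.Wd (-1) := by simpa using t.Wd_mul hz (t.mem_Wd_zero.2 hy.1)
  refine ⟨z * y, h, ?_⟩
  rw [t.dl_of_neg_one h, t.dl_of_neg_one hz, mul_assoc z, ← hy.2]; noncomm_ring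

theorem smul_mem_Z0 (f : Pol) {x : AA W} (h : x ∈ t.Z0) : f • x ∈ t.Z0 := by
  rw [mem_Z0'] at *
  exact ⟨t.smul_mem_Wd f h.1, by rw [dl_smul, h.2, smul_zero]⟩

theorem smul_mem_B0 (f : Pol) {x : AA W} (h : x ∈ t.B0) : f • x ∈ t.B0 := by
  obtain ⟨z, hz, rfl⟩ := h
  exact ⟨f • z, t.smul_mem_Wd f hz, t.dl_smul f z⟩

theorem vv_mem_Z0 (j : Fin 4) {x : AA W} (h : x ∈ t.Z0) : vv j x ∈ t.Z0 := by
  rw [mem_Z0'] at *
  exact ⟨t.rT_mem_Wd _ h.1, by rw [dl_vv, h.2, map_zero]⟩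

theorem vv_mem_B0 (j : Fin 4) {x : AA W} (h : x ∈ t.B0) : vv j x ∈ t.B0 := by
  obtain ⟨z, hz, rfl⟩ := h
  exact ⟨vv j z, t.rT_mem_Wd _ hz, t.dl_vv j z⟩

/-- local splitting of `D`. -/
theorem exists_split (l m : Fin 4) : ∃ y ∈ t.Wd (-1), y ∈ Hom W (1, 0, 0) ∧
    t.DA * y = (xx l * xx m) • t.eA := by
  obtain ⟨y, hy, h⟩ := t.s2 l m
  refine ⟨∑ k, xx k ⊗ₜ[ℚ] y k, Submodule.sum_mem _ fun k _ => t.mem_Wd_neg_one.2 ⟨?_, ?_⟩,
    Submodule.sum_mem _ fun k _ => tmul_mem_Hom (hom_xx k) _, ?_⟩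
  · simp [eA, Algebra.TensorProduct.tmul_mul_tmul, (hy k).1]
  · simp [eA, Algebra.TensorProduct.tmul_mul_tmul, (hy k).2]
  · refine sub_eq_zero.1 (eq_zero_of_zsmul (s := 2) (by norm_num) ?_)
    have h1 : t.DA * ∑ k, xx k ⊗ₜ[ℚ] y k = ∑ k, ∑ k', (xx k * xx k') ⊗ₜ[ℚ] (t.D k * y k') := by
      simp only [DA, Finset.sum_mul, Finset.mul_sum, Algebra.TensorProduct.tmul_mul_tmul]
      exact Finset.sum_comm
    have h2 : t.DA * ∑ k, xx k ⊗ₜ[ℚ] y k = ∑ k, ∑ k', (xx k * xx k') ⊗ₜ[ℚ] (t.D k' * y k) := by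
      rw [h1, Finset.sum_comm]
      exact Finset.sum_congr rfl fun k _ => Finset.sum_congr rfl fun k' _ => by rw [mul_comm]
    have h3 : ∀ k k', ((xx k * xx k') ⊗ₜ[ℚ] (t.D k * y k') + (xx k * xx k') ⊗ₜ[ℚ] (t.D k' * y k) :
        AA W) = (if k = l ∧ k' = m then (xx l * xx m) • t.eA else 0) +
          (if k = m ∧ k' = l then (xx l * xx m) • t.eA else 0) := by
      intro k k'
      rw [← TensorProduct.tmul_add, h, add_smul, TensorProduct.tmul_add]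
      congr 1
      · split_ifs with hh
        · rw [hh.1, hh.2, one_smul, eA, smul_tmul_pol, mul_one]
        · simp
      · split_ifs with hh
        · rw [hh.1, hh.2, one_smul, eA, smul_tmul_pol, mul_one, mul_comm]
        · simp
    rw [smul_sub, two_smul, two_smul, sub_eq_zero]
    nth_rewrite 1 [h1]
    rw [h2, ← Finset.sum_add_distrib]
    simp only [← Finset.sum_add_distrib, h3]
    simp [Finset.sum_add_distrib, ite_and]

theorem eq_zero_of_dl_eq_zero {z : AA W} (hz : z ∈ t.Wd (-1)) (h : t.dl z = 0) : z = 0 := by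
  obtain ⟨y, hy, -, hD⟩ := t.exists_split 0 0
  have hz' := t.mem_Wd_neg_one.1 hz
  have h1 : z * t.DA = 0 := by
    have h2 := congrArg (· * t.eA) h
    simp only [t.dl_of_neg_one hz, add_mul, mul_assoc, DA_eA, mul_zero, add_zero, hz'.2,
      zero_mul] at h2
    rwa [t.dl_of_neg_one hz, h2, zero_add] at h
  refine smul_eq_zero_pol (mul_ne_zero (xx_ne_zero 0) (xx_ne_zero 0)) ?_
  rw [← hz'.2, ← mul_pol_smul, ← hD, ← mul_assoc, h1, zero_mul]

/-- `dl` maps onto the degree one part in x-degree at least two. -/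
theorem exists_dl_eq {d : Dg} (hd : 1 ≤ d.1) {r : AA W} (hr : r ∈ t.Wd 1)
    (hh : r ∈ Hom W (d + (1, 0, 0))) : ∃ c ∈ t.Wd 0, c ∈ Hom W d ∧ t.dl c = r := by
  have key : ∀ x ∈ Hom W (d + (1, 0, 0)), ∃ c, t.eA * c = 0 ∧ c ∈ Hom W d ∧
      t.DA * c = t.eA * x := by
    intro x hx
    refine Hom_induction (p := fun x => ∃ c, t.eA * c = 0 ∧ c ∈ Hom W d ∧ t.DA * c = t.eA * x)
      ⟨0, by simp⟩ ?_ ?_ hx
    · rintro x y ⟨c, h1, h2, h3⟩ ⟨c', h1', h2', h3'⟩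
      exact ⟨c + c', by rw [mul_add, h1, h1', add_zero], add_mem h2 h2', by
        rw [mul_add, mul_add, h3, h3']⟩
    · intro m w hm
      have h2 : (2 : ℤ) ≤ ((∑ l, m (Sum.inl l) : ℕ) : ℤ) := by
        have := congrArg Prod.fst hm
        rw [weight_wt] at this
        simp only [Prod.fst_add] at this
        omega
      obtain ⟨l, l', m', rfl⟩ : ∃ l l' m', m = Finsupp.single (Sum.inl l) 1 +
          Finsupp.single (Sum.inl l') 1 + m' := by
        have h3 : 2 ≤ ∑ l, m (Sum.inl l) := by exact_mod_cast h2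
        have : ∃ l l' : Fin 4, Finsupp.single (Sum.inl l : Var) 1 +
            Finsupp.single (Sum.inl l') 1 ≤ m := by
          by_contra hc
          push Not at hc
          have h4 : ∀ l l' : Fin 4, ¬ (1 ≤ m (Sum.inl l) ∧ 1 ≤ m (Sum.inl l') ∧
              (l = l' → 2 ≤ m (Sum.inl l))) := by
            rintro l l' ⟨a, b, c⟩
            refine hc l l' fun v => ?_
            simp only [Finsupp.add_apply, Finsupp.single_apply]
            split_ifs with p q q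
            · have : l = l' := Sum.inl_injective (p.trans q.symm)
              exact p ▸ c this
            · exact p ▸ a
            · exact q ▸ b
            · exact Nat.zero_le _
          rw [Fin.sum_univ_four] at h3
          have := h4 0 0; have := h4 1 1; have := h4 2 2; have := h4 3 3
          have := h4 0 1; have := h4 0 2; have := h4 0 3; have := h4 1 2
          have := h4 1 3; have := h4 2 3
          simp only [forall_const, Fin.reduceEq, false_imp_iff, and_true] at *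
          omega
        obtain ⟨l, l', h⟩ := this
        exact ⟨l, l', m - _, (add_tsub_cancel_of_le h).symm⟩
      obtain ⟨y, hy, hy1, hD⟩ := t.exists_split l l'
      have hw : Finsupp.weight wt m' = d - (1, 0, 0) := by
        rw [map_add, map_add, Finsupp.weight_single, Finsupp.weight_single] at hm
        simp only [wt, one_smul] at hm
        rw [eq_sub_iff_add_eq]
        apply add_right_cancel (b := ((1, 0, 0) : Dg))
        rw [← hm]; abel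
      refine ⟨y * (monomial m' 1 ⊗ₜ[ℚ] w), by
        rw [← mul_assoc, (t.mem_Wd_neg_one.1 hy).1, zero_mul], ?_, ?_⟩
      · exact Hom_congr (Hom_mul hy1 (tmul_mem_Hom (isWeightedHomogeneous_monomial _ _ _ hw) w))
          (by abel)
      · rw [← mul_assoc, hD, pol_smul_mul, ← mul_pol_smul, smul_tmul_pol]
        congr 2
        simp [xx, X, monomial_mul]
  obtain ⟨c, h1, h2, h3⟩ := key r hh
  have hr' := t.mem_Wd_one.1 hr
  have h4 : c - c * t.eA ∈ t.Wd 0 := by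
    rw [mem_Wd_zero, mul_sub, sub_mul, ← mul_assoc, h1, mul_assoc, eA_eA]; simp
  refine ⟨c - c * t.eA, h4, sub_mem h2 (by simpa using Hom_mul h2 t.eA_mem), ?_⟩
  rw [t.dl_of_zero h4, mul_sub, sub_mul, ← mul_assoc, h3, hr'.1, hr'.2, mul_assoc, eA_DA]
  simp

end Pool.Agent.Lib.ROB.Dat
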