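import Pool.Agent.Lib.ROB.BasicD

/-!
Blueprint: statements of the blocks.
-/

open scoped TensorProduct

namespace Pool.Agent.Lib.ROB

def St_DSQ : Prop :=
  ∀ (W : Type) [Ring W] [Algebra ℚ W],
    (dd * dd : Module.End ℚ (Idx → AA W)) = 0 ∧
    (∀ (n : ℕ) (k e : ℤ) (f : Idx → AA W), f ∈ LL W n k e → dd f ∈ LL W n (k + 1) e) ∧
    ∀ Θ : Module.End ℚ (AA W), Comm Θ → pw Idx Θ * dd = dd * pw Idx Θ

def St_HOM : Prop :=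
  ∀ (W : Type) [Ring W] [Algebra ℚ W] (n : ℕ) (i : Fin 4), 1 ≤ n →
    ∃ h : Module.End ℚ (Idx → AA W),
      (∀ (k e : ℤ) (f : Idx → AA W), f ∈ LL W n k e → h f ∈ LL W n (k - 1) (e + 4 * n)) ∧
      (∀ (k e : ℤ) (f : Idx → AA W), f ∈ LL W n k e →
        dd (h f) + h (dd f) = pw Idx (mm (aa i ^ n)) f) ∧
      ∀ Θ : Module.End ℚ (AA W), Comm Θ → pw Idx Θ * h = h * pw Idx Θ

/-- abstract descent along a regular sequence acting null-homotopically. -/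
def St_DESC : Prop :=
  ∀ (C : Type) [AddCommGroup C] [Module ℚ C] (d : Module.End ℚ C) (a : Fin 4 → Module.End ℚ C)
    (T : ℤ → ℤ → Submodule ℚ C) (N : ℕ),
    (∀ c, d (d c) = 0) →
    (∀ j c, d (a j c) = a j (d c)) →
    (∀ i j c, a i (a j c) = a j (a i c)) →
    (∀ k e c, c ∈ T k e → d c ∈ T (k + 1) e) →
    (∀ j k e c, c ∈ T k e → a j c ∈ T k (e + 4)) →
    (∀ i, ∃ h : Module.End ℚ C, (∀ j c, h (a j c) = a j (h c)) ∧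
      (∀ k e c, c ∈ T k e → h c ∈ T (k - 1) (e + 4 * N)) ∧
      ∀ k e c, c ∈ T k e → d (h c) + h (d c) = (a i ^ N) c) →
    (∀ (s : Finset (Fin 4)) (i : Fin 4), i ∉ s → ∀ k e c, c ∈ T k e →
      InSp (fun j => a j) s (T k e) (a i c) → InSp (fun j => a j) s (T k (e - 4)) c) →
    (∀ e, 16 ≤ e → ∀ c ∈ T (-2) e, ∃ b ∈ T (-3) e,
      InSp (fun j => a j) Finset.univ (T (-2) (e - 4)) (c - d b)) →
    ∀ e, 0 ≤ e → ∀ c ∈ T 2 e, d c = 0 → ∃ b ∈ T 1 e, d b = c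

def St_REG : Prop :=
  ∀ (W : Type) [Ring W] [Algebra ℚ W] (t : Dat W) (n : ℕ) (s : Finset (Fin 4)) (i : Fin 4),
    i ∉ s → ∀ (k e : ℤ) (c : Idx → AA W), c ∈ t.Tot n k e →
      InSp (fun j => pw Idx (mm (aa j))) s (t.Tot n k e) (pw Idx (mm (aa i)) c) →
      InSp (fun j => pw Idx (mm (aa j))) s (t.Tot n k (e - 4)) c

def St_BASE : Prop :=
  ∀ (W : Type) [Ring W] [Algebra ℚ W] (t : Dat W) (n : ℕ) (e : ℤ), 16 ≤ e →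
    ∀ c ∈ t.Tot n (-2) e, ∃ b ∈ t.Tot n (-3) e,
      InSp (fun j => pw Idx (mm (aa j))) Finset.univ (t.Tot n (-2) (e - 4)) (c - t.DD b)

def St_VAN : Prop :=
  ∀ (W : Type) [Ring W] [Algebra ℚ W] (t : Dat W) (n : ℕ), 1 ≤ n →
    ∀ c ∈ t.Tot n 2 0, t.DD c = 0 → ∃ b ∈ t.Tot n 1 0, t.DD b = c

def St_KEY : Prop :=
  ∀ (W : Type) [Ring W] [Algebra ℚ W] (t : Dat W) (n : ℕ), 1 ≤ n →
    ∀ (ω : Fin 4 → Fin 4 → AA W) (g : AA W),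
      (∀ i j, ω i j = -ω j i) →
      (∀ i j, ω i j ∈ t.Z0 ∧ ω i j ∈ Hom W (4 * (n : ℤ) + 8, (n : ℤ) - 2, 0)) →
      (g ∈ t.Z0 ∧ g ∈ Hom W (4 * (n : ℤ) + 8, (n : ℤ) - 1, 0)) →
      (∀ i j k, vv i (ω j k) + vv j (ω k i) + vv k (ω i j) ∈ t.B0) →
      (∀ j, ∑ i, aa i • ω i j + vv j g ∈ t.B0) →
      ∃ V : Fin 4 → AA W,
        (∀ j, V j ∈ t.Z0 ∧ V j ∈ Hom W (4 * (n : ℤ) + 4, (n : ℤ) - 1, 0)) ∧
        (∀ i j, vv i (V j) - vv j (V i) - ω i j ∈ t.B0) ∧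
        ∑ j, aa j • V j - g ∈ t.B0

def St_FLAT : Prop :=
  ∀ (W : Type) [Ring W] [Algebra ℚ W] (t : Dat W) (c : ℕ), ∃ V : Fin 4 → AA W,
    (∀ j, V j ∈ t.Z0 ∧ V j ∈ Hi W 0) ∧
    (∑ j, aa j • V j - uu • (1 : AA W) ∈ t.B0) ∧
    ∀ i j, ∃ F, F ∈ t.Z0 ∧ F ∈ Hi W c ∧
      vv i (V j) - vv j (V i) + (V i * V j - V j * V i) - F ∈ t.B0

def St_BIG : Prop :=
  ∃ (W B Q : Type) (_ : Ring W) (_ : Algebra ℚ W) (_ : Ring B) (_ : Algebra ℚ B)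
    (_ : DivisionRing Q) (t : Dat W), Nonempty (Big t B Q)

end Pool.Agent.Lib.ROB
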