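import Mathlib

/-! Quasilength, Q-sequences, robust algebras and robust closure (Hochster and Huneke,
Hochster and Zhang). -/

namespace Pool.Agent.ROB

open IsLocalRing

/-- `M` has a chain `0 = M₀ ⊆ M₁ ⊆ ⋯ ⊆ M_h = M` whose factors are cyclic and killed by `J`. -/
def HasChain {S : Type} [CommRing S] (J : Ideal S) (M : Type) [AddCommGroup M] [Module S M]
    (h : ℕ) : Prop :=
  ∃ c : ℕ → Submodule S M, c 0 = ⊥ ∧ c h = ⊤ ∧
    ∀ i < h, (∃ m : M, c (i + 1) = c i ⊔ Submodule.span S {m}) ∧ J • c (i + 1) ≤ c i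

/-- The `J`-quasilength of `M` (infinite if there is no such chain). -/
noncomputable def quasilength {S : Type} [CommRing S] (J : Ideal S) (M : Type) [AddCommGroup M]
    [Module S M] : ℕ∞ :=
  ⨅ (h : ℕ) (_ : HasChain J M h), (h : ℕ∞)

/-- `x₁, …, x_d` is a Q-sequence on `S`. -/
def IsQSeq {S : Type} [CommRing S] {d : ℕ} (x : Fin d → S) : Prop :=
  ∀ t : ℕ, 1 ≤ t → ((t ^ d : ℕ) : ℕ∞) ≤
    quasilength (Ideal.span (Set.range x)) (S ⧸ Ideal.span (Set.range fun i => x i ^ t))

/-- `x₁, …, x_d` is a system of parameters of the local ring `R`. -/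
def IsSOP {R : Type} [CommRing R] [IsLocalRing R] {d : ℕ} (x : Fin d → R) : Prop :=
  ringKrullDim R = d ∧ (Ideal.span (Set.range x)).radical = maximalIdeal R

/-- `S` is a robust `R`-algebra. -/
def IsRobust (R S : Type) [CommRing R] [IsLocalRing R] [CommRing S] [Algebra R S] : Prop :=
  ∀ (d : ℕ) (x : Fin d → R), IsSOP x → IsQSeq fun i => algebraMap R S (x i)

/-- The forcing algebra `R[Z₁, …, Z_n] / (u - ∑ gᵢ Zᵢ)`. -/
abbrev Forcing {R : Type} [CommRing R] {n : ℕ} (g : Fin n → R) (u : R) : Type :=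
  MvPolynomial (Fin n) R ⧸
    Ideal.span {MvPolynomial.C u - ∑ i, MvPolynomial.C (g i) * MvPolynomial.X i}

/-- The immediate robust closure. -/
def immClosure {R : Type} [CommRing R] [IsLocalRing R] (I : Ideal R) : Ideal R :=
  I ⊔ Ideal.span {u | ∃ (n : ℕ) (g : Fin n → R),
    Ideal.span (Set.range g) = I ∧ IsRobust R (Forcing g u)}

/-- The robust closure. -/
def robustClosure {R : Type} [CommRing R] [IsLocalRing R] (I : Ideal R) : Ideal R :=
  ⨆ j : ℕ, immClosure^[j] I

end Pool.Agent.ROB
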