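import Mathlib

/-! Length counts for the robust-closure counterexample: quasilength bound and
multiplicativity of lengths along regular commuting endomorphisms. -/

namespace Pool.Agent.ROB.CA

open Module

section QL

variable {K W : Type*} [Ring K] [AddCommGroup W] [Module K W]

theorem length_comap_mkQ (P : Submodule K W) (X : Submodule K (W ⧸ P)) :
    length K (X.comap P.mkQ) = length K P + length K X := by
  have hle : P ≤ X.comap P.mkQ := by
    intro v hv
    simp [(Submodule.Quotient.mk_eq_zero P).2 hv]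
  refine Module.length_eq_add_of_exact (Submodule.inclusion hle)
    (P.mkQ.restrict (p := X.comap P.mkQ) (q := X) (fun _ h => h))
    (Submodule.inclusion_injective hle) ?_ ?_
  · rintro ⟨x, hx⟩
    obtain ⟨v, rfl⟩ := P.mkQ_surjective x
    exact ⟨⟨v, hx⟩, rfl⟩
  · rintro ⟨v, hv⟩
    constructor
    · intro h
      have h1 : P.mkQ v = 0 := congrArg Subtype.val h
      exact ⟨⟨v, (Submodule.Quotient.mk_eq_zero P).1 h1⟩, rfl⟩
    · rintro ⟨⟨w, hw⟩, h⟩
      have h1 : w = v := congrArg Subtype.val h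
      subst h1
      exact Subtype.ext ((Submodule.Quotient.mk_eq_zero P).2 hw)

theorem length_sup_range_le (P Q : Submodule K W) (φ : W →ₗ[K] W) (h : ∀ v ∈ Q, φ v ∈ P) :
    length K ↥(P ⊔ LinearMap.range φ) ≤ length K P + length K (W ⧸ Q) := by
  have h1 : P ⊔ LinearMap.range φ ≤ (LinearMap.range (Q.mapQ P φ h)).comap P.mkQ := by
    refine sup_le ?_ ?_
    · intro v hv
      simp [(Submodule.Quotient.mk_eq_zero P).2 hv]
    · rintro _ ⟨v, rfl⟩
      exact ⟨Q.mkQ v, rfl⟩
  calc length K ↥(P ⊔ LinearMap.range φ)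
      ≤ length K ((LinearMap.range (Q.mapQ P φ h)).comap P.mkQ) :=
        Module.length_le_of_injective _ (Submodule.inclusion_injective h1)
    _ = length K P + length K (LinearMap.range (Q.mapQ P φ h)) := length_comap_mkQ _ _
    _ ≤ length K P + length K (W ⧸ Q) := by
        gcongr
        exact Module.length_le_of_surjective _ (LinearMap.surjective_rangeRestrict _)

/-- Quasilength bound: a filtration of `T ⧸ 𝔞` with `h` cyclic factors killed by `J` bounds the
length of any `T`-module `W` killed by `𝔞` by `h` times the length of `W ⧸ J W`. -/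
theorem ql_bound {T : Type*} [CommRing T] (ρ : T →+* Module.End K W) (𝔞 J : Ideal T)
    (ha : ∀ a ∈ 𝔞, ρ a = 0) (Q : Submodule K W)
    (hQ : Q ≤ ⨆ a ∈ J, LinearMap.range (ρ a)) (h : ℕ) (c : ℕ → Submodule T (T ⧸ 𝔞))
    (h0 : c 0 = ⊥) (h1 : c h = ⊤)
    (hs : ∀ i < h, ∃ m, c (i + 1) ≤ c i ⊔ Submodule.span T {m} ∧ ∀ a ∈ J, a • m ∈ c i) :
    length K W ≤ h * length K (W ⧸ Q) := by
  let Z : ℕ → Submodule K W := fun i =>
    ⨆ g ∈ {g : T | Ideal.Quotient.mk 𝔞 g ∈ c i}, LinearMap.range (ρ g)
  have hZ : ∀ i g, Ideal.Quotient.mk 𝔞 g ∈ c i → LinearMap.range (ρ g) ≤ Z i := fun i g hg =>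
    le_iSup₂_of_le (f := fun g (_ : g ∈ {g : T | Ideal.Quotient.mk 𝔞 g ∈ c i}) =>
      LinearMap.range (ρ g)) g hg le_rfl
  have key : ∀ i ≤ h, length K (Z i) ≤ i * length K (W ⧸ Q) := by
    intro i
    induction i with
    | zero =>
      intro _
      have : Z 0 = ⊥ := by
        refine le_bot_iff.1 (iSup₂_le fun g hg => ?_)
        have hg' : Ideal.Quotient.mk 𝔞 g ∈ c 0 := hg
        rw [h0, Submodule.mem_bot, Ideal.Quotient.eq_zero_iff_mem] at hg'
        rw [ha g hg']
        simp
      rw [this]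
      simp
    | succ i ih =>
      intro hi
      obtain ⟨m, hm1, hm2⟩ := hs i (by omega)
      obtain ⟨g0, rfl⟩ := Ideal.Quotient.mk_surjective m
      have hle : Z (i + 1) ≤ Z i ⊔ LinearMap.range (ρ g0) := by
        refine iSup₂_le fun g hg => ?_
        obtain ⟨x, hx, y, hy, hxy⟩ := Submodule.mem_sup.1 (hm1 hg)
        obtain ⟨s, rfl⟩ := Submodule.mem_span_singleton.1 hy
        obtain ⟨g1, rfl⟩ := Ideal.Quotient.mk_surjective x
        have e1 : g - (g1 + g0 * s) ∈ 𝔞 := by
          rw [← Ideal.Quotient.eq_zero_iff_mem, map_sub, ← hxy, map_add, map_mul, mul_comm]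
          have : s • Ideal.Quotient.mk 𝔞 g0 = Ideal.Quotient.mk 𝔞 s * Ideal.Quotient.mk 𝔞 g0 := rfl
          rw [this, sub_self]
        have e2 : ρ g = ρ g1 + ρ g0 * ρ s := by
          have := ha _ e1
          rw [map_sub, sub_eq_zero, map_add, map_mul] at this
          exact this
        rintro _ ⟨w, rfl⟩
        rw [e2]
        exact Submodule.add_mem_sup (hZ i g1 hx ⟨w, rfl⟩) ⟨ρ s w, rfl⟩
      have hk : ∀ v ∈ Q, ρ g0 v ∈ Z i := by
        intro v hv
        have : (⨆ a ∈ J, LinearMap.range (ρ a)) ≤ (Z i).comap (ρ g0) := by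
          refine iSup₂_le fun a haJ => ?_
          rintro _ ⟨w, rfl⟩
          have e : Ideal.Quotient.mk 𝔞 (g0 * a) ∈ c i := by
            rw [mul_comm]
            exact hm2 a haJ
          refine hZ i _ e ⟨w, ?_⟩
          rw [map_mul]
          rfl
        exact this (hQ hv)
      calc length K (Z (i + 1)) ≤ length K ↥(Z i ⊔ LinearMap.range (ρ g0)) :=
            Module.length_le_of_injective _ (Submodule.inclusion_injective hle)
        _ ≤ length K (Z i) + length K (W ⧸ Q) := length_sup_range_le _ _ _ hk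
        _ ≤ i * length K (W ⧸ Q) + length K (W ⧸ Q) := by
            gcongr
            exact ih (by omega)
        _ = ((i + 1 : ℕ) : ℕ∞) * length K (W ⧸ Q) := by
            push_cast
            ring
  have hT : Z h = ⊤ := by
    refine top_le_iff.1 (le_trans ?_ (hZ h 1 (by rw [h1]; trivial)))
    rw [map_one]
    intro w _
    exact ⟨w, rfl⟩
  have := key h le_rfl
  rw [hT, Module.length_top] at this
  exact this

end QL

section DIM

variable {K V : Type*} [Ring K] [AddCommGroup V] [Module K V]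

theorem length_quot_pow_succ (P : Submodule K V) (f : Module.End K V)
    (hP : ∀ v ∈ P, f v ∈ P) (hreg : ∀ v, f v ∈ P → v ∈ P) (e : ℕ) :
    length K (V ⧸ (P ⊔ LinearMap.range (f ^ (e + 1)))) =
      length K (V ⧸ (P ⊔ LinearMap.range f)) + length K (V ⧸ (P ⊔ LinearMap.range (f ^ e))) := by
  have hPe : ∀ n, ∀ v ∈ P, (f ^ n) v ∈ P := by
    intro n
    induction n with
    | zero => intro v hv; simpa using hv
    | succ n ih => intro v hv; rw [pow_succ']; exact hP _ (ih v hv)
  have hrege : ∀ n v, (f ^ n) v ∈ P → v ∈ P := by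
    intro n
    induction n with
    | zero => intro v hv; simpa using hv
    | succ n ih => intro v hv; rw [pow_succ'] at hv; exact ih v (hreg _ hv)
  have h1 : P ⊔ LinearMap.range f ≤ (P ⊔ LinearMap.range (f ^ (e + 1))).comap (f ^ e) := by
    refine sup_le (fun v hv => Submodule.mem_sup_left (hPe e v hv)) ?_
    rintro _ ⟨w, rfl⟩
    refine Submodule.mem_sup_right ⟨w, ?_⟩
    rw [pow_succ]
    rfl
  have h2 : P ⊔ LinearMap.range (f ^ (e + 1)) ≤ P ⊔ LinearMap.range (f ^ e) := by
    refine sup_le_sup_left ?_ _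
    rintro _ ⟨w, rfl⟩
    refine ⟨f w, ?_⟩
    rw [pow_succ]
    rfl
  refine Module.length_eq_add_of_exact (Submodule.mapQ _ _ (f ^ e) h1) (Submodule.factor h2)
    ?_ (Submodule.factor_surjective h2) ?_
  · rw [← LinearMap.ker_eq_bot, eq_bot_iff]
    intro x hx
    obtain ⟨v, rfl⟩ := Submodule.mkQ_surjective _ x
    have hx' : (f ^ e) v ∈ P ⊔ LinearMap.range (f ^ (e + 1)) :=
      (Submodule.Quotient.mk_eq_zero _).1 hx
    obtain ⟨p, hp, _, ⟨w, rfl⟩, hs⟩ := Submodule.mem_sup.1 hx'
    have : (f ^ e) (v - f w) ∈ P := by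
      rw [map_sub, ← hs, pow_succ]
      simpa using hp
    rw [Submodule.mem_bot]
    refine (Submodule.Quotient.mk_eq_zero _).2 ?_
    have e1 : v = (v - f w) + f w := by abel
    rw [e1]
    exact Submodule.add_mem_sup (hrege e _ this) ⟨w, rfl⟩
  · intro x
    obtain ⟨v, rfl⟩ := Submodule.mkQ_surjective _ x
    constructor
    · intro hx
      have hx' : v ∈ P ⊔ LinearMap.range (f ^ e) := (Submodule.Quotient.mk_eq_zero _).1 hx
      obtain ⟨p, hp, _, ⟨w, rfl⟩, rfl⟩ := Submodule.mem_sup.1 hx'
      refine ⟨Submodule.mkQ _ w, ?_⟩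
      change Submodule.Quotient.mk ((f ^ e) w) = Submodule.Quotient.mk _
      rw [Submodule.Quotient.eq]
      refine Submodule.mem_sup_left ?_
      simpa using hp
    · rintro ⟨y, hy⟩
      obtain ⟨w, rfl⟩ := Submodule.mkQ_surjective _ y
      rw [← hy]
      exact (Submodule.Quotient.mk_eq_zero _).2 (Submodule.mem_sup_right ⟨w, rfl⟩)

theorem length_quot_pow (P : Submodule K V) (f : Module.End K V)
    (hP : ∀ v ∈ P, f v ∈ P) (hreg : ∀ v, f v ∈ P → v ∈ P) (e : ℕ) :
    length K (V ⧸ (P ⊔ LinearMap.range (f ^ e))) =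
      e * length K (V ⧸ (P ⊔ LinearMap.range f)) := by
  induction e with
  | zero =>
    have : P ⊔ LinearMap.range (f ^ 0) = ⊤ := by
      refine top_le_iff.1 fun v _ => Submodule.mem_sup_right ⟨v, by simp⟩
    rw [this]
    simp
  | succ e ih =>
    rw [length_quot_pow_succ P f hP hreg, ih]
    push_cast
    ring

/-- Multiplicativity of lengths. -/
theorem length_quot_pows {ι : Type*} [Fintype ι] [DecidableEq ι] (f : ι → Module.End K V)
    (hc : ∀ i j, Commute (f i) (f j))
    (hreg : ∀ (e : ι → ℕ), (∀ i, 1 ≤ e i) → ∀ k v,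
      f k v ∈ ⨆ i ∈ {i | i ≠ k}, LinearMap.range (f i ^ e i) →
        v ∈ ⨆ i ∈ {i | i ≠ k}, LinearMap.range (f i ^ e i))
    (e : ι → ℕ) (he : ∀ i, 1 ≤ e i) :
    length K (V ⧸ ⨆ i, LinearMap.range (f i ^ e i)) =
      (∏ i, e i : ℕ) * length K (V ⧸ ⨆ i, LinearMap.range (f i)) := by
  have split : ∀ (e : ι → ℕ) (k : ι), ⨆ i, LinearMap.range (f i ^ e i) =
      (⨆ i ∈ {i | i ≠ k}, LinearMap.range (f i ^ e i)) ⊔ LinearMap.range (f k ^ e k) := by
    intro e k
    apply le_antisymm
    · refine iSup_le fun i => ?_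
      by_cases hik : i = k
      · subst hik
        exact le_sup_right
      · exact le_sup_of_le_left (le_iSup₂_of_le (f := fun i (_ : i ∈ {i | i ≠ k}) =>
          LinearMap.range (f i ^ e i)) i hik le_rfl)
    · exact sup_le (iSup₂_le fun i _ => le_iSup (fun i => LinearMap.range (f i ^ e i)) i)
        (le_iSup (fun i => LinearMap.range (f i ^ e i)) k)
  have key : ∀ s : Finset ι, length K (V ⧸ ⨆ i, LinearMap.range (f i ^ (if i ∈ s then e i else 1)))
      = (∏ i ∈ s, e i : ℕ) * length K (V ⧸ ⨆ i, LinearMap.range (f i)) := by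
    intro s
    induction s using Finset.induction_on with
    | empty =>
      simp only [Module.length_quotient]
      simp
    | insert k s hk ih =>
      have hP : (⨆ i ∈ {i | i ≠ k}, LinearMap.range (f i ^ (if i ∈ insert k s then e i else 1)))
          = ⨆ i ∈ {i | i ≠ k}, LinearMap.range (f i ^ (if i ∈ s then e i else 1)) := by
        refine iSup_congr fun i => iSup_congr fun hi => ?_
        have hi' : i ≠ k := hi
        simp [hi']
      rw [split _ k, hP]
      rw [split _ k] at ih
      rw [if_pos (Finset.mem_insert_self k s)]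
      rw [if_neg hk, pow_one] at ih
      rw [length_quot_pow, ih, Finset.prod_insert hk]
      · push_cast
        ring
      · have : (⨆ i ∈ {i | i ≠ k}, LinearMap.range (f i ^ (if i ∈ s then e i else 1))) ≤
            (⨆ i ∈ {i | i ≠ k}, LinearMap.range (f i ^ (if i ∈ s then e i else 1))).comap (f k) := by
          refine iSup₂_le fun i hi => ?_
          rintro _ ⟨w, rfl⟩
          refine (le_iSup₂_of_le (f := fun i (_ : i ∈ {i | i ≠ k}) =>
            LinearMap.range (f i ^ (if i ∈ s then e i else 1))) i hi le_rfl) ⟨f k w, ?_⟩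
          have := ((hc i k).pow_left (if i ∈ s then e i else 1)).eq
          exact congrArg (fun g : Module.End K V => g w) this
        exact this
      · refine hreg (fun i => if i ∈ s then e i else 1) (fun i => ?_) k
        split_ifs
        · exact he i
        · exact le_rfl
  simpa [Module.length_quotient] using key Finset.univ

end DIM

end Pool.Agent.ROB.CA
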