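import Mathlib
import Pool.Agent.Lib.ROB.CA_Defs
import Pool.Agent.Lib.ROB.CA_Dim

/-! From a module with a length function to the Q-sequence property on a forcing algebra. -/

namespace Pool.Agent.ROB.CA

open Module

open scoped IsMulCommutative in
/-- Evaluation of polynomials at commuting elements of a noncommutative ring. -/
theorem exists_ringHom_mvPolynomial {R A ι : Type*} [CommRing R] [Ring A] (σ : R →+* A)
    (U : ι → A) (h1 : ∀ r j, Commute (σ r) (U j)) (h2 : ∀ i j, Commute (U i) (U j)) :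
    ∃ ρ : MvPolynomial ι R →+* A, (∀ r, ρ (MvPolynomial.C r) = σ r) ∧
      ∀ j, ρ (MvPolynomial.X j) = U j := by
  let B : Subring A := Subring.closure (Set.range σ ∪ Set.range U)
  have : IsMulCommutative B := by
    refine Subring.isMulCommutative_closure ?_
    rintro _ (⟨r, rfl⟩ | ⟨i, rfl⟩) _ (⟨s, rfl⟩ | ⟨j, rfl⟩)
    · rw [← map_mul, mul_comm, map_mul]
    · exact h1 r j
    · exact (h1 s i).symm
    · exact h2 i j
  let σ' : R →+* B := σ.codRestrict B fun r => Subring.subset_closure (Or.inl ⟨r, rfl⟩)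
  let U' : ι → B := fun j => ⟨U j, Subring.subset_closure (Or.inr ⟨j, rfl⟩)⟩
  refine ⟨B.subtype.comp (MvPolynomial.eval₂Hom σ' U'), fun r => ?_, fun j => ?_⟩
  · simp [σ']
  · simp [U']

theorem isQSeq_forcing {R : Type} [CommRing R] {K N : Type*} [Ring K] [AddCommGroup N]
    [Module K N] (σ : R →+* Module.End K N) {d : ℕ} (y : Fin d → R) {n : ℕ} (g : Fin n → R)
    (u : R)
    (hreg : ∀ (e : Fin d → ℕ), (∀ i, 1 ≤ e i) → ∀ k v,
      σ (y k) v ∈ ⨆ i ∈ {i | i ≠ k}, LinearMap.range (σ (y i) ^ e i) →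
        v ∈ ⨆ i ∈ {i | i ≠ k}, LinearMap.range (σ (y i) ^ e i))
    (hfin : length K (N ⧸ ⨆ i, LinearMap.range (σ (y i))) ≠ ⊤)
    (hne : length K (N ⧸ ⨆ i, LinearMap.range (σ (y i))) ≠ 0)
    (hU : ∀ t, 1 ≤ t → ∃ U : Fin n → Module.End K N, (∀ r j, Commute (σ r) (U j)) ∧
      (∀ i j v, U i (U j v) - U j (U i v) ∈ ⨆ i, LinearMap.range (σ (y i) ^ t)) ∧
      ∀ v, σ u v - ∑ j, σ (g j) (U j v) ∈ ⨆ i, LinearMap.range (σ (y i) ^ t)) :
    IsQSeq fun i => algebraMap R (Forcing g u) (y i) := by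
  intro t ht
  refine le_iInf₂ fun h hc => ?_
  obtain ⟨c, h0, h1, hs⟩ := hc
  obtain ⟨U, hU1, hU2, hU3⟩ := hU t ht
  set P : Submodule K N := ⨆ i, LinearMap.range (σ (y i) ^ t) with hP
  have hσc : ∀ r s, Commute (σ r) (σ s) := fun r s => by
    rw [Commute, SemiconjBy, ← map_mul, mul_comm, map_mul]
  have hinv : ∀ f : Module.End K N, (∀ r, Commute (σ r) f) → P ≤ P.comap f := by
    intro f hf
    refine iSup_le fun i => ?_
    rintro _ ⟨w, rfl⟩
    refine le_iSup (fun i => LinearMap.range (σ (y i) ^ t)) i ⟨f w, ?_⟩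
    exact congrArg (fun g : Module.End K N => g w) ((hf (y i)).pow_left t).eq
  let σ' : R →+* Module.End K (N ⧸ P) :=
    { toFun := fun r => P.mapQ P (σ r) (hinv _ fun s => hσc s r)
      map_one' := by
        ext v
        simp
      map_mul' := fun r s => by
        ext v
        simp
      map_zero' := by
        ext v
        simp
      map_add' := fun r s => by
        ext v
        simp }
  have hσ' : ∀ r v, σ' r (P.mkQ v) = P.mkQ (σ r v) := fun _ _ => rfl
  let U' : Fin n → Module.End K (N ⧸ P) := fun j => P.mapQ P (U j) (hinv _ fun r => hU1 r j)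
  have hU' : ∀ j v, U' j (P.mkQ v) = P.mkQ (U j v) := fun _ _ => rfl
  obtain ⟨ρ0, hρ1, hρ2⟩ := exists_ringHom_mvPolynomial σ' U' (by
    intro r j
    refine LinearMap.ext fun w => ?_
    obtain ⟨v, rfl⟩ := P.mkQ_surjective w
    simp only [Module.End.mul_apply, hσ', hU']
    exact congrArg (fun g : Module.End K N => P.mkQ (g v)) (hU1 r j).eq) (by
    intro i j
    refine LinearMap.ext fun w => ?_
    obtain ⟨v, rfl⟩ := P.mkQ_surjective w
    simp only [Module.End.mul_apply, hU']
    exact (Submodule.Quotient.eq P).2 (hU2 i j v))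
  have hker : ∀ a ∈ Ideal.span
      {MvPolynomial.C u - ∑ i, MvPolynomial.C (g i) * MvPolynomial.X i}, ρ0 a = 0 := by
    intro a ha
    obtain ⟨b, rfl⟩ := Ideal.mem_span_singleton'.1 ha
    have : ρ0 (MvPolynomial.C u - ∑ i, MvPolynomial.C (g i) * MvPolynomial.X i) = 0 := by
      refine LinearMap.ext fun w => ?_
      obtain ⟨v, rfl⟩ := P.mkQ_surjective w
      simp only [map_sub, map_sum, map_mul, hρ1, hρ2, LinearMap.sub_apply, LinearMap.sum_apply,
        Module.End.mul_apply, hσ', hU', LinearMap.zero_apply]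
      rw [← map_sum, ← map_sub]
      exact (Submodule.Quotient.mk_eq_zero P).2 (hU3 v)
    rw [map_mul, this, mul_zero]
  let ρ : Forcing g u →+* Module.End K (N ⧸ P) := Ideal.Quotient.lift _ ρ0 hker
  have hρ : ∀ r, ρ (algebraMap R (Forcing g u) r) = σ' r := fun r => hρ1 r
  have hPQ : P ≤ ⨆ i, LinearMap.range (σ (y i)) := by
    refine iSup_mono fun i => ?_
    rintro _ ⟨w, rfl⟩
    obtain ⟨s, rfl⟩ : ∃ s, t = s + 1 := ⟨t - 1, by omega⟩
    exact ⟨(σ (y i) ^ s) w, by rw [pow_succ']; rfl⟩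
  have key := ql_bound ρ
    (Ideal.span (Set.range fun i => algebraMap R (Forcing g u) (y i) ^ t))
    (Ideal.span (Set.range fun i => algebraMap R (Forcing g u) (y i))) (by
      intro a ha
      refine (Ideal.span_le (I := RingHom.ker ρ)).2 ?_ ha
      rintro _ ⟨i, rfl⟩
      change ρ (algebraMap R (Forcing g u) (y i) ^ t) = 0
      rw [← map_pow, hρ]
      refine LinearMap.ext fun w => ?_
      obtain ⟨v, rfl⟩ := P.mkQ_surjective w
      rw [hσ', map_pow]
      exact (Submodule.Quotient.mk_eq_zero P).2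
        (le_iSup (fun i => LinearMap.range (σ (y i) ^ t)) i ⟨v, rfl⟩))
    ((⨆ i, LinearMap.range (σ (y i))).map P.mkQ) (by
      rw [Submodule.map_iSup]
      refine iSup_le fun i => ?_
      refine le_iSup₂_of_le (algebraMap R (Forcing g u) (y i))
        (Ideal.subset_span (Set.mem_range_self i)) ?_
      rintro _ ⟨_, ⟨v, rfl⟩, rfl⟩
      exact ⟨P.mkQ v, by rw [hρ, hσ']⟩) h c h0 h1 (by
      intro i hi
      obtain ⟨⟨m, hm⟩, hJ⟩ := hs i hi
      refine ⟨m, hm.le, fun a ha => hJ (Submodule.smul_mem_smul ha ?_)⟩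
      rw [hm]
      exact Submodule.mem_sup_right (Submodule.mem_span_singleton_self m))
  rw [(Submodule.quotientQuotientEquivQuotient P _ hPQ).length_eq, hP,
    length_quot_pows (fun i => σ (y i)) (fun i j => hσc _ _) hreg (fun _ => t) (fun _ => ht)]
    at key
  simp only [Finset.prod_const, Finset.card_univ, Fintype.card_fin] at key
  exact (ENat.mul_le_mul_right_iff hne hfin).1 key

end Pool.Agent.ROB.CA
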