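import Mathlib

/-! Systems of parameters of a module of maximal depth are regular sequences. -/

namespace Pool.Agent.ROB.CA

open RingTheory.Sequence CategoryTheory Abelian Limits IsLocalRing

/-- Prime avoidance for cosets. -/
theorem exists_add_notMem {R : Type*} [CommRing R] (F : Set (Ideal R)) (hF : F.Finite)
    (hp : ∀ p ∈ F, p.IsPrime) (y : R) (J : Ideal R) (h : ∀ p ∈ F, y ∈ p → ¬ J ≤ p) :
    ∃ c ∈ J, ∀ p ∈ F, y + c ∉ p := by
  classical
  let A : Set (Ideal R) := {p ∈ F | y ∈ p}
  let B : Finset (Ideal R) := hF.toFinset.filter fun p => ∀ q ∈ A, ¬ p ≤ q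
  have hA : A.Finite := hF.subset fun _ h => h.1
  have h1 : ¬ (((J ⊓ B.inf id : Ideal R) : Set R) ⊆ ⋃ q ∈ A, ((id q : Ideal R) : Set R)) := by
    rw [Ideal.subset_union_prime_finite hA (f := id) ⊥ ⊥ (fun q hq _ _ => hp q hq.1)]
    rintro ⟨q, hq, hle⟩
    have := hp q hq.1
    rcases (Ideal.IsPrime.inf_le this).1 hle with h2 | h2
    · exact h q hq.1 hq.2 h2
    · obtain ⟨p, hpB, hpq⟩ := (Ideal.IsPrime.inf_le' this).1 h2
      exact (Finset.mem_filter.1 hpB).2 q hq hpq
  obtain ⟨c, hc, hcn⟩ := Set.not_subset.1 h1
  simp only [Set.mem_iUnion, not_exists, id] at hcn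
  have hA' : ∀ q ∈ A, y + c ∉ q := fun q hq hyc =>
    hcn q hq ((Submodule.add_mem_iff_right q hq.2).1 hyc)
  refine ⟨c, hc.1, fun p hpF hyc => ?_⟩
  by_cases hB : ∀ q ∈ A, ¬ p ≤ q
  · have hpB : p ∈ B := Finset.mem_filter.2 ⟨hF.mem_toFinset.2 hpF, hB⟩
    have hcp : c ∈ p := (Finset.inf_le (f := id) hpB) hc.2
    exact hB p ⟨hpF, (Submodule.add_mem_iff_left p hcp).1 hyc⟩ le_rfl
  · push Not at hB
    obtain ⟨q, hq, hpq⟩ := hB
    exact hA' q hq (hpq hyc)

universe u

theorem isWeaklyRegular_of_ext {R : Type u} [CommRing R] [IsNoetherianRing R] [IsLocalRing R]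
    (ys : List R) : ∀ (M : ModuleCat.{u} R) [Module.Finite R M], (∀ y ∈ ys, y ∈ maximalIdeal R) →
      (∀ p : Ideal R, p.IsPrime → Module.annihilator R M ≤ p → (∀ y ∈ ys, y ∈ p) →
        p = maximalIdeal R) →
      (∀ i < ys.length, Subsingleton (Ext (ModuleCat.of R (R ⧸ maximalIdeal R)) M i)) →
      IsWeaklyRegular M ys := by
  induction ys with
  | nil => intro M _ _ _ _; exact IsWeaklyRegular.nil R M
  | cons y ys ih =>
    intro M _ hm hp hext
    have h0 : Subsingleton (ModuleCat.of R (R ⧸ maximalIdeal R) ⟶ M) :=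
      Ext.addEquiv₀.subsingleton_congr.mp (hext 0 (by simp))
    have h0' : Subsingleton ((R ⧸ maximalIdeal R) →ₗ[R] M) :=
      (ModuleCat.homAddEquiv (M := ModuleCat.of R (R ⧸ maximalIdeal R)) (N := M)).symm.subsingleton
    obtain ⟨x, hxm, hx⟩ := IsSMulRegular.subsingleton_linearMap_iff.mp h0'
    rw [Ideal.annihilator_quotient] at hxm
    have hreg : ∀ r : R, (∀ p ∈ associatedPrimes R M, r ∉ p) ↔ IsSMulRegular M r := by
      intro r
      have := Set.ext_iff.1 (biUnion_associatedPrimes_eq_compl_regular R M) r
      simp only [Set.mem_iUnion, Set.mem_compl_iff, Set.mem_ofPred_eq, SetLike.mem_coe,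
        exists_prop] at this
      constructor
      · intro h
        by_contra hn
        obtain ⟨p, hp1, hp2⟩ := this.2 hn
        exact h p hp1 hp2
      · intro h p hp1 hp2
        exact this.1 ⟨p, hp1, hp2⟩ h
    obtain ⟨c, hc, hu⟩ := exists_add_notMem (associatedPrimes R M) (associatedPrimes.finite R M)
      (fun p hp => hp.1) y (Ideal.ofList ys) (by
        intro p hpa hy hle
        have hann : Module.annihilator R M ≤ p := by
          have := IsAssociatedPrime.annihilator_le hpa
          rwa [Submodule.annihilator_top] at this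
        have : p = maximalIdeal R := hp p hpa.1 hann (by
          intro z hz
          rcases List.mem_cons.1 hz with rfl | hz
          · exact hy
          · exact hle (Ideal.subset_span hz))
        exact (hreg x).2 hx p hpa (this ▸ hxm))
    have hur : IsSMulRegular M (y + c) := (hreg _).1 hu
    have hcm : c ∈ maximalIdeal R :=
      (Ideal.span_le.2 fun z hz => hm z (List.mem_cons_of_mem _ hz)) hc
    have h1 : IsWeaklyRegular (QuotSMulTop (y + c) M) ys := by
      refine ih (ModuleCat.of R (QuotSMulTop (y + c) M))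
        (fun z hz => hm z (List.mem_cons_of_mem _ hz)) ?_ ?_
      · intro p hpp hann hys
        have hcp : c ∈ p := (Ideal.span_le.2 fun z hz => hys z hz) hc
        have hup : y + c ∈ p := by
          refine hann (Module.mem_annihilator.2 fun v => ?_)
          obtain ⟨w, rfl⟩ := Submodule.mkQ_surjective _ v
          exact (Submodule.Quotient.mk_eq_zero _).2
            (Submodule.smul_mem_pointwise_smul _ _ _ trivial)
        refine hp p hpp (le_trans ?_ hann) ?_
        · exact LinearMap.annihilator_le_of_surjective _ (Submodule.mkQ_surjective _)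
        · intro z hz
          rcases List.mem_cons.1 hz with rfl | hz
          · exact (Submodule.add_mem_iff_left p hcp).1 hup
          · exact hys z hz
      · intro i hi
        have zero1 := AddCommGrpCat.isZero_of_iff_subsingleton.mpr (hext i (by simp; omega))
        have zero2 := AddCommGrpCat.isZero_of_iff_subsingleton.mpr
          (hext (i + 1) (by simp; omega))
        exact AddCommGrpCat.subsingleton_of_isZero <| ShortComplex.Exact.isZero_of_both_zeros
          ((Ext.covariant_sequence_exact₃' _ hur.smulShortComplex_shortExact) i (i + 1) rfl)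
          (zero1.eq_zero_of_src _) (zero2.eq_zero_of_tgt _)
    have h2 : IsWeaklyRegular M ((y + c) :: ys) := IsWeaklyRegular.cons hur h1
    have h3 : IsWeaklyRegular M (ys ++ [y + c]) := by
      refine IsLocalRing.isWeaklyRegular_of_perm_of_subset_maximalIdeal h2
        (List.perm_append_singleton _ _).symm ?_
      intro z hz
      rcases List.mem_cons.1 hz with rfl | hz
      · exact add_mem (hm y List.mem_cons_self) hcm
      · exact hm z (List.mem_cons_of_mem _ hz)
    rw [isWeaklyRegular_append_iff] at h3
    have h4 : IsWeaklyRegular M (ys ++ [y]) := by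
      rw [isWeaklyRegular_append_iff]
      refine ⟨h3.1, ?_⟩
      refine ((AddEquiv.refl _).isWeaklyRegular_congr ?_).1 h3.2
      refine List.Forall₂.cons (fun v => ?_) List.Forall₂.nil
      obtain ⟨w, rfl⟩ := Submodule.mkQ_surjective _ v
      have : c • (Ideal.ofList ys • ⊤ : Submodule R M).mkQ w = 0 := by
        rw [← map_smul]
        exact (Submodule.Quotient.mk_eq_zero _).2 (Submodule.smul_mem_smul hc trivial)
      rw [add_smul, this, add_zero]
      rfl
    refine IsLocalRing.isWeaklyRegular_of_perm_of_subset_maximalIdeal h4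
      (List.perm_append_singleton _ _) ?_
    intro z hz
    exact hm z ((List.perm_append_singleton _ _).mem_iff.1 hz)

/-- In a Noetherian local ring with a regular sequence of length `n` in the maximal ideal, any
at most `n` elements generating an ideal primary to the maximal ideal form a regular sequence. -/
theorem isWeaklyRegular_of_sop {R : Type u} [CommRing R] [IsNoetherianRing R] [IsLocalRing R]
    (xs ys : List R) (hx : ∀ x ∈ xs, x ∈ maximalIdeal R) (hreg : IsWeaklyRegular R xs)
    (hlen : ys.length ≤ xs.length) (hy : ∀ y ∈ ys, y ∈ maximalIdeal R)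
    (hp : ∀ p : Ideal R, p.IsPrime → (∀ y ∈ ys, y ∈ p) → p = maximalIdeal R) :
    IsWeaklyRegular R ys := by
  refine isWeaklyRegular_of_ext ys (ModuleCat.of R R) hy (fun p h1 _ h2 => hp p h1 h2) ?_
  intro i hi
  refine ModuleCat.subsingleton_ext_of_exists_isRegular (maximalIdeal R)
    (ModuleCat.of R (R ⧸ maximalIdeal R)) ?_ (ModuleCat.of R R) ?_ xs hx
    (IsRegular.of_isWeaklyRegular_of_mem_maximalIdeal R hx hreg) i (by omega)
  · rw [Module.support_eq_zeroLocus, Ideal.annihilator_quotient]
  · rw [smul_eq_mul, Ideal.mul_top]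
    exact (maximalIdeal.isMaximal R).ne_top.lt_top

end Pool.Agent.ROB.CA
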