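import Mathlib
import Pool.Agent.Lib.ROB.CA_Reg

/-! Monomial ideals, dimension and regular sequences in power series rings. -/

namespace Pool.Agent.ROB.CA

open MvPowerSeries RingTheory.Sequence IsLocalRing

variable {σ : Type*}

theorem exists_sum_monomial_mul {A : Type*} [Semiring A] (E : Finset (σ →₀ ℕ))
    (f : MvPowerSeries σ A) (h : ∀ d, (∀ e ∈ E, ¬ e ≤ d) → coeff d f = 0) :
    ∃ g : (σ →₀ ℕ) → MvPowerSeries σ A, f = ∑ e ∈ E, monomial e 1 * g e ∧
      ∀ e d, coeff d (g e) = 0 ∨ coeff d (g e) = coeff (d + e) f := by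
  classical
  let ch : (σ →₀ ℕ) → (σ →₀ ℕ) := fun d => if h : ∃ e ∈ E, e ≤ d then h.choose else 0
  have hch : ∀ d, (∃ e ∈ E, e ≤ d) → ch d ∈ E ∧ ch d ≤ d := by
    intro d hd
    simp only [ch, dif_pos hd]
    exact hd.choose_spec
  let g : (σ →₀ ℕ) → MvPowerSeries σ A :=
    fun e => fun d => if ch (d + e) = e then coeff (d + e) f else 0
  refine ⟨g, ?_, ?_⟩
  · ext m
    rw [map_sum]
    have : ∀ e ∈ E, coeff m (monomial e (1 : A) * g e) =
        if ch m = e ∧ e ≤ m then coeff m f else 0 := by
      intro e _
      rw [coeff_monomial_mul]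
      by_cases hle : e ≤ m
      · rw [if_pos hle, one_mul]
        change (if ch (m - e + e) = e then coeff (m - e + e) f else 0) = _
        rw [tsub_add_cancel_of_le hle]
        simp [hle]
      · simp [hle]
    rw [Finset.sum_congr rfl this]
    by_cases hm : ∃ e ∈ E, e ≤ m
    · rw [Finset.sum_eq_single (ch m)]
      · simp [(hch m hm).2]
      · intro e _ hne
        simp [hne.symm]
      · intro hn
        exact absurd (hch m hm).1 hn
    · push Not at hm
      rw [h m hm]
      simp
  · intro e d
    change (if ch (d + e) = e then coeff (d + e) f else 0) = 0 ∨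
      (if ch (d + e) = e then coeff (d + e) f else 0) = _
    split_ifs
    · exact Or.inr rfl
    · exact Or.inl rfl

theorem mem_span_monomial_iff {A : Type*} [CommRing A] (E : Set (σ →₀ ℕ)) (hE : E.Finite)
    (f : MvPowerSeries σ A) :
    f ∈ Ideal.span ((fun e => monomial e (1 : A)) '' E) ↔
      ∀ d, (∀ e ∈ E, ¬ e ≤ d) → coeff d f = 0 := by
  constructor
  · intro hf d hd
    induction hf using Submodule.span_induction generalizing d with
    | mem x hx =>
      obtain ⟨e, he, rfl⟩ := hx
      exact coeff_monomial_ne (fun h => hd e he h.ge) _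
    | zero => simp
    | add x y _ _ hx hy => rw [map_add, hx d hd, hy d hd, add_zero]
    | smul a x _ hx =>
      classical
      rw [smul_eq_mul, coeff_mul]
      refine Finset.sum_eq_zero fun p hp => ?_
      rw [hx p.2, mul_zero]
      intro e he hle
      refine hd e he (hle.trans ?_)
      rw [← Finset.HasAntidiagonal.mem_antidiagonal.1 hp]
      exact le_add_self
  · intro h
    obtain ⟨g, hg, -⟩ := exists_sum_monomial_mul hE.toFinset f
      (fun d hd => h d fun e he => hd e (hE.mem_toFinset.2 he))
    rw [hg]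
    exact Ideal.sum_mem _ fun e he =>
      Ideal.mul_mem_right _ _ (Ideal.subset_span ⟨e, hE.mem_toFinset.1 he, rfl⟩)

theorem mem_span_X_pow_iff {A : Type*} [CommRing A] (s : Set σ) (hs : s.Finite) (n : σ → ℕ)
    (f : MvPowerSeries σ A) :
    f ∈ Ideal.span ((fun i => (X i : MvPowerSeries σ A) ^ n i) '' s) ↔
      ∀ d : σ →₀ ℕ, (∀ i ∈ s, d i < n i) → coeff d f = 0 := by
  have e : (fun i => (X i : MvPowerSeries σ A) ^ n i) '' s =
      (fun e => monomial e (1 : A)) '' ((fun i => Finsupp.single i (n i)) '' s) := by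
    rw [Set.image_image]
    exact Set.image_congr fun i _ => X_pow_eq i (n i)
  rw [e, mem_span_monomial_iff _ (hs.image _)]
  refine forall_congr' fun d => imp_congr_left ?_
  simp [Finsupp.single_le_iff]

variable {k : Type*} [Field k]

theorem mem_maximalIdeal_iff (f : MvPowerSeries σ k) :
    f ∈ maximalIdeal (MvPowerSeries σ k) ↔ constantCoeff f = 0 := by
  rw [mem_maximalIdeal, mem_nonunits_iff, isUnit_iff_constantCoeff, isUnit_iff_ne_zero, not_not]

theorem X_mem_maximalIdeal (i : σ) :
    (X i : MvPowerSeries σ k) ∈ maximalIdeal (MvPowerSeries σ k) := by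
  rw [mem_maximalIdeal_iff, constantCoeff_X]

theorem maximalIdeal_eq_span [Finite σ] :
    maximalIdeal (MvPowerSeries σ k) = Ideal.span (Set.range X) := by
  ext f
  have := mem_span_X_pow_iff (A := k) (Set.univ : Set σ) Set.finite_univ (fun _ => 1) f
  simp only [pow_one, Set.image_univ] at this
  rw [mem_maximalIdeal_iff, this]
  constructor
  · intro h d hd
    have : d = 0 := by
      ext i
      simpa using hd i trivial
    rw [this]
    exact h
  · intro h
    exact h 0 (by simp)

instance isAdicComplete_maximalIdeal [Finite σ] :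
    IsAdicComplete (maximalIdeal (MvPowerSeries σ k)) (MvPowerSeries σ k) := by
  rw [maximalIdeal_eq_span]
  infer_instance

theorem monomial_mem_pow (d : σ →₀ ℕ) :
    (monomial d 1 : MvPowerSeries σ k) ∈ maximalIdeal (MvPowerSeries σ k) ^ d.degree := by
  induction d using Finsupp.induction_linear with
  | zero => simp
  | add a b ha hb =>
    rw [map_add, pow_add, ← one_mul (1 : k), ← monomial_mul_monomial]
    exact Ideal.mul_mem_mul ha hb
  | single i n =>
    rw [Finsupp.degree_single, ← X_pow_eq]
    exact Ideal.pow_mem_pow (X_mem_maximalIdeal i) n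

theorem mem_maximalIdeal_pow_iff [Finite σ] (n : ℕ) (f : MvPowerSeries σ k) :
    f ∈ maximalIdeal (MvPowerSeries σ k) ^ n ↔ ∀ d : σ →₀ ℕ, d.degree < n → coeff d f = 0 := by
  constructor
  · intro hf
    have : (n : ℕ∞) ≤ f.order := by
      induction n generalizing f with
      | zero => simp
      | succ n ih =>
        rw [pow_succ] at hf
        refine Submodule.mul_induction_on hf (fun a ha b hb => ?_) (fun a b ha hb => ?_)
        · refine le_trans ?_ le_order_mul
          push_cast
          exact add_le_add (ih a ha)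
            (one_le_order_iff_constCoeff_eq_zero.2 ((mem_maximalIdeal_iff b).1 hb))
        · exact le_trans (le_min ha hb) min_order_le_add
    intro d hd
    exact coeff_of_lt_order (lt_of_lt_of_le (by exact_mod_cast hd) this)
  · intro h
    have h1 : f ∈ Ideal.span ((fun e => monomial e (1 : k)) '' {e : σ →₀ ℕ | e.degree = n}) := by
      rw [mem_span_monomial_iff _ (Finsupp.finite_of_degree_eq n)]
      intro d hd
      refine h d (not_le.1 fun hle => ?_)
      obtain ⟨e, he1, he2⟩ := Finsupp.exists_le_degree_eq d n hle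
      exact hd e he2 he1
    refine (Ideal.span_le.2 ?_) h1
    rintro _ ⟨e, he, rfl⟩
    have := monomial_mem_pow (k := k) e
    rwa [show e.degree = n from he] at this

theorem isWeaklyRegular_X (l : List σ) (hl : l.Nodup) :
    IsWeaklyRegular (MvPowerSeries σ k) (l.map X : List (MvPowerSeries σ k)) := by
  classical
  rw [isWeaklyRegular_iff_Fin]
  rintro ⟨i, hi⟩
  rw [List.length_map] at hi
  rw [isSMulRegular_quotient_iff_mem_of_smul_mem, smul_eq_mul, Ideal.mul_top]
  have e : Ideal.ofList ((l.map X : List (MvPowerSeries σ k)).take i) =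
      Ideal.span ((fun j => (X j : MvPowerSeries σ k) ^ (fun _ => 1) j) '' {j | j ∈ l.take i}) := by
    rw [Ideal.ofList, ← List.map_take]
    congr 1
    ext x
    simp [-List.map_take]
  simp only [e]
  intro f hf
  have hfin : ({j | j ∈ l.take i} : Set σ).Finite := List.finite_toSet _
  rw [mem_span_X_pow_iff _ hfin] at hf ⊢
  intro d hd
  have hne : ∀ j ∈ l.take i, j ≠ l[i] := by
    intro j hj hji
    obtain ⟨m, hm, rfl⟩ := List.mem_take_iff_getElem.1 hj
    have := (List.Nodup.getElem_inj_iff hl).1 hji
    omega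
  have := hf (d + Finsupp.single l[i] 1) (by
    intro j hj
    have := hd j hj
    rw [Finsupp.add_apply, Finsupp.single_eq_of_ne (hne j hj)]
    simpa using this)
  simp only [Fin.getElem_fin, List.getElem_map, smul_eq_mul] at this
  rw [X_def, coeff_monomial_mul, if_pos le_add_self, one_mul, add_tsub_cancel_right] at this
  exact this

theorem ringKrullDim_mvPowerSeries (n : ℕ) : ringKrullDim (MvPowerSeries (Fin n) k) = n := by
  have h1 : IsRegular (MvPowerSeries (Fin n) k)
      ((List.finRange n).map X : List (MvPowerSeries (Fin n) k)) := by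
    refine IsRegular.of_isWeaklyRegular_of_mem_maximalIdeal _ ?_
      (isWeaklyRegular_X _ (List.nodup_finRange n))
    intro r hr
    obtain ⟨i, _, rfl⟩ := List.mem_map.1 hr
    exact X_mem_maximalIdeal i
  have h2 := ringKrullDim_add_length_eq_ringKrullDim_of_isRegular _ h1
  have h3 : Ideal.ofList ((List.finRange n).map X : List (MvPowerSeries (Fin n) k)) =
      maximalIdeal _ := by
    rw [maximalIdeal_eq_span, Ideal.ofList]
    congr 1
    ext x
    simp
  rw [h3] at h2
  let := Ideal.Quotient.field (maximalIdeal (MvPowerSeries (Fin n) k))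
  rw [ringKrullDim_eq_zero_of_field] at h2
  simpa using h2.symm

/-- Any at most `n` power series in `n` variables generating an ideal primary to the maximal
ideal form a regular sequence. -/
theorem isWeaklyRegular_mvPowerSeries (n : ℕ) (ys : List (MvPowerSeries (Fin n) k))
    (hlen : ys.length ≤ n) (hy : ∀ y ∈ ys, y ∈ maximalIdeal (MvPowerSeries (Fin n) k))
    (hp : ∀ i, ∃ m, (X i : MvPowerSeries (Fin n) k) ^ m ∈ Ideal.ofList ys) :
    IsWeaklyRegular (MvPowerSeries (Fin n) k) ys := by
  refine isWeaklyRegular_of_sop ((List.finRange n).map X) ys ?_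
    (isWeaklyRegular_X _ (List.nodup_finRange n)) (by simpa using hlen) hy ?_
  · intro r hr
    obtain ⟨i, _, rfl⟩ := List.mem_map.1 hr
    exact X_mem_maximalIdeal i
  · intro p hpp hys
    refine ((maximalIdeal.isMaximal _).eq_of_le hpp.ne_top ?_).symm
    rw [maximalIdeal_eq_span, Ideal.span_le]
    rintro _ ⟨i, rfl⟩
    obtain ⟨m, hm⟩ := hp i
    exact hpp.mem_of_pow_mem m ((Ideal.span_le.2 fun y hy => hys y hy) hm)

end Pool.Agent.ROB.CA
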