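import Mathlib

/-! Direct summands of rings and modules. -/

namespace Pool.Agent.ROB.CA

open RingTheory.Sequence IsLocalRing

section Ring

variable {R S : Type*} [CommRing R] [CommRing S] [Algebra R S] (π : S →ₗ[R] R)

theorem proj_mem_of_mem_map (I : Ideal R) (s : S) (hs : s ∈ I.map (algebraMap R S)) :
    π s ∈ I := by
  have : ∀ t, π (t * s) ∈ I := by
    induction hs using Submodule.span_induction with
    | mem x hx =>
      obtain ⟨r, hr, rfl⟩ := hx
      intro t
      rw [mul_comm, ← Algebra.smul_def, map_smul, smul_eq_mul]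
      exact I.mul_mem_right _ hr
    | zero => intro t; simp
    | add x y _ _ hx hy => intro t; rw [mul_add, map_add]; exact I.add_mem (hx t) (hy t)
    | smul a x _ hx => intro t; rw [smul_eq_mul, ← mul_assoc]; exact hx _
  simpa using this 1

variable (hπ : π 1 = 1)
include hπ

theorem proj_algebraMap (r : R) : π (algebraMap R S r) = r := by
  rw [Algebra.algebraMap_eq_smul_one, map_smul, hπ, smul_eq_mul, mul_one]

theorem mem_of_algebraMap_mem_map (I : Ideal R) (r : R)
    (hr : algebraMap R S r ∈ I.map (algebraMap R S)) : r ∈ I := by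
  simpa [proj_algebraMap π hπ] using proj_mem_of_mem_map π I _ hr

theorem isNoetherianRing_of_proj [IsNoetherianRing S] : IsNoetherianRing R := by
  rw [isNoetherianRing_iff, isNoetherian_iff']
  have : StrictMono (fun I : Ideal R => I.map (algebraMap R S)) := by
    refine Monotone.strictMono_of_injective (fun I J h => Ideal.map_mono h) ?_
    intro I J h
    have h' : I.map (algebraMap R S) = J.map (algebraMap R S) := h
    ext r
    exact ⟨fun hr => mem_of_algebraMap_mem_map π hπ J r (h' ▸ Ideal.mem_map_of_mem _ hr),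
      fun hr => mem_of_algebraMap_mem_map π hπ I r (h'.symm ▸ Ideal.mem_map_of_mem _ hr)⟩
  exact this.wellFoundedGT

theorem isLocalHom_of_proj : IsLocalHom (algebraMap R S) := by
  refine ⟨fun r hr => ?_⟩
  obtain ⟨s, hs⟩ := hr.exists_right_inv
  refine IsUnit.of_mul_eq_one (π s) ?_
  rw [← smul_eq_mul, ← map_smul, Algebra.smul_def, hs, hπ]

theorem isLocalRing_of_proj [IsLocalRing S] : IsLocalRing R :=
  have := isLocalHom_of_proj π hπ
  (algebraMap R S).domain_isLocalRing

theorem isPrecomplete_of_proj (I : Ideal R) (J : Ideal S) [IsPrecomplete J S]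
    (h1 : I.map (algebraMap R S) ≤ J) (c : ℕ) (hc : 1 ≤ c)
    (h2 : J ^ c ≤ I.map (algebraMap R S)) : IsPrecomplete I R := by
  refine ⟨fun f hf => ?_⟩
  obtain ⟨L, hL⟩ := IsPrecomplete.prec (I := J) (M := S) inferInstance
    (f := fun n => algebraMap R S (f n)) (by
      intro m n hmn
      have := hf hmn
      rw [SModEq.sub_mem, smul_eq_mul, Ideal.mul_top] at this ⊢
      rw [← map_sub]
      refine Ideal.pow_right_mono h1 m ?_
      rw [← Ideal.map_pow]
      exact Ideal.mem_map_of_mem _ this)
  refine ⟨π L, fun n => ?_⟩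
  have h3 := hf (show n ≤ c * n from Nat.le_mul_of_pos_left n hc)
  have h4 := hL (c * n)
  rw [SModEq.sub_mem, smul_eq_mul, Ideal.mul_top] at h3 h4 ⊢
  have h5 : f (c * n) - π L ∈ I ^ n := by
    rw [pow_mul] at h4
    have h6 := Ideal.pow_right_mono h2 n h4
    rw [← Ideal.map_pow] at h6
    simpa [proj_algebraMap π hπ] using proj_mem_of_mem_map π _ _ h6
  simpa using (I ^ n).add_mem h3 h5

end Ring

section Module

variable {R M N : Type*} [CommRing R] [AddCommGroup M] [Module R M] [AddCommGroup N] [Module R N]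

theorem map_mem_smul_top (I : Ideal R) (f : M →ₗ[R] N) {v : M}
    (hv : v ∈ (I • ⊤ : Submodule R M)) : f v ∈ (I • ⊤ : Submodule R N) :=
  Submodule.smul_top_le_comap_smul_top I f hv

theorem isWeaklyRegular_of_retract (i : N →ₗ[R] M) (p : M →ₗ[R] N) (h : ∀ v, p (i v) = v)
    {rs : List R} (hM : IsWeaklyRegular M rs) : IsWeaklyRegular N rs := by
  rw [isWeaklyRegular_iff_Fin] at hM ⊢
  intro j
  have := hM j
  rw [isSMulRegular_quotient_iff_mem_of_smul_mem] at this ⊢
  intro v hv
  have h1 := map_mem_smul_top _ i hv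
  rw [map_smul] at h1
  simpa [h] using map_mem_smul_top _ p (this _ h1)

theorem mem_ofList_smul_top_pi {ι : Type*} (rs : List R) (v : ι → M)
    (hv : ∀ j, v j ∈ (Ideal.ofList rs • ⊤ : Submodule R M)) :
    v ∈ (Ideal.ofList rs • ⊤ : Submodule R (ι → M)) := by
  induction rs generalizing v with
  | nil =>
    have : v = 0 := by
      ext j
      simpa using hv j
    rw [this]
    exact zero_mem _
  | cons r rs ih =>
    simp only [Ideal.ofList_cons_smul, Submodule.mem_sup] at hv ⊢
    choose a ha b hb hab using hv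
    choose c _ hc using fun j => (Submodule.mem_smul_pointwise_iff_exists _ _ _).1 (ha j)
    refine ⟨r • c, Submodule.smul_mem_pointwise_smul _ _ _ trivial, b, ih b hb, ?_⟩
    ext j
    simp [hc, hab]

theorem isWeaklyRegular_pi {ι : Type*} {rs : List R} (hM : IsWeaklyRegular M rs) :
    IsWeaklyRegular (ι → M) rs := by
  rw [isWeaklyRegular_iff_Fin] at hM ⊢
  intro j
  have := hM j
  rw [isSMulRegular_quotient_iff_mem_of_smul_mem] at this ⊢
  intro v hv
  exact mem_ofList_smul_top_pi _ _ fun b =>
    this _ (map_mem_smul_top _ (LinearMap.proj b : (ι → M) →ₗ[R] M) hv)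

/-- If `g` is onto and `rs` is weakly regular on its target, the kernel of `g` is pure
with respect to `rs`. -/
theorem mem_smul_top_ker (g : M →ₗ[R] N) (hg : Function.Surjective g) {rs : List R}
    (hN : IsWeaklyRegular N rs) (v : LinearMap.ker g)
    (hv : (v : M) ∈ (Ideal.ofList rs • ⊤ : Submodule R M)) :
    v ∈ (Ideal.ofList rs • ⊤ : Submodule R (LinearMap.ker g)) := by
  have h := map_first_exact_on_four_term_right_exact_of_isSMulRegular_last
    (f₁ := (0 : PUnit.{1} →ₗ[R] LinearMap.ker g)) (f₂ := (LinearMap.ker g).subtype) (f₃ := g)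
    (by
      intro y
      simp [eq_comm]) (LinearMap.exact_subtype_ker_map g) hg hN
  obtain ⟨x, hx⟩ := (h (Submodule.Quotient.mk v)).1 ((Submodule.Quotient.mk_eq_zero _).2 hv)
  obtain ⟨x, rfl⟩ := Submodule.mkQ_surjective _ x
  have : (Submodule.Quotient.mk v : (LinearMap.ker g) ⧸ (Ideal.ofList rs • ⊤ : Submodule R _))
      = 0 := by
    rw [← hx]
    simp
  exact (Submodule.Quotient.mk_eq_zero _).1 this

theorem isWeaklyRegular_last {rs : List R} {r : R} (h : IsWeaklyRegular M (rs ++ [r])) (v : M)
    (hv : r • v ∈ (Ideal.ofList rs • ⊤ : Submodule R M)) :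
    v ∈ (Ideal.ofList rs • ⊤ : Submodule R M) := by
  rw [isWeaklyRegular_append_iff, isWeaklyRegular_singleton_iff,
    isSMulRegular_quotient_iff_mem_of_smul_mem] at h
  exact h.2 v hv

end Module

end Pool.Agent.ROB.CA
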