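import Mathlib
import Pool.Agent.Lib.ROB.CA_Defs
import Pool.Agent.Lib.ROB.CA_PS

/-! The ideal generated by the `e`-th powers of the variables of a power series ring is robustly
closed. -/

namespace Pool.Agent.ROB.CA

open MvPowerSeries IsLocalRing

/-- If the socle monomial lies in `(x₁^e, …, x_n^e)`, the monomial filtration has only
`e ^ n - 1` steps. -/
theorem exists_short_chain {T : Type*} [CommRing T] {n : ℕ} (x : Fin n → T) (e : ℕ)
    (hsoc : ∏ i, x i ^ e ∈ Ideal.span (Set.range fun i => x i ^ (e + 1))) :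
    ∃ c : ℕ → Submodule T (T ⧸ Ideal.span (Set.range fun i => x i ^ (e + 1))),
      c 0 = ⊥ ∧ c ((e + 1) ^ n - 1) = ⊤ ∧ ∀ i < (e + 1) ^ n - 1,
        (∃ m, c (i + 1) = c i ⊔ Submodule.span T {m}) ∧
          Ideal.span (Set.range x) • c (i + 1) ≤ c i := by
  classical
  set 𝔞 := Ideal.span (Set.range fun i => x i ^ (e + 1)) with h𝔞
  let mon : (Fin n → Fin (e + 1)) → T ⧸ 𝔞 := fun d => Ideal.Quotient.mk 𝔞 (∏ i, x i ^ (d i : ℕ))
  let val : (Fin n → Fin (e + 1)) → ℕ := fun d => finFunctionFinEquiv d
  have hlt : ∀ d, val d < (e + 1) ^ n := fun d => (finFunctionFinEquiv d).2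
  have hstep : ∀ (d : Fin n → Fin (e + 1)) (i : Fin n) (h : (d i : ℕ) + 1 < e + 1),
      val d < val (Function.update d i ⟨d i + 1, h⟩) := by
    intro d i h
    simp only [val, finFunctionFinEquiv_apply]
    refine Finset.sum_lt_sum (fun j _ => ?_) ⟨i, Finset.mem_univ _, ?_⟩
    · refine Nat.mul_le_mul_right _ ?_
      by_cases hj : j = i
      · subst hj
        simp
      · simp [Function.update_of_ne hj]
    · simp
  have hmul : ∀ (d : Fin n → Fin (e + 1)) (i : Fin n), x i • mon d =
      Ideal.Quotient.mk 𝔞 (x i ^ ((d i : ℕ) + 1) * ∏ j ∈ Finset.univ.erase i, x j ^ (d j : ℕ)) := by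
    intro d i
    change Ideal.Quotient.mk 𝔞 (x i * ∏ i, x i ^ (d i : ℕ)) = _
    rw [← Finset.mul_prod_erase Finset.univ _ (Finset.mem_univ i), ← mul_assoc, ← pow_succ']
  refine ⟨fun j => Submodule.span T (mon '' {d | (e + 1) ^ n - 1 ≤ val d + j}), ?_, ?_, ?_⟩
  · rw [Submodule.span_eq_bot]
    rintro _ ⟨d, hd, rfl⟩
    have hd' : (e + 1) ^ n - 1 ≤ val d + 0 := hd
    have : ∀ i, (d i : ℕ) = e := by
      intro i
      by_contra hne
      have h : (d i : ℕ) + 1 < e + 1 := by have := (d i).2; omega
      have h1 := hstep d i h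
      have h2 := hlt (Function.update d i ⟨d i + 1, h⟩)
      omega
    simp only [mon, this]
    exact Ideal.Quotient.eq_zero_iff_mem.2 hsoc
  · rw [eq_top_iff]
    intro v _
    obtain ⟨v, rfl⟩ := Ideal.Quotient.mk_surjective v
    have h1 : mon 0 ∈ Submodule.span T
        (mon '' {d | (e + 1) ^ n - 1 ≤ val d + ((e + 1) ^ n - 1)}) :=
      Submodule.subset_span ⟨0, Nat.le_add_left _ _, rfl⟩
    have h2 : Ideal.Quotient.mk 𝔞 v = v • mon 0 := by
      change _ = Ideal.Quotient.mk 𝔞 (v * _)
      simp
    rw [h2]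
    exact Submodule.smul_mem _ _ h1
  · intro j hj
    constructor
    · let d0 : Fin n → Fin (e + 1) := finFunctionFinEquiv.symm ⟨(e + 1) ^ n - 1 - (j + 1), by omega⟩
      have hd0 : val d0 = (e + 1) ^ n - 1 - (j + 1) := by
        simp only [val, d0, Equiv.apply_symm_apply]
      refine ⟨mon d0, ?_⟩
      rw [← Submodule.span_union, ← Set.image_singleton, ← Set.image_union]
      refine congrArg (fun s => Submodule.span T (mon '' s)) ?_
      ext d
      simp only [Set.mem_ofPred_eq, Set.mem_union, Set.mem_singleton_iff]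
      constructor
      · intro h
        by_cases h' : (e + 1) ^ n - 1 ≤ val d + j
        · exact Or.inl h'
        · refine Or.inr (finFunctionFinEquiv.injective (Fin.ext ?_))
          change val d = val d0
          omega
      · rintro (h | rfl)
        · omega
        · omega
    · rw [Ideal.span, Submodule.span_smul_span, Submodule.span_le]
      rintro _ ⟨_, ⟨i, rfl⟩, _, ⟨d, hd, rfl⟩, rfl⟩
      have hd' : (e + 1) ^ n - 1 ≤ val d + (j + 1) := hd
      change x i • mon d ∈ _
      by_cases h : (d i : ℕ) + 1 < e + 1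
      · refine Submodule.subset_span ⟨Function.update d i ⟨d i + 1, h⟩, ?_, ?_⟩
        · have := hstep d i h
          change (e + 1) ^ n - 1 ≤ _ + j
          omega
        · rw [hmul]
          simp only [mon]
          rw [← Finset.mul_prod_erase Finset.univ _ (Finset.mem_univ i), Function.update_self]
          congr 2
          refine Finset.prod_congr rfl fun j hj => ?_
          rw [Function.update_of_ne (Finset.ne_of_mem_erase hj)]
      · have h' : (d i : ℕ) + 1 = e + 1 := by have := (d i).2; omega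
        rw [hmul, h', (Ideal.Quotient.eq_zero_iff_mem (I := 𝔞)).2
          (Ideal.mul_mem_right _ _ (Ideal.subset_span (Set.mem_range_self i)))]
        exact zero_mem _

variable {k : Type} [Field k]

/-- The socle of `k[[x]] / (x₁^{e+1}, …, x_n^{e+1})` is spanned by `(x₁ ⋯ x_n)^e`. -/
theorem exists_mul_sub_socle_mem {n : ℕ} (e : ℕ) (v : MvPowerSeries (Fin n) k)
    (hv : v ∉ Ideal.span (Set.range fun i => (X i : MvPowerSeries (Fin n) k) ^ (e + 1))) :
    ∃ w, w * v - ∏ i, X i ^ e ∈
      Ideal.span (Set.range fun i => (X i : MvPowerSeries (Fin n) k) ^ (e + 1)) := by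
  classical
  have key := mem_span_X_pow_iff (A := k) (Set.univ : Set (Fin n)) Set.finite_univ
    (fun _ => e + 1)
  simp only [Set.image_univ, Set.mem_univ, true_implies] at key
  rw [key] at hv
  push Not at hv
  obtain ⟨d, ⟨hd1, hd2⟩, hmin⟩ := exists_minimal_of_wellFoundedLT
    (fun d : Fin n →₀ ℕ => (∀ i, d i < e + 1) ∧ coeff d v ≠ 0) hv
  let top : Fin n →₀ ℕ := Finsupp.equivFunOnFinite.symm fun _ => e
  have htop : ∀ i, top i = e := fun _ => rfl
  have hX : ∏ i, (X i : MvPowerSeries (Fin n) k) ^ e = monomial top 1 := by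
    simp only [X_pow_eq]
    rw [prod_monomial]
    congr 2
    · ext i
      simp [htop, Finsupp.finsetSum_apply, Finsupp.single_apply]
    · simp
  refine ⟨monomial (top - d) (coeff d v)⁻¹, ?_⟩
  rw [key, hX]
  intro m hm
  rw [map_sub, coeff_monomial_mul, coeff_monomial]
  have hle : m - (top - d) ≤ d := by
    intro i
    have := hm i
    have := hd1 i
    simp only [Finsupp.coe_tsub, Pi.sub_apply, htop]
    omega
  by_cases hmt : m = top
  · subst hmt
    have : top - (top - d) = d := by
      ext i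
      have := hd1 i
      simp only [Finsupp.coe_tsub, Pi.sub_apply, htop]
      omega
    rw [if_pos tsub_le_self, if_pos rfl, this, inv_mul_cancel₀ hd2, sub_self]
  · rw [if_neg hmt, sub_zero]
    split_ifs with h
    · by_contra hne
      have h1 : d ≤ m - (top - d) := hmin ⟨fun i => lt_of_le_of_lt (hle i) (hd1 i),
        fun h0 => hne (by rw [h0, mul_zero])⟩ hle
      apply hmt
      ext i
      have h2 := h1 i
      have h3 := h i
      have := hm i
      have := hd1 i
      simp only [Finsupp.coe_tsub, Pi.sub_apply, htop] at h2 h3 ⊢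
      omega
    · rfl

theorem algebraMap_mem_forcing {R : Type} [CommRing R] {n : ℕ} (g : Fin n → R) (u : R) :
    algebraMap R (Forcing g u) u ∈ (Ideal.span (Set.range g)).map (algebraMap R (Forcing g u)) := by
  have h : algebraMap R (Forcing g u) u = ∑ i, algebraMap R (Forcing g u) (g i) *
      Ideal.Quotient.mk _ (MvPolynomial.X i) := by
    rw [← sub_eq_zero]
    have : Ideal.Quotient.mk (Ideal.span
        {MvPolynomial.C u - ∑ i, MvPolynomial.C (g i) * MvPolynomial.X i})
        (MvPolynomial.C u - ∑ i, MvPolynomial.C (g i) * MvPolynomial.X i) = 0 :=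
      Ideal.Quotient.eq_zero_iff_mem.2 (Ideal.subset_span rfl)
    rw [map_sub, map_sum] at this
    exact this
  rw [h]
  exact Ideal.sum_mem _ fun i _ =>
    Ideal.mul_mem_right _ _ (Ideal.mem_map_of_mem _ (Ideal.subset_span ⟨i, rfl⟩))

theorem isSOP_X (n : ℕ) : IsSOP (X : Fin n → MvPowerSeries (Fin n) k) :=
  ⟨ringKrullDim_mvPowerSeries n, by
    rw [← maximalIdeal_eq_span]
    exact (maximalIdeal.isMaximal _).isPrime.radical⟩

theorem not_isRobust {n : ℕ} (e : ℕ) (T : Type) [CommRing T] [Algebra (MvPowerSeries (Fin n) k) T]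
    (v : MvPowerSeries (Fin n) k)
    (hv : v ∉ Ideal.span (Set.range fun i => (X i : MvPowerSeries (Fin n) k) ^ (e + 1)))
    (hT : algebraMap _ T v ∈ (Ideal.span (Set.range fun i =>
      (X i : MvPowerSeries (Fin n) k) ^ (e + 1))).map (algebraMap _ T)) :
    ¬ IsRobust (MvPowerSeries (Fin n) k) T := by
  intro h
  have h1 := h n X (isSOP_X n) (e + 1) (by omega)
  obtain ⟨w, hw⟩ := exists_mul_sub_socle_mem e v hv
  have h2 : ∏ i, algebraMap (MvPowerSeries (Fin n) k) T (X i) ^ e ∈
      Ideal.span (Set.range fun i => algebraMap (MvPowerSeries (Fin n) k) T (X i) ^ (e + 1)) := by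
    have h3 := Ideal.mem_map_of_mem (algebraMap (MvPowerSeries (Fin n) k) T) hw
    have h4 := Ideal.sub_mem _ (Ideal.mul_mem_left _ (algebraMap _ T w) hT) h3
    rw [Ideal.map_span, ← Set.range_comp] at h4
    simpa [Function.comp_def] using h4
  have h3 : HasChain _ _ ((e + 1) ^ n - 1) := exists_short_chain _ e h2
  have h4 := h1.trans (iInf₂_le (f := fun (h : ℕ) (_ : HasChain _ _ h) => (h : ℕ∞)) _ h3)
  have h5 : (e + 1) ^ n ≤ (e + 1) ^ n - 1 := by exact_mod_cast h4
  have : 0 < (e + 1) ^ n := by positivity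
  omega

theorem robustClosure_X_pow {n : ℕ} (e : ℕ) :
    robustClosure (Ideal.span (Set.range fun i => (X i : MvPowerSeries (Fin n) k) ^ (e + 1))) =
      Ideal.span (Set.range fun i => (X i : MvPowerSeries (Fin n) k) ^ (e + 1)) := by
  set J := Ideal.span (Set.range fun i => (X i : MvPowerSeries (Fin n) k) ^ (e + 1)) with hJ
  have h : immClosure J = J := by
    refine le_antisymm (sup_le le_rfl (Ideal.span_le.2 ?_)) le_sup_left
    rintro v ⟨m, g, hg, hr⟩
    by_contra hv
    exact not_isRobust e _ v hv (by rw [← hJ, ← hg]; exact algebraMap_mem_forcing g v) hr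
  simp only [robustClosure, Function.iterate_fixed h, iSup_const]

end Pool.Agent.ROB.CA
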