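import Mathlib
import Pool.Agent.Lib.ROB.CA_Defs
import Pool.Agent.Lib.ROB.CA_PS
import Pool.Agent.Lib.ROB.CA_Sum
import Pool.Agent.Lib.ROB.CA_Target

/-! The fourth Veronese subring of the power series ring in four variables. -/

namespace Pool.Agent.ROB.CA

open MvPowerSeries IsLocalRing RingTheory.Sequence

section Cl

variable {A : Type*} [Ring A]

/-- All monomials of `f` have degree congruent to `c` modulo four. -/
def IsCl (c : ZMod 4) (f : MvPowerSeries (Fin 4) A) : Prop :=
  ∀ d : Fin 4 →₀ ℕ, ((d.degree : ℕ) : ZMod 4) ≠ c → coeff d f = 0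

/-- The part of `f` of degree congruent to `c` modulo four. -/
noncomputable def proj (c : ZMod 4) (f : MvPowerSeries (Fin 4) A) : MvPowerSeries (Fin 4) A :=
  fun d => if ((d.degree : ℕ) : ZMod 4) = c then coeff d f else 0

theorem coeff_proj (c : ZMod 4) (f : MvPowerSeries (Fin 4) A) (d : Fin 4 →₀ ℕ) :
    coeff d (proj c f) = if ((d.degree : ℕ) : ZMod 4) = c then coeff d f else 0 := rfl

theorem isCl_proj (c : ZMod 4) (f : MvPowerSeries (Fin 4) A) : IsCl c (proj c f) :=
  fun d hd => by rw [coeff_proj, if_neg hd]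

theorem IsCl.proj_eq {c : ZMod 4} {f : MvPowerSeries (Fin 4) A} (h : IsCl c f) :
    proj c f = f := by
  ext d
  rw [coeff_proj]
  split_ifs with hd
  · rfl
  · exact (h d hd).symm

theorem proj_proj (c : ZMod 4) (f : MvPowerSeries (Fin 4) A) : proj c (proj c f) = proj c f :=
  (isCl_proj c f).proj_eq

theorem proj_add (c : ZMod 4) (f g : MvPowerSeries (Fin 4) A) :
    proj c (f + g) = proj c f + proj c g := by
  ext d
  simp only [coeff_proj, map_add]
  split_ifs <;> simp

theorem proj_zero (c : ZMod 4) : proj c (0 : MvPowerSeries (Fin 4) A) = 0 := by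
  ext d
  simp [coeff_proj]

theorem proj_sum {ι : Type*} (c : ZMod 4) (s : Finset ι) (f : ι → MvPowerSeries (Fin 4) A) :
    proj c (∑ i ∈ s, f i) = ∑ i ∈ s, proj c (f i) := by
  classical
  induction s using Finset.induction_on with
  | empty => simp [proj_zero]
  | insert a s ha ih => rw [Finset.sum_insert ha, Finset.sum_insert ha, proj_add, ih]

theorem IsCl.proj_mul_left {c : ZMod 4} {f : MvPowerSeries (Fin 4) A} (h : IsCl c f)
    (c' : ZMod 4) (g : MvPowerSeries (Fin 4) A) : proj (c + c') (f * g) = f * proj c' g := by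
  ext d
  rw [coeff_proj, coeff_mul, coeff_mul]
  have key : ∀ p ∈ Finset.HasAntidiagonal.antidiagonal d, coeff p.1 f * coeff p.2 (proj c' g) =
      if ((d.degree : ℕ) : ZMod 4) = c + c' then coeff p.1 f * coeff p.2 g else 0 := by
    intro p hp
    by_cases h1 : ((p.1.degree : ℕ) : ZMod 4) = c
    · rw [coeff_proj, ← Finset.HasAntidiagonal.mem_antidiagonal.1 hp, map_add, Nat.cast_add, h1]
      simp only [add_right_inj]
      split_ifs <;> simp
    · simp [h p.1 h1]
  rw [Finset.sum_congr rfl key]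
  split_ifs <;> simp

theorem IsCl.proj_mul_right {c : ZMod 4} {f : MvPowerSeries (Fin 4) A} (h : IsCl c f)
    (c' : ZMod 4) (g : MvPowerSeries (Fin 4) A) : proj (c' + c) (g * f) = proj c' g * f := by
  ext d
  rw [coeff_proj, coeff_mul, coeff_mul]
  have key : ∀ p ∈ Finset.HasAntidiagonal.antidiagonal d, coeff p.1 (proj c' g) * coeff p.2 f =
      if ((d.degree : ℕ) : ZMod 4) = c' + c then coeff p.1 g * coeff p.2 f else 0 := by
    intro p hp
    by_cases h1 : ((p.2.degree : ℕ) : ZMod 4) = c
    · rw [coeff_proj, ← Finset.HasAntidiagonal.mem_antidiagonal.1 hp, map_add, Nat.cast_add, h1]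
      simp only [add_left_inj]
      split_ifs <;> simp
    · simp [h p.2 h1]
  rw [Finset.sum_congr rfl key]
  split_ifs <;> simp

theorem IsCl.mul {c c' : ZMod 4} {f g : MvPowerSeries (Fin 4) A} (hf : IsCl c f)
    (hg : IsCl c' g) : IsCl (c + c') (f * g) := by
  rw [← hg.proj_eq, ← hf.proj_mul_left]
  exact isCl_proj _ _

theorem IsCl.add {c : ZMod 4} {f g : MvPowerSeries (Fin 4) A} (hf : IsCl c f) (hg : IsCl c g) :
    IsCl c (f + g) := fun d hd => by rw [map_add, hf d hd, hg d hd, add_zero]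

theorem IsCl.neg {c : ZMod 4} {f : MvPowerSeries (Fin 4) A} (hf : IsCl c f) :
    IsCl c (-f) := fun d hd => by rw [map_neg, hf d hd, neg_zero]

theorem IsCl.sub {c : ZMod 4} {f g : MvPowerSeries (Fin 4) A} (hf : IsCl c f) (hg : IsCl c g) :
    IsCl c (f - g) := fun d hd => by rw [map_sub, hf d hd, hg d hd, sub_zero]

theorem isCl_zero (c : ZMod 4) : IsCl c (0 : MvPowerSeries (Fin 4) A) := fun _ _ => by simp

theorem IsCl.sum {ι : Type*} {c : ZMod 4} {s : Finset ι} {f : ι → MvPowerSeries (Fin 4) A}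
    (h : ∀ i ∈ s, IsCl c (f i)) : IsCl c (∑ i ∈ s, f i) := fun d hd => by
  rw [map_sum]
  exact Finset.sum_eq_zero fun i hi => h i hi d hd

theorem isCl_monomial (e : Fin 4 →₀ ℕ) (a : A) :
    IsCl ((e.degree : ℕ) : ZMod 4) (monomial e a) := fun d hd =>
  coeff_monomial_ne (fun h => hd (by rw [h])) a

theorem isCl_C (a : A) : IsCl 0 (C a : MvPowerSeries (Fin 4) A) := by
  simpa using isCl_monomial 0 a

theorem isCl_one : IsCl 0 (1 : MvPowerSeries (Fin 4) A) := by
  simpa using isCl_C (1 : A)

theorem isCl_X (i : Fin 4) : IsCl 1 (X i : MvPowerSeries (Fin 4) A) := by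
  simpa [X_def] using isCl_monomial (Finsupp.single i 1) (1 : A)

theorem IsCl.map {B : Type*} [Ring B] (φ : A →+* B) {c : ZMod 4} {f : MvPowerSeries (Fin 4) A}
    (hf : IsCl c f) : IsCl c (MvPowerSeries.map φ f) := fun d hd => by
  rw [coeff_map, hf d hd, map_zero]

end Cl

/-- Power series in four variables over the rationals. -/
abbrev SS : Type := MvPowerSeries (Fin 4) ℚ

/-- The fourth Veronese subring. -/
def Ver : Subalgebra ℚ SS where
  carrier := {f | IsCl 0 f}
  mul_mem' := fun hf hg => by simpa using IsCl.mul hf hg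
  add_mem' := IsCl.add
  algebraMap_mem' := fun r => isCl_C r

theorem mem_Ver {f : SS} : f ∈ Ver ↔ IsCl 0 f := Iff.rfl

/-- The projection onto the Veronese subring. -/
noncomputable def verProj : SS →ₗ[Ver] Ver where
  toFun f := ⟨proj 0 f, isCl_proj 0 f⟩
  map_add' f g := Subtype.ext (proj_add 0 f g)
  map_smul' r f := Subtype.ext (IsCl.proj_mul_left r.2 0 f)

theorem verProj_one : verProj 1 = 1 := Subtype.ext isCl_one.proj_eq

instance : IsNoetherianRing Ver := isNoetherianRing_of_proj verProj verProj_one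

instance : IsLocalRing Ver := isLocalRing_of_proj verProj verProj_one

instance : IsLocalHom (algebraMap Ver SS) := isLocalHom_of_proj verProj verProj_one

theorem mem_maximalIdeal_Ver (r : Ver) :
    r ∈ maximalIdeal Ver ↔ (r : SS) ∈ maximalIdeal SS := by
  rw [mem_maximalIdeal, mem_maximalIdeal, mem_nonunits_iff, mem_nonunits_iff]
  exact (isUnit_map_iff (algebraMap Ver SS) r).symm.not

theorem pow_four_le_map :
    maximalIdeal SS ^ 4 ≤ (maximalIdeal Ver).map (algebraMap Ver SS) := by
  intro f hf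
  rw [mem_maximalIdeal_pow_iff] at hf
  have h1 : f ∈ Ideal.span
      ((fun e => monomial e (1 : ℚ)) '' {e : Fin 4 →₀ ℕ | e.degree = 4}) := by
    rw [mem_span_monomial_iff _ (Finsupp.finite_of_degree_eq 4)]
    intro d hd
    refine hf d (not_le.1 fun hle => ?_)
    obtain ⟨e, he1, he2⟩ := Finsupp.exists_le_degree_eq d 4 hle
    exact hd e he2 he1
  refine (Ideal.span_le.2 ?_) h1
  rintro _ ⟨e, he, rfl⟩
  have he' : e.degree = 4 := he
  have h2 : (monomial e 1 : SS) ∈ Ver := by
    have := isCl_monomial e (1 : ℚ)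
    rw [he'] at this
    exact this
  refine Ideal.mem_map_of_mem (algebraMap Ver SS) (x := ⟨_, h2⟩) ?_
  rw [mem_maximalIdeal_Ver]
  have := monomial_mem_pow (k := ℚ) e
  rw [he'] at this
  exact Ideal.pow_le_self (by norm_num) this

instance : IsAdicComplete (maximalIdeal Ver) Ver where
  toIsHausdorff := inferInstance
  toIsPrecomplete := isPrecomplete_of_proj verProj verProj_one _ (maximalIdeal SS)
    (Ideal.map_le_iff_le_comap.2 fun r hr => (mem_maximalIdeal_Ver r).1 hr) 4 (by norm_num)
    pow_four_le_map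

theorem order_of_mem_maximalIdeal_Ver {r : Ver} (hr : r ∈ maximalIdeal Ver) (d : Fin 4 →₀ ℕ)
    (hd : d.degree < 4) : coeff d (r : SS) = 0 := by
  by_cases h : d.degree = 0
  · rw [(Finsupp.degree_eq_zero_iff d).1 h]
    exact (mem_maximalIdeal_iff _).1 ((mem_maximalIdeal_Ver r).1 hr)
  · refine r.2 d fun h0 => h ?_
    exact Nat.eq_zero_of_dvd_of_lt ((ZMod.natCast_eq_zero_iff _ _).1 h0) hd

/-- The fourth powers of the variables. -/
noncomputable def aa (i : Fin 4) : Ver :=
  ⟨X i ^ 4, by
    have := isCl_monomial (Finsupp.single i 4) (1 : ℚ)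
    rw [Finsupp.degree_single, ← X_pow_eq] at this
    exact this⟩

/-- The socle element `(x₁ x₂ x₃ x₄)³`. -/
noncomputable def uu : Ver :=
  ⟨∏ i, X i ^ 3, Subalgebra.mem_toSubring.1 (by
    have := isCl_monomial (∑ i : Fin 4, Finsupp.single i 3) (∏ _i : Fin 4, (1 : ℚ))
    rw [← prod_monomial, map_sum] at this
    simp only [← X_pow_eq, Finsupp.degree_single] at this
    exact this)⟩

theorem coe_aa (i : Fin 4) : (aa i : SS) = X i ^ 4 := rfl

theorem coe_uu : (uu : SS) = ∏ i, X i ^ 3 := rfl

theorem aa_mem_maximalIdeal (i : Fin 4) : aa i ∈ maximalIdeal Ver :=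
  (mem_maximalIdeal_Ver _).2 (Ideal.pow_mem_of_mem _ (X_mem_maximalIdeal i) 4 (by norm_num))

theorem map_span_aa : (Ideal.span (Set.range aa)).map (algebraMap Ver SS) =
    Ideal.span (Set.range fun i => (X i : SS) ^ (3 + 1)) := by
  rw [Ideal.map_span, ← Set.range_comp]
  rfl

theorem uu_notMem : algebraMap Ver SS uu ∉
    robustClosure ((Ideal.span (Set.range aa)).map (algebraMap Ver SS)) := by
  rw [map_span_aa, robustClosure_X_pow]
  have key := mem_span_X_pow_iff (A := ℚ) (Set.univ : Set (Fin 4)) Set.finite_univ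
    (fun _ => 3 + 1)
  simp only [Set.image_univ, Set.mem_univ, true_implies] at key
  rw [key]
  intro h
  have h1 := h (∑ i : Fin 4, Finsupp.single i 3) (by
    intro i
    simp [Finsupp.finsetSum_apply, Finsupp.single_apply])
  change coeff _ (∏ i, (X i : SS) ^ 3) = 0 at h1
  simp only [X_pow_eq] at h1
  rw [prod_monomial, coeff_monomial_same] at h1
  simp at h1

theorem uu_mem_of_isRobust (h : IsRobust Ver (Forcing aa uu)) :
    uu ∈ robustClosure (Ideal.span (Set.range aa)) :=
  (le_iSup (fun j : ℕ => immClosure^[j] (Ideal.span (Set.range aa))) 1)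
    (Submodule.mem_sup_right (Ideal.subset_span ⟨4, aa, rfl, h⟩))

theorem maximalIdeal_le_radical_aa : maximalIdeal Ver ≤ (Ideal.span (Set.range aa)).radical := by
  intro r hr
  have h1 : maximalIdeal SS ≤ ((Ideal.span (Set.range aa)).map (algebraMap Ver SS)).radical := by
    rw [maximalIdeal_eq_span, Ideal.span_le, map_span_aa]
    rintro _ ⟨i, rfl⟩
    exact ⟨4, Ideal.subset_span ⟨i, rfl⟩⟩
  obtain ⟨n, hn⟩ := h1 ((mem_maximalIdeal_Ver r).1 hr)
  exact ⟨n, mem_of_algebraMap_mem_map verProj verProj_one _ _ (by rw [map_pow]; exact hn)⟩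

theorem ringKrullDim_Ver_le : ringKrullDim Ver ≤ 4 := by
  classical
  have h1 := ringKrullDim_le_ringKrullDim_quotient_add_card (Finset.univ.image aa) (by
    rw [IsLocalRing.ringJacobson_eq_maximalIdeal]
    intro r hr
    obtain ⟨i, _, rfl⟩ := Finset.mem_image.1 hr
    exact aa_mem_maximalIdeal i)
  have h2 : ringKrullDim (Ver ⧸ Ideal.span ((Finset.univ.image aa : Finset Ver) : Set Ver)) ≤
      (0 : ℕ) := by
    rw [← Ring.krullDimLE_iff, Ring.krullDimLE_zero_iff]
    intro p hp
    have h3 : (p.comap (Ideal.Quotient.mk _)).IsMaximal := by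
      have h4 : maximalIdeal Ver ≤ p.comap (Ideal.Quotient.mk _) := by
        refine maximalIdeal_le_radical_aa.trans
          ((Ideal.IsPrime.radical_le_iff inferInstance).2 (Ideal.span_le.2 ?_))
        rintro _ ⟨i, rfl⟩
        change Ideal.Quotient.mk _ (aa i) ∈ p
        rw [Ideal.Quotient.eq_zero_iff_mem.2 (Ideal.subset_span (by simp))]
        exact p.zero_mem
      rw [← (maximalIdeal.isMaximal Ver).eq_of_le (Ideal.IsPrime.ne_top inferInstance) h4]
      infer_instance
    have h5 := Ideal.map_eq_top_or_isMaximal_of_surjective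
      (Ideal.Quotient.mk (Ideal.span ((Finset.univ.image aa : Finset Ver) : Set Ver)))
      Ideal.Quotient.mk_surjective h3
    rw [Ideal.map_comap_of_surjective _ Ideal.Quotient.mk_surjective] at h5
    exact h5.resolve_left hp.ne_top
  have h3 : ((Finset.univ.image aa).card : WithBot ℕ∞) ≤ 4 := by
    have : (Finset.univ.image aa).card ≤ 4 := Finset.card_image_le.trans (by simp)
    exact_mod_cast this
  refine h1.trans ?_
  simpa using add_le_add h2 h3

theorem IsSOP.le_four {d : ℕ} {y : Fin d → Ver} (hy : IsSOP y) : d ≤ 4 := by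
  have := ringKrullDim_Ver_le
  rw [hy.1] at this
  exact_mod_cast this

theorem IsSOP.mem {d : ℕ} {y : Fin d → Ver} (hy : IsSOP y) (i : Fin d) :
    y i ∈ maximalIdeal Ver :=
  hy.2 ▸ Ideal.le_radical (Ideal.subset_span ⟨i, rfl⟩)

/-- An ideal of the power series ring whose radical contains a system of parameters of the
Veronese ring is primary to the maximal ideal. -/
theorem IsSOP.X_mem_radical {d : ℕ} {y : Fin d → Ver} (hy : IsSOP y) (J : Ideal SS)
    (hJ : ∀ i, (y i : SS) ∈ J.radical) (i : Fin 4) : (X i : SS) ∈ J.radical := by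
  have h1 : aa i ∈ (Ideal.span (Set.range y)).radical := hy.2 ▸ aa_mem_maximalIdeal i
  have h2 : (Ideal.span (Set.range y)).radical ≤ J.radical.comap (algebraMap Ver SS) := by
    rw [Ideal.comap_radical, Ideal.radical_le_radical_iff, ← Ideal.comap_radical, Ideal.span_le]
    rintro _ ⟨j, rfl⟩
    exact hJ j
  exact Ideal.mem_radical_of_pow_mem (m := 4) (h2 h1)

end Pool.Agent.ROB.CA
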