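import Mathlib
import Pool.Agent.Lib.ROB.CA_Ver
import Pool.Agent.Lib.ROB.CA_Glue

/-! The kernel module over the Veronese ring with noncommutative coefficients. -/

namespace Pool.Agent.ROB.CA

open MvPowerSeries IsLocalRing RingTheory.Sequence Module

/-- Power series in four central variables. -/
abbrev MM (B : Type) : Type := MvPowerSeries (Fin 4) B

variable {B : Type} [Ring B] [Algebra ℚ B]

/-- Rational power series as power series with coefficients in `B`. -/
noncomputable def io : SS →+* MM B := MvPowerSeries.map (algebraMap ℚ B)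

theorem coeff_io_mul (s : SS) (f : MM B) (d : Fin 4 →₀ ℕ) : coeff d (io s * f) =
    ∑ p ∈ Finset.HasAntidiagonal.antidiagonal d, coeff p.1 s • coeff p.2 f := by
  rw [coeff_mul]
  refine Finset.sum_congr rfl fun p _ => ?_
  rw [io, coeff_map, Algebra.smul_def]

theorem io_comm (s : SS) (f : MM B) : io s * f = f * io s := by
  ext d
  rw [coeff_mul, coeff_mul,
    Finsupp.sum_antidiagonal_swap d fun a b => coeff a f * coeff b (io s : MM B)]
  refine Finset.sum_congr rfl fun p _ => ?_
  simp only [io, coeff_map]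
  exact Algebra.commutes _ _

theorem io_X (l : Fin 4) : io (X l) = (X l : MM B) := map_X _ _

theorem io_monomial (e : Fin 4 →₀ ℕ) : io (monomial e 1) = (monomial e 1 : MM B) := by
  rw [io, map_monomial, map_one]

theorem X_comm (l : Fin 4) (f : MM B) : X l * f = f * X l := by
  rw [← io_X, io_comm]

/-- The action of rational power series. -/
noncomputable abbrev modS : Module SS (MM B) := Module.compHom (MM B) (io (B := B))

attribute [local instance] modS

theorem smul_defS (s : SS) (f : MM B) : s • f = io s * f := rfl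

theorem smul_defV (r : Ver) (f : MM B) : r • f = io (r : SS) * f := rfl

theorem isWeaklyRegular_MM {rs : List SS} (h : IsWeaklyRegular SS rs) :
    IsWeaklyRegular (MM B) rs := by
  let ev : B →ₗ[ℚ] (Module.Dual ℚ B → ℚ) := LinearMap.pi fun φ => φ
  obtain ⟨lam, hlam⟩ := ev.exists_leftInverse_of_injective (by
    rw [eq_bot_iff]
    intro b hb
    exact (Module.forall_dual_apply_eq_zero_iff ℚ b).1 fun φ => congrFun hb φ)
  let i : MM B →ₗ[SS] (Module.Dual ℚ B → SS) :=
    { toFun := fun f φ => fun d => φ (coeff d f)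
      map_add' := fun f g => by
        funext φ
        ext d
        change φ (coeff d (f + g)) = φ (coeff d f) + φ (coeff d g)
        rw [map_add, map_add]
      map_smul' := fun s f => by
        funext φ
        ext d
        change φ (coeff d (io s * f)) = coeff d (s * _)
        rw [coeff_io_mul, map_sum, coeff_mul]
        refine Finset.sum_congr rfl fun p _ => ?_
        rw [map_smul]
        rfl }
  let p : (Module.Dual ℚ B → SS) →ₗ[SS] MM B :=
    { toFun := fun g => fun d => lam fun φ => coeff d (g φ)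
      map_add' := fun f g => by
        ext d
        change lam (fun φ => coeff d (f φ + g φ)) =
          lam (fun φ => coeff d (f φ)) + lam (fun φ => coeff d (g φ))
        rw [← map_add]
        rfl
      map_smul' := fun s g => by
        ext d
        change lam (fun φ => coeff d (s * g φ)) = coeff d (io s * _)
        rw [coeff_io_mul]
        have : (fun φ => coeff d (s * g φ)) = ∑ p ∈ Finset.HasAntidiagonal.antidiagonal d,
            coeff p.1 s • fun φ => coeff p.2 (g φ) := by
          funext φ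
          rw [coeff_mul, Finset.sum_apply]
          rfl
        rw [this, map_sum]
        refine Finset.sum_congr rfl fun p _ => ?_
        rw [map_smul]
        rfl }
  refine isWeaklyRegular_of_retract i p (fun f => ?_) (isWeaklyRegular_pi h)
  ext d
  exact congrArg (fun g : B →ₗ[ℚ] B => g (coeff d f)) hlam

theorem isWeaklyRegular_of_isSOP {d : ℕ} {y : Fin d → Ver} (hy : IsSOP y) (l : List Ver)
    (hl : l.length ≤ d) (hm : ∀ z ∈ l, z ∈ maximalIdeal Ver)
    (hr : ∀ i, ∃ n, y i ^ n ∈ l) : IsWeaklyRegular (MM B) l := by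
  rw [← isWeaklyRegular_map_algebraMap_iff SS]
  refine isWeaklyRegular_MM (isWeaklyRegular_mvPowerSeries 4 _ ?_ ?_ ?_)
  · rw [List.length_map]
    exact hl.trans (IsSOP.le_four hy)
  · intro z hz
    obtain ⟨w, hw, rfl⟩ := List.mem_map.1 hz
    exact (mem_maximalIdeal_Ver w).1 (hm w hw)
  · refine IsSOP.X_mem_radical hy _ fun i => ?_
    obtain ⟨n, hn⟩ := hr i
    exact ⟨n, Ideal.subset_span (List.mem_map.2 ⟨_, hn, rfl⟩)⟩

theorem exists_order_mem {d : ℕ} {y : Fin d → Ver} (hy : IsSOP y) (J : Ideal Ver)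
    (hr : ∀ i, ∃ n, y i ^ n ∈ J) : ∃ c : ℕ, ∀ f : MM B,
      (∀ e : Fin 4 →₀ ℕ, e.degree < c → coeff e f = 0) →
        f ∈ (J • ⊤ : Submodule Ver (MM B)) := by
  have h1 : maximalIdeal SS ≤ (J.map (algebraMap Ver SS)).radical := by
    rw [maximalIdeal_eq_span, Ideal.span_le]
    rintro _ ⟨i, rfl⟩
    refine IsSOP.X_mem_radical hy _ (fun j => ?_) i
    obtain ⟨n, hn⟩ := hr j
    exact ⟨n, Ideal.mem_map_of_mem (algebraMap Ver SS) hn⟩
  obtain ⟨c, hc⟩ := Ideal.exists_pow_le_of_le_radical_of_fg h1 (IsNoetherian.noetherian _)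
  refine ⟨c, fun f hf => ?_⟩
  obtain ⟨g, hg, -⟩ := exists_sum_monomial_mul (Finsupp.finite_of_degree_eq (σ := Fin 4) c).toFinset
    f (by
      intro e he
      refine hf e (not_le.1 fun hle => ?_)
      obtain ⟨e', he1, he2⟩ := Finsupp.exists_le_degree_eq e c hle
      exact he e' ((Set.Finite.mem_toFinset _).2 he2) he1)
  have h2 : f ∈ (J.map (algebraMap Ver SS) • ⊤ : Submodule SS (MM B)) := by
    rw [hg]
    refine Submodule.sum_mem _ fun e he => ?_
    rw [← io_monomial, ← smul_defS]
    refine Submodule.smul_mem_smul (hc ?_) trivial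
    have := monomial_mem_pow (k := ℚ) e
    rwa [show e.degree = c from by simpa using he] at this
  rw [← Submodule.restrictScalars_mem Ver, Ideal.smul_restrictScalars] at h2
  exact h2

/-- Purity of the kernel module. -/
theorem mem_smul_of_proj {R M : Type*} [CommRing R] [AddCommGroup M] [Module R M]
    (g p q : M →ₗ[R] M) (hq : ∀ v, q (q v) = q v) (hgp : ∀ v, g (p v) = q (g v))
    (hsurj : ∀ w, ∃ v, g v = q w) (N : Submodule R M) (hN : ∀ v, g (p v) = 0 → p v ∈ N)
    {rs : List R} (hreg : IsWeaklyRegular M rs) (v : M) (hv1 : p v = v) (hv2 : g v = 0)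
    (hv : v ∈ (Ideal.ofList rs • ⊤ : Submodule R M)) : v ∈ Ideal.ofList rs • N := by
  let g' : M →ₗ[R] LinearMap.range q := q.rangeRestrict ∘ₗ g
  have hg' : Function.Surjective g' := by
    rintro ⟨_, w, rfl⟩
    obtain ⟨v, hv⟩ := hsurj w
    exact ⟨v, Subtype.ext (by simp [g', hv, hq])⟩
  have hreg' : IsWeaklyRegular (LinearMap.range q) rs :=
    isWeaklyRegular_of_retract (LinearMap.range q).subtype q.rangeRestrict (by
      rintro ⟨_, w, rfl⟩
      exact Subtype.ext (hq w)) hreg
  have h1 := mem_smul_top_ker g' hg' hreg' ⟨v, Subtype.ext (by simp [g', hv2])⟩ hv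
  let p' : LinearMap.ker g' →ₗ[R] N := (p ∘ₗ (LinearMap.ker g').subtype).codRestrict N (by
    rintro ⟨w, hw⟩
    refine hN w ?_
    rw [hgp]
    exact congrArg Subtype.val hw)
  have h2 := Submodule.mem_map_of_mem (f := N.subtype) (map_mem_smul_top _ p' h1)
  rw [Submodule.map_smul'', Submodule.map_top, Submodule.range_subtype] at h2
  rw [← hv1]
  exact h2

section Main

variable {L : Type} [Ring L] [Module L B] [SMulCommClass B L B]

omit [Algebra ℚ B] in
theorem mul_smulL (a : MM B) (l : L) (m : MM B) : a * (l • m) = l • (a * m) := by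
  ext d
  change coeff d (a * (l • m)) = l • coeff d (a * m)
  rw [coeff_mul, coeff_mul, Finset.smul_sum]
  refine Finset.sum_congr rfl fun p _ => ?_
  exact smul_comm (coeff p.1 a) l (coeff p.2 m)

variable (L) in
/-- The kernel module. -/
def NN (E DA : MM B) : Submodule L (MM B) where
  carrier := {m | E * m = 0 ∧ DA * m = 0 ∧ IsCl 1 m}
  add_mem' ha hb := ⟨by rw [mul_add, ha.1, hb.1, add_zero],
    by rw [mul_add, ha.2.1, hb.2.1, add_zero], ha.2.2.add hb.2.2⟩
  zero_mem' := ⟨mul_zero _, mul_zero _, isCl_zero _⟩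
  smul_mem' l m hm := ⟨by rw [mul_smulL, hm.1, smul_zero], by rw [mul_smulL, hm.2.1, smul_zero],
    fun d hd => by
      change l • coeff d m = 0
      rw [hm.2.2 d hd, smul_zero]⟩

/-- The kernel module as a module over the Veronese ring. -/
def NR (E DA : MM B) : Submodule Ver (MM B) where
  carrier := {m | E * m = 0 ∧ DA * m = 0 ∧ IsCl 1 m}
  add_mem' ha hb := ⟨by rw [mul_add, ha.1, hb.1, add_zero],
    by rw [mul_add, ha.2.1, hb.2.1, add_zero], ha.2.2.add hb.2.2⟩
  zero_mem' := ⟨mul_zero _, mul_zero _, isCl_zero _⟩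
  smul_mem' r m hm := ⟨by rw [smul_defV, ← mul_assoc, ← io_comm, mul_assoc, hm.1, mul_zero],
    by rw [smul_defV, ← mul_assoc, ← io_comm, mul_assoc, hm.2.1, mul_zero],
    by
      have := (IsCl.map (algebraMap ℚ B) r.2).mul hm.2.2
      rw [zero_add] at this
      exact this⟩

variable (L) in
/-- Left multiplication on the kernel module. -/
noncomputable def lm {E DA : MM B} (a : MM B) (ha : ∀ m ∈ NR E DA, a * m ∈ NR E DA) :
    Module.End L (NN L E DA) where
  toFun m := ⟨a * m, ha m m.2⟩
  map_add' _ _ := Subtype.ext (mul_add _ _ _)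
  map_smul' l m := Subtype.ext (mul_smulL a l m)

variable (L) in
/-- The action of the Veronese ring on the kernel module. -/
noncomputable def sg (E DA : MM B) : Ver →+* Module.End L (NN L E DA) where
  toFun r := lm L (io (r : SS)) fun _ hm => (NR E DA).smul_mem r hm
  map_one' := LinearMap.ext fun m => Subtype.ext (one_smul Ver (m : MM B))
  map_mul' r s := LinearMap.ext fun m => Subtype.ext (mul_smul r s (m : MM B))
  map_zero' := LinearMap.ext fun m => Subtype.ext (zero_smul Ver (m : MM B))
  map_add' r s := LinearMap.ext fun m => Subtype.ext (add_smul r s (m : MM B))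

theorem coe_sg {E DA : MM B} (r : Ver) (m : NN L E DA) : (sg L E DA r m : MM B) = r • (m : MM B) :=
  rfl

theorem mem_iSup_iff {E DA : MM B} {ι : Type*} (s : Set ι) (z : ι → Ver) (v : NN L E DA) :
    v ∈ ⨆ i ∈ s, LinearMap.range (sg L E DA (z i)) ↔
      (v : MM B) ∈ Ideal.span (z '' s) • NR E DA := by
  constructor
  · intro hv
    rw [iSup_subtype'] at hv
    induction hv using Submodule.iSup_induction' with
    | mem i x hx =>
      obtain ⟨w, rfl⟩ := hx
      exact Submodule.smul_mem_smul (Ideal.subset_span ⟨i, i.2, rfl⟩) w.2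
    | zero => exact zero_mem _
    | add x y _ _ hx hy => exact add_mem hx hy
  · intro hv
    have key : ∀ r ∈ Ideal.span (z '' s), ∀ m : NN L E DA,
        sg L E DA r m ∈ ⨆ i ∈ s, LinearMap.range (sg L E DA (z i)) := by
      intro r hr
      induction hr using Submodule.span_induction with
      | mem x hx =>
        obtain ⟨i, hi, rfl⟩ := hx
        intro m
        exact le_iSup₂_of_le (f := fun i (_ : i ∈ s) => LinearMap.range (sg L E DA (z i)))
          i hi le_rfl ⟨m, rfl⟩
      | zero => intro m; simp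
      | add x y _ _ hx hy => intro m; rw [map_add]; exact add_mem (hx m) (hy m)
      | smul a x _ hx =>
        intro m
        rw [smul_eq_mul, mul_comm, map_mul]
        exact hx _
    have key2 : ∀ w ∈ Ideal.span (z '' s) • NR E DA, ∃ hw : w ∈ NN L E DA,
        (⟨w, hw⟩ : NN L E DA) ∈ ⨆ i ∈ s, LinearMap.range (sg L E DA (z i)) := by
      intro w hw
      refine Submodule.smul_induction_on hw ?_ ?_
      · intro r hr m hm
        exact ⟨(NR E DA).smul_mem r hm, key r hr ⟨m, hm⟩⟩
      · rintro x y ⟨hx, hx'⟩ ⟨hy, hy'⟩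
        exact ⟨add_mem hx hy, add_mem hx' hy'⟩
    exact (key2 _ hv).2

theorem isRobust_of_kernel (hL : length L B ≠ ⊤) (E DA : MM B) (hE0 : IsCl 0 E)
    (hD1 : IsCl 1 DA) (hEE : E * E = E) (hED : E * DA = DA) (hDE : DA * E = 0)
    (hs : ∀ e : Fin 4 →₀ ℕ, e.degree = 2 → ∃ y, DA * y = monomial e 1 * E)
    (n0 : MM B) (hn0 : n0 ∈ NR E DA) (hn1 : ∃ e : Fin 4 →₀ ℕ, e.degree < 4 ∧ coeff e n0 ≠ 0)
    {n : ℕ} (g : Fin n → Ver) (u : Ver)
    (hU : ∀ c : ℕ, ∃ U : Fin n → MM B, (∀ j, ∀ m ∈ NR E DA, U j * m ∈ NR E DA) ∧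
      (∀ i j, ∀ m ∈ NR E DA, ∀ e : Fin 4 →₀ ℕ, e.degree < c →
        coeff e ((U i * U j - U j * U i) * m) = 0) ∧
      ∀ m ∈ NR E DA, ∀ e : Fin 4 →₀ ℕ, e.degree < c →
        coeff e ((io (u : SS) - ∑ j, io (g j : SS) * U j) * m) = 0) :
    IsRobust Ver (Forcing g u) := by
  classical
  intro d y hy
  have hlin : ∀ (a : MM B) (r : Ver) (m : MM B), a * (r • m) = r • (a * m) := by
    intro a r m
    rw [smul_defV, smul_defV, ← mul_assoc, ← io_comm, mul_assoc]
  have hproj : ∀ (c : ZMod 4) (r : Ver) (m : MM B), proj c (r • m) = r • proj c m := by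
    intro c r m
    have := (IsCl.map (algebraMap ℚ B) r.2).proj_mul_left c m
    rw [zero_add] at this
    exact this
  let G : MM B →ₗ[Ver] MM B := ⟨⟨fun m => DA * m, mul_add _⟩, hlin DA⟩
  let p : MM B →ₗ[Ver] MM B := ⟨⟨fun m => (1 - E) * proj 1 m, fun a b => by
    rw [proj_add, mul_add]⟩, fun r m => by simp only [hproj, hlin, RingHom.id_apply]⟩
  let q : MM B →ₗ[Ver] MM B := ⟨⟨fun m => E * proj 2 m, fun a b => by
    rw [proj_add, mul_add]⟩, fun r m => by simp only [hproj, hlin, RingHom.id_apply]⟩
  have hpure : ∀ l : List Ver, IsWeaklyRegular (MM B) l → ∀ v ∈ NR E DA,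
      v ∈ (Ideal.ofList l • ⊤ : Submodule Ver (MM B)) → v ∈ Ideal.ofList l • NR E DA := by
    intro l hl v hv1 hv2
    refine mem_smul_of_proj G p q ?_ ?_ ?_ (NR E DA) ?_ hl v ?_ hv1.2.1 hv2
    · intro v
      change E * proj 2 (E * proj 2 v) = E * proj 2 v
      have := hE0.proj_mul_left 2 (proj 2 v)
      rw [zero_add] at this
      rw [this, proj_proj, ← mul_assoc, hEE]
    · intro v
      change DA * ((1 - E) * proj 1 v) = E * proj 2 (DA * v)
      have := hD1.proj_mul_left 1 v
      rw [show (1 : ZMod 4) + 1 = 2 from rfl] at this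
      rw [this, ← mul_assoc, ← mul_assoc, mul_sub, mul_one, hDE, sub_zero, hED]
    · intro w
      obtain ⟨h, hh, -⟩ := exists_sum_monomial_mul
        (Finsupp.finite_of_degree_eq (σ := Fin 4) 2).toFinset (proj 2 w) (by
          intro e he
          refine isCl_proj 2 w e fun h2 => ?_
          have hle : 2 ≤ e.degree := by
            by_contra hlt
            have : e.degree = 0 ∨ e.degree = 1 := by omega
            rcases this with h | h <;> rw [h] at h2 <;> exact absurd h2 (by decide)
          obtain ⟨e', he1, he2⟩ := Finsupp.exists_le_degree_eq e 2 hle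
          exact he e' ((Set.Finite.mem_toFinset _).2 he2) he1)
      choose! yy hyy using hs
      refine ⟨∑ e ∈ (Finsupp.finite_of_degree_eq (σ := Fin 4) 2).toFinset, yy e * h e, ?_⟩
      change DA * _ = E * proj 2 w
      rw [hh, Finset.mul_sum, Finset.mul_sum]
      refine Finset.sum_congr rfl fun e he => ?_
      rw [← mul_assoc, hyy e (by simpa using he), ← io_monomial, io_comm,
        mul_assoc]
    · intro v hv
      refine ⟨?_, hv, ?_⟩
      · change E * ((1 - E) * proj 1 v) = 0
        rw [← mul_assoc, mul_sub, mul_one, hEE, sub_self, zero_mul]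
      · have := (isCl_one.sub hE0).mul (isCl_proj 1 v)
        rw [zero_add] at this
        exact this
    · change (1 - E) * proj 1 v = v
      rw [hv1.2.2.proj_eq, sub_mul, one_mul, hv1.1, sub_zero]
  have hord : ∀ t, 1 ≤ t → ∃ c : ℕ, ∀ v : NN L E DA,
      (∀ e : Fin 4 →₀ ℕ, e.degree < c → coeff e (v : MM B) = 0) →
        v ∈ ⨆ i, LinearMap.range (sg L E DA (y i) ^ t) := by
    intro t ht
    let l : List Ver := (List.finRange d).map fun i => y i ^ t
    have hl : ∀ i, y i ^ t ∈ l := fun i => List.mem_map.2 ⟨i, List.mem_finRange i, rfl⟩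
    obtain ⟨c, hc⟩ := exists_order_mem (B := B) hy (Ideal.ofList l)
      fun i => ⟨t, Ideal.subset_span (hl i)⟩
    refine ⟨c, fun v hv => ?_⟩
    have h1 := hpure l (isWeaklyRegular_of_isSOP hy l (by simp [l]) (by
      intro z hz
      obtain ⟨i, _, rfl⟩ := List.mem_map.1 hz
      exact Ideal.pow_mem_of_mem _ (IsSOP.mem hy i) t ht) fun i => ⟨t, hl i⟩) v v.2 (hc v hv)
    have h2 : Ideal.ofList l = Ideal.span ((fun i => y i ^ t) '' Set.univ) := by
      rw [Ideal.ofList]
      congr 1
      ext z
      simp [l]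
    rw [h2, ← mem_iSup_iff] at h1
    simpa using h1
  refine isQSeq_forcing (sg L E DA) y g u ?_ ?_ ?_ ?_
  · intro e he k v hv
    simp only [← map_pow] at hv ⊢
    rw [mem_iSup_iff] at hv ⊢
    let l : List Ver := (Finset.univ.erase k).toList.map fun i => y i ^ e i
    have h2 : Ideal.span ((fun i => y i ^ e i) '' {i | i ≠ k}) = Ideal.ofList l := by
      rw [Ideal.ofList]
      congr 1
      ext z
      simp [l]
    have h3 : IsWeaklyRegular (MM B) (l ++ [y k]) := by
      refine isWeaklyRegular_of_isSOP hy _ ?_ ?_ ?_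
      · have := k.pos
        simp [l]
        omega
      · intro z hz
        rcases List.mem_append.1 hz with hz | hz
        · obtain ⟨i, _, rfl⟩ := List.mem_map.1 hz
          exact Ideal.pow_mem_of_mem _ (IsSOP.mem hy i) _ (he i)
        · rw [List.mem_singleton.1 hz]
          exact IsSOP.mem hy k
      · intro i
        by_cases hik : i = k
        · exact ⟨1, by simp [hik]⟩
        · exact ⟨e i, List.mem_append_left _ (List.mem_map.2 ⟨i, by simp [hik], rfl⟩)⟩
    rw [h2] at hv ⊢
    refine hpure l ((isWeaklyRegular_append_iff _ _ _).1 h3).1 v v.2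
      (isWeaklyRegular_last h3 _ (Submodule.smul_mono le_rfl le_top hv))
  · obtain ⟨c, hc⟩ := hord 1 le_rfl
    simp only [pow_one] at hc
    have : Finite {e : Fin 4 →₀ ℕ | e.degree < c} := Finsupp.finite_of_degree_lt c
    let τ : NN L E DA →ₗ[L] ({e : Fin 4 →₀ ℕ | e.degree < c} → B) :=
      { toFun := fun v e => coeff e.1 (v : MM B)
        map_add' := fun _ _ => rfl
        map_smul' := fun _ _ => rfl }
    have hker : LinearMap.ker τ ≤ ⨆ i, LinearMap.range (sg L E DA (y i)) :=
      fun v hv => hc v fun e he => congrFun hv ⟨e, he⟩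
    have h1 := Module.length_le_of_surjective _ (Submodule.factor_surjective hker)
    rw [τ.quotKerEquivRange.length_eq] at h1
    have h2 := h1.trans (Module.length_le_of_injective _ (LinearMap.range τ).subtype_injective)
    refine ne_top_of_le_ne_top ?_ h2
    let := Fintype.ofFinite {e : Fin 4 →₀ ℕ | e.degree < c}
    rw [Module.length_pi_of_fintype]
    exact ENat.sum_ne_top.2 fun _ _ => hL
  · rw [Ne, Module.length_eq_zero_iff, Submodule.Quotient.subsingleton_iff]
    intro htop
    obtain ⟨e, he, hne⟩ := hn1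
    have h1 : (⟨n0, hn0⟩ : NN L E DA) ∈ ⨆ i, LinearMap.range (sg L E DA (y i)) := by
      rw [htop]
      trivial
    have h2 : ∀ v ∈ ⨆ i, LinearMap.range (sg L E DA (y i)), coeff e (v : MM B) = 0 := by
      intro v hv
      induction hv using Submodule.iSup_induction' with
      | mem i x hx =>
        obtain ⟨w, rfl⟩ := hx
        rw [coe_sg, smul_defV, coeff_io_mul]
        refine Finset.sum_eq_zero fun p hp => ?_
        rw [order_of_mem_maximalIdeal_Ver (IsSOP.mem hy i), zero_smul]
        refine lt_of_le_of_lt ?_ he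
        rw [← Finset.HasAntidiagonal.mem_antidiagonal.1 hp, map_add]
        exact Nat.le_add_right _ _
      | zero => simp
      | add x y _ _ hx hy => rw [Submodule.coe_add, map_add, hx, hy, add_zero]
    exact hne (h2 _ h1)
  · intro t ht
    obtain ⟨c, hc⟩ := hord t ht
    obtain ⟨U, hU1, hU2, hU3⟩ := hU c
    refine ⟨fun j => lm L (U j) (hU1 j), fun r j => ?_, fun i j v => hc _ fun e he => ?_,
      fun v => hc _ fun e he => ?_⟩
    · exact LinearMap.ext fun m => Subtype.ext (hlin (U j) r m).symm
    · rw [← hU2 i j v v.2 e he, sub_mul, mul_assoc, mul_assoc]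
      rfl
    · rw [← hU3 v v.2 e he, sub_mul, Finset.sum_mul, Submodule.coe_sub, Submodule.coe_sum]
      simp only [mul_assoc]
      rfl

end Main

end Pool.Agent.ROB.CA
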