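import Pool.Agent.Lib.ROB.Defs

/-!
Objects used in the counterexample to persistence of robust closure.
-/

open scoped TensorProduct

namespace Pool.Agent.Lib.ROB

/-- `c` is a sum of `a i (p i)`, `i ∈ s`, with all `p i ∈ P`. -/
def InSp {ι C : Type} [AddCommMonoid C] (a : ι → C → C) (s : Finset ι) (P : Set C) (c : C) :
    Prop :=
  ∃ p : ι → C, (∀ i, p i ∈ P) ∧ c = ∑ i ∈ s, a i (p i)

/-- `z` is a permutable weakly regular family on `M`. -/
def PReg {ι R : Type} [CommRing R] (z : ι → R) (M : Type) [AddCommGroup M] [Module R M] : Prop :=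
  ∀ (s : Finset ι) (i : ι), i ∉ s → ∀ m : M,
    InSp (fun j x => z j • x) s Set.univ (z i • m) → InSp (fun j x => z j • x) s Set.univ m

/-! ### Polynomials in `x` (4), `P` (6), `κ` (4) -/

abbrev Var : Type := Fin 4 ⊕ Fin 6 ⊕ Fin 4

abbrev Pol : Type := MvPolynomial Var ℚ

abbrev Dg : Type := ℤ × ℤ × ℤ

def wt : Var → Dg
  | Sum.inl _ => (1, 0, 0)
  | Sum.inr (Sum.inl _) => (0, 1, 0)
  | Sum.inr (Sum.inr _) => (0, 0, 1)

noncomputable def xx (l : Fin 4) : Pol := MvPolynomial.X (Sum.inl l)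
noncomputable def pp (α : Fin 6) : Pol := MvPolynomial.X (Sum.inr (Sum.inl α))
noncomputable def kk (m : Fin 4) : Pol := MvPolynomial.X (Sum.inr (Sum.inr m))
noncomputable def aa (j : Fin 4) : Pol := xx j ^ 4
noncomputable def uu : Pol := (xx 0 * xx 1 * xx 2 * xx 3) ^ 3

def p1 : Fin 6 → Fin 4 := ![0, 0, 0, 1, 1, 2]
def p2 : Fin 6 → Fin 4 := ![1, 2, 3, 2, 3, 3]

/-- coefficient of the variable `P α` in the antisymmetric matrix entry `P i j`. -/
def pc (i j : Fin 4) (α : Fin 6) : ℤ :=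
  if i = p1 α ∧ j = p2 α then 1 else if j = p1 α ∧ i = p2 α then -1 else 0

/-- Levi-Civita symbol. -/
def lc (i j k l : Fin 4) : ℤ :=
  (((j : ℕ) : ℤ) - (i : ℕ)) * (((k : ℕ) : ℤ) - (i : ℕ)) * (((l : ℕ) : ℤ) - (i : ℕ)) *
    (((k : ℕ) : ℤ) - (j : ℕ)) * (((l : ℕ) : ℤ) - (j : ℕ)) * (((l : ℕ) : ℤ) - (k : ℕ)) / 12

noncomputable def PP (i j : Fin 4) : Pol := ∑ α, (pc i j α : Pol) * pp α

noncomputable def kap (m : Fin 4) : Pol :=
  ∑ j, ∑ α, (lc m j (p1 α) (p2 α) : Pol) * (aa j * pp α)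

noncomputable def psiP (i : Fin 4) (α : Fin 6) : Pol := ∑ m, (lc m i (p1 α) (p2 α) : Pol) * kk m

noncomputable def ell : Pol := ∑ m, aa m * kk m

noncomputable def phi : Pol →ₐ[ℚ] Pol :=
  MvPolynomial.aeval (Sum.elim xx (Sum.elim (fun _ => 0) kap))

noncomputable def psi (i : Fin 4) : Pol →ₐ[ℚ] Pol :=
  MvPolynomial.aeval (Sum.elim xx (Sum.elim (psiP i) (fun _ => 0)))

noncomputable def dPd (α : Fin 6) : Derivation ℚ Pol Pol :=
  MvPolynomial.pderiv (Sum.inr (Sum.inl α))

noncomputable def dKd (m : Fin 4) : Derivation ℚ Pol Pol :=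
  MvPolynomial.pderiv (Sum.inr (Sum.inr m))

/-- coefficient of `∂/∂P α` in `v j`. -/
noncomputable def vc (j : Fin 4) (α : Fin 6) : Pol := ∑ l, (pc j l α : Pol) * aa l

noncomputable def vP (j : Fin 4) : Derivation ℚ Pol Pol := ∑ α, vc j α • dPd α

/-! ### Polynomials with coefficients in a noncommutative algebra -/

abbrev AA (W : Type) [Ring W] [Algebra ℚ W] : Type := Pol ⊗[ℚ] W

section AAdefs

variable {W : Type} [Ring W] [Algebra ℚ W]

noncomputable def rT (F : Pol →ₗ[ℚ] Pol) : Module.End ℚ (AA W) := LinearMap.rTensor W F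

noncomputable def mm (f : Pol) : Module.End ℚ (AA W) := rT (LinearMap.mulLeft ℚ f)
noncomputable def dP (α : Fin 6) : Module.End ℚ (AA W) := rT (dPd α).toLinearMap
noncomputable def dK (m : Fin 4) : Module.End ℚ (AA W) := rT (dKd m).toLinearMap
noncomputable def vv (j : Fin 4) : Module.End ℚ (AA W) := rT (vP j).toLinearMap
noncomputable def ph : Module.End ℚ (AA W) := rT phi.toLinearMap
noncomputable def ps (i : Fin 4) : Module.End ℚ (AA W) := rT (psi i).toLinearMap
noncomputable def pr (d : Dg) : Module.End ℚ (AA W) :=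
  rT (MvPolynomial.weightedHomogeneousComponent wt d)

/-- homogeneous elements of multidegree `d` = (x-degree, P-degree, κ-degree). -/
noncomputable def Hom (W : Type) [Ring W] [Algebra ℚ W] (d : Dg) : Submodule ℚ (AA W) :=
  Submodule.span ℚ {x | ∃ (f : Pol) (r : W), f.IsWeightedHomogeneous wt d ∧ x = f ⊗ₜ[ℚ] r}

/-- sums of homogeneous elements without `κ` whose x-degree is `4 k`, `k ≥ c`. -/
noncomputable def Hi (W : Type) [Ring W] [Algebra ℚ W] (c : ℕ) : Submodule ℚ (AA W) :=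
  ⨆ (k : ℕ) (_ : c ≤ k) (p : ℤ), Hom W (4 * (k : ℤ), p, 0)

/-- operators commuting with all the basic polynomial operators. -/
def Comm (Θ : Module.End ℚ (AA W)) : Prop :=
  (∀ f, Θ * mm f = mm f * Θ) ∧ (∀ α, Θ * dP α = dP α * Θ) ∧ (∀ m, Θ * dK m = dK m * Θ) ∧
    Θ * ph = ph * Θ ∧ ∀ i, Θ * ps i = ps i * Θ

end AAdefs

/-! ### The obstruction complex -/

abbrev FI : Type := Finset (Fin 4) × ℕ

abbrev Idx : Type := FI ⊕ Bool

def sg (m : Fin 4) (I : Finset (Fin 4)) : ℤ := (-1) ^ (I.filter (· < m)).card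

section Fock

variable {M : Type} [AddCommGroup M] [Module ℚ M]

/-- pointwise action of an operator. -/
def pw (ι : Type) (Θ : Module.End ℚ M) : Module.End ℚ (ι → M) := LinearMap.compLeft Θ ι

def xi (m : Fin 4) : Module.End ℚ (FI → M) where
  toFun f q := if m ∈ q.1 then sg m q.1 • f (q.1.erase m, q.2) else 0
  map_add' f g := by ext q; by_cases h : m ∈ q.1 <;> simp [h]
  map_smul' c f := by ext q; by_cases h : m ∈ q.1 <;> simp [h, smul_comm c]

def io (m : Fin 4) : Module.End ℚ (FI → M) where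
  toFun f q := if m ∈ q.1 then 0 else sg m q.1 • f (insert m q.1, q.2)
  map_add' f g := by ext q; by_cases h : m ∈ q.1 <;> simp [h]
  map_smul' c f := by ext q; by_cases h : m ∈ q.1 <;> simp [h, smul_comm c]

def ze : Module.End ℚ (FI → M) where
  toFun f q := if q.2 = 0 then 0 else f (q.1, q.2 - 1)
  map_add' f g := by ext q; by_cases h : q.2 = 0 <;> simp [h]
  map_smul' c f := by ext q; by_cases h : q.2 = 0 <;> simp [h]

def dz : Module.End ℚ (FI → M) where
  toFun f q := (q.2 + 1) • f (q.1, q.2 + 1)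
  map_add' f g := by ext q; simp only [Pi.add_apply, smul_add]
  map_smul' c f := by ext q; simp only [Pi.smul_apply, RingHom.id_apply, smul_comm c]

/-- the number operator `|I| + j`. -/
def nu : Module.End ℚ (FI → M) where
  toFun f q := (q.1.card + q.2) • f q
  map_add' f g := by ext q; simp only [Pi.add_apply, smul_add]
  map_smul' c f := by ext q; simp only [Pi.smul_apply, RingHom.id_apply, smul_comm c]

end Fock

/-- the vacuum index. -/
def vac : FI := (∅, 0)

/-- cohomological degree. -/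
def cdF (q : FI) : ℤ := q.1.card + 2 * q.2

def wdF (n : ℕ) (e : ℤ) (q : FI) : Dg := (e + 4 * n + 4 * cdF q, n - q.1.card - q.2, 0)

def cd : Idx → ℤ
  | Sum.inl q => cdF q
  | Sum.inr false => -1
  | Sum.inr true => -2

def wd (n : ℕ) (e : ℤ) : Idx → Dg
  | Sum.inl q => wdF n e q
  | Sum.inr false => (e, 0, n)
  | Sum.inr true => (e - 4, 0, n - 1)

section Cx

variable {W : Type} [Ring W] [Algebra ℚ W]

noncomputable def dF : Module.End ℚ (FI → AA W) :=
  ∑ m, xi m * pw FI (vv m) + ze * ∑ m, pw FI (mm (aa m)) * io m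

noncomputable def HF (i : Fin 4) : Module.End ℚ (FI → AA W) :=
  ∑ k, pw FI (mm (PP k i)) * io k + xi i * dz

/-- Euler operator in the variables `P`. -/
noncomputable def EP : Module.End ℚ (AA W) := ∑ α, mm (pp α) * dP α

noncomputable def QQ (i : Fin 4) : Module.End ℚ (AA W) := ∑ α, mm (phi (psiP i α)) * dP α

noncomputable def dd : Module.End ℚ (Idx → AA W) where
  toFun f := Sum.elim (dF (f ∘ Sum.inl) + Pi.single vac (ph (f (Sum.inr false))))
    (fun b => if b then 0 else mm ell (f (Sum.inr true)))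
  map_add' f g := by
    ext q
    rcases q with q | b
    · have : (f + g) ∘ Sum.inl = f ∘ Sum.inl + g ∘ Sum.inl := rfl
      simp only [this, map_add, Pi.add_apply, Sum.elim_inl, Pi.single_add]
      abel
    · cases b <;> simp
  map_smul' c f := by
    ext q
    rcases q with q | b
    · have : (c • f) ∘ Sum.inl = c • (f ∘ Sum.inl) := rfl
      simp only [this, map_smul, Pi.add_apply, Sum.elim_inl, Pi.smul_apply, RingHom.id_apply,
        smul_add, Pi.single_smul]
    · cases b <;> simp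

noncomputable def LF (W : Type) [Ring W] [Algebra ℚ W] (n : ℕ) (k e : ℤ) :
    Submodule ℚ (FI → AA W) where
  carrier := {f | ∀ q, f q ∈ Hom W (wdF n e q) ∧ (cdF q ≠ k → f q = 0)}
  add_mem' hf hg q := ⟨add_mem (hf q).1 (hg q).1, fun h => by simp [(hf q).2 h, (hg q).2 h]⟩
  zero_mem' q := ⟨zero_mem _, fun _ => rfl⟩
  smul_mem' c f hf q := ⟨Submodule.smul_mem _ c (hf q).1, fun h => by simp [(hf q).2 h]⟩

noncomputable def LL (W : Type) [Ring W] [Algebra ℚ W] (n : ℕ) (k e : ℤ) :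
    Submodule ℚ (Idx → AA W) where
  carrier := {f | ∀ q, f q ∈ Hom W (wd n e q) ∧ (cd q ≠ k → f q = 0)}
  add_mem' hf hg q := ⟨add_mem (hf q).1 (hg q).1, fun h => by simp [(hf q).2 h, (hg q).2 h]⟩
  zero_mem' q := ⟨zero_mem _, fun _ => rfl⟩
  smul_mem' c f hf q := ⟨Submodule.smul_mem _ c (hf q).1, fun h => by simp [(hf q).2 h]⟩

end Cx

/-! ### The coefficient data -/

/-- An idempotent `e` and elements `D l ∈ e W (1 - e)` with the two surjectivity properties. -/
structure Dat (W : Type) [Ring W] [Algebra ℚ W] where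
  e : W
  D : Fin 4 → W
  ee : e * e = e
  eD : ∀ l, e * D l = D l
  De : ∀ l, D l * e = 0
  s1 : ∀ c, e * c = c * e → ∃ z : Fin 4 → W, (∀ l, e * z l = 0 ∧ z l * e = z l) ∧
    ∑ l, (D l * z l + z l * D l) = c
  s2 : ∀ l m, ∃ y : Fin 4 → W, (∀ k, e * y k = 0 ∧ y k * e = y k) ∧
    ∀ k k', D k * y k' + D k' * y k =
      ((if k = l ∧ k' = m then 1 else 0) + (if k = m ∧ k' = l then 1 else 0) : ℤ) • e

namespace Dat

variable {W : Type} [Ring W] [Algebra ℚ W] (t : Dat W)

noncomputable def eA : AA W := 1 ⊗ₜ[ℚ] t.e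

noncomputable def DA : AA W := ∑ l, xx l ⊗ₜ[ℚ] t.D l

noncomputable def sgA : Module.End ℚ (AA W) :=
  LinearMap.mulLeft ℚ (1 - 2 * t.eA) * LinearMap.mulRight ℚ (1 - 2 * t.eA)

noncomputable def dl : Module.End ℚ (AA W) :=
  LinearMap.mulLeft ℚ t.DA - LinearMap.mulRight ℚ t.DA * t.sgA

/-- eigenspaces of `ad e`. -/
noncomputable def Wd (s : ℤ) : Submodule ℚ (AA W) where
  carrier := {x | t.eA * x - x * t.eA = s • x}
  add_mem' {x y} hx hy := by
    simp only [Set.mem_ofPred_eq] at *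
    rw [smul_add, ← hx, ← hy]; noncomm_ring
  zero_mem' := by simp
  smul_mem' c x hx := by
    simp only [Set.mem_ofPred_eq] at *
    rw [smul_comm, ← hx, smul_sub, mul_smul_comm, smul_mul_assoc]

noncomputable def Z0 : Submodule ℚ (AA W) where
  carrier := {x | t.eA * x = x * t.eA ∧ t.DA * x = x * t.DA}
  add_mem' {x y} hx hy := ⟨by rw [mul_add, add_mul, hx.1, hy.1], by
    rw [mul_add, add_mul, hx.2, hy.2]⟩
  zero_mem' := by simp
  smul_mem' c x hx := ⟨by rw [mul_smul_comm, smul_mul_assoc, hx.1], by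
    rw [mul_smul_comm, smul_mul_assoc, hx.2]⟩

noncomputable def B0 : Submodule ℚ (AA W) := (t.Wd (-1)).map t.dl

noncomputable def Tot (n : ℕ) (k e : ℤ) : Submodule ℚ (Idx → AA W) where
  carrier := {f | ∀ q, f q ∈ t.Wd (k - cd q) ∧ f q ∈ Hom W (wd n (e + (k - cd q)) q)}
  add_mem' hf hg q := ⟨add_mem (hf q).1 (hg q).1, add_mem (hf q).2 (hg q).2⟩
  zero_mem' _ := ⟨zero_mem _, zero_mem _⟩
  smul_mem' c _ hf q := ⟨Submodule.smul_mem _ c (hf q).1, Submodule.smul_mem _ c (hf q).2⟩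

noncomputable def DD : Module.End ℚ (Idx → AA W) := pw Idx t.sgA * dd + pw Idx t.dl

end Dat

/-- Representation data: a finite-dimensional algebra over a skew field. -/
structure Big {W : Type} [Ring W] [Algebra ℚ W] (t : Dat W) (B Q : Type) [Ring B] [Algebra ℚ B]
    [DivisionRing Q] where
  j : W →ₐ[ℚ] B
  sc : Q →+* B
  fin : ∃ s : Finset B, ∀ b, ∃ c : B → Q, b = ∑ x ∈ s, x * sc (c x)
  P : Fin 6 → B
  S : Fin 6 → B
  PP : ∀ α β, P α * P β = P β * P α
  SS : ∀ α β, S α * S β = S β * S α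
  SP : ∀ α β, S α * P β - P β * S α = if α = β then 1 else 0
  jP : ∀ r α, j r * P α = P α * j r
  jS : ∀ r α, j r * S α = S α * j r
  r : Fin 4 → W
  er : ∀ k, t.e * r k = 0
  Dr : ∀ k k', t.D k * r k' + t.D k' * r k = 0
  rne : ∃ k, j (r k) ≠ 0

/-! ### The rings -/

abbrev SS : Type := MvPowerSeries (Fin 4) ℚ

/-- power series all of whose monomials have degree `s` mod 4. -/
def gr (s : ZMod 4) : Submodule ℚ SS where
  carrier := {f | ∀ m : Fin 4 →₀ ℕ, ((m.degree : ℕ) : ZMod 4) ≠ s → MvPowerSeries.coeff m f = 0}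
  add_mem' hf hg m h := by simp [hf m h, hg m h]
  zero_mem' m _ := by simp
  smul_mem' c f hf m h := by simp [hf m h]

/-- projection onto `gr s`. -/
noncomputable def prj (s : ZMod 4) : SS →ₗ[ℚ] SS where
  toFun f m := if ((m.degree : ℕ) : ZMod 4) = s then MvPowerSeries.coeff m f else 0
  map_add' f g := by
    funext m
    change _ = (if ((m.degree : ℕ) : ZMod 4) = s then MvPowerSeries.coeff m f else 0) +
      (if ((m.degree : ℕ) : ZMod 4) = s then MvPowerSeries.coeff m g else 0)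
    split_ifs <;> simp
  map_smul' c f := by
    funext m
    change _ = c * (if ((m.degree : ℕ) : ZMod 4) = s then MvPowerSeries.coeff m f else 0)
    split_ifs <;> simp

/-- the ideal generated by the variables. -/
noncomputable def XI : Ideal SS := Ideal.span (Set.range MvPowerSeries.X)

noncomputable def aS (j : Fin 4) : SS := MvPowerSeries.X j ^ 4

noncomputable def uS : SS :=
  (MvPowerSeries.X 0 * MvPowerSeries.X 1 * MvPowerSeries.X 2 * MvPowerSeries.X 3) ^ 3

end Pool.Agent.Lib.ROB
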