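import Mathlib
import Pool.Agent.Lib.ROB.CA_N
import Pool.Agent.Lib.ROB.Obj

/-! From approximately flat connections to robustness of the forcing algebra. -/

namespace Pool.Agent.ROB.CA

open MvPowerSeries Module
open scoped TensorProduct
open Pool.Agent.Lib.ROB (Dat Big AA Pol Var wt xx pp vc pc vP vv dP dPd rT Hi Dg)

section HDeg

variable {B : Type} [Ring B]

/-- Homogeneous of degree `a`. -/
def HDeg (a : ℤ) (m : MM B) : Prop :=
  ∀ d : Fin 4 →₀ ℕ, ((d.degree : ℕ) : ℤ) ≠ a → coeff d m = 0

theorem HDeg.mul {a b : ℤ} {f g : MM B} (hf : HDeg a f) (hg : HDeg b g) :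
    HDeg (a + b) (f * g) := by
  intro d hd
  rw [coeff_mul]
  refine Finset.sum_eq_zero fun p hp => ?_
  by_cases h1 : ((p.1.degree : ℕ) : ℤ) = a
  · rw [hg p.2, mul_zero]
    intro h2
    apply hd
    rw [← Finset.HasAntidiagonal.mem_antidiagonal.1 hp, map_add, Nat.cast_add, h1, h2]
  · rw [hf p.1 h1, zero_mul]

theorem hDeg_monomial (e : Fin 4 →₀ ℕ) (b : B) :
    HDeg ((e.degree : ℕ) : ℤ) (monomial e b : MM B) := fun d hd =>
  coeff_monomial_ne (fun h => hd (by rw [h])) b

theorem hDeg_C (b : B) : HDeg 0 (C b : MM B) := by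
  simpa using hDeg_monomial 0 b

theorem hDeg_X (l : Fin 4) : HDeg 1 (X l : MM B) := by
  simpa [X_def] using hDeg_monomial (Finsupp.single l 1) (1 : B)

theorem hDeg_zero (a : ℤ) : HDeg a (0 : MM B) := fun _ _ => by simp

theorem HDeg.pow {a : ℤ} {f : MM B} (hf : HDeg a f) (n : ℕ) : HDeg (n • a) (f ^ n) := by
  induction n with
  | zero => simpa using hDeg_C (1 : B)
  | succ n ih =>
    rw [pow_succ, succ_nsmul]
    exact ih.mul hf

end HDeg

variable {W B Q : Type} [Ring W] [Algebra ℚ W] [Ring B] [Algebra ℚ B] [DivisionRing Q]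
  {t : Dat W} (b : Big t B Q)

/-- Images of the polynomial variables. -/
noncomputable def gen : Var → MM B :=
  Sum.elim X (Sum.elim (fun α => C (b.P α)) fun _ => 0)

theorem exists_polHom : ∃ f : Pol →ₐ[ℚ] MM B, ∀ v, f (MvPolynomial.X v) = gen b v := by
  obtain ⟨ρ, h1, h2⟩ := exists_ringHom_mvPolynomial (algebraMap ℚ (MM B)) (gen b)
    (fun r j => Algebra.commutes r _) (by
      rintro (l | α | m) (l' | α' | m')
      any_goals exact X_comm _ _
      any_goals exact (X_comm _ _).symm
      any_goals exact Commute.zero_left _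
      any_goals exact Commute.zero_right _
      change C (b.P α) * C (b.P α') = C (b.P α') * C (b.P α)
      rw [← map_mul, ← map_mul, b.PP])
  exact ⟨⟨ρ, h1⟩, h2⟩

/-- The evaluation of polynomials. -/
noncomputable def polHom : Pol →ₐ[ℚ] MM B := (exists_polHom b).choose

theorem polHom_X (v : Var) : polHom b (MvPolynomial.X v) = gen b v := (exists_polHom b).choose_spec v

theorem polHom_xx (l : Fin 4) : polHom b (xx l) = X l := polHom_X b _

/-- The constant series. -/
noncomputable def cj : W →ₐ[ℚ] MM B where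
  toRingHom := (C : B →+* MM B).comp b.j.toRingHom
  commutes' r := by
    change C (b.j (algebraMap ℚ W r)) = _
    rw [b.j.commutes, MvPowerSeries.algebraMap_apply]

theorem cj_apply (w : W) : cj b w = C (b.j w) := rfl

theorem polHom_comm (f : Pol) (w : W) : Commute (polHom b f) (cj b w) := by
  induction f using MvPolynomial.induction_on with
  | C r =>
    rw [← MvPolynomial.algebraMap_eq, AlgHom.commutes]
    exact Algebra.commutes r _
  | add f g hf hg =>
    rw [map_add]
    exact hf.add_left hg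
  | mul_X f v hf =>
    rw [map_mul, polHom_X]
    refine hf.mul_left ?_
    rcases v with l | α | m
    · exact X_comm _ _
    · change C (b.P α) * C (b.j w) = C (b.j w) * C (b.P α)
      rw [← map_mul, ← map_mul, b.jP]
    · exact Commute.zero_left _

/-- The representation of polynomials with coefficients in `W`. -/
noncomputable def rho : AA W →ₐ[ℚ] MM B :=
  Algebra.TensorProduct.lift (polHom b) (cj b) (polHom_comm b)

theorem rho_tmul (f : Pol) (w : W) : rho b (f ⊗ₜ w) = polHom b f * cj b w := rfl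

theorem S_polHom (α : Fin 6) (f : Pol) :
    C (b.S α) * polHom b f = polHom b f * C (b.S α) + polHom b (dPd α f) := by
  induction f using MvPolynomial.induction_on with
  | C r =>
    rw [← MvPolynomial.algebraMap_eq, AlgHom.commutes, Derivation.map_algebraMap, map_zero,
      add_zero, Algebra.commutes]
  | add f g hf hg => simp only [map_add, mul_add, add_mul, hf, hg]; abel
  | mul_X f v hf =>
    have hv : C (b.S α) * gen b v = gen b v * C (b.S α) + polHom b (dPd α (MvPolynomial.X v)) := by
      rcases v with l | β | m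
      · simp [gen, dPd, MvPolynomial.pderiv_X, X_comm]
      · have := congrArg (C : B → MM B) (b.SP α β)
        rw [map_sub, map_mul, map_mul, sub_eq_iff_eq_add'] at this
        change C (b.S α) * C (b.P β) = C (b.P β) * C (b.S α) + _
        rw [this]
        by_cases h : α = β
        · simp [h, dPd]
        · simp [h, Ne.symm h, dPd, MvPolynomial.pderiv_X]
      · simp [gen, dPd, MvPolynomial.pderiv_X]
    rw [Derivation.leibniz, smul_eq_mul, smul_eq_mul, map_mul, map_add, map_mul,
      mul_comm (MvPolynomial.X v), map_mul, polHom_X, ← mul_assoc, hf, add_mul, mul_assoc, hv]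
    noncomm_ring

theorem S_cj (α : Fin 6) (w : W) : (C (b.S α) : MM B) * cj b w = cj b w * C (b.S α) := by
  rw [cj_apply, ← map_mul, ← map_mul, b.jS]

theorem S_rho (α : Fin 6) (x : AA W) :
    C (b.S α) * rho b x = rho b x * C (b.S α) + rho b (dP α x) := by
  induction x using TensorProduct.induction_on with
  | zero => simp
  | add x y hx hy => simp only [map_add, mul_add, add_mul, hx, hy]; abel
  | tmul f w =>
    have : dP α (f ⊗ₜ[ℚ] w) = dPd α f ⊗ₜ[ℚ] w := rfl
    rw [this, rho_tmul, rho_tmul, ← mul_assoc, S_polHom, add_mul, mul_assoc, S_cj, mul_assoc]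

theorem rho_smul (f : Pol) (x : AA W) : rho b (f • x) = polHom b f * rho b x := by
  induction x using TensorProduct.induction_on with
  | zero => simp
  | add x y hx hy => simp only [smul_add, map_add, mul_add, hx, hy]
  | tmul g w => rw [TensorProduct.smul_tmul', rho_tmul, rho_tmul, smul_eq_mul, map_mul, mul_assoc]

theorem rho_vv (i : Fin 4) (x : AA W) :
    rho b (vv i x) = ∑ α, polHom b (vc i α) * rho b (dP α x) := by
  induction x using TensorProduct.induction_on with
  | zero => simp
  | add x y hx hy => simp only [map_add, mul_add, hx, hy, Finset.sum_add_distrib]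
  | tmul f w =>
    have h1 : vv i (f ⊗ₜ[ℚ] w) = vP i f ⊗ₜ[ℚ] w := rfl
    have h2 : ∀ α, dP α (f ⊗ₜ[ℚ] w) = dPd α f ⊗ₜ[ℚ] w := fun _ => rfl
    have h3 : vP i f = ∑ α, vc i α * dPd α f := by
      have := map_sum (Derivation.coeFnAddMonoidHom (R := ℚ) (A := Pol) (M := Pol))
        (fun α => vc i α • dPd α) Finset.univ
      refine (congrFun this f).trans ?_
      rw [Finset.sum_apply]
      rfl
    simp only [h1, h2, h3, rho_tmul, map_sum, map_mul, Finset.sum_mul, mul_assoc]

theorem hDeg_polHom {f : Pol} {a : Dg} (hf : f.IsWeightedHomogeneous wt a) :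
    HDeg a.1 (polHom b f) := by
  have key : ∀ s : Var →₀ ℕ,
      HDeg (Finsupp.weight wt s).1 (polHom b (MvPolynomial.monomial s 1)) := by
    intro s
    induction s using Finsupp.induction_linear with
    | zero => simpa using hDeg_C (1 : B)
    | add s s' hs hs' =>
      rw [map_add, ← one_mul (1 : ℚ), ← MvPolynomial.monomial_mul, map_mul]
      exact hs.mul hs'
    | single v n =>
      rw [Finsupp.weight_single, ← MvPolynomial.X_pow_eq_monomial, map_pow, polHom_X]
      refine HDeg.pow (a := (wt v).1) ?_ n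
      rcases v with l | α | m
      · exact hDeg_X l
      · exact hDeg_C _
      · exact hDeg_zero _
  intro d hd
  rw [f.as_sum, map_sum, map_sum]
  refine Finset.sum_eq_zero fun s hs => ?_
  have h1 := key s
  rw [hf (MvPolynomial.mem_support_iff.1 hs)] at h1
  rw [← mul_one (MvPolynomial.coeff s f), ← smul_eq_mul, ← MvPolynomial.smul_monomial, map_smul,
    LinearMap.map_smul_of_tower, h1 d hd, smul_zero]

theorem rho_Hi {c : ℕ} {x : AA W} (hx : x ∈ Hi W c) (d : Fin 4 →₀ ℕ)
    (hd : ((d.degree : ℕ) : ZMod 4) ≠ 0 ∨ d.degree < c) : coeff d (rho b x) = 0 := by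
  let Z : Submodule ℚ (AA W) :=
    LinearMap.ker (((coeff d : MM B →ₗ[B] B).restrictScalars ℚ) ∘ₗ (rho b).toLinearMap)
  have : Hi W c ≤ Z := by
    refine iSup_le fun k => iSup_le fun hk => iSup_le fun p => Submodule.span_le.2 ?_
    rintro _ ⟨f, w, hf, rfl⟩
    have h1 := (hDeg_polHom b hf).mul (hDeg_C (b.j w))
    refine h1 d fun h => ?_
    have h2 : d.degree = 4 * k := by
      simp only [add_zero] at h
      exact_mod_cast h
    rcases hd with hd | hd
    · apply hd
      rw [h2, Nat.cast_mul]
      exact mul_eq_zero_of_left rfl _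
    · omega
  exact this hx

theorem polHom_aa (j : Fin 4) : polHom b (Lib.ROB.aa j) = io (aa j : SS) := by
  rw [Lib.ROB.aa, map_pow, polHom_xx, coe_aa, map_pow, io_X]

theorem polHom_uu : polHom b Lib.ROB.uu = io (uu : SS) := by
  rw [Lib.ROB.uu, coe_uu, Fin.prod_univ_four, ← mul_pow, ← mul_pow, ← mul_pow]
  simp only [map_pow, map_mul, polHom_xx, io_X]

theorem polHom_vc (j : Fin 4) (α : Fin 6) :
    polHom b (vc j α) = io (∑ l, (pc j l α : Ver) * aa l : Ver) := by
  change _ = ((io (B := B)).comp (algebraMap Ver SS)) (∑ l, (pc j l α : Ver) * aa l)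
  rw [vc, map_sum, map_sum]
  refine Finset.sum_congr rfl fun l _ => ?_
  rw [map_mul, polHom_aa, map_intCast, map_mul, map_intCast]
  rfl

theorem sum_aa_vc (α : Fin 6) : ∑ j, Lib.ROB.aa j * vc j α = 0 := by
  have h : ∀ j l, pc l j α = -pc j l α := by
    revert α
    decide
  have h1 : ∑ j, Lib.ROB.aa j * vc j α = -∑ j, Lib.ROB.aa j * vc j α := by
    simp only [vc, Finset.mul_sum]
    conv_lhs => rw [Finset.sum_comm]
    rw [← Finset.sum_neg_distrib]
    refine Finset.sum_congr rfl fun j _ => ?_
    rw [← Finset.sum_neg_distrib]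
    refine Finset.sum_congr rfl fun l _ => ?_
    rw [h]
    push_cast
    ring
  have h2 : (2 : Pol) * ∑ j, Lib.ROB.aa j * vc j α = 0 := by linear_combination h1
  exact (mul_eq_zero.1 h2).resolve_left two_ne_zero

theorem rho_eA : rho b t.eA = C (b.j t.e) := by
  rw [Dat.eA, rho_tmul, map_one, one_mul, cj_apply]

theorem rho_DA : rho b t.DA = ∑ l, X l * C (b.j (t.D l)) := by
  rw [Dat.DA, map_sum]
  exact Finset.sum_congr rfl fun l _ => by rw [rho_tmul, polHom_xx, cj_apply]

theorem rho_B0 {x : AA W} (hx : x ∈ t.B0) {m : MM B} (hm : m ∈ NR (rho b t.eA) (rho b t.DA)) :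
    rho b x * m = 0 := by
  obtain ⟨y, hy, rfl⟩ := hx
  have hy' : t.eA * y - y * t.eA = (-1 : ℤ) • y := hy
  have hee : t.eA * t.eA = t.eA := by
    rw [Dat.eA, Algebra.TensorProduct.tmul_mul_tmul, one_mul, t.ee]
  have h1 : rho b t.eA * (rho b y * m) = -(rho b y * m) := by
    have := congrArg (fun z => rho b z * m) hy'
    simp only [map_sub, map_mul, neg_smul, one_smul, map_neg, sub_mul, mul_assoc, hm.1, mul_zero,
      sub_zero, neg_mul] at this
    exact this
  have h2 : rho b y * m = 0 := by
    have h3 : rho b t.eA * (rho b t.eA * (rho b y * m)) = rho b t.eA * (rho b y * m) := by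
      rw [← mul_assoc, ← map_mul, hee]
    rw [h1, mul_neg, h1, neg_neg] at h3
    have h4 : (2 : ℚ) • (rho b y * m) = 0 := by
      rw [two_smul]
      nth_rewrite 1 [h3]
      exact neg_add_cancel _
    exact (smul_eq_zero.1 h4).resolve_left two_ne_zero
  have h3 : t.dl y = t.DA * y - t.sgA y * t.DA := rfl
  rw [h3, map_sub, map_mul, map_mul, sub_mul, mul_assoc, mul_assoc, h2, hm.2.1, mul_zero, mul_zero,
    sub_zero]

theorem sum_X_mul_sum_X (p q : Fin 4 → B) :
    (2 : ℚ) • ((∑ k, X k * C (p k)) * (∑ k, X k * C (q k)) : MM B) =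
      ∑ k, ∑ k', X k * X k' * C (p k * q k' + p k' * q k) := by
  have h : ((∑ k, X k * C (p k)) * (∑ k, X k * C (q k)) : MM B) =
      ∑ k, ∑ k', X k * X k' * C (p k * q k') := by
    rw [Finset.sum_mul_sum]
    refine Finset.sum_congr rfl fun k _ => Finset.sum_congr rfl fun k' _ => ?_
    rw [map_mul, mul_assoc, mul_assoc, ← mul_assoc (C (p k)), ← X_comm, mul_assoc]
  rw [two_smul, h]
  nth_rewrite 2 [Finset.sum_comm]
  simp only [← Finset.sum_add_distrib, map_add, mul_add]
  refine Finset.sum_congr rfl fun k _ => Finset.sum_congr rfl fun k' _ => ?_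
  rw [X_comm k' (X k)]

include b in
theorem isRobust_of_flat
    (hflat : ∀ c : ℕ, ∃ V : Fin 4 → AA W, (∀ j, V j ∈ t.Z0 ∧ V j ∈ Hi W 0) ∧
      (∑ j, Lib.ROB.aa j • V j - Lib.ROB.uu • (1 : AA W) ∈ t.B0) ∧
      ∀ i j, ∃ F ∈ t.Z0, F ∈ Hi W c ∧
        vv i (V j) - vv j (V i) + (V i * V j - V j * V i) - F ∈ t.B0) :
    IsRobust Ver (Forcing aa uu) := by
  let : Module Qᵐᵒᵖ B := Module.compHom B (RingHom.op b.sc)
  have hsm : ∀ (q : Qᵐᵒᵖ) (x : B), q • x = x * b.sc q.unop := fun _ _ => rfl
  have : SMulCommClass B Qᵐᵒᵖ B := ⟨fun x q y => by simp only [hsm, smul_eq_mul, mul_assoc]⟩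
  have : Module.Finite Qᵐᵒᵖ B := by
    obtain ⟨s, hs⟩ := b.fin
    refine ⟨⟨s, eq_top_iff.2 fun x _ => ?_⟩⟩
    obtain ⟨c, hc⟩ := hs x
    rw [hc]
    refine Submodule.sum_mem _ fun z hz => ?_
    exact Submodule.smul_mem _ (MulOpposite.op (c z)) (Submodule.subset_span hz)
  have hE0 : IsCl 0 (rho b t.eA) := by
    rw [rho_eA]
    exact isCl_C _
  have hlin : ∀ p : Fin 4 → B, IsCl 1 (∑ l, X l * C (p l) : MM B) := fun p =>
    IsCl.sum fun l _ => by simpa using (isCl_X l).mul (isCl_C (p l))
  refine isRobust_of_kernel (L := Qᵐᵒᵖ) Module.length_ne_top (rho b t.eA) (rho b t.DA) hE0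
    ?_ ?_ ?_ ?_ ?_ (∑ k, X k * C (b.j (b.r k))) ?_ ?_ aa uu ?_
  · rw [rho_DA]
    exact hlin _
  · rw [rho_eA, ← map_mul, ← map_mul, t.ee]
  · rw [rho_eA, rho_DA, Finset.mul_sum]
    refine Finset.sum_congr rfl fun l _ => ?_
    rw [← mul_assoc, ← X_comm, mul_assoc, ← map_mul, ← map_mul, t.eD]
  · rw [rho_eA, rho_DA, Finset.sum_mul]
    refine Finset.sum_eq_zero fun l _ => ?_
    rw [mul_assoc, ← map_mul, ← map_mul, t.De, map_zero, map_zero, mul_zero]
  · intro e he
    obtain ⟨l, m, rfl⟩ : ∃ l m, e = Finsupp.single l 1 + Finsupp.single m 1 := by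
      obtain ⟨e', he1, he2⟩ := Finsupp.exists_le_degree_eq e 1 (by omega)
      obtain ⟨e'', rfl⟩ := exists_add_of_le he1
      rw [map_add, he2] at he
      obtain ⟨l, rfl⟩ : e' ∈ Set.range fun a : Fin 4 => Finsupp.single a 1 := by
        rw [Finsupp.range_single_one]
        exact he2
      obtain ⟨m, rfl⟩ : e'' ∈ Set.range fun a : Fin 4 => Finsupp.single a 1 := by
        rw [Finsupp.range_single_one]
        change e''.degree = 1
        omega
      exact ⟨l, m, rfl⟩
    obtain ⟨y, -, hy⟩ := t.s2 l m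
    refine ⟨∑ k, X k * C (b.j (y k)), ?_⟩
    refine smul_right_injective (MM B) (two_ne_zero (α := ℚ)) ?_
    simp only
    rw [rho_DA, sum_X_mul_sum_X, rho_eA, ← one_mul (1 : B), ← monomial_mul_monomial, ← X_def,
      ← X_def, two_smul]
    simp only [← map_mul, ← map_add, hy]
    have key : ∀ l m : Fin 4, ∑ k, ∑ k', (X k * X k' : MM B) *
        C (b.j ((if k = l ∧ k' = m then (1 : ℤ) else 0) • t.e)) = X l * X m * C (b.j t.e) := by
      intro l m
      rw [Finset.sum_eq_single l, Finset.sum_eq_single m]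
      · simp
      · intro k _ hk
        simp [hk]
      · simp
      · intro k _ hk
        simp [hk]
      · simp
    simp only [add_smul, map_add, mul_add, Finset.sum_add_distrib, key]
    rw [X_comm m (X l)]
  · refine ⟨?_, ?_, hlin _⟩
    · rw [rho_eA, Finset.mul_sum]
      refine Finset.sum_eq_zero fun l _ => ?_
      rw [← mul_assoc, ← X_comm, mul_assoc, ← map_mul, ← map_mul, b.er, map_zero, map_zero,
        mul_zero]
    · refine smul_right_injective (MM B) (two_ne_zero (α := ℚ)) ?_
      simp only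
      rw [rho_DA, sum_X_mul_sum_X]
      simp only [← map_mul, ← map_add, b.Dr, map_zero, mul_zero, Finset.sum_const_zero, smul_zero]
  · obtain ⟨k, hk⟩ := b.rne
    refine ⟨Finsupp.single k 1, by simp, ?_⟩
    rw [map_sum, Finset.sum_eq_single k]
    · rw [coeff_mul_C, coeff_index_single_self_X, one_mul]
      exact hk
    · intro l _ hl
      rw [coeff_mul_C, coeff_index_single_X, if_neg hl.symm, zero_mul]
    · simp
  · intro c
    obtain ⟨V, hV1, hV2, hV3⟩ := hflat c
    let A : Fin 4 → MM B := fun j => ∑ α, polHom b (vc j α) * C (b.S α)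
    have hvc : ∀ j α (m : MM B), polHom b (vc j α) * m = m * polHom b (vc j α) := by
      intro j α m
      rw [polHom_vc, io_comm]
    have hA : ∀ j x, A j * rho b x = rho b x * A j + rho b (vv j x) := by
      intro j x
      simp only [A, rho_vv, Finset.sum_mul, Finset.mul_sum, ← Finset.sum_add_distrib]
      refine Finset.sum_congr rfl fun α _ => ?_
      rw [mul_assoc, S_rho, mul_add, ← mul_assoc, hvc, mul_assoc]
    have hAA : ∀ i j, A i * A j = A j * A i := by
      intro i j
      simp only [A, Finset.sum_mul_sum]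
      rw [Finset.sum_comm]
      refine Finset.sum_congr rfl fun α _ => Finset.sum_congr rfl fun β _ => ?_
      refine Commute.mul_left (Commute.mul_right (hvc _ _ _) (hvc _ _ _))
        (Commute.mul_right (hvc _ _ _).symm ?_)
      change C (b.S β) * C (b.S α) = C (b.S α) * C (b.S β)
      rw [← map_mul, ← map_mul, b.SS]
    have hAc : ∀ j w, A j * C (b.j w) = C (b.j w) * A j := by
      intro j w
      refine Commute.sum_left _ _ _ fun α _ => Commute.mul_left (hvc _ _ _) (S_cj b α w)
    refine ⟨fun j => A j + rho b (V j), fun j m hm => ⟨?_, ?_, ?_⟩, fun i j m hm e he => ?_,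
      fun m hm e _ => ?_⟩
    · have h1 : rho b t.eA * A j = A j * rho b t.eA := by rw [rho_eA, hAc]
      rw [← mul_assoc, mul_add, h1, ← map_mul, (hV1 j).1.1, map_mul, ← add_mul, mul_assoc, hm.1,
        mul_zero]
    · have h1 : rho b t.DA * A j = A j * rho b t.DA := by
        rw [rho_DA]
        exact Commute.sum_left _ _ _ fun l _ => Commute.mul_left (X_comm _ _) (hAc j _).symm
      rw [← mul_assoc, mul_add, h1, ← map_mul, (hV1 j).1.2, map_mul, ← add_mul, mul_assoc, hm.2.1,
        mul_zero]
    · have h1 : IsCl 0 (A j + rho b (V j)) := by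
        refine IsCl.add (IsCl.sum fun α _ => ?_) fun d hd => rho_Hi b (hV1 j).2 d (Or.inl hd)
        rw [polHom_vc]
        have := (IsCl.map (algebraMap ℚ B) (∑ l, (pc j l α : Ver) * aa l : Ver).2).mul
          (isCl_C (b.S α))
        rw [add_zero] at this
        exact this
      have := h1.mul hm.2.2
      rwa [zero_add] at this
    · obtain ⟨F, -, hF1, hF2⟩ := hV3 i j
      have h1 := rho_B0 b hF2 hm
      have h2 : (A i + rho b (V i)) * (A j + rho b (V j)) - (A j + rho b (V j)) * (A i + rho b (V i))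
          = rho b (vv i (V j) - vv j (V i) + (V i * V j - V j * V i)) := by
        simp only [mul_add, add_mul, hA, hAA i j, map_add, map_sub, map_mul]
        abel
      rw [map_sub, sub_mul, sub_eq_zero] at h1
      rw [h2, h1, coeff_mul]
      refine Finset.sum_eq_zero fun p hp => ?_
      rw [rho_Hi b hF1 p.1 (Or.inr (lt_of_le_of_lt ?_ he)), zero_mul]
      rw [← Finset.HasAntidiagonal.mem_antidiagonal.1 hp, map_add]
      exact Nat.le_add_right _ _
    · have h1 := rho_B0 b hV2 hm
      have h2 : ∑ j, io (aa j : SS) * A j = 0 := by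
        simp only [A, Finset.mul_sum, ← mul_assoc, ← polHom_aa b, ← map_mul]
        rw [Finset.sum_comm]
        refine Finset.sum_eq_zero fun α _ => ?_
        rw [← Finset.sum_mul, ← map_sum, sum_aa_vc, map_zero, zero_mul]
      simp only [map_sub, map_sum, rho_smul, map_one, mul_one, polHom_aa, polHom_uu] at h1
      simp only [mul_add, Finset.sum_add_distrib, h2, zero_add]
      rw [← neg_sub, neg_mul, h1, neg_zero, map_zero]

/-- The counterexample, from approximate flatness and the representation data. -/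
theorem counterexample_of_isRobust (h : IsRobust Ver (Forcing aa uu)) :
    ∃ (R S : Type) (_ : CommRing R) (_ : IsDomain R) (_ : IsNoetherianRing R) (_ : IsLocalRing R)
      (_ : IsAdicComplete (IsLocalRing.maximalIdeal R) R)
      (_ : CommRing S) (_ : IsDomain S) (_ : IsNoetherianRing S) (_ : IsLocalRing S)
      (_ : IsAdicComplete (IsLocalRing.maximalIdeal S) S)
      (φ : R →+* S) (_ : IsLocalHom φ) (I : Ideal R) (r : R),
      r ∈ robustClosure I ∧ φ r ∉ robustClosure (I.map φ) :=
  have : IsDomain SS := NoZeroDivisors.to_isDomain SS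
  ⟨Ver, SS, inferInstance, inferInstance, inferInstance, inferInstance, inferInstance,
    inferInstance, inferInstance, inferInstance, inferInstance, inferInstance,
    algebraMap Ver SS, inferInstance, Ideal.span (Set.range aa), uu,
    uu_mem_of_isRobust h, uu_notMem⟩

end Pool.Agent.ROB.CA
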