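import Mathlib

/-!
Robust closure (Hochster-Zhang): quasilength, Q-sequences, robust algebras, forcing algebras,
immediate robust closure and robust closure of an ideal.
-/

namespace Pool.Agent.Lib.ROB

/-- `M` has a chain of submodules `0 = N 0 ≤ N 1 ≤ ... ≤ N h = M` in which every factor
`N (i+1) / N i` is cyclic (generated by the class of one element) and annihilated by `J`. -/
def HasChain {S : Type} [CommRing S] (J : Ideal S) (M : Type) [AddCommGroup M] [Module S M]
    (h : ℕ) : Prop :=
  ∃ N : ℕ → Submodule S M, N 0 = ⊥ ∧ N h = ⊤ ∧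
    ∀ i < h, (∃ m : M, N (i + 1) = N i ⊔ Submodule.span S {m}) ∧ J • N (i + 1) ≤ N i

/-- The quasilength of `M` with respect to `J`: the least length of such a chain, `⊤` if there
is none. -/
noncomputable def quasilength {S : Type} [CommRing S] (J : Ideal S) (M : Type) [AddCommGroup M]
    [Module S M] : ℕ∞ :=
  sInf ((fun h : ℕ => (h : ℕ∞)) '' {h : ℕ | HasChain J M h})

/-- `x 0, ..., x (d-1)` is a Q-sequence on `S`. -/
def IsQSeq {S : Type} [CommRing S] {d : ℕ} (x : Fin d → S) : Prop :=
  ∀ t : ℕ, 1 ≤ t → ((t ^ d : ℕ) : ℕ∞) ≤
    quasilength (Ideal.span (Set.range x)) (S ⧸ Ideal.span (Set.range fun i => x i ^ t))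

/-- A system of parameters of a local ring: `dim R` elements generating an ideal whose radical
is the maximal ideal. -/
def IsSOP {R : Type} [CommRing R] [IsLocalRing R] {d : ℕ} (x : Fin d → R) : Prop :=
  ringKrullDim R = d ∧ (Ideal.span (Set.range x)).radical = IsLocalRing.maximalIdeal R

/-- The `R`-algebra `T` is robust: the image of every system of parameters of `R` is a
Q-sequence on `T`. -/
def IsRobust (R : Type) [CommRing R] [IsLocalRing R] (T : Type) [CommRing T] [Algebra R T] :
    Prop :=
  ∀ (d : ℕ) (x : Fin d → R), IsSOP x → IsQSeq fun i => algebraMap R T (x i)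

/-- The forcing algebra `R[Z_1, ..., Z_n] / (u - ∑ g_i Z_i)`. -/
abbrev Forcing {R : Type} [CommRing R] {n : ℕ} (g : Fin n → R) (u : R) : Type :=
  MvPolynomial (Fin n) R ⧸
    Ideal.span {MvPolynomial.C u - ∑ i, MvPolynomial.C (g i) * MvPolynomial.X i}

/-- The immediate robust closure: the ideal generated by `I` and all `u` whose forcing algebra
(for a finite generating family of `I`) is robust over `R`. -/
def immediateClosure {R : Type} [CommRing R] [IsLocalRing R] (I : Ideal R) : Ideal R :=
  I ⊔ Ideal.span {u : R | ∃ (n : ℕ) (g : Fin n → R),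
    Ideal.span (Set.range g) = I ∧ IsRobust R (Forcing g u)}

/-- The robust closure: the union of the ascending chain of iterated immediate closures. -/
def robustClosure {R : Type} [CommRing R] [IsLocalRing R] (I : Ideal R) : Ideal R :=
  ⨆ j : ℕ, immediateClosure^[j] I

/-- A complete local domain: a Noetherian local domain, complete for its maximal ideal. -/
def IsCompleteLocalDomain (R : Type) [CommRing R] [IsLocalRing R] : Prop :=
  IsDomain R ∧ IsNoetherianRing R ∧ IsAdicComplete (IsLocalRing.maximalIdeal R) R

end Pool.Agent.Lib.ROB
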