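import Pool.Agent.Lib.ROB.H2a
import Pool.Agent.Lib.ROB.Blue

/-!
Vanishing of the obstruction group.
-/

set_option maxSynthPendingDepth 3

open MvPolynomial
open scoped TensorProduct

namespace Pool.Agent.Lib.ROB

namespace H2

variable {W : Type} [Ring W] [Algebra ℚ W] (t : Dat W)

theorem mem_Tot {n : ℕ} {k e : ℤ} {f : Idx → AA W} : f ∈ t.Tot n k e ↔
    ∀ q, f q ∈ t.Wd (k - cd q) ∧ f q ∈ Hom W (wd n (e + (k - cd q)) q) := Iff.rfl

theorem mem_LL {n : ℕ} {k e : ℤ} {f : Idx → AA W} : f ∈ LL W n k e ↔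
    ∀ q, f q ∈ Hom W (wd n e q) ∧ (cd q ≠ k → f q = 0) := Iff.rfl

theorem wd_add (n : ℕ) (e δ : ℤ) (q : Idx) : wd n (e + δ) q = wd n e q + (δ, 0, 0) := by
  rcases q with q | b
  · ext <;> simp [wd, wdF]; ring
  · cases b
    · ext <;> simp [wd]
    · ext <;> simp [wd]; ring

theorem tot_of {n : ℕ} {k e s : ℤ} {f : Idx → AA W} (h : f ∈ LL W n (k - s) (e + s))
    (hw : ∀ q, f q ∈ t.Wd s) : f ∈ t.Tot n k e := fun q => by
  by_cases hq : cd q = k - s
  · have : k - cd q = s := by omega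
    rw [this]
    exact ⟨hw q, (h q).1⟩
  · rw [(h q).2 hq]
    exact ⟨zero_mem _, zero_mem _⟩

theorem tot_ind {n : ℕ} {k e : ℤ} {p : (Idx → AA W) → Prop}
    (add : ∀ f g, p f → p g → p (f + g))
    (one : ∀ s f, f ∈ LL W n (k - s) (e + s) → (∀ q, f q ∈ t.Wd s) → p f)
    {f : Idx → AA W} (hf : f ∈ t.Tot n k e) : p f := by
  let g : ℤ → Idx → AA W := fun s q => if cd q = k - s then f q else 0
  have hg : ∀ s, p (g s) := fun s => by
    refine one s _ (fun q => ?_) fun q => ?_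
    · by_cases hq : cd q = k - s
      · have h1 : k - cd q = s := by omega
        have h2 := (hf q).2
        rw [h1] at h2
        exact ⟨by simpa only [g, if_pos hq] using h2, fun h => absurd hq h⟩
      · exact ⟨by simp only [g, if_neg hq]; exact zero_mem _, fun _ => if_neg hq⟩
    · by_cases hq : cd q = k - s
      · have h1 : k - cd q = s := by omega
        have h2 := (hf q).1
        rw [h1] at h2
        simpa only [g, if_pos hq] using h2
      · simp only [g, if_neg hq]; exact zero_mem _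
  have : f = g (-1) + g 0 + g 1 := by
    funext q
    simp only [g, Pi.add_apply]
    split_ifs with h1 h2 h3 h4 h5 h6 h7
    all_goals first
      | omega
      | (simp; done)
      | (rw [t.eq_zero_of_mem_Wd (by omega) (by omega) (by omega) (hf q).1]; simp)
  rw [this]
  exact add _ _ (add _ _ (hg _) (hg _)) (hg _)

theorem comm_apply {Θ : Module.End ℚ (AA W)} {h : Module.End ℚ (Idx → AA W)}
    (H : pw Idx Θ * h = h * pw Idx Θ) (f : Idx → AA W) : pw Idx Θ (h f) = h (pw Idx Θ f) :=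
  LinearMap.congr_fun H f

theorem wd_pres {h : Module.End ℚ (Idx → AA W)}
    (H : ∀ Θ : Module.End ℚ (AA W), Comm Θ → pw Idx Θ * h = h * pw Idx Θ) {s : ℤ}
    {f : Idx → AA W} (hf : ∀ q, f q ∈ t.Wd s) (q : Idx) : h f q ∈ t.Wd s := by
  have h1 := comm_apply (H _ (t.comm_eA_left.sub t.comm_eA_right)) f
  have h2 : pw Idx (LinearMap.mulLeft ℚ t.eA - LinearMap.mulRight ℚ t.eA) f = s • f :=
    funext fun q => hf q
  rw [h2, map_zsmul] at h1
  exact congrFun h1 q

theorem sg_LL {n : ℕ} {k e : ℤ} {f : Idx → AA W} (h : f ∈ LL W n k e) :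
    pw Idx t.sgA f ∈ LL W n k e := fun q =>
  ⟨t.sgA_mem_Hom (h q).1, fun hq => by rw [pw_apply, (h q).2 hq, map_zero]⟩

theorem comm_xp (j : Fin 4) (N : ℕ) : Comm (mm (W := W) (xx j ^ N)) := by
  induction N with
  | zero =>
    have : mm (W := W) (xx j ^ 0) = 1 := LinearMap.ext fun x => by simp
    rw [this]; exact comm_one
  | succ N ih => rw [pow_succ, mm_mul]; exact ih.mul (comm_xx j)

theorem pw_mm (g : Pol) (f : Idx → AA W) : pw Idx (mm g) f = g • f :=
  funext fun q => mm_apply g (f q)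

theorem x_pres {h : Module.End ℚ (Idx → AA W)}
    (H : ∀ Θ : Module.End ℚ (AA W), Comm Θ → pw Idx Θ * h = h * pw Idx Θ) (j : Fin 4) (N : ℕ)
    (f : Idx → AA W) : h (xx j ^ N • f) = xx j ^ N • h f := by
  rw [← pw_mm, ← pw_mm, comm_apply (H _ (comm_xp j N))]

theorem pw_x {Θ : Module.End ℚ (AA W)} (h : Comm Θ) (g : Pol) (f : Idx → AA W) :
    pw Idx Θ (g • f) = g • pw Idx Θ f := funext fun q => h.smul_apply g (f q)

theorem DD_apply (f : Idx → AA W) : t.DD f = pw Idx t.sgA (dd f) + pw Idx t.dl f := rfl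

theorem sg_sg (f : Idx → AA W) : pw Idx t.sgA (pw Idx t.sgA f) = f :=
  funext fun q => t.sgA_sgA (f q)

theorem sg_dl (f : Idx → AA W) :
    pw Idx t.sgA (pw Idx t.dl f) = -pw Idx t.dl (pw Idx t.sgA f) :=
  funext fun q => t.sgA_dl (f q)

theorem dl_dl (f : Idx → AA W) : pw Idx t.dl (pw Idx t.dl f) = 0 :=
  funext fun q => t.dl_dl (f q)

theorem DD_DD (hq : St_DSQ) (f : Idx → AA W) : t.DD (t.DD f) = 0 := by
  obtain ⟨h1, -, h3⟩ := hq W
  have h4 : dd (dd f) = 0 := LinearMap.congr_fun h1 f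
  rw [DD_apply, DD_apply, map_add, map_add, map_add, ← comm_apply (h3 _ t.comm_sgA),
    ← comm_apply (h3 _ t.comm_dl), h4, map_zero, map_zero, sg_dl, dl_dl]
  abel

theorem DD_mem (hq : St_DSQ) {n : ℕ} (k e : ℤ) (f : Idx → AA W) (hf : f ∈ t.Tot n k e) :
    t.DD f ∈ t.Tot n (k + 1) e := by
  obtain ⟨-, h2, h3⟩ := hq W
  refine tot_ind t (p := fun f => t.DD f ∈ t.Tot n (k + 1) e)
    (fun f g hf hg => by rw [map_add]; exact add_mem hf hg) (fun s f hL hw => ?_) hf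
  rw [DD_apply]
  refine add_mem (tot_of t (s := s) ?_ fun q => t.sgA_mem_Wd (wd_pres t h3 hw q))
    (tot_of t (s := s + 1) (fun q => ⟨?_, fun hq => ?_⟩) fun q => t.dl_mem_Wd (hw q))
  · have := sg_LL t (h2 n _ _ f hL)
    rwa [show k - s + 1 = k + 1 - s by ring] at this
  · rw [← add_assoc, wd_add]
    exact t.dl_mem_Hom (hL q).1
  · rw [pw_apply, (hL q).2 (by omega), map_zero]

theorem split_s1 {d : Dg} {x : AA W} (hx : x ∈ Hom W d) (hw : x ∈ t.Wd 0) :
    ∃ z : Fin 4 → AA W, (∀ l, z l ∈ Hom W d ∧ z l ∈ t.Wd (-1)) ∧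
      ∑ l, ((1 : Pol) ⊗ₜ[ℚ] t.D l * z l + z l * (1 : Pol) ⊗ₜ[ℚ] t.D l) = x := by
  have key : ∃ z : Fin 4 → AA W, (∀ l, z l ∈ Hom W d ∧ z l ∈ t.Wd (-1)) ∧
      ∑ l, ((1 : Pol) ⊗ₜ[ℚ] t.D l * z l + z l * (1 : Pol) ⊗ₜ[ℚ] t.D l) =
        t.eA * x * t.eA + (1 - t.eA) * x * (1 - t.eA) := by
    refine Hom_induction' (p := fun x => ∃ z : Fin 4 → AA W,
      (∀ l, z l ∈ Hom W d ∧ z l ∈ t.Wd (-1)) ∧
      ∑ l, ((1 : Pol) ⊗ₜ[ℚ] t.D l * z l + z l * (1 : Pol) ⊗ₜ[ℚ] t.D l) =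
        t.eA * x * t.eA + (1 - t.eA) * x * (1 - t.eA))
      ⟨0, fun l => ⟨zero_mem _, zero_mem _⟩, by simp⟩ ?_ ?_ hx
    · rintro x y ⟨z, hz, h⟩ ⟨z', hz', h'⟩
      refine ⟨z + z', fun l => ⟨add_mem (hz l).1 (hz' l).1, add_mem (hz l).2 (hz' l).2⟩, ?_⟩
      have : ∀ l, (1 : Pol) ⊗ₜ[ℚ] t.D l * (z + z') l + (z + z') l * (1 : Pol) ⊗ₜ[ℚ] t.D l =
          ((1 : Pol) ⊗ₜ[ℚ] t.D l * z l + z l * (1 : Pol) ⊗ₜ[ℚ] t.D l) +
            ((1 : Pol) ⊗ₜ[ℚ] t.D l * z' l + z' l * (1 : Pol) ⊗ₜ[ℚ] t.D l) := fun l => by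
        rw [Pi.add_apply, mul_add, add_mul]; abel
      simp only [this]
      rw [Finset.sum_add_distrib, h, h']
      noncomm_ring
    · intro f r hf
      obtain ⟨z, hz, h⟩ := t.s1 (t.e * r * t.e + (1 - t.e) * r * (1 - t.e)) (by
        have h1 : t.e * (1 - t.e) = 0 := by rw [mul_sub, mul_one, t.ee, sub_self]
        have h2 : (1 - t.e) * t.e = 0 := by rw [sub_mul, one_mul, t.ee, sub_self]
        have h3 : t.e * (t.e * r * t.e + (1 - t.e) * r * (1 - t.e)) =
            t.e * t.e * r * t.e + t.e * (1 - t.e) * r * (1 - t.e) := by noncomm_ring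
        have h4 : (t.e * r * t.e + (1 - t.e) * r * (1 - t.e)) * t.e =
            t.e * r * (t.e * t.e) + (1 - t.e) * r * ((1 - t.e) * t.e) := by noncomm_ring
        rw [h3, h4, h1, h2, t.ee]
        simp)
      refine ⟨fun l => f ⊗ₜ[ℚ] z l, fun l => ⟨tmul_mem_Hom hf _, t.mem_Wd_neg_one.2 ⟨?_, ?_⟩⟩, ?_⟩
      · simp [Dat.eA, Algebra.TensorProduct.tmul_mul_tmul, (hz l).1]
      · simp [Dat.eA, Algebra.TensorProduct.tmul_mul_tmul, (hz l).2]
      · have h1 : (1 : AA W) - t.eA = (1 : Pol) ⊗ₜ[ℚ] (1 - t.e) := by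
          rw [TensorProduct.tmul_sub]; rfl
        rw [h1]
        simp only [Dat.eA, Algebra.TensorProduct.tmul_mul_tmul, one_mul, mul_one,
          ← TensorProduct.tmul_add, ← TensorProduct.tmul_sum, h]
  obtain ⟨z, hz, h⟩ := key
  refine ⟨z, hz, h.trans ?_⟩
  have h1 := t.mem_Wd_zero.1 hw
  have h2 : t.eA * x * t.eA = x * t.eA := by rw [h1, mul_assoc, t.eA_eA]
  have h3 : t.eA * x * t.eA + (1 - t.eA) * x * (1 - t.eA) =
      x - t.eA * x - x * t.eA + t.eA * x * t.eA + t.eA * x * t.eA := by noncomm_ring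
  rw [h3, h2, h1]
  abel

theorem exists_top {M : ℕ} {d : Dg} (hd : d.1 = 4 * ((M + 1 : ℕ) : ℤ)) {x : AA W}
    (hx : x ∈ Hom W d) (hw : x ∈ t.Wd 0) : ∃ y ∈ t.Wd (-1), y ∈ Hom W (d - (1, 0, 0)) ∧
      rT (pk (M + 1 + 1) Finset.univ) (x - t.dl y) = 0 := by
  obtain ⟨z, hz, h⟩ := split_s1 t (dv_mem (soc (M + 1)) hx) (t.rT_mem_Wd _ hw)
  let μ : Fin 4 → Var →₀ ℕ := fun l => soc (M + 1) - Finsupp.single (Sum.inl l) 1
  have hμ : ∀ l, Finsupp.single (Sum.inl l) 1 + μ l = soc (M + 1) := fun l =>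
    add_tsub_cancel_of_le (Finsupp.single_le_iff.2 (by rw [soc_inl]; omega))
  have hy : ∑ l, (monomial (μ l) 1 : Pol) • z l ∈ t.Wd (-1) :=
    Submodule.sum_mem _ fun l _ => t.smul_mem_Wd _ (hz l).2
  refine ⟨_, hy, Submodule.sum_mem _ fun l _ => ?_, ?_⟩
  · refine Hom_congr (smul_mem_Hom (isWeightedHomogeneous_monomial _ _ _ rfl) (hz l).1) ?_
    have := congrArg (Finsupp.weight wt) (hμ l)
    rw [map_add, weight_single] at this
    rw [← this]
    ext <;> simp <;> ring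
  · have h1 := pk_top hd hx
    rw [← h] at h1
    have h2 : t.dl (∑ l, (monomial (μ l) 1 : Pol) • z l) = ∑ l, ∑ m,
        (monomial (Finsupp.single (Sum.inl m) 1 + μ l) 1 : Pol) •
          ((1 : Pol) ⊗ₜ[ℚ] t.D m * z l + z l * (1 : Pol) ⊗ₜ[ℚ] t.D m) := by
      rw [map_sum]
      refine Finset.sum_congr rfl fun l _ => ?_
      rw [t.dl_smul, t.dl_of_neg_one (hz l).2, Dat.DA, Finset.sum_mul, Finset.mul_sum,
        ← Finset.sum_add_distrib, Finset.smul_sum]
      refine Finset.sum_congr rfl fun m _ => ?_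
      have : (xx m ⊗ₜ[ℚ] t.D m : AA W) = xx m • (1 : Pol) ⊗ₜ[ℚ] t.D m := by
        rw [smul_tmul_pol, mul_one]
      rw [this, pol_smul_mul, mul_pol_smul, ← smul_add, smul_smul, ← pow_one (xx m), xx_pow,
        monomial_mul, one_mul, add_comm]
    rw [map_sub] at h1 ⊢
    rw [sub_eq_zero.1 h1, h2, Finset.smul_sum, map_sum, map_sum, sub_eq_zero]
    refine Finset.sum_congr rfl fun l _ => ?_
    rw [map_sum, Finset.sum_eq_single l, hμ]
    · intro m _ hm
      refine pk_smul_mon ⟨m, Finset.mem_univ _, ?_⟩ _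
      have : (Sum.inl m : Var) ≠ Sum.inl l := fun h => hm (Sum.inl.inj h)
      simp only [μ, Finsupp.add_apply, Finsupp.tsub_apply, soc_inl, Finsupp.single_eq_same,
        Finsupp.single_eq_of_ne this]
      omega
    · simp

theorem base {n : ℕ} (hn : 1 ≤ n) :
    Van (4 * n) (t.Tot n) t.DD Finset.univ (-2) (16 * n) := by
  intro c hc _
  obtain ⟨M, hM⟩ : ∃ M, 4 * n = M + 1 + 1 := ⟨4 * n - 2, by omega⟩
  have h1 := hc (Sum.inr true)
  obtain ⟨y, hw, hh, hy⟩ := exists_top t (M := M) (by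
    simp only [wd, cd]; push_cast; omega) h1.2 (by simpa [cd] using h1.1)
  refine ⟨Pi.single (Sum.inr true) y, fun q => ?_, mem_II.2 fun q => ?_⟩
  · by_cases hq : q = Sum.inr true
    · subst hq
      rw [Pi.single_eq_same]
      refine ⟨by simpa [cd] using hw, Hom_congr hh ?_⟩
      ext <;> simp [wd, cd]; ring
    · rw [Pi.single_eq_of_ne hq]
      exact ⟨zero_mem _, zero_mem _⟩
  · rw [hM, Pi.sub_apply, DD_apply, Pi.add_apply, pw_apply, pw_apply]
    rcases q with q | b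
    · have h2 : c (Sum.inl q) = 0 := by
        refine t.eq_zero_of_mem_Wd ?_ ?_ ?_ (hc _).1 <;> simp only [cd, cdF] <;> omega
      have h3 : (Pi.single (Sum.inr true) y : Idx → AA W) ∘ Sum.inl = 0 := by
        funext q; simp
      simp [h2, dd, h3]
    · cases b
      · have h2 := (hc (Sum.inr false)).2
        refine pk_high (d := (16 * n - 1, 0, n)) (by push_cast; omega) (sub_mem ?_ ?_)
        · refine Hom_congr h2 ?_
          ext <;> simp [wd, cd]; ring
        · simp only [dd, LinearMap.coe_mk, AddHom.coe_mk, Sum.elim_inr, Pi.single_eq_same,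
            mm_apply, ne_eq, Sum.inr.injEq, Bool.false_eq_true, not_false_eq_true,
            Pi.single_eq_of_ne, map_zero, add_zero, if_false]
          refine t.sgA_mem_Hom (Hom_congr (smul_mem_Hom hom_ell hh) ?_)
          ext <;> simp [wd, cd]; ring
      · simpa [dd] using hy

theorem step (hq : St_DSQ) (hh : St_HOM) {n : ℕ} (hn : 1 ≤ n) {s : Finset (Fin 4)} {i : Fin 4}
    (hi : i ∉ s) {k e : ℤ}
    (h : Van (4 * n) (t.Tot n) t.DD (insert i s) (k - 1) (e + (4 * n : ℕ))) :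
    Van (4 * n) (t.Tot n) t.DD s k e := by
  obtain ⟨H, h1, h2, h3⟩ := hh W n i hn
  have h4 := (hq W).2.2
  refine van_step (H := pw Idx t.sgA * H) hi (DD_DD t hq) (DD_mem t hq) (fun j c => ?_)
    (fun j c => ?_) (fun k e c hc => ?_) (fun k e c hc => ?_) (fun k e c hc q => ?_) h
  · rw [DD_apply, DD_apply, x_pres h4, pw_x t.comm_sgA, pw_x t.comm_dl, smul_add]
  · rw [Module.End.mul_apply, Module.End.mul_apply, x_pres h3, pw_x t.comm_sgA]
  · refine tot_ind t (p := fun c => (pw Idx t.sgA * H) c ∈ t.Tot n (k - 1) (e + (4 * n : ℕ)))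
      (fun f g hf hg => by rw [map_add]; exact add_mem hf hg) (fun s f hL hw => ?_) hc
    refine tot_of t (s := s) ?_ fun q => t.sgA_mem_Wd (wd_pres t h3 hw q)
    have := sg_LL t (h1 _ _ f hL)
    rwa [show k - s - 1 = k - 1 - s by ring,
      show e + s + 4 * (n : ℤ) = e + (4 * n : ℕ) + s by push_cast; ring] at this
  · refine tot_ind t (p := fun c => t.DD ((pw Idx t.sgA * H) c) + (pw Idx t.sgA * H) (t.DD c) =
      xx i ^ (4 * n) • c) (fun f g hf hg => by
        rw [smul_add, ← hf, ← hg]; simp only [map_add]; abel) (fun s f hL _ => ?_) hc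
    have := h2 _ _ f hL
    rw [pw_mm, aa, ← pow_mul] at this
    rw [← this, Module.End.mul_apply, Module.End.mul_apply, DD_apply, DD_apply, map_add,
      map_add, ← comm_apply (h4 _ t.comm_sgA), sg_sg, ← comm_apply (h3 _ t.comm_sgA), sg_sg,
      ← comm_apply (h3 _ t.comm_dl), sg_dl]
    abel
  · refine ⟨t.rT_mem_Wd _ (hc q).1, Hom_congr (dv_mem _ (hc q).2) ?_⟩
    rw [weight_single, add_right_comm, wd_add, add_sub_cancel_right]

end H2

theorem stVAN (hq : St_DSQ) (hh : St_HOM) : St_VAN := by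
  intro W _ _ t n hn c hc hD
  have h4 := H2.base t hn
  have e4 : (Finset.univ : Finset (Fin 4)) = insert 3 (insert 2 (insert 1 (insert 0 ∅))) := by
    decide
  rw [e4] at h4
  have h0 : H2.Van (4 * n) (t.Tot n) t.DD ∅ 2 0 := by
    refine H2.step t hq hh hn (i := 0) (by decide) (H2.step t hq hh hn (i := 1) (by decide)
      (H2.step t hq hh hn (i := 2) (by decide) (H2.step t hq hh hn (i := 3) (by decide) ?_)))
    convert h4 using 1 <;> push_cast <;> ring
  obtain ⟨w, hw, h⟩ := h0 c hc (by rw [hD]; exact zero_mem _)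
  exact ⟨w, by simpa using hw, (sub_eq_zero.1 (H2.II_empty h)).symm⟩

end Pool.Agent.Lib.ROB
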