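import Pool.Agent.Lib.ROB.Basic

/-!
Monomial projections, graded regularity of the powers of the variables, abstract descent.
-/

open MvPolynomial
open scoped TensorProduct

namespace Pool.Agent.Lib.ROB.H2

variable {W : Type} [Ring W] [Algebra ℚ W]

/-- linear map defined on monomials -/
noncomputable def onM (g : (Var →₀ ℕ) → Pol) : Pol →ₗ[ℚ] Pol := (basisMonomials Var ℚ).constr ℚ g

theorem onM_mon (g : (Var →₀ ℕ) → Pol) (m : Var →₀ ℕ) : onM g (monomial m 1) = g m := by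
  have := (basisMonomials Var ℚ).constr_basis ℚ g m
  simpa [onM, coe_basisMonomials] using this

theorem pol_ext {F G : Pol →ₗ[ℚ] Pol} (h : ∀ m, F (monomial m 1) = G (monomial m 1)) : F = G :=
  (basisMonomials Var ℚ).ext fun m => by simpa [coe_basisMonomials] using h m

open Classical in
/-- kills the monomials divisible by some `x i ^ N`, `i ∈ s` -/
noncomputable def pk (N : ℕ) (s : Finset (Fin 4)) : Pol →ₗ[ℚ] Pol :=
  onM fun m => if ∃ i ∈ s, N ≤ m (Sum.inl i) then 0 else monomial m 1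

open Classical in
/-- division by a monomial -/
noncomputable def dv (μ : Var →₀ ℕ) : Pol →ₗ[ℚ] Pol :=
  onM fun m => if μ ≤ m then monomial (m - μ) 1 else 0

theorem xx_pow (i : Fin 4) (N : ℕ) : xx i ^ N = monomial (Finsupp.single (Sum.inl i) N) 1 := by
  rw [xx, X_pow_eq_monomial]

theorem pk_mon_pos {N : ℕ} {s : Finset (Fin 4)} {m : Var →₀ ℕ} (h : ∃ i ∈ s, N ≤ m (Sum.inl i)) :
    pk N s (monomial m 1) = 0 := by
  rw [pk, onM_mon, if_pos h]

theorem pk_mon_neg {N : ℕ} {s : Finset (Fin 4)} {m : Var →₀ ℕ}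
    (h : ¬ ∃ i ∈ s, N ≤ m (Sum.inl i)) : pk N s (monomial m 1) = monomial m 1 := by
  rw [pk, onM_mon, if_neg h]

theorem pk_empty (N : ℕ) : pk N ∅ = LinearMap.id :=
  pol_ext fun m => by rw [pk_mon_neg (by simp)]; rfl

theorem pk_mul_mon {N : ℕ} {s : Finset (Fin 4)} {μ : Var →₀ ℕ} (h : ∃ i ∈ s, N ≤ μ (Sum.inl i)) :
    pk N s ∘ₗ LinearMap.mulLeft ℚ (monomial μ 1 : Pol) = 0 :=
  pol_ext fun m => by
    obtain ⟨i, hi, h⟩ := h
    rw [LinearMap.comp_apply, LinearMap.mulLeft_apply, monomial_mul, one_mul,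
      pk_mon_pos ⟨i, hi, by simp only [Finsupp.add_apply]; omega⟩]
    rfl

theorem pk_mul_out {N : ℕ} {s : Finset (Fin 4)} {i : Fin 4} (hi : i ∉ s) :
    pk N s ∘ₗ LinearMap.mulLeft ℚ (xx i ^ N) = LinearMap.mulLeft ℚ (xx i ^ N) ∘ₗ pk N s :=
  pol_ext fun m => by
    have key : (∃ j ∈ s, N ≤ (Finsupp.single (Sum.inl i : Var) N + m) (Sum.inl j)) ↔
        ∃ j ∈ s, N ≤ m (Sum.inl j) := by
      refine exists_congr fun j => and_congr_right fun hj => ?_
      have : (Sum.inl j : Var) ≠ Sum.inl i := fun h => hi (Sum.inl.inj h ▸ hj)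
      rw [Finsupp.add_apply, Finsupp.single_eq_of_ne this, zero_add]
    simp only [LinearMap.comp_apply, LinearMap.mulLeft_apply, xx_pow, monomial_mul, one_mul]
    by_cases h : ∃ j ∈ s, N ≤ m (Sum.inl j)
    · rw [pk_mon_pos h, pk_mon_pos (key.2 h), mul_zero]
    · rw [pk_mon_neg h, pk_mon_neg (mt key.1 h), monomial_mul, one_mul]

theorem pk_insert (N : ℕ) (s : Finset (Fin 4)) (i : Fin 4) :
    pk N (insert i s) = pk N s ∘ₗ pk N {i} :=
  pol_ext fun m => by
    rw [LinearMap.comp_apply]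
    by_cases h : N ≤ m (Sum.inl i)
    · rw [pk_mon_pos ⟨i, Finset.mem_insert_self _ _, h⟩, pk_mon_pos ⟨i, by simp, h⟩, map_zero]
    · rw [pk_mon_neg (s := {i}) (by simpa using h)]
      by_cases h' : ∃ j ∈ s, N ≤ m (Sum.inl j)
      · obtain ⟨j, hj, h'⟩ := h'
        rw [pk_mon_pos ⟨j, Finset.mem_insert_of_mem hj, h'⟩, pk_mon_pos ⟨j, hj, h'⟩]
      · rw [pk_mon_neg h', pk_mon_neg]
        rintro ⟨j, hj, hN⟩
        rcases Finset.mem_insert.1 hj with rfl | hj
        · exact h hN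
        · exact h' ⟨j, hj, hN⟩

theorem pk_insert' (N : ℕ) (s : Finset (Fin 4)) (i : Fin 4) :
    pk N (insert i s) = pk N {i} ∘ₗ pk N s :=
  pol_ext fun m => by
    rw [LinearMap.comp_apply]
    by_cases h' : ∃ j ∈ s, N ≤ m (Sum.inl j)
    · obtain ⟨j, hj, h'⟩ := h'
      rw [pk_mon_pos ⟨j, Finset.mem_insert_of_mem hj, h'⟩, pk_mon_pos ⟨j, hj, h'⟩, map_zero]
    · rw [pk_mon_neg h']
      by_cases h : N ≤ m (Sum.inl i)
      · rw [pk_mon_pos ⟨i, Finset.mem_insert_self _ _, h⟩, pk_mon_pos ⟨i, by simp, h⟩]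
      · rw [pk_mon_neg (s := {i}) (by simpa using h), pk_mon_neg]
        rintro ⟨j, hj, hN⟩
        rcases Finset.mem_insert.1 hj with rfl | hj
        · exact h hN
        · exact h' ⟨j, hj, hN⟩

theorem pk_single (N : ℕ) (i : Fin 4) : pk N {i} =
    LinearMap.id - LinearMap.mulLeft ℚ (xx i ^ N) ∘ₗ dv (Finsupp.single (Sum.inl i) N) :=
  pol_ext fun m => by
    simp only [LinearMap.sub_apply, LinearMap.id_apply, LinearMap.comp_apply,
      LinearMap.mulLeft_apply, dv, onM_mon, xx_pow]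
    by_cases h : N ≤ m (Sum.inl i)
    · have h' : Finsupp.single (Sum.inl i : Var) N ≤ m := Finsupp.single_le_iff.2 h
      rw [pk_mon_pos ⟨i, by simp, h⟩, if_pos h', monomial_mul, one_mul, add_tsub_cancel_of_le h',
        sub_self]
    · rw [pk_mon_neg (by simpa using h), if_neg (fun h' => h (Finsupp.single_le_iff.1 h')),
        mul_zero, sub_zero]

theorem dv_mem (μ : Var →₀ ℕ) {d : Dg} {x : AA W} (hx : x ∈ Hom W d) :
    rT (dv μ) x ∈ Hom W (d - Finsupp.weight wt μ) := by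
  refine Hom_induction (p := fun x => rT (dv μ) x ∈ Hom W (d - Finsupp.weight wt μ)) (by simp)
    (fun x y hx hy => by rw [map_add]; exact add_mem hx hy) (fun m r hm => ?_) hx
  rw [rT_tmul, dv, onM_mon]
  split_ifs with h
  · refine tmul_mem_Hom (isWeightedHomogeneous_monomial _ _ _ ?_) r
    rw [← hm, eq_sub_iff_add_eq, ← map_add, tsub_add_cancel_of_le h]
  · simp

theorem weight_single (i : Fin 4) (N : ℕ) :
    Finsupp.weight wt (Finsupp.single (Sum.inl i : Var) N) = ((N : ℤ), 0, 0) := by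
  rw [Finsupp.weight_single]
  ext <;> simp [wt]

theorem split (N : ℕ) (i : Fin 4) (x : AA W) :
    x = xx i ^ N • rT (dv (Finsupp.single (Sum.inl i) N)) x + rT (pk N {i}) x := by
  rw [pk_single, rT_sub, rT_id, LinearMap.sub_apply, ← rT_rT]
  change x = _ + (x - mm (xx i ^ N) _)
  rw [mm_apply]
  abel

theorem pk_smul_mon {N : ℕ} {s : Finset (Fin 4)} {μ : Var →₀ ℕ}
    (h : ∃ i ∈ s, N ≤ μ (Sum.inl i)) (x : AA W) : rT (pk N s) ((monomial μ 1 : Pol) • x) = 0 := by
  rw [← mm_apply, mm, rT_rT, pk_mul_mon h, rT_zero]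
  rfl

theorem pk_smul_in {N : ℕ} {s : Finset (Fin 4)} {i : Fin 4} (hi : i ∈ s) (x : AA W) :
    rT (pk N s) (xx i ^ N • x) = 0 := by
  rw [xx_pow]
  exact pk_smul_mon ⟨i, hi, by simp⟩ x

theorem pk_smul_out {N : ℕ} {s : Finset (Fin 4)} {i : Fin 4} (hi : i ∉ s) (x : AA W) :
    rT (pk N s) (xx i ^ N • x) = xx i ^ N • rT (pk N s) x := by
  rw [← mm_apply, ← mm_apply, mm, rT_rT, rT_rT, pk_mul_out hi]

/-- all components lie in the ideal generated by the `x i ^ N`, `i ∈ s` -/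
noncomputable def II (W : Type) [Ring W] [Algebra ℚ W] (ι : Type) (N : ℕ) (s : Finset (Fin 4)) :
    Submodule ℚ (ι → AA W) := LinearMap.ker (pw ι (rT (pk N s)))

theorem mem_II {ι : Type} {N : ℕ} {s : Finset (Fin 4)} {c : ι → AA W} :
    c ∈ II W ι N s ↔ ∀ q, rT (pk N s) (c q) = 0 := by
  rw [II, LinearMap.mem_ker, funext_iff]
  rfl

theorem II_empty {ι : Type} {N : ℕ} {c : ι → AA W} (h : c ∈ II W ι N ∅) : c = 0 := by
  funext q
  have := mem_II.1 h q
  rwa [pk_empty, rT_id] at this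

theorem II_mono {ι : Type} {N : ℕ} {s : Finset (Fin 4)} (i : Fin 4) {c : ι → AA W}
    (h : c ∈ II W ι N s) : c ∈ II W ι N (insert i s) :=
  mem_II.2 fun q => by rw [pk_insert', ← rT_rT, mem_II.1 h q, map_zero]

theorem II_in {ι : Type} {N : ℕ} {s : Finset (Fin 4)} {i : Fin 4} (hi : i ∈ s) (c : ι → AA W) :
    xx i ^ N • c ∈ II W ι N s := mem_II.2 fun q => pk_smul_in hi (c q)

theorem II_reg {ι : Type} {N : ℕ} {s : Finset (Fin 4)} {i : Fin 4} (hi : i ∉ s) {c : ι → AA W}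
    (h : xx i ^ N • c ∈ II W ι N s) : c ∈ II W ι N s :=
  mem_II.2 fun q => by
    have := mem_II.1 h q
    rw [Pi.smul_apply, pk_smul_out hi] at this
    exact smul_eq_zero_pol (pow_ne_zero _ (xx_ne_zero i)) this

theorem II_div {ι : Type} {N : ℕ} {s : Finset (Fin 4)} {i : Fin 4} {c : ι → AA W}
    (h : c ∈ II W ι N (insert i s)) :
    c - xx i ^ N • pw ι (rT (dv (Finsupp.single (Sum.inl i) N))) c ∈ II W ι N s :=
  mem_II.2 fun q => by
    have h1 := mem_II.1 h q
    rw [pk_insert, ← rT_rT] at h1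
    rw [← h1, Pi.sub_apply, Pi.smul_apply, pw_apply]
    congr 1
    rw [sub_eq_iff_eq_add']
    exact split N i (c q)

theorem II_pres {ι κ : Type} {N : ℕ} (Θ : (ι → AA W) →ₗ[ℚ] (κ → AA W))
    (hΘ : ∀ i c, Θ (xx i ^ N • c) = xx i ^ N • Θ c) (s : Finset (Fin 4)) :
    ∀ c ∈ II W ι N s, Θ c ∈ II W κ N s := by
  induction s using Finset.induction_on with
  | empty => intro c hc; rw [II_empty hc, map_zero]; exact zero_mem _
  | insert i s _ ih =>
    intro c hc
    have h1 := II_mono i (ih _ (II_div hc))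
    rw [map_sub, hΘ] at h1
    have h2 := add_mem h1 (II_in (Finset.mem_insert_self i s)
      (Θ (pw ι (rT (dv (Finsupp.single (Sum.inl i) N))) c)))
    rwa [sub_add_cancel] at h2

/-- vanishing of cohomology modulo the ideal -/
def Van {ι : Type} (N : ℕ) (T : ℤ → ℤ → Submodule ℚ (ι → AA W)) (D : Module.End ℚ (ι → AA W))
    (s : Finset (Fin 4)) (k e : ℤ) : Prop :=
  ∀ c ∈ T k e, D c ∈ II W ι N s → ∃ w ∈ T (k - 1) e, c - D w ∈ II W ι N s

theorem van_step {ι : Type} {N : ℕ} {T : ℤ → ℤ → Submodule ℚ (ι → AA W)}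
    {D H : Module.End ℚ (ι → AA W)} {s : Finset (Fin 4)} {i : Fin 4} (hi : i ∉ s)
    (hDD : ∀ c, D (D c) = 0) (hDT : ∀ k e, ∀ c ∈ T k e, D c ∈ T (k + 1) e)
    (hDx : ∀ j c, D (xx j ^ N • c) = xx j ^ N • D c)
    (hHx : ∀ j c, H (xx j ^ N • c) = xx j ^ N • H c)
    (hHT : ∀ k e, ∀ c ∈ T k e, H c ∈ T (k - 1) (e + N))
    (hDH : ∀ k e, ∀ c ∈ T k e, D (H c) + H (D c) = xx i ^ N • c)
    (hdv : ∀ k e, ∀ c ∈ T k (e + N), pw ι (rT (dv (Finsupp.single (Sum.inl i) N))) c ∈ T k e)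
    {k e : ℤ} (h : Van N T D (insert i s) (k - 1) (e + N)) : Van N T D s k e := by
  intro c hc hDc
  have h1 : H (D c) ∈ II W ι N s := II_pres H hHx s _ hDc
  have h2 : D (H c) = xx i ^ N • c - H (D c) := eq_sub_of_add_eq (hDH k e c hc)
  obtain ⟨y, hy, h3⟩ := h (H c) (hHT k e c hc) (by
    rw [h2]; exact sub_mem (II_in (Finset.mem_insert_self i s) c) (II_mono i h1))
  have h4 : H c - D y ∈ T (k - 1) (e + N) := by
    refine sub_mem (hHT k e c hc) ?_
    have := hDT _ _ y hy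
    rwa [sub_add_cancel] at this
  refine ⟨_, hdv _ _ _ h4, II_reg hi ?_⟩
  have h5 := II_pres D hDx s _ (II_div h3)
  rw [map_sub, map_sub, hDD, sub_zero, hDx, h2] at h5
  have h6 := add_mem h5 h1
  convert h6 using 1
  rw [smul_sub]
  abel

/-- the socle monomial -/
noncomputable def soc (M : ℕ) : Var →₀ ℕ := ∑ i : Fin 4, Finsupp.single (Sum.inl i) M

theorem soc_inl (M : ℕ) (i : Fin 4) : soc M (Sum.inl i) = M := by
  simp [soc, Finsupp.finsetSum_apply, Finsupp.single_apply]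

theorem soc_inr (M : ℕ) (v : Fin 6 ⊕ Fin 4) : soc M (Sum.inr v) = 0 := by
  simp [soc, Finsupp.finsetSum_apply]

theorem weight_soc (M : ℕ) : Finsupp.weight wt (soc M) = (4 * (M : ℤ), 0, 0) := by
  rw [weight_wt]
  simp [soc_inl, soc_inr]

theorem pk_high {M : ℕ} {d : Dg} (hd : 4 * (M : ℤ) < d.1) {x : AA W} (hx : x ∈ Hom W d) :
    rT (pk (M + 1) Finset.univ) x = 0 := by
  refine Hom_induction (p := fun x => rT (pk (M + 1) Finset.univ) x = 0) (by simp)
    (fun x y hx hy => by rw [map_add, hx, hy, add_zero]) (fun m r hm => ?_) hx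
  rw [rT_tmul, pk_mon_pos, TensorProduct.zero_tmul]
  by_contra hn
  push Not at hn
  rw [weight_wt] at hm
  subst hm
  have h0 := hn 0 (Finset.mem_univ _)
  have h1 := hn 1 (Finset.mem_univ _)
  have h2 := hn 2 (Finset.mem_univ _)
  have h3 := hn 3 (Finset.mem_univ _)
  simp only [Fin.sum_univ_four] at hd
  omega

theorem pk_top {M : ℕ} {d : Dg} (hd : d.1 = 4 * (M : ℤ)) {x : AA W} (hx : x ∈ Hom W d) :
    rT (pk (M + 1) Finset.univ) (x - (monomial (soc M) 1 : Pol) • rT (dv (soc M)) x) = 0 := by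
  refine Hom_induction (p := fun x => rT (pk (M + 1) Finset.univ)
    (x - (monomial (soc M) 1 : Pol) • rT (dv (soc M)) x) = 0) (by simp)
    (fun x y hx hy => by
      rw [map_add, smul_add, add_sub_add_comm, map_add, hx, hy, add_zero]) (fun m r hm => ?_) hx
  rw [rT_tmul, dv, onM_mon]
  split_ifs with h
  · rw [smul_tmul_pol, monomial_mul, one_mul, add_tsub_cancel_of_le h, sub_self, map_zero]
  · rw [TensorProduct.zero_tmul, smul_zero, sub_zero, rT_tmul, pk_mon_pos,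
      TensorProduct.zero_tmul]
    by_contra hn
    push Not at hn
    rw [weight_wt] at hm
    subst hm
    have h0 := hn 0 (Finset.mem_univ _)
    have h1 := hn 1 (Finset.mem_univ _)
    have h2 := hn 2 (Finset.mem_univ _)
    have h3 := hn 3 (Finset.mem_univ _)
    simp only [Fin.sum_univ_four] at hd
    refine h fun v => ?_
    rcases v with i | v
    · rw [soc_inl]
      fin_cases i <;> simp only [Fin.zero_eta, Fin.mk_one, Fin.reduceFinMk] <;> omega
    · rw [soc_inr]; exact Nat.zero_le _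

end Pool.Agent.Lib.ROB.H2
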