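import Pool.Agent.Lib.ROB.Basic

/-! Polynomial identities and the homotopy formula for `dF`, `HF`. -/

open MvPolynomial
open scoped TensorProduct

namespace Pool.Agent.Lib.ROB.HM

theorem PP_vP (i : Fin 4) (f : Pol) :
    ∑ k, PP k i * vP k f = aa i * ∑ α, pp α * dPd α f - ∑ α, phi (psiP i α) * dPd α f := by
  simp only [vP_apply, Finset.mul_sum]
  rw [Finset.sum_comm, ← Finset.sum_sub_distrib]
  refine Finset.sum_congr rfl fun α _ => ?_
  simp only [← mul_assoc]
  rw [← Finset.sum_mul, phi_psiP]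
  ring

section Ops

variable {W : Type} [Ring W] [Algebra ℚ W]

noncomputable instance instRingEndAA : Ring (Module.End ℚ (AA W)) := inferInstance

noncomputable instance instRingEndPi {ι : Type} : Ring (Module.End ℚ (ι → AA W)) := inferInstance

noncomputable instance instACGEndAA : AddCommGroup (Module.End ℚ (AA W)) := inferInstance

noncomputable instance instACGEndPi {ι : Type} : AddCommGroup (Module.End ℚ (ι → AA W)) :=
  inferInstance

/-- `rT` as an algebra homomorphism -/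
noncomputable def rTA (W : Type) [Ring W] [Algebra ℚ W] :
    Module.End ℚ Pol →ₐ[ℚ] Module.End ℚ (AA W) := Module.End.rTensorAlgHom ℚ Pol W

theorem rTA_apply (F : Module.End ℚ Pol) : rTA W F = rT F := rfl

theorem AA_ext {Θ Θ' : Module.End ℚ (AA W)}
    (h : ∀ (f : Pol) (w : W), Θ (f ⊗ₜ[ℚ] w) = Θ' (f ⊗ₜ[ℚ] w)) : Θ = Θ' :=
  TensorProduct.ext' h

theorem mm_tmul (g f : Pol) (w : W) : mm g (f ⊗ₜ[ℚ] w) = (g * f) ⊗ₜ[ℚ] w := rfl
theorem dP_tmul (α : Fin 6) (f : Pol) (w : W) : dP α (f ⊗ₜ[ℚ] w) = dPd α f ⊗ₜ[ℚ] w := rfl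
theorem dK_tmul (m : Fin 4) (f : Pol) (w : W) : dK m (f ⊗ₜ[ℚ] w) = dKd m f ⊗ₜ[ℚ] w := rfl
theorem vv_tmul (m : Fin 4) (f : Pol) (w : W) : vv m (f ⊗ₜ[ℚ] w) = vP m f ⊗ₜ[ℚ] w := rfl
theorem ph_tmul (f : Pol) (w : W) : ph (f ⊗ₜ[ℚ] w) = phi f ⊗ₜ[ℚ] w := rfl
theorem ps_tmul (i : Fin 4) (f : Pol) (w : W) : ps i (f ⊗ₜ[ℚ] w) = psi i f ⊗ₜ[ℚ] w := rfl

/-- `mm` as an algebra homomorphism -/
noncomputable def mmA (W : Type) [Ring W] [Algebra ℚ W] : Pol →ₐ[ℚ] Module.End ℚ (AA W) :=
  (rTA W).comp (Algebra.lmul ℚ Pol)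

theorem mmA_apply (f : Pol) : mmA W f = mm f := rfl

theorem mm_add (f g : Pol) : (mm (f + g) : Module.End ℚ (AA W)) = mm f + mm g := map_add (mmA W) f g
theorem mm_sub (f g : Pol) : (mm (f - g) : Module.End ℚ (AA W)) = mm f - mm g := map_sub (mmA W) f g
theorem mm_zero : (mm 0 : Module.End ℚ (AA W)) = 0 := map_zero (mmA W)
theorem mm_one : (mm 1 : Module.End ℚ (AA W)) = 1 := map_one (mmA W)
theorem mm_pow (f : Pol) (n : ℕ) : (mm (f ^ n) : Module.End ℚ (AA W)) = mm f ^ n :=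
  map_pow (mmA W) f n

theorem vv_mm (m : Fin 4) (g : Pol) :
    (vv m * mm g : Module.End ℚ (AA W)) = mm g * vv m + mm (vP m g) := by
  refine AA_ext fun f w => ?_
  simp only [Module.End.mul_apply, LinearMap.add_apply, mm_tmul, vv_tmul, Derivation.leibniz,
    smul_eq_mul, TensorProduct.add_tmul, mul_comm f]

theorem vv_comm' (i j : Fin 4) : (vv i * vv j : Module.End ℚ (AA W)) = vv j * vv i := by
  refine AA_ext fun f w => ?_
  simp only [Module.End.mul_apply, vv_tmul, vP_comm i j]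

theorem sum_a_vv : ∑ j, (mm (aa j) * vv j : Module.End ℚ (AA W)) = 0 := by
  refine AA_ext fun f w => ?_
  simp only [LinearMap.sum_apply, Module.End.mul_apply, vv_tmul, mm_tmul]
  rw [← TensorProduct.sum_tmul, sum_aa_vP]; simp

theorem vv_ph' (j : Fin 4) : (vv j * ph : Module.End ℚ (AA W)) = 0 := by
  refine AA_ext fun f w => ?_
  simp only [Module.End.mul_apply, vv_tmul, ph_tmul, vP_phi]; simp

theorem ph_mm (g : Pol) : (ph * mm g : Module.End ℚ (AA W)) = mm (phi g) * ph := by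
  refine AA_ext fun f w => ?_
  simp only [Module.End.mul_apply, mm_tmul, ph_tmul, map_mul]

theorem ps_mm (i : Fin 4) (g : Pol) :
    (ps i * mm g : Module.End ℚ (AA W)) = mm (psi i g) * ps i := by
  refine AA_ext fun f w => ?_
  simp only [Module.End.mul_apply, mm_tmul, ps_tmul, map_mul]

theorem ph_ell : (ph * mm ell : Module.End ℚ (AA W)) = 0 := by
  rw [ph_mm, phi_ell, mm_zero, zero_mul]

theorem PP_vv (i : Fin 4) :
    ∑ k, (mm (PP k i) * vv k : Module.End ℚ (AA W)) = mm (aa i) * EP - QQ i := by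
  refine AA_ext fun f w => ?_
  simp only [EP, QQ, LinearMap.sum_apply, LinearMap.sub_apply, Module.End.mul_apply, vv_tmul,
    mm_tmul, dP_tmul]
  simp only [← TensorProduct.sum_tmul, mm_tmul]
  rw [← TensorProduct.sub_tmul, PP_vP]

theorem anti {R : Type} [Ring R] (x y c d : R) (h1 : c * y = y * c) (h2 : d * x = x * d) :
    x * c * (y * d) + y * d * (x * c) = x * y * (c * d - d * c) + (x * y + y * x) * (d * c) := by
  have e1 : x * c * (y * d) = x * y * (c * d) := by
    rw [mul_assoc, ← mul_assoc c, h1, mul_assoc, mul_assoc]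
  have e2 : y * d * (x * c) = y * x * (d * c) := by
    rw [mul_assoc, ← mul_assoc d, h2, mul_assoc, mul_assoc]
  rw [e1, e2]; noncomm_ring

theorem anti_sum {R ι κ : Type} [Ring R] [Fintype ι] [Fintype κ] (X : ι → R) (Y : κ → R) :
    (∑ m, X m) * (∑ k, Y k) + (∑ k, Y k) * (∑ m, X m) = ∑ m, ∑ k, (X m * Y k + Y k * X m) := by
  rw [Finset.sum_mul_sum, Finset.sum_mul_sum, Finset.sum_comm (f := fun k m => Y k * X m),
    ← Finset.sum_add_distrib]
  exact Finset.sum_congr rfl fun m _ => Finset.sum_add_distrib.symm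

/-- exterior part of the differential -/
noncomputable def dA (W : Type) [Ring W] [Algebra ℚ W] : Module.End ℚ (FI → AA W) :=
  ∑ m, xi m * pw FI (vv m)

/-- contraction with `a` -/
noncomputable def iA (W : Type) [Ring W] [Algebra ℚ W] : Module.End ℚ (FI → AA W) :=
  ∑ m, io m * pw FI (mm (aa m))

/-- contraction with `P · i` -/
noncomputable def iP (W : Type) [Ring W] [Algebra ℚ W] (i : Fin 4) : Module.End ℚ (FI → AA W) :=
  ∑ k, io k * pw FI (mm (PP k i))

theorem dF_eq : (dF : Module.End ℚ (FI → AA W)) = dA W + ze * iA W := by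
  simp only [dF, dA, iA, pw_io]

theorem HF_eq (i : Fin 4) : (HF i : Module.End ℚ (FI → AA W)) = iP W i + xi i * dz := by
  simp only [HF, iP, pw_io]

theorem half {M : Type} [AddCommGroup M] [Module ℚ M] {x : M} (h : x + x = 0) : x = 0 := by
  have : (2 : ℚ) • x = 0 := by rw [two_smul, h]
  simpa using this

theorem dA_dA : dA W * dA W = 0 := by
  apply half
  rw [dA, anti_sum]
  refine Finset.sum_eq_zero fun m _ => Finset.sum_eq_zero fun k _ => ?_
  rw [anti _ _ _ _ (pw_xi _ _) (pw_xi _ _), xi_xi, ← pw_mul, ← pw_mul, vv_comm']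
  simp

theorem io_sum_anti (f g : Fin 4 → Pol) :
    ((∑ m, io m * pw FI (mm (f m))) * (∑ m, io m * pw FI (mm (g m))) +
      (∑ m, io m * pw FI (mm (g m))) * (∑ m, io m * pw FI (mm (f m))) :
        Module.End ℚ (FI → AA W)) = 0 := by
  rw [anti_sum]
  refine Finset.sum_eq_zero fun m _ => Finset.sum_eq_zero fun k _ => ?_
  rw [anti _ _ _ _ (pw_io _ _) (pw_io _ _), io_io, ← pw_mul, ← pw_mul, mm_comm]
  simp

theorem iA_iA : iA W * iA W = 0 := half (io_sum_anti _ _)

theorem iA_iP (i : Fin 4) : iA W * iP W i + iP W i * iA W = 0 := io_sum_anti _ _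

theorem dA_io (g : Fin 4 → Pol) :
    dA W * (∑ k, io k * pw FI (mm (g k))) + (∑ k, io k * pw FI (mm (g k))) * dA W =
      ∑ m, ∑ k, xi m * io k * pw FI (mm (vP m (g k))) + pw FI (∑ k, mm (g k) * vv k) := by
  rw [dA, anti_sum, pw_sum, ← Finset.sum_add_distrib]
  refine Finset.sum_congr rfl fun m _ => ?_
  rw [Finset.sum_congr rfl fun k _ => anti _ _ _ _ (pw_io _ _) (pw_xi _ _), Finset.sum_add_distrib]
  congr 1
  · refine Finset.sum_congr rfl fun k _ => ?_
    rw [← pw_mul, ← pw_mul, ← pw_sub, vv_mm, add_sub_cancel_left]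
  · simp [xi_io, pw_mul]

theorem dA_iA : dA W * iA W + iA W * dA W = 0 := by
  rw [iA, dA_io, sum_a_vv]
  simp [vP_aa, mm_zero, pw_zero]

theorem dA_iP (i : Fin 4) : dA W * iP W i + iP W i * dA W =
    pw FI (mm (aa i)) * (∑ m, xi m * io m) - xi i * iA W + pw FI (mm (aa i) * EP - QQ i) := by
  rw [iP, dA_io, PP_vv]
  congr 1
  have h : ∀ m k : Fin 4, (xi m * io k * pw FI (mm (vP m (PP k i))) : Module.End ℚ (FI → AA W)) =
      (if m = k then pw FI (mm (aa i)) * (xi m * io m) else 0) -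
        if m = i then xi i * (io k * pw FI (mm (aa k))) else 0 := by
    intro m k
    rw [vP_PP, mm_sub, pw_sub, mul_sub]
    congr 1
    · split_ifs with h
      · subst h; rw [← mul_assoc, pw_xi, mul_assoc, mul_assoc, pw_io]
      · simp [mm_zero, pw_zero]
    · split_ifs with h
      · subst h; rw [mul_assoc]
      · simp [mm_zero, pw_zero]
  simp only [h, Finset.sum_sub_distrib, Finset.sum_ite_eq, Finset.mem_univ, if_true]
  rw [Finset.sum_comm]
  simp only [Finset.sum_ite_eq', Finset.mem_univ, if_true, iA, Finset.mul_sum]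

theorem xi_dA (i : Fin 4) : xi i * dA W + dA W * xi i = 0 := by
  rw [dA, Finset.mul_sum, Finset.sum_mul, ← Finset.sum_add_distrib]
  refine Finset.sum_eq_zero fun m _ => ?_
  rw [mul_assoc, pw_xi, ← mul_assoc, ← mul_assoc, ← add_mul, xi_xi, zero_mul]

theorem xi_iA (i : Fin 4) : xi i * iA W + iA W * xi i = pw FI (mm (aa i)) := by
  rw [iA, Finset.mul_sum, Finset.sum_mul, ← Finset.sum_add_distrib]
  have : ∀ m, (xi i * (io m * pw FI (mm (aa m))) + io m * pw FI (mm (aa m)) * xi i :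
      Module.End ℚ (FI → AA W)) = if i = m then pw FI (mm (aa m)) else 0 := by
    intro m
    rw [mul_assoc, pw_xi, ← mul_assoc, ← mul_assoc, ← add_mul, xi_io]
    simp
  simp [this]

theorem comm_sum {R ι : Type} [Ring R] [Fintype ι] (z : R) (X Y : ι → R)
    (h1 : ∀ m, X m * z = z * X m) (h2 : ∀ m, Y m * z = z * Y m) :
    (∑ m, X m * Y m) * z = z * ∑ m, X m * Y m := by
  rw [Finset.sum_mul, Finset.mul_sum]
  refine Finset.sum_congr rfl fun m _ => ?_
  rw [mul_assoc, h2, ← mul_assoc, h1, mul_assoc]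

theorem dA_ze : dA W * ze = ze * dA W := comm_sum _ _ _ xi_ze fun _ => pw_ze _
theorem dA_dz : dA W * dz = dz * dA W := comm_sum _ _ _ xi_dz fun _ => pw_dz _
theorem iA_ze : iA W * ze = ze * iA W := comm_sum _ _ _ io_ze fun _ => pw_ze _
theorem iA_dz : iA W * dz = dz * iA W := comm_sum _ _ _ io_dz fun _ => pw_dz _
theorem iP_ze (i : Fin 4) : iP W i * ze = ze * iP W i := comm_sum _ _ _ io_ze fun _ => pw_ze _

theorem dF_dF : (dF * dF : Module.End ℚ (FI → AA W)) = 0 := by
  rw [dF_eq]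
  have h1 : dA W * (ze * iA W) = ze * (dA W * iA W) := by rw [← mul_assoc, dA_ze, mul_assoc]
  have h2 : ze * iA W * (ze * iA W) = ze * ze * (iA W * iA W) := by
    rw [mul_assoc, ← mul_assoc (iA W), iA_ze, mul_assoc, mul_assoc]
  rw [add_mul, mul_add, mul_add, h1, h2, dA_dA, iA_iA, mul_assoc, zero_add, mul_zero, add_zero,
    ← mul_add, dA_iA, mul_zero]

/-- the basic homotopy formula -/
theorem dF_HF (i : Fin 4) : (dF * HF i + HF i * dF : Module.End ℚ (FI → AA W)) =
    pw FI (mm (aa i)) * (nu + pw FI EP) - pw FI (QQ i) := by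
  rw [dF_eq, HF_eq, nu_eq]
  have h1 := dA_iP (W := W) i
  have h2 : dA W * (xi i * dz) + xi i * dz * dA W = 0 := by
    rw [mul_assoc, ← dA_dz, ← mul_assoc, ← mul_assoc, ← add_mul, add_comm, xi_dA, zero_mul]
  have h3 : ze * iA W * iP W i + iP W i * (ze * iA W) = 0 := by
    rw [← mul_assoc, iP_ze, mul_assoc, mul_assoc, ← mul_add, iA_iP, mul_zero]
  have h4 : ze * iA W * (xi i * dz) + xi i * dz * (ze * iA W) =
      pw FI (mm (aa i)) * (ze * dz) + xi i * iA W := by
    have e1 : xi i * dz * (ze * iA W) = ze * (xi i * iA W) * dz + xi i * iA W := by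
      rw [mul_assoc, ← mul_assoc dz, dz_ze, add_mul, one_mul, mul_add, mul_assoc ze, ← iA_dz,
        ← mul_assoc, xi_ze]
      simp only [mul_assoc]
    rw [e1, ← xi_iA, ← mul_assoc (xi i * iA W + iA W * xi i), xi_iA, pw_ze, ← xi_iA]
    noncomm_ring
  rw [pw_sub, pw_mul] at h1
  have h5 : (dA W + ze * iA W) * (iP W i + xi i * dz) + (iP W i + xi i * dz) * (dA W + ze * iA W) =
      (dA W * iP W i + iP W i * dA W) + (dA W * (xi i * dz) + xi i * dz * dA W) +
      (ze * iA W * iP W i + iP W i * (ze * iA W)) +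
      (ze * iA W * (xi i * dz) + xi i * dz * (ze * iA W)) := by noncomm_ring
  rw [h5, h1, h2, h3, h4]
  noncomm_ring

end Ops

end Pool.Agent.Lib.ROB.HM
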