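import Pool.Agent.Lib.ROB.Obj

/-!
Polynomial identities for the obstruction complex.
-/

open MvPolynomial

namespace Pool.Agent.Lib.ROB

theorem dPd_xx (α : Fin 6) (l : Fin 4) : dPd α (xx l) = 0 := by simp [dPd, xx]
theorem dPd_kk (α : Fin 6) (l : Fin 4) : dPd α (kk l) = 0 := by simp [dPd, kk]
theorem dPd_pp (α β : Fin 6) : dPd α (pp β) = if α = β then 1 else 0 := by
  by_cases h : α = β
  · simp [dPd, pp, h]
  · simp [dPd, pp, h, Ne.symm h]
theorem dKd_xx (m l : Fin 4) : dKd m (xx l) = 0 := by simp [dKd, xx]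
theorem dKd_pp (m : Fin 4) (α : Fin 6) : dKd m (pp α) = 0 := by simp [dKd, pp]
theorem dKd_kk (m l : Fin 4) : dKd m (kk l) = if m = l then 1 else 0 := by
  by_cases h : m = l
  · simp [dKd, kk, h]
  · simp [dKd, kk, h, Ne.symm h]
theorem dPd_aa (α : Fin 6) (l : Fin 4) : dPd α (aa l) = 0 := by simp [aa, dPd_xx]
theorem dKd_aa (m l : Fin 4) : dKd m (aa l) = 0 := by simp [aa, dKd_xx]
theorem dPd_uu (α : Fin 6) : dPd α uu = 0 := by simp [uu, dPd_xx]
theorem der_intCast (D : Derivation ℚ Pol Pol) (c : ℤ) : D (c : Pol) = 0 := D.map_intCast c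
theorem dPd_vc (α : Fin 6) (j : Fin 4) (β : Fin 6) : dPd α (vc j β) = 0 := by
  simp [vc, dPd_aa]

theorem vP_apply (j : Fin 4) (f : Pol) : vP j f = ∑ α, vc j α * dPd α f := by
  have : ∀ s : Finset (Fin 6), (∑ α ∈ s, vc j α • dPd α) f = ∑ α ∈ s, vc j α * dPd α f := by
    intro s
    induction s using Finset.induction_on with
    | empty => simp
    | insert a s ha ih => simp [Finset.sum_insert ha, ih]
  exact this _

theorem vP_xx (j l : Fin 4) : vP j (xx l) = 0 := by simp [vP_apply, dPd_xx]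
theorem vP_kk (j l : Fin 4) : vP j (kk l) = 0 := by simp [vP_apply, dPd_kk]
theorem vP_aa (j l : Fin 4) : vP j (aa l) = 0 := by simp [vP_apply, dPd_aa]
theorem vP_uu (j : Fin 4) : vP j uu = 0 := by simp [vP_apply, dPd_uu]
theorem vP_pp (j : Fin 4) (α : Fin 6) : vP j (pp α) = vc j α := by simp [vP_apply, dPd_pp]
theorem vP_vc (i j : Fin 4) (α : Fin 6) : vP i (vc j α) = 0 := by simp [vP_apply, dPd_vc]

theorem phi_xx (l : Fin 4) : phi (xx l) = xx l := by simp [phi, xx]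
theorem phi_pp (α : Fin 6) : phi (pp α) = 0 := by simp [phi, pp]
theorem phi_kk (m : Fin 4) : phi (kk m) = kap m := by simp [phi, kk]
theorem phi_aa (l : Fin 4) : phi (aa l) = aa l := by simp [aa, phi_xx]
theorem psi_xx (i l : Fin 4) : psi i (xx l) = xx l := by simp [psi, xx]
theorem psi_pp (i : Fin 4) (α : Fin 6) : psi i (pp α) = psiP i α := by simp [psi, pp]
theorem psi_kk (i m : Fin 4) : psi i (kk m) = 0 := by simp [psi, kk]
theorem psi_aa (i l : Fin 4) : psi i (aa l) = aa l := by simp [aa, psi_xx]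

theorem pc_tab : pc = ![![![0, 0, 0, 0, 0, 0], ![1, 0, 0, 0, 0, 0], ![0, 1, 0, 0, 0, 0],
    ![0, 0, 1, 0, 0, 0]], ![![-1, 0, 0, 0, 0, 0], ![0, 0, 0, 0, 0, 0], ![0, 0, 0, 1, 0, 0],
    ![0, 0, 0, 0, 1, 0]], ![![0, -1, 0, 0, 0, 0], ![0, 0, 0, -1, 0, 0], ![0, 0, 0, 0, 0, 0],
    ![0, 0, 0, 0, 0, 1]], ![![0, 0, -1, 0, 0, 0], ![0, 0, 0, 0, -1, 0], ![0, 0, 0, 0, 0, -1],
    ![0, 0, 0, 0, 0, 0]]] := by decide

theorem lc_tab : (fun i j α => lc i j (p1 α) (p2 α)) =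
    ![![![0, 0, 0, 0, 0, 0], ![0, 0, 0, 0, 0, 1], ![0, 0, 0, 0, -1, 0], ![0, 0, 0, 1, 0, 0]],
      ![![0, 0, 0, 0, 0, -1], ![0, 0, 0, 0, 0, 0], ![0, 0, 1, 0, 0, 0], ![0, -1, 0, 0, 0, 0]],
      ![![0, 0, 0, 0, 1, 0], ![0, 0, -1, 0, 0, 0], ![0, 0, 0, 0, 0, 0], ![1, 0, 0, 0, 0, 0]],
      ![![0, 0, 0, -1, 0, 0], ![0, 1, 0, 0, 0, 0], ![-1, 0, 0, 0, 0, 0], ![0, 0, 0, 0, 0, 0]]] := by
  decide

theorem PP_tab : PP = ![![0, pp 0, pp 1, pp 2], ![-pp 0, 0, pp 3, pp 4],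
    ![-pp 1, -pp 3, 0, pp 5], ![-pp 2, -pp 4, -pp 5, 0]] := by
  funext i j
  fin_cases i <;> fin_cases j <;> simp [PP, pc_tab, Fin.sum_univ_succ]

theorem vc_tab : vc = ![![aa 1, aa 2, aa 3, 0, 0, 0], ![-aa 0, 0, 0, aa 2, aa 3, 0],
    ![0, -aa 0, 0, -aa 1, 0, aa 3], ![0, 0, -aa 0, 0, -aa 1, -aa 2]] := by
  funext i j
  fin_cases i <;> fin_cases j <;> simp [vc, pc_tab, Fin.sum_univ_succ]

theorem lc_eq (i j : Fin 4) (α : Fin 6) : lc i j (p1 α) (p2 α) =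
    ![![![0, 0, 0, 0, 0, 0], ![0, 0, 0, 0, 0, 1], ![0, 0, 0, 0, -1, 0], ![0, 0, 0, 1, 0, 0]],
      ![![0, 0, 0, 0, 0, -1], ![0, 0, 0, 0, 0, 0], ![0, 0, 1, 0, 0, 0], ![0, -1, 0, 0, 0, 0]],
      ![![0, 0, 0, 0, 1, 0], ![0, 0, -1, 0, 0, 0], ![0, 0, 0, 0, 0, 0], ![1, 0, 0, 0, 0, 0]],
      ![![0, 0, 0, -1, 0, 0], ![0, 1, 0, 0, 0, 0], ![-1, 0, 0, 0, 0, 0], ![0, 0, 0, 0, 0, 0]]]
      i j α := by
  rw [← lc_tab]

theorem kap_tab : kap = ![aa 1 * pp 5 - aa 2 * pp 4 + aa 3 * pp 3,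
    -(aa 0 * pp 5) + aa 2 * pp 2 - aa 3 * pp 1, aa 0 * pp 4 - aa 1 * pp 2 + aa 3 * pp 0,
    -(aa 0 * pp 3) + aa 1 * pp 1 - aa 2 * pp 0] := by
  funext i
  simp only [kap, lc_eq]
  fin_cases i <;> simp [Fin.sum_univ_succ] <;> ring

theorem psiP_tab : psiP = ![![0, 0, 0, -kk 3, kk 2, -kk 1], ![0, kk 3, -kk 2, 0, 0, kk 0],
    ![-kk 3, 0, kk 1, 0, -kk 0, 0], ![kk 2, -kk 1, 0, kk 0, 0, 0]] := by
  funext i α
  simp only [psiP, lc_eq]
  fin_cases i <;> fin_cases α <;> simp [Fin.sum_univ_succ]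

theorem sum_aa_vc (α : Fin 6) : ∑ j, aa j * vc j α = 0 := by
  fin_cases α <;> simp [vc_tab, Fin.sum_univ_succ] <;> ring

theorem vP_PP (j k i : Fin 4) :
    vP j (PP k i) = (if j = k then aa i else 0) - (if j = i then aa k else 0) := by
  fin_cases j <;> fin_cases k <;> fin_cases i <;> simp [PP_tab, vP_pp, vc_tab]

theorem vP_kap (j m : Fin 4) : vP j (kap m) = 0 := by
  fin_cases j <;> fin_cases m <;> simp [kap_tab, vP_pp, vP_aa, vc_tab] <;> ring

theorem phi_ell : phi ell = 0 := by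
  simp [ell, phi_aa, phi_kk, kap_tab, Fin.sum_univ_succ]; ring

theorem phi_psiP (i : Fin 4) (α : Fin 6) :
    phi (psiP i α) = aa i * pp α - ∑ k, PP k i * vc k α := by
  fin_cases i <;> fin_cases α <;>
    simp [psiP_tab, phi_kk, kap_tab, PP_tab, vc_tab, Fin.sum_univ_succ] <;> ring

theorem psi_kap (i m : Fin 4) : psi i (kap m) = aa i * kk m - if m = i then ell else 0 := by
  fin_cases i <;> fin_cases m <;>
    simp [kap_tab, psi_aa, psi_pp, psiP_tab, ell, Fin.sum_univ_succ] <;> ring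

/-- the derivation `∑ α, φ (ψ i (P α)) ∂ α` multiplies its coefficients by `a i`. -/
theorem QQ_coeff (i : Fin 4) (β : Fin 6) :
    ∑ α, phi (psiP i α) * dPd α (phi (psiP i β)) = aa i * phi (psiP i β) := by
  fin_cases i <;> fin_cases β <;>
    simp [psiP_tab, phi_kk, kap_tab, dPd_pp, dPd_aa, Fin.sum_univ_succ] <;> ring

/-- the derivation `∑ m, ψ i (κ m) ∂ m` multiplies its coefficients by `a i`. -/
theorem QK_coeff (i l : Fin 4) :
    ∑ m, psi i (kap m) * dKd m (psi i (kap l)) = aa i * psi i (kap l) := by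
  fin_cases i <;> fin_cases l <;>
    simp [psi_kap, ell, dKd_kk, dKd_aa, Fin.sum_univ_succ] <;> ring

theorem vP_phi (j : Fin 4) (f : Pol) : vP j (phi f) = 0 := by
  induction f using MvPolynomial.induction_on with
  | C c => rw [← algebraMap_eq, AlgHom.commutes, Derivation.map_algebraMap]
  | add p q hp hq => rw [map_add, map_add, hp, hq, add_zero]
  | mul_X p v hp =>
    rw [map_mul, Derivation.leibniz, hp, smul_zero, add_zero]
    rcases v with l | α | m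
    · rw [show (X (Sum.inl l) : Pol) = xx l from rfl, phi_xx, vP_xx, smul_zero]
    · rw [show (X (Sum.inr (Sum.inl α)) : Pol) = pp α from rfl, phi_pp, map_zero, smul_zero]
    · rw [show (X (Sum.inr (Sum.inr m)) : Pol) = kk m from rfl, phi_kk, vP_kap, smul_zero]

theorem pderiv_comm' (v w : Var) (f : Pol) : pderiv v (pderiv w f) = pderiv w (pderiv v f) := by
  classical
  induction f using MvPolynomial.induction_on with
  | C c => simp
  | add p q hp hq => simp [hp, hq]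
  | mul_X p s hp =>
    simp only [Derivation.leibniz, pderiv_X, smul_eq_mul, map_add, hp, Pi.single_apply]
    split_ifs <;> simp <;> ring

theorem vP_comm (i j : Fin 4) (f : Pol) : vP i (vP j f) = vP j (vP i f) := by
  simp only [vP_apply j, vP_apply i, map_sum, Derivation.leibniz, dPd_vc, smul_eq_mul, mul_zero,
    add_zero, Finset.mul_sum]
  rw [Finset.sum_comm]
  refine Finset.sum_congr rfl fun α _ => Finset.sum_congr rfl fun β _ => ?_
  rw [show dPd β (dPd α f) = dPd α (dPd β f) from pderiv_comm' _ _ f]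
  ring

theorem sum_aa_vP (f : Pol) : ∑ j, aa j * vP j f = 0 := by
  simp only [vP_apply, Finset.mul_sum]
  rw [Finset.sum_comm]
  refine Finset.sum_eq_zero fun α _ => ?_
  simp only [← mul_assoc, ← Finset.sum_mul, sum_aa_vc, zero_mul]

/-! ### Homogeneity -/

theorem weight_wt (m : Var →₀ ℕ) : Finsupp.weight wt m =
    (((∑ l, m (Sum.inl l) : ℕ) : ℤ), ((∑ α, m (Sum.inr (Sum.inl α)) : ℕ) : ℤ),
      ((∑ k, m (Sum.inr (Sum.inr k)) : ℕ) : ℤ)) := by
  rw [Finsupp.weight_apply, Finsupp.sum_fintype _ _ (by simp)]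
  simp [Fintype.sum_sum_type, wt, Prod.ext_iff, Prod.fst_sum, Prod.snd_sum]

theorem hom_xx (l : Fin 4) : (xx l).IsWeightedHomogeneous wt (1, 0, 0) :=
  isWeightedHomogeneous_X _ _ _
theorem hom_pp (α : Fin 6) : (pp α).IsWeightedHomogeneous wt (0, 1, 0) :=
  isWeightedHomogeneous_X _ _ _
theorem hom_kk (m : Fin 4) : (kk m).IsWeightedHomogeneous wt (0, 0, 1) :=
  isWeightedHomogeneous_X _ _ _
theorem hom_aa (l : Fin 4) : (aa l).IsWeightedHomogeneous wt (4, 0, 0) := by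
  simpa [aa] using (hom_xx l).pow 4
theorem hom_uu : uu.IsWeightedHomogeneous wt (12, 0, 0) := by
  simpa [uu] using ((((hom_xx 0).mul (hom_xx 1)).mul (hom_xx 2)).mul (hom_xx 3)).pow 3
theorem hom_int_mul {f : Pol} {d : Dg} (c : ℤ) (h : f.IsWeightedHomogeneous wt d) :
    ((c : Pol) * f).IsWeightedHomogeneous wt d := by
  have : (c : Pol) = C (c : ℚ) := by simp
  rw [this]
  exact h.C_mul _
theorem hom_PP (i j : Fin 4) : (PP i j).IsWeightedHomogeneous wt (0, 1, 0) :=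
  IsWeightedHomogeneous.sum _ _ _ fun α _ => hom_int_mul _ (hom_pp α)
theorem hom_vc (j : Fin 4) (α : Fin 6) : (vc j α).IsWeightedHomogeneous wt (4, 0, 0) :=
  IsWeightedHomogeneous.sum _ _ _ fun l _ => hom_int_mul _ (hom_aa l)
theorem hom_kap (m : Fin 4) : (kap m).IsWeightedHomogeneous wt (4, 1, 0) :=
  IsWeightedHomogeneous.sum _ _ _ fun j _ => IsWeightedHomogeneous.sum _ _ _ fun α _ =>
    hom_int_mul _ (by simpa using (hom_aa j).mul (hom_pp α))
theorem hom_psiP (i : Fin 4) (α : Fin 6) : (psiP i α).IsWeightedHomogeneous wt (0, 0, 1) :=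
  IsWeightedHomogeneous.sum _ _ _ fun m _ => hom_int_mul _ (hom_kk m)
theorem hom_ell : ell.IsWeightedHomogeneous wt (4, 0, 1) :=
  IsWeightedHomogeneous.sum _ _ _ fun m _ => by simpa using (hom_aa m).mul (hom_kk m)
theorem hom_phi_psiP (i : Fin 4) (α : Fin 6) :
    (phi (psiP i α)).IsWeightedHomogeneous wt (4, 1, 0) := by
  simp only [psiP, map_sum, map_mul, map_intCast, phi_kk]
  exact IsWeightedHomogeneous.sum _ _ _ fun m _ => hom_int_mul _ (hom_kap m)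
theorem hom_psi_kap (i m : Fin 4) : (psi i (kap m)).IsWeightedHomogeneous wt (4, 0, 1) := by
  rw [psi_kap]
  refine IsWeightedHomogeneous.sub (by simpa using (hom_aa i).mul (hom_kk m)) ?_
  split_ifs
  · exact hom_ell
  · exact isWeightedHomogeneous_zero _ _ _

theorem xx_ne_zero (l : Fin 4) : xx l ≠ 0 := X_ne_zero _
theorem aa_ne_zero (l : Fin 4) : aa l ≠ 0 := pow_ne_zero _ (xx_ne_zero l)
theorem ell_ne_zero : ell ≠ 0 := by
  intro h
  have := congrArg (dKd 0) h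
  simp [ell, dKd_kk, dKd_aa, Fin.sum_univ_succ, aa_ne_zero] at this

end Pool.Agent.Lib.ROB
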