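import Pool.Agent.Lib.ROB.Blue
import Pool.Agent.Lib.ROB.CA_Src

/-! The block `SRC` and the final statement, given approximate flatness. -/

namespace Pool.Agent.Lib.ROB

theorem stSRC (hF : St_FLAT) (hB : St_BIG) :
    Pool.Agent.ROB.IsRobust Pool.Agent.ROB.CA.Ver
      (Pool.Agent.ROB.Forcing Pool.Agent.ROB.CA.aa Pool.Agent.ROB.CA.uu) := by
  obtain ⟨W, B, Q, _, _, _, _, _, t, ⟨b⟩⟩ := hB
  exact Pool.Agent.ROB.CA.isRobust_of_flat b (hF W t)

theorem counterexample (hF : St_FLAT) (hB : St_BIG) :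
    ∃ (R S : Type) (_ : CommRing R) (_ : IsDomain R) (_ : IsNoetherianRing R) (_ : IsLocalRing R)
      (_ : IsAdicComplete (IsLocalRing.maximalIdeal R) R)
      (_ : CommRing S) (_ : IsDomain S) (_ : IsNoetherianRing S) (_ : IsLocalRing S)
      (_ : IsAdicComplete (IsLocalRing.maximalIdeal S) S)
      (φ : R →+* S) (_ : IsLocalHom φ) (I : Ideal R) (r : R),
      r ∈ Pool.Agent.ROB.robustClosure I ∧ φ r ∉ Pool.Agent.ROB.robustClosure (I.map φ) :=
  Pool.Agent.ROB.CA.counterexample_of_isRobust (stSRC hF hB)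

end Pool.Agent.Lib.ROB
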